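import Pool.Agent.N164.BB.StmtA

/-!
# Nilpotence in the middle dimension: the definitions
-/

set_option autoImplicit false

open CategoryTheory AlgebraicGeometry

universe u v w

namespace Pool.Agent.N567.Mid

open Pool.Agent.H914 Pool.Agent.N164.Prim
open Pool.Agent.W492.BB (TheoryData WeilTheoryData)

variable {k : Type u} [Field k] {𝒱 : VarClass k} {C : TheoryData.{u, v, 0} 𝒱 ℚ} {K : Type w}
  [Field K] (H : WeilTheoryData.{u, v, w} C K)

/-- The class `𝒱` is a Lefschetz class: for all `X` in `𝒱` and `m < dim X` the cohomology group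
`H^m(X)` is, through algebraic correspondences `a` and `b` of degree zero, a direct summand of
`H^m(Y)` for some `Y` in `𝒱` of dimension `m`.

This follows from the standard conjecture `B(X)` of Lefschetz type if `𝒱` contains a smooth linear
section `Y` of `X` of dimension `m`: `a` is the restriction to `Y`, and `b` is the composition of
the push-forward from `Y` to `X` with the inverse of the isomorphism of `H^m(X)` and
`H^(2 dim X - m)(X)` given by the cup product with the class of `Y`. -/
def IsLefschetzClass : Prop :=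
  ∀ (X : 𝒱.Obj) (m : ℕ), m < X.dim → ∃ (Y : 𝒱.Obj) (a : Cor C X Y) (b : Cor C Y X),
    Y.dim = m ∧ C.Deg X.dim a ∧ C.Deg m b ∧
      ∀ x : H.A X, H.Deg m x → H.act (cyc H (comp C a b)) x = x

/-- The variety `X'` covers the variety `X`: there are a morphism `f : X' → X`, where
`dim X' = dim X + 2 s`, and classes `u` and `v` in `CH^s(X')` such that the push-forward of `u v` is a
nonzero multiple of the fundamental class of `X` (for a surjective morphism `f` one can take the
`s`-th power of the class of a hyperplane section of `X'` for `u` and `v`). -/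
def Covers (C : TheoryData.{u, v, 0} 𝒱 ℚ) (X' X : 𝒱.Obj) : Prop :=
  ∃ (s : ℕ) (f : X' ⟶ X) (u v : C.A X') (c : ℚ), X'.dim = X.dim + 2 * s ∧ C.Deg s u ∧
    C.Deg s v ∧ c ≠ 0 ∧ C.down f (C.mul u v) = smul C c (one C X)

/-- The self-correspondences of degree zero of `X` which act as zero on `H^m(X)` for all
`m < dim X` act nilpotently on the subspace `N X j` of `CH^j(X)`. -/
def IsNilpotent (N : ∀ X : 𝒱.Obj, ℕ → Sub C X) (X : 𝒱.Obj) (j : ℕ) : Prop :=
  ∀ Γ : Cor C X X, C.Deg X.dim Γ → (∀ m : ℤ, m < X.dim → Kills H Γ m) →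
    ∃ n : ℕ, ∀ z : C.A X, Mem (N X j) z → (C.act Γ)^[n] z = zero C X

/-- Every variety `X` of dimension `2 j - 1` is covered by a variety `X'`, of dimension `2 j' - 1`,
for which the self-correspondences acting as zero on `H^m(X')`, `m < dim X'`, act nilpotently on the
kernel of the Abel-Jacobi map in `CH^(j')(X')`. -/
def NilpotentInCodim (N : ∀ X : 𝒱.Obj, ℕ → Sub C X) (j : ℕ) : Prop :=
  ∀ X : 𝒱.Obj, X.dim + 1 = 2 * j →
    ∃ (X' : 𝒱.Obj) (j' : ℕ), Covers C X' X ∧ X'.dim + 1 = 2 * j' ∧ IsNilpotent H N X' j'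

/-- For all the Chow-Kunneth decompositions `π` of the varieties `X` of dimension `2 j - 1` the
projectors `π w`, `w ≥ dim X`, act as zero on the kernel of the Abel-Jacobi map in `CH^j(X)`. -/
def InjectiveInCodim (N : ∀ X : 𝒱.Obj, ℕ → Sub C X) (j : ℕ) : Prop :=
  ∀ X : 𝒱.Obj, X.dim + 1 = 2 * j → ∀ π, IsCK H X π → ∀ w : ℕ, X.dim ≤ w →
    ∀ z : C.A X, Mem (N X j) z → C.act (π w) z = zero C X

end Pool.Agent.N567.Mid
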