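import Pool.Agent.N567.MD.Raise
import Pool.Agent.N567.MD.Stmt
import Pool.Agent.N164.BB.BridgeA

/-!
# Bloch-Beilinson filtrations and nilpotence in the middle dimension
-/

set_option autoImplicit false

open CategoryTheory AlgebraicGeometry

universe u v w

namespace Pool.Agent.N567.MD

open Pool.Agent.H914 Pool.Agent.H914.VarClass Pool.Agent.H914.VarClass.Obj Pool.Agent.W492.BB
  Pool.Agent.W550.Corr Pool.Agent.TH133 Pool.Agent.Y148.BB Pool.Agent.X308.S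
open Pool.Agent.N164.BB (graph_mem exists_zeroCycle exists_point sum_act cl_of_mem_F1 BB_anti
  BB_shift BB_stable)

set_option linter.unusedSectionVars false
set_option linter.unusedVariables false

variable {k : Type u} [Field k] {𝒱 : VarClass k}

section general

variable {C : TheoryData.{u, v, 0} 𝒱 ℚ} {K : Type w} [Field K]
  {H : WeilTheoryData.{u, v, w} C K} {X : 𝒱.Obj}
  {N : ∀ X : 𝒱.Obj, ℕ → Submodule ℚ (C.A X)}

lemma sys_aj (hN : IsAbelJacobiKernel H N) : Sys H 1 N where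
  le_one := le_rfl
  deg := hN.deg
  stable := hN.stable
  kills X Y j i Γ h1 h2 z h3 h4 := by
    refine hN.kills X Y j i Γ h1 ?_ z h3 h4
    have := h2 1 le_rfl le_rfl
    exact_mod_cast this

open Classical in
/-- The filtration given by Chow-Kunneth decompositions. -/
noncomputable def fil (H : WeilTheoryData.{u, v, w} C K) (X : 𝒱.Obj) (j ν : ℕ) :
    Submodule ℚ (C.A X) :=
  if h : ∃ π : ℕ → C.A (X.prod X), IsCK H X π then ckFil C h.choose j ν else ⊥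

lemma fil_eq (h : ∃ π : ℕ → C.A (X.prod X), IsCK H X π) :
    ∃ π : ℕ → C.A (X.prod X), IsCK H X π ∧ ∀ i n, fil H X i n = ckFil C π i n := by
  refine ⟨h.choose, h.choose_spec, fun i n => ?_⟩
  simp only [fil]
  rw [dif_pos h]

end general

variable {C : TheoryData.{u, v, 0} 𝒱 ℚ} [hC : IsChowProj C] {K : Type w} [Field K]
  {H : WeilTheoryData.{u, v, w} C K} [hH : IsWeilProj H] {S : 𝒱.Obj → Prop} {T X Y Z W X' : 𝒱.Obj}
  {N : ∀ X : 𝒱.Obj, ℕ → Submodule ℚ (C.A X)} {ε : ℕ}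

include hC hH

lemma van_of_mid (hN : Sys H ε N) (hT : T.dim = 1) {M : ℕ} (h : Mid H ε N M) :
    Van H ε N (fun X => 2 * X.dim ≤ M) where
  sys := hN
  self X hX j := h.all hN hT X (by omega) j
  prod X Y hX hY j := h.all hN hT (X.prod Y) (by rw [dim_prod]; omega) j

lemma van_univ (hN : Sys H ε N) (hT : T.dim = 1) (h : ∀ e : ℕ, ∃ M, e ≤ M ∧ Mid H ε N M) :
    Van H ε N (fun _ => True) where
  sys := hN
  self X _ j := by
    obtain ⟨M, hM, h⟩ := h X.dim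
    exact h.all hN hT X hM j
  prod X Y _ _ j := by
    obtain ⟨M, hM, h⟩ := h (X.prod Y).dim
    exact h.all hN hT _ hM j

/-- **The existence of the Bloch-Beilinson filtration.** -/
theorem VanCK.bb (hV : VanCK H 1 N S) (hL : IsLefschetzClass H)
    (hck : ∀ X, S X → ∃ π : ℕ → C.A (X.prod X), IsCK H X π) :
    IsBlochBeilinsonOn H N S (fil H) ∧
      ∀ X, S X → ∃ π : ℕ → C.A (X.prod X), IsCK H X π ∧ ∀ i n, fil H X i n = ckFil C π i n := by
  have key : ∀ X, S X → ∃ π : ℕ → C.A (X.prod X), IsCK H X π ∧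
      ∀ i n, fil H X i n = ckFil C π i n := fun X hX => fil_eq (hck X hX)
  refine ⟨⟨?_, ?_, ?_, ?_, ?_, ?_, ?_⟩, key⟩
  · intro X hX j ν x hx
    obtain ⟨π, h, e⟩ := key X hX
    rw [e] at hx ⊢
    exact fil_anti h (Nat.le_succ ν) hx
  · intro X hX j x
    obtain ⟨π, h, e⟩ := key X hX
    rw [e]
    exact hV.mem_zero hX h j x
  · intro X hX j x
    obtain ⟨π, h, e⟩ := key X hX
    rw [e]
    exact hV.mem_one hX h j x
  · intro X hX j
    obtain ⟨π, h, e⟩ := key X hX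
    rw [e]
    exact hV.two hX h j
  · intro X hX j
    obtain ⟨π, h, e⟩ := key X hX
    rw [e]
    exact hV.top hX hL h j
  · intro X Y hX hY j i ν Γ hΓ x hx
    obtain ⟨π, h, e⟩ := key X hX
    obtain ⟨ρ, h', e'⟩ := key Y hY
    rw [e] at hx
    rw [e']
    exact hV.stable hX hY h h' hΓ hx
  · intro X Y hX hY j i ν Γ hΓ hk x hx
    obtain ⟨π, h, e⟩ := key X hX
    obtain ⟨ρ, h', e'⟩ := key Y hY
    rw [e] at hx
    rw [e']
    exact hV.shift hX hY h h' hΓ hk hx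

/-- A Bloch-Beilinson filtration forces nilpotence. -/
theorem nil_of_bb {F : ∀ X : 𝒱.Obj, ℕ → ℕ → Submodule ℚ (C.A X)}
    (hF : IsBlochBeilinsonOn H N S F) (hX : S X) {j : ℕ} (hj : 1 ≤ j) {Γ : C.A (X.prod X)}
    (hΓ : C.Deg X.dim Γ) (hk : ∀ m : ℤ, m < 2 * j - 1 → Kills H Γ m) {z : C.A X}
    (hz : z ∈ N X j) : (C.act Γ)^[j - 1] z = 0 := by
  have key : ∀ n : ℕ, (C.act Γ)^[n] z ∈ F X j (n + 2) := by
    intro n
    induction n with
    | zero =>
      rw [Function.iterate_zero_apply, zero_add, hF.two X hX j]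
      exact hz
    | succ n ih =>
      rw [Function.iterate_succ_apply']
      exact BB_shift hF hX hΓ (hk _ (by push_cast; omega)) ih
  have h1 := key (j - 1)
  rw [show j - 1 + 2 = j + 1 by omega, hF.top X hX j] at h1
  exact (Submodule.mem_bot _).1 h1

end Pool.Agent.N567.MD

namespace Pool.Agent.N567.Mid

open Pool.Agent.H914 Pool.Agent.H914.VarClass Pool.Agent.H914.VarClass.Obj
open Pool.Agent.W492.BB (TheoryData WeilTheoryData)
open Pool.Agent.N164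

variable {k : Type u} [Field k] {𝒱 : VarClass k} {C : TheoryData.{u, v, 0} 𝒱 ℚ} {K : Type w}
  [Field K] {H : WeilTheoryData.{u, v, w} C K} {N : ∀ X : 𝒱.Obj, ℕ → Submodule ℚ (C.A X)}

lemma lefschetz_iff : IsLefschetzClass H ↔ MD.IsLefschetzClass H := Iff.rfl

lemma mid_of_codim (hC : Prim.IsChowTheory C) (hH : Prim.IsWeilTheory H)
    (hN : MD.Sys H 1 N) {j : ℕ} (h : NilpotentInCodim H N j) : MD.Mid H 1 N j := by
  have := Bridge.chow hC
  have := Bridge.weil hH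
  intro X hX
  obtain ⟨X', j', ⟨s, f, u, v, c, hdim, hu, hv, hc, huv⟩, hX', hnil⟩ := h X hX
  have hj' : j' = j + s := by omega
  subst hj'
  refine MD.P.of_cover hN (f := f) (s := s) (i := s) (by omega) hu hv hc huv ?_
  intro Γ hΓ hk
  exact hnil Γ hΓ fun m hm => hk m (by push_cast; omega)

theorem mainA (hC : Prim.IsChowTheory C) (hH : Prim.IsWeilTheory H) (hL : IsLefschetzClass H)
    {T : 𝒱.Obj} (hT : T.dim = 1) (hN : Prim.IsAbelJacobiKernel H N) :
    List.TFAE [∃ F, Prim.IsBlochBeilinsonOn H N (fun _ => True) F,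
      ∀ e : ℕ, ∃ j, e ≤ j ∧ NilpotentInCodim H N j,
      (∀ X : 𝒱.Obj, ∃ π, Prim.IsCK H X π) ∧ ∀ e : ℕ, ∃ j, e ≤ j ∧ InjectiveInCodim H N j] ∧
    (∀ j : ℕ, NilpotentInCodim H N j →
      ∃ F, Prim.IsBlochBeilinsonOn H N (fun X => 2 * X.dim ≤ j) F ∧
        ∀ X : 𝒱.Obj, 2 * X.dim ≤ j → ∃ π, Prim.IsCK H X π ∧
          ∀ (i ν : ℕ) (z : C.A X), Prim.Mem (F X i ν) z ↔ Prim.InStep π i ν z) ∧
    (∀ j : ℕ, (∃ F, Prim.IsBlochBeilinsonOn H N (fun X => X.dim < 2 * j) F) →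
      ∀ X : 𝒱.Obj, X.dim + 1 = 2 * j → ∀ Γ : Prim.Cor C X X, C.Deg X.dim Γ →
        (∀ m : ℤ, m < X.dim → Prim.Kills H Γ m) → ∀ z : C.A X, Prim.Mem (N X j) z →
          (C.act Γ)^[j - 1] z = Prim.zero C X) := by
  have h1 := Bridge.chow hC
  have h2 := Bridge.weil hH
  have hS := MD.sys_aj (Bridge.kernel_iff.1 hN)
  have hL' := lefschetz_iff.1 hL
  have hnec : ∀ (S : 𝒱.Obj → Prop) (F : ∀ X : 𝒱.Obj, ℕ → ℕ → Submodule ℚ (C.A X)),
      Prim.IsBlochBeilinsonOn H N S F → ∀ X : 𝒱.Obj, S X → ∀ j : ℕ, X.dim + 1 = 2 * j →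
      ∀ Γ : Prim.Cor C X X, C.Deg X.dim Γ → (∀ m : ℤ, m < X.dim → Prim.Kills H Γ m) →
      ∀ z : C.A X, Prim.Mem (N X j) z → (C.act Γ)^[j - 1] z = Prim.zero C X := by
    intro S F hF X hX j hj Γ hΓ hk z hz
    exact MD.nil_of_bb (Bridge.bb_iff.1 hF) hX (by omega) hΓ (fun m hm => hk m (by omega)) hz
  have hkun : ∀ X : 𝒱.Obj, ∀ a : ℕ, ∃ p : C.A (X.prod X), MD.IsKun H p a :=
    fun X => MD.exists_kun hL' _ X rfl
  refine ⟨?_, ?_, ?_⟩
  · tfae_have 1 → 2 := by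
      rintro ⟨F, hF⟩ e
      refine ⟨e, le_rfl, fun X hX => ⟨X, e, ?_, hX, fun Γ hΓ hk => ⟨e - 1, fun z hz => ?_⟩⟩⟩
      · refine ⟨0, 𝟙 X, 1, 1, 1, by ring, ?_, ?_, one_ne_zero, ?_⟩
        · exact_mod_cast C.one_mem X
        · exact_mod_cast C.one_mem X
        · change C.push (𝟙 X) (1 * 1) = (1 : ℚ) • (1 : C.A X)
          rw [C.push_id, mul_one, one_smul]
      · exact hnec _ F hF X trivial e hX Γ hΓ hk z hz
    tfae_have 2 → 3 := by
      intro h
      have hV := MD.van_univ hS hT fun e => by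
        obtain ⟨j, hj, hj'⟩ := h e
        exact ⟨j, hj, mid_of_codim hC hH hS hj'⟩
      refine ⟨fun X => ?_, fun e => ⟨e, le_rfl, fun X hX π hπ w hw z hz => ?_⟩⟩
      · obtain ⟨π, hπ⟩ := hV.exists_ck (X := X) trivial (hkun X)
        exact ⟨π, Bridge.isCK_iff.2 hπ⟩
      · exact hV.ck.self X trivial π (Bridge.isCK_iff.1 hπ) e w (by push_cast; omega) z hz
    tfae_have 3 → 1 := by
      rintro ⟨hck, h⟩
      have hV := MD.vanCK_univ hS hT fun e => by
        obtain ⟨j, hj, hj'⟩ := h e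
        refine ⟨j, hj, fun X hX π hπ w hw z hz => ?_⟩
        exact hj' X hX π (Bridge.isCK_iff.2 hπ) w (by push_cast at hw; omega) z hz
      exact ⟨_, Bridge.bb_iff.2 (hV.bb hL' fun X _ => by
        obtain ⟨π, hπ⟩ := hck X
        exact ⟨π, Bridge.isCK_iff.1 hπ⟩).1⟩
    tfae_finish
  · intro j hj
    have hV := MD.van_of_mid hS hT (mid_of_codim hC hH hS hj)
    obtain ⟨hF, hck⟩ := hV.ck.bb hL' fun X hX => hV.exists_ck hX (hkun X)
    refine ⟨_, Bridge.bb_iff.2 hF, fun X hX => ?_⟩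
    obtain ⟨π, hπ, he⟩ := hck X hX
    refine ⟨π, Bridge.isCK_iff.2 hπ, fun i ν z => ?_⟩
    rw [Bridge.inStep_iff, Prim.Mem, he]
  · rintro j ⟨F, hF⟩ X hX Γ hΓ hk z hz
    exact hnec _ F hF X (by omega) j hX Γ hΓ hk z hz

end Pool.Agent.N567.Mid
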