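import Pool.Agent.N567.MD.Stmt
import Pool.Agent.TH829.Kim.Defs

/-!
# Murre's conjectures and finite-dimensional motives: the definitions
-/

set_option autoImplicit false

open CategoryTheory AlgebraicGeometry

universe u v w

namespace Pool.Agent.N567.Mid

open Pool.Agent.H914 Pool.Agent.N164.Prim
open Pool.Agent.W492.BB (TheoryData WeilTheoryData)
open Pool.Agent.TH829.Kim (altPower symPower)

variable {k : Type u} [Field k] {𝒱 : VarClass k}

/-- The composition `Γ_1, Γ_2, …` (applied in this order) of a list of self-correspondences. -/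
noncomputable def composite (C : TheoryData.{u, v, 0} 𝒱 ℚ) (X : 𝒱.Obj) :
    List (Cor C X X) → Cor C X X
  | [] => diag C X
  | γ :: l => comp C γ (composite C X l)

/-- The motive of `X` is finite-dimensional in the sense of Kimura: there is an idempotent
self-correspondence `e` of degree zero such that for some `n ≥ 1` the exterior power `Λ^n (X, e)` is
zero, and for some `n ≥ 1` the symmetric power `Sym^n (X, 1 - e)` is zero. -/
def IsKimuraFinite (C : TheoryData.{u, v, 0} 𝒱 ℚ) (X : 𝒱.Obj) : Prop :=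
  ∃ e : Cor C X X, C.Deg X.dim e ∧ comp C e e = e ∧
    (∃ n : ℕ, 1 ≤ n ∧ ∀ (W : 𝒱.Obj) (x y : Fin n → (W ⟶ X)), altPower C e x y = zero C W) ∧
    (∃ n : ℕ, 1 ≤ n ∧ ∀ (W : 𝒱.Obj) (x y : Fin n → (W ⟶ X)),
      symPower C (sub C (diag C X) e) x y = zero C W)

variable {C : TheoryData.{u, v, 0} 𝒱 ℚ} {K : Type w} [Field K] (H : WeilTheoryData.{u, v, w} C K)

/-- The cohomology rings are graded commutative. -/
def IsGradedCommutative : Prop :=
  ∀ (X : 𝒱.Obj) (i j : ℤ) (a b : H.A X), H.Deg i a → H.Deg j b →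
    H.mul a b = (i * j).negOnePow • H.mul b a

/-- The variety `X` has a Chow-Kunneth decomposition. -/
def HasCK (X : 𝒱.Obj) : Prop := ∃ π, IsCK H X π

/-- Either `𝒱` is a Lefschetz class (as it is, for example, if the standard conjecture `B(X)` of
Lefschetz type holds for the varieties `X` in `𝒱` and `𝒱` contains smooth linear sections of them of
all dimensions), or all the varieties in `𝒱` have Chow-Kunneth decompositions. -/
def IsLefschetzOrCK : Prop := IsLefschetzClass H ∨ ∀ X : 𝒱.Obj, HasCK H X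

/-- `F^0 CH^i(X) = CH^i(X)` for all the Chow-Kunneth decompositions of `X`. -/
def MurreB0 (X : 𝒱.Obj) (i : ℕ) : Prop :=
  ∀ π, IsCK H X π → ∀ z : C.A X, C.Deg i z → InStep π i 0 z

/-- `F^(i+1) CH^i(X) = 0` for all the Chow-Kunneth decompositions of `X`. -/
def MurreB1 (X : 𝒱.Obj) (i : ℕ) : Prop :=
  ∀ π, IsCK H X π → ∀ z : C.A X, InStep π i (i + 1) z → z = zero C X

/-- `F^ν CH^i(X)`, `ν ≥ 0`, is the same for all the Chow-Kunneth decompositions of `X`. -/
def MurreC (X : 𝒱.Obj) (i : ℕ) : Prop :=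
  ∀ π π', IsCK H X π → IsCK H X π' → ∀ (ν : ℕ) (z : C.A X), InStep π i ν z ↔ InStep π' i ν z

/-- `F^1 CH^i(X)` is the group of homologically trivial classes in `CH^i(X)`, for all the
Chow-Kunneth decompositions of `X`. -/
def MurreD (X : 𝒱.Obj) (i : ℕ) : Prop :=
  ∀ π, IsCK H X π → ∀ z : C.A X, InStep π i 1 z ↔ HomTriv H i z

/-- The filtration attached to some Chow-Kunneth decomposition of `X` satisfies
`F^(i+1) CH^i(X) = 0` for all `i`. -/
def HasGoodB1 (X : 𝒱.Obj) : Prop :=
  ∃ π, IsCK H X π ∧ ∀ (i : ℕ) (z : C.A X), InStep π i (i + 1) z → z = zero C X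

/-- The filtration attached to some Chow-Kunneth decomposition of `X` satisfies
`F^0 CH^i(X) = CH^i(X)` and `F^(i+1) CH^i(X) = 0` for all `i`. -/
def HasGoodB (X : 𝒱.Obj) : Prop :=
  ∃ π, IsCK H X π ∧ ∀ (i : ℕ) (z : C.A X), (C.Deg i z → InStep π i 0 z) ∧
    (InStep π i (i + 1) z → z = zero C X)

/-- Homologically trivial self-correspondences `γ` of degree zero of `X` strictly lower the weights:
`π_b ∘ γ ∘ π_a = 0` for all `b ≥ a` and all the Chow-Kunneth decompositions `π` of `X`. -/
def StrictlyLowers (X : 𝒱.Obj) : Prop :=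
  ∀ π, IsCK H X π → ∀ γ : Cor C X X, HomTriv H X.dim γ → ∀ a b : ℕ, a ≤ b →
    comp C (comp C (π a) γ) (π b) = zero C (X.prod X)

/-- Any composition of `n` homologically trivial self-correspondences of degree zero of `X` is
zero. -/
def NilpotentOfIndex (X : 𝒱.Obj) (n : ℕ) : Prop :=
  ∀ l : List (Cor C X X), l.length = n → (∀ γ ∈ l, HomTriv H X.dim γ) →
    composite C X l = zero C (X.prod X)

/-- The self-correspondences of degree zero of `X` which act as zero on `H^m(X)` for all
`m < dim X` act nilpotently on the homologically trivial classes in `CH^j(X)`. -/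
def NilpotentOnHom (X : 𝒱.Obj) (j : ℕ) : Prop :=
  ∀ Γ : Cor C X X, C.Deg X.dim Γ → (∀ m : ℤ, m < X.dim → Kills H Γ m) →
    ∃ n : ℕ, ∀ z : C.A X, HomTriv H j z → (C.act Γ)^[n] z = zero C X

/-- Some Chow-Kunneth decomposition `π` of `X` has the property that the `π b` with `b ≥ 2 j` act as
zero on the homologically trivial classes in `CH^j(X)`. -/
def HasGoodD (X : 𝒱.Obj) (j : ℕ) : Prop :=
  ∃ π, IsCK H X π ∧ ∀ b : ℕ, 2 * j ≤ b → ∀ z : C.A X, HomTriv H j z → C.act (π b) z = zero C X

/-- The self-correspondences of degree zero of `X` which act as zero on `H^m(X)` for all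
`m < dim X` act nilpotently on `CH^j(X)`. -/
def NilpotentOn (X : 𝒱.Obj) (j : ℕ) : Prop :=
  ∀ Γ : Cor C X X, C.Deg X.dim Γ → (∀ m : ℤ, m < X.dim → Kills H Γ m) →
    ∃ n : ℕ, ∀ z : C.A X, C.Deg j z → (C.act Γ)^[n] z = zero C X

/-- Some Chow-Kunneth decomposition `π` of `X` has the property that the `π b` with `b > 2 j` act as
zero on `CH^j(X)`. -/
def HasGoodB0 (X : 𝒱.Obj) (j : ℕ) : Prop :=
  ∃ π, IsCK H X π ∧ ∀ b : ℕ, 2 * j < b → ∀ z : C.A X, C.Deg j z → C.act (π b) z = zero C X

/-- The Chow-Kunneth decompositions of `X` are unique up to conjugation: if `π` and `π'` are two of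
them, then `π' i = s ∘ π i ∘ t` for all `i`, with self-correspondences `s` and `t` of degree zero
which are inverse to each other. -/
def IsUniqueCK (X : 𝒱.Obj) : Prop :=
  ∀ π π', IsCK H X π → IsCK H X π' → ∃ s t : Cor C X X, C.Deg X.dim s ∧ C.Deg X.dim t ∧
    comp C s t = diag C X ∧ comp C t s = diag C X ∧ ∀ i, π' i = comp C (comp C t (π i)) s

/-- For all the Chow-Kunneth decompositions `π` of `X` the correspondence `π 0` is of the form
`x × X` with a zero-cycle `x` on `X` (so `(X, π 0)` is the unit motive). -/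
def HasUnitPart (X : 𝒱.Obj) : Prop :=
  ∀ π, IsCK H X π → ∃ x : C.A X, C.Deg X.dim x ∧ π 0 = ext C x (one C X)

/-- For all the Chow-Kunneth decompositions `π` of `X` the correspondence `π 0` acts as zero on the
cycles of positive codimension. -/
def ZeroPartKills (X : 𝒱.Obj) : Prop :=
  ∀ π, IsCK H X π → ∀ (i : ℕ) (z : C.A X), 0 < i → C.Deg i z → C.act (π 0) z = zero C X

/-- The motive of `X` has no phantoms: homologically trivial idempotent self-correspondences of
degree zero are zero. -/
def NoPhantoms (X : 𝒱.Obj) : Prop :=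
  ∀ p : Cor C X X, HomTriv H X.dim p → comp C p p = p → p = zero C (X.prod X)

/-- The homologically trivial self-correspondences of degree zero of `X` act nilpotently on
`CH^j(X)`. -/
def HomActsNilpotently (X : 𝒱.Obj) (j : ℕ) : Prop :=
  ∀ Γ : Cor C X X, HomTriv H X.dim Γ →
    ∃ n : ℕ, ∀ z : C.A X, C.Deg j z → (C.act Γ)^[n] z = zero C X

end Pool.Agent.N567.Mid
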