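import Pool.Agent.N567.MD.LemK
import Pool.Agent.N567.MD.StmtM
import Pool.Agent.N567.MD.MainA

/-!
# The definitions of the statements and those of the proofs
-/

set_option autoImplicit false

open CategoryTheory AlgebraicGeometry

universe u v w

namespace Pool.Agent.N567.Mid

open Pool.Agent.H914 Pool.Agent.H914.VarClass Pool.Agent.H914.VarClass.Obj
open Pool.Agent.W492.BB (TheoryData WeilTheoryData)
open Pool.Agent.W550.Corr (dg act_dg)
open Pool.Agent.N164

attribute [-instance] Pool.Agent.TH829.Kim.chCommRing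

variable {k : Type u} [Field k] {𝒱 : VarClass k} {C : TheoryData.{u, v, 0} 𝒱 ℚ} {K : Type w}
  [Field K] {H : WeilTheoryData.{u, v, w} C K} {X Y : 𝒱.Obj}

lemma graded_iff : IsGradedCommutative H ↔ Y110.GradedCommutative H := Iff.rfl

lemma kimura_iff' : IsKimuraFinite C X ↔ TH829.Kim.IsKimuraFinite C (TH829.Kim.ratFam C) X := by
  unfold IsKimuraFinite TH829.Kim.IsKimuraFinite
  refine exists_congr fun e => and_congr Iff.rfl (and_congr ?_ (and_congr Iff.rfl Iff.rfl))
  have h1 : C.comp e e - e ∈ TH829.Kim.ratFam C (X.prod X) X.dim ↔ C.comp e e - e = 0 :=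
    Submodule.mem_bot ℚ
  rw [h1, sub_eq_zero]
  rfl

lemma composite_eq (l : List (C.A (X.prod X))) : composite C X l = TH133.compList C X l := by
  induction l with
  | nil => rfl
  | cons γ l ih =>
    change C.comp γ (composite C X l) = C.comp γ (TH133.compList C X l)
    rw [ih]

lemma index_iff {n : ℕ} : NilpotentOfIndex H X n ↔ TH133.NilpotentOfIndex H X n := by
  constructor
  · intro h l hl hm
    rw [← composite_eq]
    exact h l hl hm
  · intro h l hl hm
    rw [composite_eq]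
    exact h l hl hm

lemma hasCK_iff : HasCK H X ↔ ∃ π, TH133.IsCK H X π :=
  exists_congr fun _ => Bridge.isCK_iff

lemma murreD_iff (hC : Prim.IsChowTheory C) (hH : Prim.IsWeilTheory H) {i : ℕ} :
    MurreD H X i ↔ MD.Q H 0 (MD.homN H) X i := by
  have := Bridge.chow hC
  have := Bridge.weil hH
  rw [MD.Q_hom_iff]
  constructor
  · intro h π hπ x
    exact Bridge.inStep_iff.symm.trans (h π (Bridge.isCK_iff.2 hπ) x)
  · intro h π hπ x
    exact Bridge.inStep_iff.trans (h π (Bridge.isCK_iff.1 hπ) x)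

lemma murreB0_iff (hC : Prim.IsChowTheory C) (hH : Prim.IsWeilTheory H) {i : ℕ} :
    MurreB0 H X i ↔ MD.Q1 H X i := by
  have := Bridge.chow hC
  have := Bridge.weil hH
  constructor
  · intro h π hπ w hw z hz
    have h1 := Bridge.inStep_iff.1 (h π (Bridge.isCK_iff.2 hπ) z hz)
    rw [hπ.mem_ckFil] at h1
    exact h1.2 w (by omega)
  · intro h π hπ z hz
    have hπ' := Bridge.isCK_iff.1 hπ
    rw [Bridge.inStep_iff, hπ'.mem_ckFil]
    exact ⟨hz, fun w hw => h π hπ' w (by omega) z hz⟩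

lemma strict_iff : StrictlyLowers H X ↔ ∀ π, TH133.IsCK H X π → MD.Strict H π := by
  constructor
  · intro h π hπ γ hγ hcl a b hab
    exact h π (Bridge.isCK_iff.2 hπ) γ ⟨hγ, hcl⟩ a b hab
  · intro h π hπ γ hγ a b hab
    exact h π (Bridge.isCK_iff.1 hπ) γ hγ.1 hγ.2 a b hab

lemma covers_self (hC : Prim.IsChowTheory C) (X : 𝒱.Obj) : Covers C X X := by
  have := Bridge.chow hC
  refine ⟨0, 𝟙 X, 1, 1, 1, by ring, ?_, ?_, one_ne_zero, ?_⟩
  · exact_mod_cast C.one_mem X
  · exact_mod_cast C.one_mem X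
  · change C.push (𝟙 X) (1 * 1) = (1 : ℚ) • (1 : C.A X)
    rw [C.push_id, mul_one, one_smul]

lemma b0_all_iff (hC : Prim.IsChowTheory C) (hH : Prim.IsWeilTheory H) :
    (∀ i : ℕ, MurreB0 H X i) ↔ TH133.MurreB0 H X := by
  have := Bridge.chow hC
  have := Bridge.weil hH
  constructor
  · intro h
    exact MD.murreB0_of_Q1 fun i => (murreB0_iff hC hH).1 (h i)
  · intro h i
    exact (murreB0_iff hC hH).2 (MD.Q1_of_murreB0 h i)

lemma bot_iff {π : ℕ → C.A (X.prod X)} {i ν : ℕ} :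
    (∀ z : C.A X, Prim.InStep π i ν z → z = Prim.zero C X) ↔ TH133.ckFil C π i ν = ⊥ := by
  rw [Submodule.eq_bot_iff]
  exact forall_congr' fun z => imp_congr Bridge.inStep_iff Iff.rfl

lemma b1_all_iff : (∀ i : ℕ, MurreB1 H X i) ↔ TH133.MurreB1 H X := by
  constructor
  · intro h π hπ i
    exact bot_iff.1 (h i π (Bridge.isCK_iff.2 hπ))
  · intro h i π hπ
    exact bot_iff.2 (h π (Bridge.isCK_iff.1 hπ) i)

lemma c_all_iff : (∀ i : ℕ, MurreC H X i) ↔ TH133.MurreC H X := by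
  constructor
  · intro h π π' hπ hπ' i n
    ext z
    have h1 := h i π π' (Bridge.isCK_iff.2 hπ) (Bridge.isCK_iff.2 hπ') n z
    rwa [Bridge.inStep_iff, Bridge.inStep_iff] at h1
  · intro h i π π' hπ hπ' ν z
    rw [Bridge.inStep_iff, Bridge.inStep_iff,
      h π π' (Bridge.isCK_iff.1 hπ) (Bridge.isCK_iff.1 hπ') i ν]

lemma c_of_b0 (hC : Prim.IsChowTheory C) (hH : Prim.IsWeilTheory H)
    (h : ∀ i : ℕ, MurreB0 H (X.prod X) i) (i : ℕ) : MurreC H X i := by
  have := Bridge.chow hC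
  have := Bridge.weil hH
  exact c_all_iff.2 (TH133.murreC_of_B0 X ((b0_all_iff hC hH).1 h)) i

lemma b0_of_c (hC : Prim.IsChowTheory C) (hH : Prim.IsWeilTheory H)
    (h : ∀ i : ℕ, MurreC H X i) (i : ℕ) : MurreB0 H X i := by
  have := Bridge.chow hC
  have := Bridge.weil hH
  refine (b0_all_iff hC hH).2 ?_ i
  apply TH133.murreB0_of_C0
  have h3 := c_all_iff.1 h
  exact fun π π' hπ hπ' i => h3 π π' hπ hπ' i 0

lemma nilpotentOn_iff {j : ℕ} (hX : X.dim = 2 * j + 1) : NilpotentOn H X j ↔ MD.P1 H X j := by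
  constructor
  · intro h Γ hΓ hk
    exact h Γ hΓ fun m hm => hk m (by rw [hX] at hm; push_cast at hm; omega)
  · intro h Γ hΓ hk
    exact h Γ hΓ fun m hm => hk m (by rw [hX]; push_cast; omega)

/-- Homologically trivial self-correspondences of degree zero of `X` are nilpotent. -/
def Nil (H : WeilTheoryData.{u, v, w} C K) (hC : TH133.IsChowProj C) (X : 𝒱.Obj) : Prop :=
  ∀ x : TH829.Kim.R0 C X, H.cl (TH829.Kim.toA x) = 0 → _root_.IsNilpotent x

lemma nil_of_kimura (hC : Prim.IsChowTheory C) (hH : Prim.IsWeilTheory H)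
    (h : IsKimuraFinite C X) : Nil H (Bridge.chow hC) X := by
  have := Bridge.chow hC
  have := Bridge.weil hH
  exact fun x hx => Y110.isNilpotent_of_kimura (kimura_iff'.1 h) hx

lemma hasCK_of_nil (hC : Prim.IsChowTheory C) (hH : Prim.IsWeilTheory H)
    (hL : IsLefschetzOrCK H) (h : Nil H (Bridge.chow hC) X) : HasCK H X := by
  have := Bridge.chow hC
  have := Bridge.weil hH
  rcases hL with hL | hL
  · have hL' := lefschetz_iff.1 hL
    obtain ⟨π, hπ⟩ := MD.exists_ck_of_nil (H := H) (X := X) (fun x hx => h x hx)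
      (MD.exists_kun hL' _ X rfl)
    exact ⟨π, Bridge.isCK_iff.2 hπ⟩
  · exact hL X

lemma hasCK_of_kimura (hC : Prim.IsChowTheory C) (hH : Prim.IsWeilTheory H)
    (hL : IsLefschetzOrCK H) (h : IsKimuraFinite C X) : HasCK H X :=
  hasCK_of_nil hC hH hL (nil_of_kimura hC hH h)

lemma kimura_of_noPh (hC : Prim.IsChowTheory C) (hH : Prim.IsWeilTheory H)
    (hg : IsGradedCommutative H) (h : ∀ X : 𝒱.Obj, MD.NoPh H X) (hX : HasCK H X) :
    IsKimuraFinite C X := by
  have := Bridge.chow hC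
  have := Bridge.weil hH
  obtain ⟨π, hπ⟩ := hX
  rw [kimura_iff']
  exact MD.kimura_of_noPh (graded_iff.1 hg) (Bridge.isCK_iff.1 hπ) h

lemma kimura_of_b0 (hC : Prim.IsChowTheory C) (hH : Prim.IsWeilTheory H)
    (hg : IsGradedCommutative H) (h : ∀ (X : 𝒱.Obj) (i : ℕ), MurreB0 H X i) (hX : HasCK H X) :
    IsKimuraFinite C X := by
  have := Bridge.chow hC
  have := Bridge.weil hH
  obtain ⟨π, hπ⟩ := hX
  rw [kimura_iff']
  refine Y110.isKimuraFinite_of_noPhantoms (graded_iff.1 hg) (Bridge.isCK_iff.1 hπ) fun Y hY => ?_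
  obtain ⟨ρ, hρ⟩ := hY
  exact MD.noPhantoms_of_B0 (fun Y => (b0_all_iff hC hH).1 (h Y)) hρ

lemma kimura_of_b1 (hC : Prim.IsChowTheory C) (hH : Prim.IsWeilTheory H)
    (hg : IsGradedCommutative H) (h : ∀ (X : 𝒱.Obj) (i : ℕ), MurreB1 H X i) (hX : HasCK H X) :
    IsKimuraFinite C X := by
  have := Bridge.chow hC
  have := Bridge.weil hH
  exact kimura_of_noPh hC hH hg (MD.noPh_of_B1 fun Y => b1_all_iff.1 (h Y)) hX

end Pool.Agent.N567.Mid
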