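import Pool.Agent.N164.BB.Main

/-!
# Nilpotence in the middle dimension: the reduction of the dimension
-/

set_option autoImplicit false

open CategoryTheory AlgebraicGeometry

universe u v w

namespace Pool.Agent.N567.MD

open Pool.Agent.H914 Pool.Agent.H914.VarClass Pool.Agent.H914.VarClass.Obj Pool.Agent.W492.BB
  Pool.Agent.W550.Corr Pool.Agent.TH133 Pool.Agent.Y148.BB Pool.Agent.X308.S
open Pool.Agent.N164.BB (graph_mem exists_zeroCycle exists_point)

set_option linter.unusedSectionVars false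
set_option linter.unusedVariables false

variable {k : Type u} [Field k] {𝒱 : VarClass k}

section defs

variable {C : TheoryData.{u, v, 0} 𝒱 ℚ} {K : Type w} [Field K]

/-- The formal properties of the homologically trivial cycles (`ε = 0`) and of the kernels of the
Abel-Jacobi maps (`ε = 1`). -/
structure Sys (H : WeilTheoryData.{u, v, w} C K) (ε : ℕ)
    (N : ∀ X : 𝒱.Obj, ℕ → Submodule ℚ (C.A X)) : Prop where
  le_one : ε ≤ 1
  deg : ∀ (X : 𝒱.Obj) (j : ℕ) (z : C.A X), z ∈ N X j → z ∈ C.gr X j ∧ H.cl z = 0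
  stable : ∀ (X Y : 𝒱.Obj) (j i : ℕ) (Γ : C.A (X.prod Y)),
    Γ ∈ C.gr (X.prod Y) ((X.dim : ℤ) + i - j) → ∀ z ∈ N X j, C.act Γ z ∈ N Y i
  kills : ∀ (X Y : 𝒱.Obj) (j i : ℕ) (Γ : C.A (X.prod Y)),
    Γ ∈ C.gr (X.prod Y) ((X.dim : ℤ) + i - j) →
    (∀ c : ℕ, 1 ≤ c → c ≤ ε → Kills H Γ (2 * j - c)) →
    ∀ z ∈ C.gr X j, H.cl z = 0 → C.act Γ z ∈ N Y i

/-- The self-correspondence `Γ` acts nilpotently on `N X j`. -/
def Nil (N : ∀ X : 𝒱.Obj, ℕ → Submodule ℚ (C.A X)) {X : 𝒱.Obj} (Γ : C.A (X.prod X)) (j : ℕ) :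
    Prop := ∃ n : ℕ, ∀ z ∈ N X j, (C.act Γ)^[n] z = 0

/-- The self-correspondences of degree zero of `X` which act as zero on `H^m(X)` for `m < 2 j - ε`
act nilpotently on `N X j`. -/
def P (H : WeilTheoryData.{u, v, w} C K) (ε : ℕ)
    (N : ∀ X : 𝒱.Obj, ℕ → Submodule ℚ (C.A X)) (X : 𝒱.Obj) (j : ℕ) : Prop :=
  ∀ Γ ∈ C.gr (X.prod X) X.dim, (∀ m : ℤ, m < 2 * j - ε → Kills H Γ m) → Nil N Γ j

/-- The condition in the middle dimension for the codimension `j`. -/
def Mid (H : WeilTheoryData.{u, v, w} C K) (ε : ℕ)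
    (N : ∀ X : 𝒱.Obj, ℕ → Submodule ℚ (C.A X)) (j : ℕ) : Prop :=
  ∀ X : 𝒱.Obj, X.dim + ε = 2 * j → P H ε N X j

end defs

section chow

variable {C : TheoryData.{u, v, 0} 𝒱 ℚ} [hC : IsChowProj C] {X X' T : 𝒱.Obj}

/-- The correspondence `z ↦ v f^* z`. -/
noncomputable def up (f : X' ⟶ X) (v : C.A X') : C.A (X.prod X') :=
  C.comp (C.cograph f) (C.mulCorr v)

/-- The correspondence `y ↦ f_* (u y)`. -/
noncomputable def down (f : X' ⟶ X) (u : C.A X') : C.A (X'.prod X) :=
  C.comp (C.mulCorr u) (C.graph f)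

include hC

lemma mulCorr_mem {y : C.A X} {j : ℤ} (hy : y ∈ C.gr X j) :
    C.mulCorr y ∈ C.gr (X.prod X) (X.dim + j) := by
  have h3 := C.push_mem (Obj.lift (𝟙 X) (𝟙 X)) hy
  rw [TheoryData.mulCorr]
  have e2 : j + 1 * (((X.prod X).dim : ℤ) - (X.dim : ℤ)) = X.dim + j := by
    rw [dim_prod]
    push_cast
    ring
  rwa [e2] at h3

lemma act_up (f : X' ⟶ X) (v : C.A X') (z : C.A X) : C.act (up f v) z = v * C.pull f z := by
  rw [up, C.act_comp, C.act_cograph, C.act_mulCorr]

lemma act_down (f : X' ⟶ X) (u y : C.A X') : C.act (down f u) y = C.push f (u * y) := by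
  rw [down, C.act_comp, C.act_mulCorr, C.act_graph]

lemma up_mem (f : X' ⟶ X) {v : C.A X'} {i : ℤ} (hv : v ∈ C.gr X' i) :
    up f v ∈ C.gr (X.prod X') (X.dim + i) := by
  refine comp_deg (cograph_mem f) (mulCorr_mem hv) ?_
  ring

lemma down_mem (f : X' ⟶ X) {u : C.A X'} {i : ℤ} (hu : u ∈ C.gr X' i) :
    down f u ∈ C.gr (X'.prod X) (X.dim + i) := by
  refine comp_deg (mulCorr_mem hu) (graph_mem f) ?_
  ring

lemma push_fst_degree {o : C.A T} (hd : HasDegree C o 1) :
    C.push (fst X T) (C.pull (snd X T) o) = (1 : ℚ) • (1 : C.A X) := (hd X).2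

end chow

variable {C : TheoryData.{u, v, 0} 𝒱 ℚ} [hC : IsChowProj C] {K : Type w} [Field K]
  {H : WeilTheoryData.{u, v, w} C K} [hH : IsWeilProj H] {S T X Y Z W X' : 𝒱.Obj}
  {N : ∀ X : 𝒱.Obj, ℕ → Submodule ℚ (C.A X)} {ε : ℕ}

include hC hH

/-- **Descent from a covering of positive relative dimension.** -/
theorem P.of_cover (hN : Sys H ε N) {f : X' ⟶ X} {u v : C.A X'} {c : ℚ} {s i j : ℕ}
    (hdim : X'.dim = X.dim + s + i) (hu : u ∈ C.gr X' s) (hv : v ∈ C.gr X' i) (hc : c ≠ 0)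
    (huv : C.push f (u * v) = c • (1 : C.A X)) (h : P H ε N X' (j + i)) : P H ε N X j := by
  intro Γ hΓ hk
  have hkey : ∀ z : C.A X, C.act (down f u) (C.act (up f v) z) = c • z := by
    intro z
    rw [act_up, act_down, ← mul_assoc]
    have h1 := C.proj_right f (u * v) z
    rw [huv, smul_mul_assoc, one_mul] at h1
    exact h1
  set Γ' : C.A (X'.prod X') := C.comp (down f u) (C.comp Γ (up f v)) with hΓ'
  have hdown := down_mem (C := C) f hu
  have hup := up_mem (C := C) f hv
  have hact : ∀ y, C.act Γ' y = C.act (up f v) (C.act Γ (C.act (down f u) y)) := by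
    intro y
    rw [hΓ', C.act_comp, C.act_comp]
  have hm : Γ' ∈ C.gr (X'.prod X') X'.dim := by
    refine comp_deg hdown (comp_deg hΓ hup rfl) ?_
    rw [hdim]
    push_cast
    ring
  have hk' : ∀ m : ℤ, m < 2 * (j + i : ℕ) - ε → Kills H Γ' m := by
    intro m hm a ha
    rw [hΓ', actH_comp, actH_comp]
    have h1 := actH_deg (H := H) hdown ha (j := m - 2 * i) (by rw [hdim]; push_cast; ring)
    rw [hk (m - 2 * i) (by push_cast at hm; linarith) _ h1, TheoryData.act_map_zero]
  obtain ⟨n, hn⟩ := h Γ' hm hk'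
  have hiter : ∀ (n : ℕ) (z : C.A X), (C.act Γ')^[n] (C.act (up f v) z) =
      c ^ n • C.act (up f v) ((C.act Γ)^[n] z) := by
    intro n
    induction n with
    | zero => intro z; simp
    | succ n ih =>
      intro z
      rw [Function.iterate_succ_apply', ih, hact, Function.iterate_succ_apply', act_map_smul,
        hkey, smul_smul, act_map_smul, act_map_smul, pow_succ]
  refine ⟨n, fun z hz => ?_⟩
  have hz' : C.act (up f v) z ∈ N X' (j + i) := by
    refine hN.stable X X' j (j + i) _ ?_ z hz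
    convert hup using 2
    push_cast
    ring
  have h2 := hn _ hz'
  rw [hiter] at h2
  have h3 : C.act (up f v) ((C.act Γ)^[n] z) = 0 := by
    rcases smul_eq_zero.1 h2 with h | h
    · exact absurd h (pow_ne_zero _ hc)
    · exact h
  have h4 := hkey ((C.act Γ)^[n] z)
  rw [h3, TheoryData.act_map_zero] at h4
  rcases smul_eq_zero.1 h4.symm with h | h
  · exact absurd h hc
  · exact h

/-- Adding a curve without raising the codimension. -/
lemma P.of_prod (hN : Sys H ε N) (hT : T.dim = 1) {j : ℕ} (h : P H ε N (X.prod T) j) :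
    P H ε N X j := by
  obtain ⟨o, ho, hd⟩ := exists_point (C := C) hT
  refine P.of_cover hN (f := fst X T) (u := C.pull (snd X T) o) (v := 1) (c := 1) (s := 1) (i := 0)
    (by rw [dim_prod, hT]) ?_ (by exact_mod_cast C.one_mem _) one_ne_zero ?_ h
  · have := C.pull_mem (snd X T) ho
    exact_mod_cast this
  · rw [mul_one]
    exact push_fst_degree hd

/-- Adding a curve and raising the codimension. -/
lemma P.of_prod' (hN : Sys H ε N) (hT : T.dim = 1) {j : ℕ} (h : P H ε N (X.prod T) (j + 1)) :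
    P H ε N X j := by
  obtain ⟨o, ho, hd⟩ := exists_point (C := C) hT
  refine P.of_cover hN (f := fst X T) (u := 1) (v := C.pull (snd X T) o) (c := 1) (s := 0) (i := 1)
    (by rw [dim_prod, hT]) (by exact_mod_cast C.one_mem _) ?_ one_ne_zero ?_ h
  · have := C.pull_mem (snd X T) ho
    exact_mod_cast this
  · rw [one_mul]
    exact push_fst_degree hd

lemma mem_zero_codim (hN : Sys H ε N) {z : C.A X} (hz : z ∈ N X 0) : z = 0 := by
  obtain ⟨h1, h2⟩ := hN.deg X 0 z hz
  obtain ⟨q, rfl⟩ := hC.gr_zero X z (by exact_mod_cast h1)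
  by_cases hq : q = 0
  · rw [hq, zero_smul]
  · exfalso
    apply hH.one_ne_zero X
    have h3 : H.cl ((q⁻¹ • (1 : C.A X)) * (q • (1 : C.A X))) = 0 := by
      rw [map_mul, h2, mul_zero]
    rwa [smul_mul_smul_comm, inv_mul_cancel₀ hq, one_smul, mul_one, map_one] at h3

lemma Mid.pred (hN : Sys H ε N) (hT : T.dim = 1) {j : ℕ} (h : Mid H ε N (j + 1)) :
    Mid H ε N j := by
  intro X hX
  apply P.of_prod hN hT
  apply P.of_prod' hN hT
  apply h
  rw [dim_prod, dim_prod, hT]
  omega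

lemma Mid.le (hN : Sys H ε N) (hT : T.dim = 1) {j l : ℕ} (hl : l ≤ j) (h : Mid H ε N j) :
    Mid H ε N l := by
  induction j, hl using Nat.le_induction with
  | base => exact h
  | succ j _ ih => exact ih (h.pred hN hT)

/-- The reduction of the general case to the middle dimension. -/
theorem Mid.P (hN : Sys H ε N) (hT : T.dim = 1) {M : ℕ} (h : Mid H ε N M) :
    ∀ (n : ℕ) (X : 𝒱.Obj) (j : ℕ), ((X.dim : ℤ) + ε - 2 * j).natAbs = n → j ≤ M →
      X.dim + ε ≤ j + M → P H ε N X j := by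
  intro n
  induction n with
  | zero =>
    intro X j hn hj hd
    exact h.le hN hT hj X (by omega)
  | succ n ih =>
    intro X j hn hj hd
    rcases lt_or_ge (X.dim + ε) (2 * j) with h1 | h1
    · apply P.of_prod hN hT
      apply ih _ _ _ hj
      · rw [dim_prod, hT]; omega
      · rw [dim_prod, hT]; push_cast; omega
    · apply P.of_prod' hN hT
      apply ih
      · rw [dim_prod, hT]; push_cast; omega
      · omega
      · rw [dim_prod, hT]; omega

/-- All varieties of dimension at most `M` satisfy the condition if it holds in the middle dimension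
for the codimension `M`. -/
theorem Mid.all (hN : Sys H ε N) (hT : T.dim = 1) {M : ℕ} (h : Mid H ε N M) (X : 𝒱.Obj)
    (hX : X.dim ≤ M) (j : ℕ) : MD.P H ε N X j := by
  rcases Nat.eq_zero_or_pos j with rfl | hj
  · intro Γ _ _
    refine ⟨0, fun z hz => ?_⟩
    exact mem_zero_codim hN hz
  rcases Nat.lt_or_ge X.dim j with h1 | h1
  · intro Γ _ _
    refine ⟨0, fun z hz => ?_⟩
    exact zero_of_top (hN.deg X j z hz).1 (by exact_mod_cast h1)
  · have := hN.le_one
    exact h.P hN hT _ X j rfl (by omega) (by omega)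

end Pool.Agent.N567.MD
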