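import Pool.Agent.N567.MD.Kun

/-!
# Chow-Kunneth decompositions
-/

set_option autoImplicit false

open CategoryTheory AlgebraicGeometry

universe u v w

namespace Pool.Agent.N567.MD

open Pool.Agent.H914 Pool.Agent.H914.VarClass Pool.Agent.H914.VarClass.Obj Pool.Agent.W492.BB
  Pool.Agent.W550.Corr Pool.Agent.TH133 Pool.Agent.Y148.BB Pool.Agent.X308.S
open Pool.Agent.N164.BB (graph_mem exists_zeroCycle exists_point)

set_option linter.unusedSectionVars false
set_option linter.unusedVariables false

/-! ### Orthogonalization of triangular idempotents -/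

section ring

variable {R : Type*} [Ring R]

/-- The product `(1 - e_(n-t)) ⋯ (1 - e_(n-1))`. -/
def G (e : ℕ → R) (n : ℕ) : ℕ → R
  | 0 => 1
  | t + 1 => (1 - e (n - 1 - t)) * G e n t

variable {e : ℕ → R} {n : ℕ}

lemma G_mul (h1 : ∀ i < n, e i * e i = e i) (h2 : ∀ i k, i < k → k < n → e k * e i = 0) (t : ℕ)
    (ht : t ≤ n) : ∀ k < n, G e n t * e k = if k < n - t then e k else 0 := by
  induction t with
  | zero =>
    intro k hk
    rw [G, one_mul, if_pos (by omega)]
  | succ t ih =>
    intro k hk
    rw [G, mul_assoc, ih (by omega) k hk]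
    by_cases h : k < n - t
    · rw [if_pos h]
      by_cases h' : k < n - (t + 1)
      · rw [if_pos h', sub_mul, one_mul, h2 k (n - 1 - t) (by omega) (by omega), sub_zero]
      · have : n - 1 - t = k := by omega
        rw [if_neg h', this, sub_mul, one_mul, h1 k hk, sub_self]
    · rw [if_neg h, mul_zero, if_neg (by omega)]

lemma G_mul_G (h1 : ∀ i < n, e i * e i = e i) (h2 : ∀ i k, i < k → k < n → e k * e i = 0) (t : ℕ)
    (ht : t ≤ n) : G e n n * G e n t = G e n n := by
  induction t with
  | zero => rw [G, mul_one]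
  | succ t ih =>
    rw [G, ← mul_assoc, mul_sub, mul_one, G_mul h1 h2 n le_rfl _ (by omega), if_neg (by omega),
      sub_zero, ih (by omega)]

lemma sum_G (t : ℕ) (ht : t ≤ n) :
    ∑ i ∈ Finset.range t, e (n - 1 - i) * G e n i = 1 - G e n t := by
  induction t with
  | zero => simp [G]
  | succ t ih =>
    rw [Finset.sum_range_succ, ih (by omega), G, sub_mul, one_mul]
    abel

/-- The orthogonal idempotents. -/
def orth (e : ℕ → R) (n k : ℕ) : R := if k < n then e k * G e n (n - 1 - k) else 0

lemma orth_mul (h1 : ∀ i < n, e i * e i = e i) (h2 : ∀ i k, i < k → k < n → e k * e i = 0)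
    (i k : ℕ) : orth e n i * orth e n k = if i = k then orth e n i else 0 := by
  unfold orth
  by_cases hi : i < n
  · by_cases hk : k < n
    · rw [if_pos hi, if_pos hk]
      rw [show e i * G e n (n - 1 - i) * (e k * G e n (n - 1 - k)) =
        e i * (G e n (n - 1 - i) * e k) * G e n (n - 1 - k) by simp only [mul_assoc],
        G_mul h1 h2 _ (by omega) k hk]
      rcases lt_trichotomy i k with h | rfl | h
      · rw [if_neg (by omega), if_neg (by omega), mul_zero, zero_mul]
      · rw [if_pos (by omega), if_pos rfl, h1 i hi]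
      · rw [if_pos (by omega), if_neg (by omega), h2 k i h hi, zero_mul]
    · rw [if_neg hk, mul_zero]
      split_ifs with h
      · omega
      · rfl
  · rw [if_neg hi, zero_mul]
    split_ifs <;> rfl

lemma sum_orth : ∑ k ∈ Finset.range n, orth e n k = 1 - G e n n := by
  rw [← sum_G (e := e) n le_rfl, ← Finset.sum_range_reflect]
  apply Finset.sum_congr rfl
  intro i hi
  rw [Finset.mem_range] at hi
  rw [orth, if_pos (by omega), show n - 1 - (n - 1 - i) = i by omega]

lemma G_mem {S : Subring R} (he : ∀ i, e i ∈ S) (t : ℕ) : G e n t ∈ S := by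
  induction t with
  | zero => exact S.one_mem
  | succ t ih => exact S.mul_mem (S.sub_mem S.one_mem (he _)) ih

lemma orth_mem {S : Subring R} (he : ∀ i, e i ∈ S) (k : ℕ) : orth e n k ∈ S := by
  unfold orth
  split_ifs
  · exact S.mul_mem (he _) (G_mem he _)
  · exact S.zero_mem

/-- The action on a vector on which `e_i` acts as `δ_(i m)`. -/
lemma G_act {K V : Type*} [CommRing K] [AddCommGroup V] [Module K V] (φ : R →+* Module.End K V)
    (m : ℤ) (x : V) (hx : ∀ i < n, φ (e i) x = if m = i then x else 0) (t : ℕ) (ht : t ≤ n) :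
    φ (G e n t) x = if (n : ℤ) - t ≤ m ∧ m < n then 0 else x := by
  induction t with
  | zero =>
    rw [G, map_one, Module.End.one_apply, if_neg (by omega)]
  | succ t ih =>
    rw [G, map_mul, Module.End.mul_apply, ih (by omega)]
    by_cases h : (n : ℤ) - t ≤ m ∧ m < n
    · rw [if_pos h, map_zero, if_pos (by omega)]
    · rw [if_neg h, map_sub, map_one, LinearMap.sub_apply, Module.End.one_apply,
        hx _ (by omega)]
      by_cases h' : m = ((n - 1 - t : ℕ) : ℤ)
      · rw [if_pos h', sub_self, if_pos (by omega)]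
      · rw [if_neg h', sub_zero, if_neg (by omega)]

lemma orth_act {K V : Type*} [CommRing K] [AddCommGroup V] [Module K V] (φ : R →+* Module.End K V)
    (m : ℤ) (x : V) (hx : ∀ i < n, φ (e i) x = if m = i then x else 0) (k : ℕ) (hk : k < n) :
    φ (orth e n k) x = if m = k then x else 0 := by
  rw [orth, if_pos hk, map_mul, Module.End.mul_apply, G_act φ m x hx _ (by omega)]
  by_cases h : m = k
  · rw [if_pos h, if_neg (by omega), hx k hk, if_pos h]
  · rw [if_neg h]
    split_ifs
    · rw [map_zero]
    · rw [hx k hk, if_neg h]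

/-- Idempotents from an equation `p^(N+1) = p^N`. -/
lemma pow_idem {p : R} {N : ℕ} (h : p ^ (N + 1) = p ^ N) : p ^ N * p ^ N = p ^ N := by
  have key : ∀ k, p ^ (N + k) = p ^ N := by
    intro k
    induction k with
    | zero => rfl
    | succ k ih => rw [← add_assoc, pow_succ, ih, ← pow_succ, h]
  rw [← pow_add, key]

lemma iter_conj (q D : R) (n : ℕ) : (fun D => q * D * q)^[n] D = q ^ n * D * q ^ n := by
  induction n with
  | zero => simp
  | succ n ih =>
    rw [Function.iterate_succ_apply', ih, pow_succ']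
    conv_rhs => rw [← pow_succ', pow_succ', mul_assoc, mul_assoc, ← pow_succ', pow_succ q n]
    simp only [mul_assoc]

end ring

variable {k : Type u} [Field k] {𝒱 : VarClass k}

variable {C : TheoryData.{u, v, 0} 𝒱 ℚ} [hC : IsChowProj C] {K : Type w} [Field K]
  {H : WeilTheoryData.{u, v, w} C K} [hH : IsWeilProj H] {S : 𝒱.Obj → Prop} {T X Y Z W X' : 𝒱.Obj}
  {N : ∀ X : 𝒱.Obj, ℕ → Submodule ℚ (C.A X)} {ε j : ℕ}

include hC hH

lemma IsKun.kills {p : C.A (X.prod X)} {a : ℤ} (h : IsKun H p a) (m : ℤ) (hm : m ≠ a) :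
    Kills H p m := by
  intro x hx
  rw [h.act m x hx, if_neg hm]

/-- **Idempotent Kunneth projectors.** -/
theorem exists_idem (hN : Sys H ε N) (hP : P H ε N (X.prod X) X.dim) {p : C.A (X.prod X)} {a : ℤ}
    (hp : IsKun H p a) : ∃ e : C.A (X.prod X), IsKun H e a ∧ C.comp e e = e := by
  let q : Cor C X := p
  have hq0 : q ∈ cor0 C X := hp.mem
  have hact : ∀ (l : ℤ) (x : H.A X), x ∈ H.gr X l → actH C X H q x = if l = a then x else 0 :=
    fun l x hx => hp.act l x hx
  let Γ : C.A ((X.prod X).prod (X.prod X)) := TH133.tens C (TH133.tp C p) p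
  have hΓm : Γ ∈ C.gr ((X.prod X).prod (X.prod X)) (X.prod X).dim := by
    have h1 := tens_mem C (tp_mem C hp.mem) hp.mem
    rw [dim_prod]
    push_cast
    exact h1
  have hΓk : ∀ m : ℤ, m ≠ 2 * X.dim → Kills H Γ m := by
    intro m hm
    exact kills_tens hp.tp.kills hp.kills m (by omega)
  obtain ⟨n, hn⟩ := hP Γ hΓm fun m hm => hΓk m (by omega)
  let F : Cor C X → Cor C X := fun D => C.act Γ D
  have hF : F = fun D => q * D * q := by
    funext D
    exact (act_conj (H := H) (e := p) (e' := p) D).trans (comp_assoc C (Y := X) p D p)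
  let D : Cor C X := q * q - q
  have hD0 : D ∈ cor0 C X := Subalgebra.sub_mem _ (Subalgebra.mul_mem _ hq0 hq0) hq0
  have hcl : H.cl (X := X.prod X) D = 0 := by
    apply cl_zero_of (H := H) (X := X) (Y := X)
    intro m x hx
    have h1 : actH C X H D x = 0 := by
      have e1 : actH C X H D x = actH C X H q (actH C X H q x) - actH C X H q x := by
        rw [map_sub, map_mul]
        rfl
      rw [e1, hact m x hx]
      split_ifs with h
      · rw [hact m x hx, if_pos h, sub_self]
      · rw [map_zero, sub_zero]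
    exact h1
  have h1 : C.act Γ (D : C.A (X.prod X)) ∈ N (X.prod X) X.dim := by
    refine hN.kills _ _ X.dim X.dim Γ ?_ (fun c hc _ => hΓk _ (by omega)) _ hD0 hcl
    rwa [show ((X.prod X).dim : ℤ) + X.dim - X.dim = (X.prod X).dim by ring]
  have h2 : F^[n] (F D) = 0 := hn _ h1
  rw [← Function.iterate_succ_apply, hF, iter_conj] at h2
  have h3 : q ^ (n + 1) * D * q ^ (n + 1) = q ^ (2 * n + 3 + 1) - q ^ (2 * n + 3) := by
    change q ^ (n + 1) * (q * q - q) * q ^ (n + 1) = _
    rw [mul_sub, sub_mul, show 2 * n + 3 + 1 = (n + 1) + 1 + 1 + (n + 1) by ring,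
      show 2 * n + 3 = (n + 1) + 1 + (n + 1) by ring]
    simp only [pow_add, pow_one, mul_assoc]
  rw [h3, sub_eq_zero] at h2
  refine ⟨(q ^ (2 * n + 3) : Cor C X), ⟨Subalgebra.pow_mem _ hq0 _, ?_⟩, pow_idem h2⟩
  intro l x hx
  have h4 : ∀ n : ℕ, actH C X H (q ^ (n + 1)) x = if l = a then x else 0 := by
    intro n
    induction n with
    | zero => rw [zero_add, pow_one]; exact hact l x hx
    | succ n ih =>
      rw [pow_succ', map_mul, Module.End.mul_apply, ih]
      split_ifs with h
      · rw [hact l x hx, if_pos h]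
      · rw [map_zero]
  exact h4 (2 * n + 2)

lemma IsKun.isWt {e : C.A (X.prod X)} {a : ℤ} (h : IsKun H e a) (he : C.comp e e = e) :
    IsWt H e a := ⟨h.mem, he, h.kills⟩

/-- **Existence of Chow-Kunneth decompositions.** -/
theorem Van.exists_ck (hV : Van H ε N S) (hX : S X)
    (hK : ∀ a : ℕ, ∃ p : C.A (X.prod X), IsKun H p a) :
    ∃ π : ℕ → C.A (X.prod X), IsCK H X π := by
  have h0 : ∀ a : ℕ, ∃ e : C.A (X.prod X), IsKun H e a ∧ C.comp e e = e := by
    intro a
    obtain ⟨p, hp⟩ := hK a
    exact exists_idem hV.sys (hV.prod X X hX hX X.dim) hp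
  choose e he hidem using h0
  let E : ℕ → Cor C X := e
  set n := 2 * X.dim + 1 with hn
  have h1 : ∀ i < n, E i * E i = E i := fun i _ => hidem i
  have h2 : ∀ i k, i < k → k < n → E k * E i = 0 := by
    intro i k hik _
    have h3 := hV.raise hX hX ((he i).isWt (hidem i)) ((he k).isWt (hidem k)) (s := 0)
      (by rw [add_zero]; exact dg_mem C X) (by omega)
    rw [comp_dg] at h3
    exact h3
  have hE0 : ∀ i, E i ∈ (cor0 C X).toSubring := fun i => (he i).mem
  have hact : ∀ (m : ℤ) (x : H.A X), x ∈ H.gr X m → ∀ i < n,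
      actH C X H (E i) x = if m = i then x else 0 := fun m x hx i _ => (he i).act m x hx
  -- the remaining idempotent
  let f : Cor C X := G E n n
  have hf0 : f ∈ cor0 C X := G_mem (S := (cor0 C X).toSubring) hE0 n
  have hff : f * f = f := G_mul_G h1 h2 n le_rfl
  have hfk : ∀ (m : ℤ) (x : H.A X), x ∈ H.gr X m → H.act (H.cl (X := X.prod X) f) x = 0 := by
    intro m x hx
    have h3 : actH C X H f x = 0 := by
      have h4 := G_act (actH C X H) m x (hact m x hx) n le_rfl
      change actH C X H (G E n n) x = 0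
      rw [h4]
      split_ifs with h5
      · rfl
      · rcases lt_or_ge m 0 with h6 | h6
        · exact hgr_neg hx h6
        · have h7 : H.gr X m = ⊥ := gr_top H (by omega)
          rw [h7] at hx
          exact (Submodule.mem_bot _).1 hx
    exact h3
  have hfz : f = 0 := by
    have hw : IsWt H (X := X) f 0 := ⟨hf0, hff, fun m _ x hx => hfk m x hx⟩
    have h3 := hV.same hX hX hw hw (D := f) (s := 0) (by rw [add_zero]; exact hf0) (by norm_num)
      (cl_zero_of (H := H) (X := X) (Y := X) hfk)
    have h4 : f * (f * f) = 0 := h3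
    rwa [hff, hff] at h4
  let Q : ℕ → Cor C X := fun i => orth E n i
  have hQ0 : ∀ i, Q i ∈ cor0 C X := fun i =>
    orth_mem (S := (cor0 C X).toSubring) (n := n) hE0 i
  refine ⟨Q, isCK_of (P := Q) hQ0 (fun i hi => ?_)
    (fun i j => orth_mul h1 h2 i j) ?_ (fun i m x hx => ?_)⟩
  · change orth E n i = 0
    rw [orth, if_neg (by omega)]
  · change ∑ i ∈ Finset.range n, orth E n i = 1
    rw [sum_orth]
    change 1 - f = 1
    rw [hfz, sub_zero]
  · by_cases hi : i < n
    · exact orth_act (actH C X H) m x (hact m x hx) i hi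
    · have hq : Q i = 0 := by
        change orth E n i = 0
        rw [orth, if_neg hi]
      rw [hq, map_zero, LinearMap.zero_apply]
      split_ifs with h3
      · have h7 : H.gr X m = ⊥ := gr_top H (by omega)
        rw [h7] at hx
        exact ((Submodule.mem_bot _).1 hx).symm
      · rfl

end Pool.Agent.N567.MD
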