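import Pool.Agent.N567.MD.Dec

/-!
# The filtration attached to Chow-Kunneth decompositions
-/

set_option autoImplicit false

open CategoryTheory AlgebraicGeometry

universe u v w

namespace Pool.Agent.N567.MD

open Pool.Agent.H914 Pool.Agent.H914.VarClass Pool.Agent.H914.VarClass.Obj Pool.Agent.W492.BB
  Pool.Agent.W550.Corr Pool.Agent.TH133 Pool.Agent.Y148.BB Pool.Agent.X308.S
open Pool.Agent.N164.BB (graph_mem exists_zeroCycle exists_point sum_act cl_of_mem_F1)

set_option linter.unusedSectionVars false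
set_option linter.unusedVariables false

variable {k : Type u} [Field k] {𝒱 : VarClass k}

variable {C : TheoryData.{u, v, 0} 𝒱 ℚ} [hC : IsChowProj C] {K : Type w} [Field K]
  {H : WeilTheoryData.{u, v, w} C K} [hH : IsWeilProj H] {S : 𝒱.Obj → Prop} {T X Y Z W X' : 𝒱.Obj}
  {N : ∀ X : 𝒱.Obj, ℕ → Submodule ℚ (C.A X)} {ε : ℕ}
  {π : ℕ → C.A (X.prod X)} {ρ : ℕ → C.A (Y.prod Y)}

include hC hH

lemma isWt_ck (h : IsCK H X π) (w : ℕ) : IsWt H (π w) w :=
  ⟨h.deg w, h.idem w, fun m hm a ha => h.act_ne w m a hm ha⟩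

lemma fil_anti (h : IsCK H X π) {i m n : ℕ} (hmn : m ≤ n) {x : C.A X}
    (hx : x ∈ ckFil C π i n) : x ∈ ckFil C π i m := by
  rw [h.mem_ckFil] at hx ⊢
  exact ⟨hx.1, fun j hj => hx.2 j (by omega)⟩

/-- The vanishing properties of the Chow-Kunneth decompositions of the varieties in the class `S`
and of their products. -/
structure VanCK {C : TheoryData.{u, v, 0} 𝒱 ℚ} {K : Type w} [Field K]
    (H : WeilTheoryData.{u, v, w} C K) (ε : ℕ)
    (N : ∀ X : 𝒱.Obj, ℕ → Submodule ℚ (C.A X)) (S : 𝒱.Obj → Prop) : Prop where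
  sys : Sys H ε N
  self : ∀ X, S X → ∀ π, IsCK H X π → ∀ j w : ℕ, 2 * (j : ℤ) - ε ≤ w →
    ∀ z ∈ N X j, C.act (π w) z = 0
  prod : ∀ X Y, S X → S Y → ∀ π ρ, IsCK H X π → IsCK H Y ρ → ∀ j w : ℕ, 2 * (j : ℤ) - ε ≤ w →
    ∀ z ∈ N (X.prod Y) j, C.act (prodCK C π ρ w) z = 0

lemma Van.ck (hV : Van H ε N S) : VanCK H ε N S where
  sys := hV.sys
  self X hX π h j w hw z hz := (hV.self X hX j).act_zero (isWt_ck h w) hw hz
  prod X Y hX hY π ρ h h' j w hw z hz :=
    (hV.prod X Y hX hY j).act_zero (isWt_ck (h.prod h') w) hw hz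

lemma VanCK.weights (hV : VanCK H ε N S) (hX : S X) (hY : S Y) (h : IsCK H X π)
    (h' : IsCK H Y ρ) {a b : ℕ} {s : ℤ} {D : C.A (X.prod Y)}
    (hD : D ∈ C.gr (X.prod Y) (X.dim + s)) :
    ((a : ℤ) + 2 * s < b → C.comp (C.comp (π a) D) (ρ b) = 0) ∧
    ((a : ℤ) + 2 * s = b → H.cl D = 0 → C.comp (C.comp (π a) D) (ρ b) = 0) := by
  rcases lt_or_ge ((X.dim : ℤ) + s) 0 with h0 | h0
  · have h0 : D = 0 := zero_of_neg hD h0
    subst h0
    exact ⟨fun _ => by rw [comp_zero, zero_comp], fun _ _ => by rw [comp_zero, zero_comp]⟩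
  rcases Nat.lt_or_ge (2 * X.dim) a with h1 | h1
  · rw [h.out a h1]
    exact ⟨fun _ => by rw [zero_comp, zero_comp], fun _ _ => by rw [zero_comp, zero_comp]⟩
  obtain ⟨j, hj⟩ := Int.eq_ofNat_of_zero_le h0
  rw [hj] at hD
  have hw := isWt_ck (h.dual.prod h') (2 * X.dim - a + b)
  have h2 := fun hw => hV.prod X Y hX hY _ _ h.dual h' j (2 * X.dim - a + b) hw
  constructor
  · intro hab
    apply comp_zero_of_prod h h' h1
    exact all_of_zero hV.sys hw (by omega) (h2 (by omega)) hD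
  · intro hab hcl
    apply comp_zero_of_prod h h' h1
    exact hom_of_zero hV.sys hw (by omega) (h2 (by omega)) hD hcl

lemma VanCK.raise (hV : VanCK H ε N S) (hX : S X) (hY : S Y) (h : IsCK H X π)
    (h' : IsCK H Y ρ) {a b : ℕ} {s : ℤ} {D : C.A (X.prod Y)}
    (hD : D ∈ C.gr (X.prod Y) (X.dim + s)) (hab : (a : ℤ) + 2 * s < b) :
    C.comp (C.comp (π a) D) (ρ b) = 0 := (hV.weights hX hY h h' hD).1 hab

lemma VanCK.same (hV : VanCK H ε N S) (hX : S X) (hY : S Y) (h : IsCK H X π)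
    (h' : IsCK H Y ρ) {a b : ℕ} {s : ℤ} {D : C.A (X.prod Y)}
    (hD : D ∈ C.gr (X.prod Y) (X.dim + s)) (hab : (a : ℤ) + 2 * s = b) (hcl : H.cl D = 0) :
    C.comp (C.comp (π a) D) (ρ b) = 0 := (hV.weights hX hY h h' hD).2 hab hcl

lemma VanCK.B0 (hV : VanCK H ε N S) (hX : S X) (h : IsCK H X π) {i w : ℕ} (hw : 2 * i < w)
    {x : C.A X} (hx : x ∈ C.gr X i) : C.act (π w) x = 0 :=
  all_of_zero hV.sys (isWt_ck h w) (by exact_mod_cast hw)
    (hV.self X hX π h i w (by omega)) hx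

lemma VanCK.D (hV : VanCK H ε N S) (hX : S X) (h : IsCK H X π) {i w : ℕ} (hw : 2 * i ≤ w)
    {x : C.A X} (hx : x ∈ C.gr X i) (hcl : H.cl x = 0) : C.act (π w) x = 0 :=
  hom_of_zero hV.sys (isWt_ck h w) (by exact_mod_cast hw)
    (hV.self X hX π h i w (by omega)) hx hcl

/-- Projectors of weight `w < i` act as zero on the cycles of codimension `i`. -/
lemma VanCK.B1 (hV : VanCK H ε N S) (hX : S X) (hL : IsLefschetzClass H) (h : IsCK H X π) {i w : ℕ}
    (hw : w < i) {x : C.A X} (hx : x ∈ C.gr X i) : C.act (π w) x = 0 := by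
  rcases Nat.lt_or_ge X.dim i with hi | hi
  · rw [zero_of_top hx (by exact_mod_cast hi), TheoryData.act_map_zero]
  obtain ⟨Y, α, β, hY, hα, hβ, hαβ⟩ := hL X w (by omega)
  have hβ' : β ∈ C.gr (Y.prod X) Y.dim := by rw [hY]; exact hβ
  have hαβm : C.comp α β ∈ C.gr (X.prod X) X.dim := comp_deg hα hβ' (by ring)
  set D : C.A (X.prod X) := C.comp (C.comp (π w) (C.comp α β)) (π w) - π w with hD
  have hDm : D ∈ C.gr (X.prod X) X.dim :=
    Submodule.sub_mem _ (comp_mem0 C (comp_mem0 C (h.deg w) hαβm) (h.deg w)) (h.deg w)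
  have hcl : H.cl D = 0 := by
    apply cl_zero_of
    intro m a ha
    rw [hD, map_sub, TheoryData.act_sub, actH_comp, actH_comp, h.actH_eq w m ha]
    split_ifs with hm
    · subst hm
      rw [hαβ a ha, h.actH_eq w _ ha, if_pos rfl, sub_self]
    · rw [TheoryData.act_map_zero, TheoryData.act_map_zero, sub_zero]
  have h1 := hV.same hX hX h h (a := w) (b := w) (D := D) (s := 0)
    (by rw [add_zero]; exact hDm) (by ring) hcl
  have h2 : C.comp (C.comp (π w) D) (π w) = D := by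
    rw [hD, comp_sub, sub_comp]
    congr 1
    · rw [comp_assoc C (π w) (C.comp (C.comp (π w) (C.comp α β)) (π w)) (π w),
        comp_assoc C (C.comp (π w) (C.comp α β)) (π w) (π w), h.idem,
        ← comp_assoc C (π w) (C.comp (π w) (C.comp α β)) (π w),
        ← comp_assoc C (π w) (π w) (C.comp α β), h.idem]
    · rw [h.idem, h.idem]
  rw [h2, hD, sub_eq_zero] at h1
  have h3 : C.act α (C.act (π w) x) = 0 := by
    have h4 : C.act (π w) x ∈ C.gr X i := act_mem0 C (h.deg w) hx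
    have h5 : C.act α (C.act (π w) x) ∈ C.gr Y i := act_deg hα h4 (by ring)
    exact zero_of_top h5 (by rw [hY]; exact_mod_cast hw)
  rw [← h1, C.act_comp, C.act_comp, C.act_comp, h3, TheoryData.act_map_zero,
    TheoryData.act_map_zero]

lemma VanCK.mem_zero (hV : VanCK H ε N S) (hX : S X) (h : IsCK H X π) (i : ℕ) (x : C.A X) :
    x ∈ ckFil C π i 0 ↔ C.Deg i x := by
  rw [h.mem_ckFil]
  exact ⟨fun hx => hx.1, fun hx => ⟨hx, fun j hj => hV.B0 hX h (by omega) hx⟩⟩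

lemma VanCK.mem_one (hV : VanCK H ε N S) (hX : S X) (h : IsCK H X π) (i : ℕ) (x : C.A X) :
    x ∈ ckFil C π i 1 ↔ C.Deg i x ∧ H.cl x = 0 := by
  constructor
  · intro hx
    refine ⟨?_, cl_of_mem_F1 h hx⟩
    rw [h.mem_ckFil] at hx
    exact hx.1
  · rintro ⟨hx, hcl⟩
    rw [h.mem_ckFil]
    exact ⟨hx, fun j hj => hV.D hX h (by omega) hx hcl⟩

lemma VanCK.top (hV : VanCK H ε N S) (hX : S X) (hL : IsLefschetzClass H) (h : IsCK H X π) (i : ℕ) :
    ckFil C π i (i + 1) = ⊥ := by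
  rw [eq_bot_iff]
  intro x hx
  rw [h.mem_ckFil] at hx
  rw [Submodule.mem_bot, sum_act h x]
  apply Finset.sum_eq_zero
  intro w _
  by_cases hw : i ≤ w
  · exact hx.2 w (by omega)
  · exact hV.B1 hX hL h (by omega) hx.1

/-- **The second step is the kernel of the Abel-Jacobi map.** -/
lemma VanCK.two (hV : VanCK H 1 N S) (hX : S X) (h : IsCK H X π) (i : ℕ) :
    ckFil C π i 2 = N X i := by
  ext x
  constructor
  · intro hx
    have hx1 := (hV.mem_one hX h i x).1 (fil_anti h (by norm_num) hx)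
    rw [h.mem_ckFil] at hx
    rw [sum_act h x]
    refine Submodule.sum_mem _ fun w _ => ?_
    by_cases hw : 2 * i + 1 - 2 ≤ w
    · rw [hx.2 w hw]
      exact Submodule.zero_mem _
    · refine hV.sys.kills X X i i (π w) ?_ ?_ x hx1.1 hx1.2
      · have := h.deg w
        rwa [show (X.dim : ℤ) + i - i = X.dim by ring]
      · intro c hc1 hc2 a ha
        exact h.act_ne w _ a (by omega) ha
  · intro hx
    obtain ⟨hx1, hx2⟩ := hV.sys.deg X i x hx
    rw [h.mem_ckFil]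
    refine ⟨hx1, fun w hw => ?_⟩
    exact hV.self X hX π h i w (by push_cast; omega) x hx

lemma VanCK.stable (hV : VanCK H ε N S) (hX : S X) (hY : S Y) (h : IsCK H X π)
    (h' : IsCK H Y ρ) {i j n : ℕ} {Γ : C.A (X.prod Y)}
    (hΓ : Γ ∈ C.gr (X.prod Y) ((X.dim : ℤ) + j - i)) {x : C.A X}
    (hx : x ∈ ckFil C π i n) : C.act Γ x ∈ ckFil C ρ j n := by
  rw [h.mem_ckFil] at hx
  rw [h'.mem_ckFil]
  refine ⟨act_deg hΓ hx.1 (by ring), fun m hm => ?_⟩
  conv_lhs => rw [sum_act h x]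
  rw [act_map_sum, act_map_sum]
  apply Finset.sum_eq_zero
  intro w _
  by_cases hw : 2 * i + 1 - n ≤ w
  · rw [hx.2 w hw, TheoryData.act_map_zero, TheoryData.act_map_zero]
  · rw [← C.act_comp, ← C.act_comp, ← comp_assoc]
    have h1 : Γ ∈ C.gr (X.prod Y) ((X.dim : ℤ) + (j - i)) := by
      rwa [show (X.dim : ℤ) + (j - i) = X.dim + j - i by ring]
    rw [hV.raise hX hY h h' (a := w) (b := m) h1 (by omega), TheoryData.act_zero]

lemma VanCK.shift (hV : VanCK H ε N S) (hX : S X) (hY : S Y) (h : IsCK H X π)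
    (h' : IsCK H Y ρ) {i j n : ℕ} {Γ : C.A (X.prod Y)}
    (hΓ : Γ ∈ C.gr (X.prod Y) ((X.dim : ℤ) + j - i)) (hk : Kills H Γ (2 * i - n)) {x : C.A X}
    (hx : x ∈ ckFil C π i n) : C.act Γ x ∈ ckFil C ρ j (n + 1) := by
  have hst := hV.stable hX hY h h' hΓ hx
  rw [h.mem_ckFil] at hx
  rw [h'.mem_ckFil] at hst ⊢
  refine ⟨hst.1, fun m hm => ?_⟩
  by_cases hm' : 2 * j + 1 - n ≤ m
  · exact hst.2 m hm'
  have hmn : m + n = 2 * j := by omega
  conv_lhs => rw [sum_act h x]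
  rw [act_map_sum, act_map_sum]
  apply Finset.sum_eq_zero
  intro w _
  by_cases hw : 2 * i + 1 - n ≤ w
  · rw [hx.2 w hw, TheoryData.act_map_zero, TheoryData.act_map_zero]
  have h1 : Γ ∈ C.gr (X.prod Y) ((X.dim : ℤ) + (j - i)) := by
    rwa [show (X.dim : ℤ) + (j - i) = X.dim + j - i by ring]
  rw [← C.act_comp, ← C.act_comp, ← comp_assoc]
  by_cases hw' : (w : ℤ) = 2 * i - n
  · -- the same weights: the entry is homologically trivial
    have hD : H.cl (C.comp (C.comp (π w) Γ) (ρ m)) = 0 := by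
      apply cl_zero_of
      intro l a ha
      rw [actH_comp, actH_comp, h.actH_eq w l ha]
      split_ifs with hl
      · rw [hk a (by rw [← hw', ← hl]; exact ha), TheoryData.act_map_zero]
      · rw [TheoryData.act_map_zero, TheoryData.act_map_zero]
    have hDm : C.comp (C.comp (π w) Γ) (ρ m) ∈ C.gr (X.prod Y) ((X.dim : ℤ) + (j - i)) := by
      refine comp_deg (comp_deg (j := (X.dim : ℤ) + (j - i)) (h.deg w) h1 (by ring))
        (h'.deg m) (by ring)
    have hDD : C.comp (C.comp (π w) (C.comp (C.comp (π w) Γ) (ρ m))) (ρ m) =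
        C.comp (C.comp (π w) Γ) (ρ m) := by
      rw [comp_assoc C (π w) (C.comp (C.comp (π w) Γ) (ρ m)), comp_assoc C (C.comp (π w) Γ) (ρ m),
        h'.idem, ← comp_assoc C (π w) (C.comp (π w) Γ) (ρ m), ← comp_assoc C (π w) (π w) Γ,
        h.idem]
    rw [← hDD, hV.same hX hY h h' (a := w) (b := m) hDm (by omega) hD,
      TheoryData.act_zero]
  · rw [hV.raise hX hY h h' (a := w) (b := m) h1 (by omega), TheoryData.act_zero]

end Pool.Agent.N567.MD
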