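import Pool.Agent.N567.MD.Base

/-!
# Vanishing theorems for idempotent correspondences
-/

set_option autoImplicit false

open CategoryTheory AlgebraicGeometry

universe u v w

namespace Pool.Agent.N567.MD

open Pool.Agent.H914 Pool.Agent.H914.VarClass Pool.Agent.H914.VarClass.Obj Pool.Agent.W492.BB
  Pool.Agent.W550.Corr Pool.Agent.TH133 Pool.Agent.Y148.BB Pool.Agent.X308.S
open Pool.Agent.N164.BB (graph_mem exists_zeroCycle exists_point)

set_option linter.unusedSectionVars false
set_option linter.unusedVariables false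

variable {k : Type u} [Field k] {𝒱 : VarClass k}

/-- The idempotent self-correspondence `e` of degree zero acts as zero on `H^m(X)` for `m ≠ w`. -/
structure IsWt {C : TheoryData.{u, v, 0} 𝒱 ℚ} {K : Type w} [Field K]
    (H : WeilTheoryData.{u, v, w} C K) {X : 𝒱.Obj} (e : C.A (X.prod X)) (w : ℤ) : Prop where
  mem : e ∈ C.gr (X.prod X) X.dim
  idem : C.comp e e = e
  kills : ∀ m : ℤ, m ≠ w → Kills H e m

/-- The condition for the varieties in the class `S` and their products. -/
structure Van {C : TheoryData.{u, v, 0} 𝒱 ℚ} {K : Type w} [Field K]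
    (H : WeilTheoryData.{u, v, w} C K) (ε : ℕ)
    (N : ∀ X : 𝒱.Obj, ℕ → Submodule ℚ (C.A X)) (S : 𝒱.Obj → Prop) : Prop where
  sys : Sys H ε N
  self : ∀ X, S X → ∀ j, P H ε N X j
  prod : ∀ X Y, S X → S Y → ∀ j, P H ε N (X.prod Y) j

variable {C : TheoryData.{u, v, 0} 𝒱 ℚ} [hC : IsChowProj C] {K : Type w} [Field K]
  {H : WeilTheoryData.{u, v, w} C K} [hH : IsWeilProj H] {S : 𝒱.Obj → Prop} {T X Y Z W X' : 𝒱.Obj}
  {N : ∀ X : 𝒱.Obj, ℕ → Submodule ℚ (C.A X)} {ε j : ℕ}

include hC hH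

lemma iterate_idem {e : C.A (X.prod X)} (he : C.comp e e = e) (n : ℕ) (z : C.A X) :
    (C.act e)^[n + 1] z = C.act e z := by
  induction n with
  | zero => simp
  | succ n ih => rw [Function.iterate_succ_apply', ih, ← C.act_comp, he]

/-- Projectors of weight at least `2 j - ε` kill `N X j`. -/
lemma P.act_zero (h : P H ε N X j) {e : C.A (X.prod X)} {w : ℤ} (he : IsWt H e w)
    (hw : 2 * (j : ℤ) - ε ≤ w) {z : C.A X} (hz : z ∈ N X j) : C.act e z = 0 := by
  obtain ⟨n, hn⟩ := h e he.mem fun m hm => he.kills m (by omega)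
  rw [← iterate_idem (H := H) he.idem n z, Function.iterate_succ_apply', hn z hz,
    TheoryData.act_map_zero]

lemma hom_of_zero (hN : Sys H ε N) {e : C.A (X.prod X)} {w : ℤ} (he : IsWt H e w)
    (hw : 2 * (j : ℤ) ≤ w) (h0 : ∀ z ∈ N X j, C.act e z = 0) {z : C.A X} (hz : z ∈ C.gr X j)
    (hcl : H.cl z = 0) : C.act e z = 0 := by
  have h1 : C.act e z ∈ N X j := by
    refine hN.kills X X j j e ?_ (fun c hc _ => he.kills _ (by omega)) z hz hcl
    have := he.mem
    rwa [show (X.dim : ℤ) + j - j = X.dim by ring]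
  have h2 := h0 _ h1
  rwa [← C.act_comp, he.idem] at h2

lemma all_of_zero (hN : Sys H ε N) {e : C.A (X.prod X)} {w : ℤ} (he : IsWt H e w)
    (hw : 2 * (j : ℤ) < w) (h0 : ∀ z ∈ N X j, C.act e z = 0) {z : C.A X} (hz : z ∈ C.gr X j) :
    C.act e z = 0 := by
  have h1 : C.act e z ∈ C.gr X j := act_mem0 C he.mem hz
  have h2 : H.cl (C.act e z) = 0 := by
    rw [cl_act H]
    exact he.kills (2 * j) (by omega) _ (H.cl_mem hz)
  have h3 := hom_of_zero hN he hw.le h0 h1 h2
  rwa [← C.act_comp, he.idem] at h3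

/-- Projectors of weight at least `2 j` kill the homologically trivial cycles of codimension `j`. -/
lemma P.act_hom (hN : Sys H ε N) (h : P H ε N X j) {e : C.A (X.prod X)} {w : ℤ}
    (he : IsWt H e w) (hw : 2 * (j : ℤ) ≤ w) {z : C.A X} (hz : z ∈ C.gr X j) (hcl : H.cl z = 0) :
    C.act e z = 0 :=
  hom_of_zero hN he hw (fun _ hz => h.act_zero he (by omega) hz) hz hcl

/-- Projectors of weight greater than `2 j` kill the cycles of codimension `j`. -/
lemma P.act_all (hN : Sys H ε N) (h : P H ε N X j) {e : C.A (X.prod X)} {w : ℤ}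
    (he : IsWt H e w) (hw : 2 * (j : ℤ) < w) {z : C.A X} (hz : z ∈ C.gr X j) :
    C.act e z = 0 :=
  all_of_zero hN he hw (fun _ hz => h.act_zero he (by omega) hz) hz

lemma kills_tp {p : C.A (X.prod X)} {w : ℤ} (hpm : p ∈ C.gr (X.prod X) X.dim)
    (hp : ∀ m : ℤ, m ≠ w → Kills H p m) (m : ℤ) (hm : m ≠ 2 * X.dim - w) :
    Kills H (tp C p) m := by
  intro b hb
  apply H.nondeg
  have h2 : H.tr X ∘ₗ LinearMap.mulLeft K (H.act (H.cl (tp C p)) b) = 0 := by
    apply ext_gr H
    intro n a ha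
    rw [LinearMap.comp_apply, LinearMap.mulLeft_apply, tr_act' H, LinearMap.zero_apply]
    by_cases hn : n = w
    · have hq : H.act (H.cl p) a ∈ H.gr X n := actH_deg (H := H) hpm ha (by ring)
      exact tr_zero H (H.mul_mem hb hq) (by omega)
    · rw [hp n hn a ha, mul_zero, map_zero]
  exact fun a => LinearMap.congr_fun h2 a

lemma IsWt.tp {e : C.A (X.prod X)} {w : ℤ} (h : IsWt H e w) :
    IsWt H (tp C e) (2 * X.dim - w) where
  mem := tp_mem C h.mem
  idem := by rw [← tp_comp', h.idem]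
  kills := kills_tp h.mem h.kills

lemma kills_tens {p : C.A (X.prod X)} {q : C.A (Y.prod Y)} {w w' : ℤ}
    (hp : ∀ m : ℤ, m ≠ w → Kills H p m) (hq : ∀ m : ℤ, m ≠ w' → Kills H q m) (l : ℤ)
    (hl : l ≠ w + w') : Kills H (tens C p q) l := by
  intro a ha
  have h1 := H.kunneth X Y l ha
  clear ha
  induction h1 using Submodule.span_induction with
  | mem x hx =>
    obtain ⟨i, a, b, hi, hj, rfl⟩ := hx
    have e0 : H.pull (fst X Y) a * H.pull (snd X Y) b = H.ext a b := rfl
    rw [e0, actH_tens_ext]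
    by_cases hin : i = w
    · rw [hq (l - i) (by rw [hin]; omega) b hj, TheoryData.ext_zero_right]
    · rw [hp i hin a hi, TheoryData.ext_zero_left]
  | zero => exact TheoryData.act_map_zero _ _
  | add x y _ _ hx hy => rw [act_map_add, hx, hy, add_zero]
  | smul r x _ hx => rw [act_map_smul, hx, smul_zero]

lemma IsWt.tens {e : C.A (X.prod X)} {e' : C.A (Y.prod Y)} {w w' : ℤ} (h : IsWt H e w)
    (h' : IsWt H e' w') : IsWt H (tens C e e') (w + w') where
  mem := by
    have h1 := tens_mem C h.mem h'.mem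
    rw [dim_prod]
    push_cast
    exact h1
  idem := by rw [tens_comp'', h.idem, h'.idem]
  kills := kills_tens h.kills h'.kills

lemma act_conj {e : C.A (X.prod X)} {e' : C.A (Y.prod Y)} (D : C.A (X.prod Y)) :
    C.act (TH133.tens C (TH133.tp C e) e') D = C.comp (C.comp e D) e' := by
  rw [act_tens C (ch_comm C), tp_tp]

section class_

variable {e : C.A (X.prod X)} {e' : C.A (Y.prod Y)} {w w' s : ℤ} {D : C.A (X.prod Y)}

lemma Van.weights (hV : Van H ε N S) (hX : S X) (hY : S Y) (he : IsWt H e w)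
    (he' : IsWt H e' w') (hD : D ∈ C.gr (X.prod Y) (X.dim + s)) :
    (w + 2 * s < w' → C.comp (C.comp e D) e' = 0) ∧
    (w + 2 * s = w' → H.cl D = 0 → C.comp (C.comp e D) e' = 0) := by
  rcases lt_or_ge ((X.dim : ℤ) + s) 0 with h | h
  · have h0 : D = 0 := zero_of_neg hD h
    subst h0
    exact ⟨fun _ => by rw [comp_zero, zero_comp], fun _ _ => by rw [comp_zero, zero_comp]⟩
  · obtain ⟨j, hj⟩ := Int.eq_ofNat_of_zero_le h
    rw [hj] at hD
    have h1 := he.tp.tens he'
    have hP := hV.prod X Y hX hY j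
    rw [← act_conj (H := H)]
    exact ⟨fun hw => hP.act_all hV.sys h1 (by omega) hD,
      fun hw hcl => hP.act_hom hV.sys h1 (by omega) hD hcl⟩

lemma Van.raise (hV : Van H ε N S) (hX : S X) (hY : S Y) (he : IsWt H e w)
    (he' : IsWt H e' w') (hD : D ∈ C.gr (X.prod Y) (X.dim + s)) (hw : w + 2 * s < w') :
    C.comp (C.comp e D) e' = 0 := (hV.weights hX hY he he' hD).1 hw

lemma Van.same (hV : Van H ε N S) (hX : S X) (hY : S Y) (he : IsWt H e w)
    (he' : IsWt H e' w') (hD : D ∈ C.gr (X.prod Y) (X.dim + s)) (hw : w + 2 * s = w')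
    (hcl : H.cl D = 0) : C.comp (C.comp e D) e' = 0 := (hV.weights hX hY he he' hD).2 hw hcl

end class_

end Pool.Agent.N567.MD
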