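import Pool.Agent.N567.MD.Raise
import Pool.Agent.Y110.Kf
import Pool.Agent.X308.S.TriMain

/-!
# Finite-dimensional motives and Chow-Kunneth decompositions
-/

set_option autoImplicit false

open CategoryTheory AlgebraicGeometry

universe u v w

namespace Pool.Agent.N567.MD

open Pool.Agent.H914 Pool.Agent.H914.VarClass Pool.Agent.H914.VarClass.Obj Pool.Agent.W492.BB
  Pool.Agent.W550.Corr Pool.Agent.TH133 Pool.Agent.Y148.BB Pool.Agent.X308.S
  Pool.Agent.TH829.Kim
open Pool.Agent.N164.BB (graph_mem exists_zeroCycle exists_point sum_act cl_of_mem_F1)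
open Pool.Agent.Y110 (NoPhantoms GradedCommutative isNilpotent_of_kimura noPhantoms_of_kimura
  isKimuraFinite_of_noPhantoms)

set_option linter.unusedSectionVars false
set_option linter.unusedVariables false

attribute [-instance] Pool.Agent.TH829.Kim.chCommRing

variable {k : Type u} [Field k] {𝒱 : VarClass k}

variable {C : TheoryData.{u, v, 0} 𝒱 ℚ} [hC : IsChowProj C] {K : Type w} [Field K]
  {H : WeilTheoryData.{u, v, w} C K} [hH : IsWeilProj H] {S : 𝒱.Obj → Prop} {T X Y Z W X' : 𝒱.Obj}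
  {π ρ : ℕ → C.A (X.prod X)}

include hC hH

/-- If the motive of `X` is finite-dimensional, then all the Chow-Kunneth decompositions of `X` are
conjugate. -/
theorem exists_conj (hK : IsKimuraFinite C (ratFam C) X) (h : IsCK H X π) (h' : IsCK H X ρ) :
    ∃ s t : C.A (X.prod X), s ∈ C.gr (X.prod X) X.dim ∧ t ∈ C.gr (X.prod X) X.dim ∧
      C.comp s t = dg C X ∧ C.comp t s = dg C X ∧
      ∀ b, ρ b = C.comp (C.comp t (π b)) s := by
  let p : ℕ → R0 C X := fun i => ofA (π i) (h.deg i)
  let q : ℕ → R0 C X := fun i => ofA (ρ i) (h'.deg i)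
  have hp : ∀ i j, p i * p j = if i = j then p i else 0 := by
    intro i j
    apply toA_inj
    have h1 := h.comp_eq j i
    rw [toA_mul]
    change C.comp (π j) (π i) = _
    rw [h1]
    split_ifs with h2 h3 h3
    · rw [h2]; rfl
    · exact absurd h2.symm h3
    · exact absurd h3.symm h2
    · rfl
  have hq : ∀ i j, q i * q j = if i = j then q i else 0 := by
    intro i j
    apply toA_inj
    have h1 := h'.comp_eq j i
    rw [toA_mul]
    change C.comp (ρ j) (ρ i) = _
    rw [h1]
    split_ifs with h2 h3 h3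
    · rw [h2]; rfl
    · exact absurd h2.symm h3
    · exact absurd h3.symm h2
    · rfl
  set N := 2 * X.dim + 1 with hN
  let x : R0 C X := ∑ i ∈ Finset.range N, q i * p i
  have hxA : toA x = ∑ i ∈ Finset.range N, C.comp (π i) (ρ i) := by
    change toA (∑ i ∈ Finset.range N, q i * p i) = _
    rw [map_sum]
    rfl
  have hcl : H.cl (toA (1 - x)) = 0 := by
    apply cl_zero_of
    intro m a ha
    rw [map_sub, toA_one, hxA, map_sub, TheoryData.act_sub, cl_dg, act_dg, map_sum, act_sum]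
    have h1 : ∀ i ∈ Finset.range N, H.act (H.cl (C.comp (π i) (ρ i))) a =
        H.act (H.cl (π i)) a := by
      intro i _
      rw [actH_comp, h.actH_eq i m ha]
      split_ifs with hm
      · rw [h'.actH_eq i m ha, if_pos hm]
      · rw [TheoryData.act_map_zero]
    rw [Finset.sum_congr rfl h1, ← act_sum, ← map_sum, h.sum, cl_dg, act_dg, sub_self]
  have hnil := isNilpotent_of_kimura (H := H) hK hcl
  have hu : IsUnit x := by
    have h1 := hnil.isUnit_one_sub
    rwa [sub_sub_cancel] at h1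
  obtain ⟨U, hU⟩ := hu
  have hxp : ∀ b, x * p b = q b * x := by
    intro b
    change (∑ i ∈ Finset.range N, q i * p i) * p b = q b * ∑ i ∈ Finset.range N, q i * p i
    rw [Finset.sum_mul, Finset.mul_sum]
    apply Finset.sum_congr rfl
    intro i _
    rw [mul_assoc, hp, ← mul_assoc, hq]
    by_cases hib : i = b
    · rw [if_pos hib, if_pos hib.symm, hib]
    · rw [if_neg hib, if_neg (Ne.symm hib), mul_zero, zero_mul]
  have hq' : ∀ b, q b = x * p b * (↑U⁻¹ : R0 C X) := by
    intro b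
    rw [hxp, ← hU, mul_assoc, Units.mul_inv, mul_one]
  refine ⟨toA x, toA (↑U⁻¹ : R0 C X), toA_mem _, toA_mem _, ?_, ?_, fun b => ?_⟩
  · rw [← toA_mul, ← hU, Units.inv_mul, toA_one]
  · rw [← toA_mul, ← hU, Units.mul_inv, toA_one]
  · have h1 : toA (q b) = toA (x * p b * (↑U⁻¹ : R0 C X)) := by rw [← hq' b]
    rw [toA_mul, toA_mul, ← comp_assoc] at h1
    exact h1

/-- Vanishing properties for one decomposition imply those for all decompositions. -/
theorem kill_of_conj (hK : IsKimuraFinite C (ratFam C) X) (h : IsCK H X π) (h' : IsCK H X ρ)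
    {b : ℕ} {M : Submodule ℚ (C.A X)}
    (hM : ∀ Γ ∈ C.gr (X.prod X) X.dim, ∀ z ∈ M, C.act Γ z ∈ M)
    (hk : ∀ z ∈ M, C.act (π b) z = 0) : ∀ z ∈ M, C.act (ρ b) z = 0 := by
  obtain ⟨s, t, hs, ht, -, -, hst⟩ := exists_conj hK h h'
  intro z hz
  rw [hst, C.act_comp, C.act_comp, hk _ (hM t ht z hz), TheoryData.act_map_zero]

omit hC hH in
/-- The homologically trivial cycles of codimension `j`. -/
def homN (H : WeilTheoryData.{u, v, w} C K) (X : 𝒱.Obj) (j : ℕ) : Submodule ℚ (C.A X) where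
  carrier := {z | z ∈ C.gr X j ∧ H.cl z = 0}
  zero_mem' := ⟨Submodule.zero_mem _, map_zero _⟩
  add_mem' := by
    rintro a b ⟨ha, ha'⟩ ⟨hb, hb'⟩
    exact ⟨Submodule.add_mem _ ha hb, by rw [map_add, ha', hb', add_zero]⟩
  smul_mem' := by
    rintro c a ⟨ha, ha'⟩
    refine ⟨Submodule.smul_mem _ c ha, ?_⟩
    have h1 : c • a = (c • (1 : C.A X)) * a := by rw [smul_mul_assoc, one_mul]
    change H.cl (c • a) = 0
    rw [h1, map_mul, ha', mul_zero]

omit hC hH in
lemma mem_homN {j : ℕ} {z : C.A X} : z ∈ homN H X j ↔ z ∈ C.gr X j ∧ H.cl z = 0 := Iff.rfl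

lemma act_homN {Γ : C.A (X.prod Y)} {j i : ℕ} (hΓ : Γ ∈ C.gr (X.prod Y) ((X.dim : ℤ) + i - j))
    {z : C.A X} (hz : z ∈ homN H X j) : C.act Γ z ∈ homN H Y i := by
  refine ⟨act_deg hΓ hz.1 (by ring), ?_⟩
  rw [cl_act H, hz.2, TheoryData.act_map_zero]

lemma sys_hom : Sys H 0 (homN H) where
  le_one := zero_le_one
  deg X j z hz := hz
  stable X Y j i Γ h1 z hz := act_homN h1 hz
  kills X Y j i Γ h1 _ z hz hcl := act_homN h1 ⟨hz, hcl⟩

/-- If no Chow-Kunneth decomposition of the power `X^4` has raising endomorphisms, then `X` has no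
phantoms. -/
theorem noPhantoms_of_B0 (h : ∀ Y : 𝒱.Obj, MurreB0 H Y) (hπ : IsCK H X π) : NoPhantoms H X := by
  intro p hp hpp hcl
  have hC' : ∀ Y : 𝒱.Obj, MurreC H Y := fun Y => murreC_of_B0 Y (h _)
  have hck : IsCK H (X.prod X) (prodCK C π π) := hπ.prod hπ
  have hT : NoRaising C (prodCK C π π) := by
    intro γ hγ a b hab
    exact comp_zero_of_B0 (h _) hck hck hγ (by omega)
  have hph := phantoms_of_murreC hck hT (hC' _)
  have hten : tens C (dg C X) p ∈ C.gr ((X.prod X).prod (X.prod X)) (X.prod X).dim := by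
    have h1 := tens_mem C (dg_mem C X) hp
    rw [dim_prod]
    push_cast
    exact h1
  have h1 := hph (tens C (dg C X) p) hten ?_ ?_ (dg C X)
  · have h2 := act_conj (H := H) (e := dg C X) (e' := p) (dg C X)
    rw [tp_dg, dg_comp, dg_comp] at h2
    rw [← h2]
    exact h1
  · rw [tens_comp', dg_comp, hpp]
  · rw [cl_tens, hcl, tens, map_zero, mul_zero]

end Pool.Agent.N567.MD
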