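import Pool.Agent.N567.MD.Idem

/-!
# Kunneth projectors modulo homological equivalence for a Lefschetz class of varieties
-/

set_option autoImplicit false

open CategoryTheory AlgebraicGeometry

universe u v w

namespace Pool.Agent.N567.MD

open Pool.Agent.H914 Pool.Agent.H914.VarClass Pool.Agent.H914.VarClass.Obj Pool.Agent.W492.BB
  Pool.Agent.W550.Corr Pool.Agent.TH133 Pool.Agent.Y148.BB Pool.Agent.X308.S
open Pool.Agent.N164.BB (graph_mem exists_zeroCycle exists_point)

set_option linter.unusedSectionVars false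
set_option linter.unusedVariables false

variable {k : Type u} [Field k] {𝒱 : VarClass k}

section defs

variable {C : TheoryData.{u, v, 0} 𝒱 ℚ} {K : Type w} [Field K] (H : WeilTheoryData.{u, v, w} C K)

/-- For all `m < dim X` the cohomology group `H^m(X)` is, through algebraic correspondences, a
direct summand of `H^m(Y)` for a variety `Y` of the class of dimension `m`. -/
def IsLefschetzClass : Prop :=
  ∀ (X : 𝒱.Obj) (m : ℕ), m < X.dim → ∃ (Y : 𝒱.Obj) (a : C.A (X.prod Y)) (b : C.A (Y.prod X)),
    Y.dim = m ∧ C.Deg X.dim a ∧ C.Deg m b ∧ ∀ x, H.Deg m x → H.act (H.cl (C.comp a b)) x = x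

/-- The correspondence `p` of degree zero acts as the identity on `H^a(X)` and as zero on the
other groups. -/
structure IsKun {X : 𝒱.Obj} (p : C.A (X.prod X)) (a : ℤ) : Prop where
  mem : p ∈ C.gr (X.prod X) X.dim
  act : ∀ (l : ℤ) (x : H.A X), x ∈ H.gr X l → H.act (H.cl p) x = if l = a then x else 0

end defs

variable {C : TheoryData.{u, v, 0} 𝒱 ℚ} [hC : IsChowProj C] {K : Type w} [Field K]
  {H : WeilTheoryData.{u, v, w} C K} [hH : IsWeilProj H] {S : 𝒱.Obj → Prop} {T X Y Z W X' : 𝒱.Obj}
  {N : ∀ X : 𝒱.Obj, ℕ → Submodule ℚ (C.A X)} {ε j : ℕ}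

include hC hH

lemma IsKun.tp {p : C.A (X.prod X)} {a : ℤ} (h : IsKun H p a) :
    IsKun H (tp C p) (2 * X.dim - a) where
  mem := tp_mem C h.mem
  act l b hb := by
    have hkill : ∀ m : ℤ, m ≠ a → Kills H p m := by
      intro m hm x hx
      rw [h.act m x hx, if_neg hm]
    split_ifs with hl
    · rw [← sub_eq_zero]
      apply H.nondeg
      have h2 : H.tr X ∘ₗ LinearMap.mulLeft K (H.act (H.cl (TH133.tp C p)) b) =
          H.tr X ∘ₗ LinearMap.mulLeft K b := by
        apply ext_gr H
        intro m x hx
        rw [LinearMap.comp_apply, LinearMap.comp_apply, LinearMap.mulLeft_apply,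
          LinearMap.mulLeft_apply, tr_act' H, h.act m x hx]
        split_ifs with h3
        · rfl
        · rw [mul_zero, map_zero]
          exact (tr_zero H (H.mul_mem hb hx) (by omega)).symm
      intro x
      have h3 := LinearMap.congr_fun h2 x
      rw [LinearMap.comp_apply, LinearMap.comp_apply, LinearMap.mulLeft_apply,
        LinearMap.mulLeft_apply] at h3
      rw [sub_mul, map_sub, h3, sub_self]
    · exact kills_tp h.mem hkill l hl b hb

lemma IsKun.of_summand {α : C.A (X.prod Y)} {β : C.A (Y.prod X)} {m : ℕ}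
    (hα : α ∈ C.gr (X.prod Y) X.dim) (hβ : β ∈ C.gr (Y.prod X) Y.dim)
    (h : ∀ x, H.Deg m x → H.act (H.cl (C.comp α β)) x = x) {p : C.A (Y.prod Y)}
    (hp : IsKun H p m) : IsKun H (C.comp α (C.comp p β)) m where
  mem := comp_deg hα (comp_deg hp.mem hβ rfl) (by ring)
  act l x hx := by
    have h1 : H.act (H.cl α) x ∈ H.gr Y l := actH_deg (H := H) hα hx (by ring)
    rw [actH_comp, actH_comp, hp.act l _ h1]
    split_ifs with hl
    · rw [← actH_comp]
      subst hl
      exact h x hx
    · rw [TheoryData.act_map_zero]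

lemma isKun_zero {a : ℤ} (h : H.gr X a = ⊥) : IsKun H (0 : C.A (X.prod X)) a where
  mem := Submodule.zero_mem _
  act l x hx := by
    rw [map_zero, TheoryData.act_zero]
    split_ifs with hl
    · subst hl
      rw [h] at hx
      exact ((Submodule.mem_bot _).1 hx).symm
    · rfl

lemma actH_sum' {ι : Type*} (s : Finset ι) (f : ι → C.A (X.prod X)) (x : H.A X) :
    H.act (H.cl (∑ i ∈ s, f i)) x = ∑ i ∈ s, H.act (H.cl (f i)) x := by
  rw [map_sum, act_sum]

omit hC hH in
lemma sum_ite_low {M : Type*} [AddCommMonoid M] (a : ℕ) (l : ℤ) (x : M) :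
    ∑ b ∈ Finset.range a, (if l = (b : ℤ) then x else 0) = if 0 ≤ l ∧ l < a then x else 0 := by
  split_ifs with h
  · obtain ⟨b, rfl⟩ := Int.eq_ofNat_of_zero_le h.1
    rw [Finset.sum_eq_single b]
    · rw [if_pos rfl]
    · intro c _ hc
      rw [if_neg (by omega)]
    · intro hb
      exact absurd (Finset.mem_range.2 (by omega)) hb
  · apply Finset.sum_eq_zero
    intro b hb
    rw [Finset.mem_range] at hb
    rw [if_neg (by omega)]

omit hC hH in
lemma sum_ite_high {M : Type*} [AddCommMonoid M] (a : ℕ) (l : ℤ) (x : M) :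
    ∑ b ∈ Finset.range a, (if l = 2 * (a : ℤ) - b then x else 0) =
      if (a : ℤ) < l ∧ l ≤ 2 * a then x else 0 := by
  have h1 : ∀ b ∈ Finset.range a, (if l = 2 * (a : ℤ) - b then x else 0) =
      if (2 * (a : ℤ) - l) = (b : ℤ) then x else 0 := by
    intro b _
    by_cases h : l = 2 * (a : ℤ) - b
    · rw [if_pos h, if_pos (by omega)]
    · rw [if_neg h, if_neg (by omega)]
  rw [Finset.sum_congr rfl h1, sum_ite_low]
  by_cases h : (a : ℤ) < l ∧ l ≤ 2 * a
  · rw [if_pos h, if_pos (by omega)]
  · rw [if_neg h, if_neg (by omega)]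

/-- **The Kunneth conjecture holds for a Lefschetz class.** -/
theorem exists_kun (hL : IsLefschetzClass H) : ∀ (n : ℕ) (X : 𝒱.Obj), X.dim = n →
    ∀ a : ℕ, ∃ p : C.A (X.prod X), IsKun H p a := by
  intro n
  induction n using Nat.strong_induction_on with
  | _ n ih =>
    intro X hX
    have hlow : ∀ a : ℕ, ∃ p : C.A (X.prod X), a < n → IsKun H p a := by
      intro a
      by_cases ha : a < n
      · obtain ⟨Y, α, β, hY, hα, hβ, hαβ⟩ := hL X a (by rw [hX]; exact ha)
        obtain ⟨p, hp⟩ := ih a ha Y hY a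
        refine ⟨C.comp α (C.comp p β), fun _ => IsKun.of_summand hα ?_ hαβ hp⟩
        rw [hY]
        exact hβ
      · exact ⟨0, fun h => absurd h ha⟩
    choose p hp using hlow
    intro a
    rcases lt_trichotomy a n with ha | rfl | ha
    · exact ⟨p a, hp a ha⟩
    · refine ⟨dg C X - ∑ b ∈ Finset.range a, (p b + tp C (p b)), ?_, ?_⟩
      · refine Submodule.sub_mem _ (dg_mem C X) (Submodule.sum_mem _ fun b hb => ?_)
        have h1 := hp b (Finset.mem_range.1 hb)
        exact Submodule.add_mem _ h1.mem (tp_mem C h1.mem)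
      · intro l x hx
        rw [map_sub, TheoryData.act_sub, actH_dg, actH_sum']
        have h2 : ∀ b ∈ Finset.range a, H.act (H.cl (p b + tp C (p b))) x =
            (if l = b then x else 0) + (if l = 2 * a - b then x else 0) := by
          intro b hb
          have h1 := hp b (Finset.mem_range.1 hb)
          rw [map_add, TheoryData.act_add, h1.act l x hx, h1.tp.act l x hx, hX]
        rw [Finset.sum_congr rfl h2, Finset.sum_add_distrib, sum_ite_low, sum_ite_high]
        by_cases h3 : 0 ≤ l ∧ l ≤ 2 * (a : ℤ)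
        · rcases lt_trichotomy l (a : ℤ) with h4 | h4 | h4
          · rw [if_pos (by omega), if_neg (by omega), if_neg (by omega), add_zero, sub_self]
          · rw [if_neg (by omega), if_neg (by omega), if_pos h4, add_zero, sub_zero]
          · rw [if_neg (by omega), if_pos (by omega), if_neg (by omega), zero_add, sub_self]
        · have hx0 : x = 0 := by
            rcases lt_or_ge l 0 with h4 | h4
            · exact hgr_neg hx h4
            · have h5 : H.gr X l = ⊥ := gr_top H (by omega)
              rw [h5] at hx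
              exact (Submodule.mem_bot _).1 hx
          rw [hx0]
          simp
    · by_cases ha2 : a ≤ 2 * n
      · refine ⟨tp C (p (2 * n - a)), ?_⟩
        have h1 := (hp (2 * n - a) (by omega)).tp
        rw [hX] at h1
        have e : 2 * (n : ℤ) - ((2 * n - a : ℕ) : ℤ) = a := by omega
        rwa [e] at h1
      · exact ⟨0, isKun_zero (gr_top H (by omega))⟩

end Pool.Agent.N567.MD
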