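import Pool.Agent.N567.MD.Sym

/-!
# The second half of (B) and finite-dimensionality
-/

set_option autoImplicit false

open CategoryTheory AlgebraicGeometry

universe u v w

namespace Pool.Agent.N567.MD

open Pool.Agent.H914 Pool.Agent.H914.VarClass Pool.Agent.H914.VarClass.Obj Pool.Agent.W492.BB
  Pool.Agent.W550.Corr Pool.Agent.TH133 Pool.Agent.Y148.BB Pool.Agent.X308.S
  Pool.Agent.TH829.Kim
open Pool.Agent.N164.BB (graph_mem exists_zeroCycle exists_point sum_act cl_of_mem_F1)
open Pool.Agent.Y110 (NoPhantoms GradedCommutative isNilpotent_of_kimura noPhantoms_of_kimura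
  isKimuraFinite_of_noPhantoms)

set_option linter.unusedSectionVars false
set_option linter.unusedVariables false

attribute [-instance] Pool.Agent.TH829.Kim.chCommRing

variable {k : Type u} [Field k] {𝒱 : VarClass k}

variable {C : TheoryData.{u, v, 0} 𝒱 ℚ} [hC : IsChowProj C] {K : Type w} [Field K]
  {H : WeilTheoryData.{u, v, w} C K} [hH : IsWeilProj H] {S : 𝒱.Obj → Prop} {T X Y Z W X' : 𝒱.Obj}
  {π ρ : ℕ → C.A (X.prod X)}

include hC hH

lemma ckFil_eq_bot_iff (h : IsCK H X π) (i : ℕ) : ckFil C π i (i + 1) = ⊥ ↔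
    ∀ w < i, ∀ x ∈ C.gr X i, C.act (π w) x = 0 := by
  constructor
  · intro h1 w hw x hx
    have h2 : C.act (π w) x ∈ ckFil C π i (i + 1) := by
      rw [h.mem_ckFil]
      refine ⟨act_mem0 C (h.deg w) hx, fun j hj => ?_⟩
      rw [← C.act_comp, h.orth w j (by omega), TheoryData.act_zero]
    rw [h1] at h2
    exact (Submodule.mem_bot _).1 h2
  · intro h1
    rw [eq_bot_iff]
    intro x hx
    rw [h.mem_ckFil] at hx
    rw [Submodule.mem_bot, sum_act h x]
    apply Finset.sum_eq_zero
    intro w _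
    by_cases hw : i ≤ w
    · exact hx.2 w (by omega)
    · exact h1 w (by omega) x hx.1

/-- **If the projectors of weight zero act as zero on the cycles of positive codimension, then the
parts `h^a` have no phantoms.** -/
theorem noPh_of_kills (h : ∀ (Z : 𝒱.Obj) (κ : ℕ → C.A (Z.prod Z)), IsCK H Z κ → ∀ i : ℕ, 0 < i →
    ∀ x ∈ C.gr Z i, C.act (κ 0) x = 0) (Y : 𝒱.Obj) : NoPh H Y := by
  intro ρ hρ a e he hee hcl hae hea
  rcases Nat.eq_zero_or_pos Y.dim with h0 | h0
  · exact gr_zero_eq (H := H) (by rw [h0] at he; exact_mod_cast he) hcl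
  have hdZ : (Y.prod Y).dim = Y.dim + Y.dim := dim_prod Y Y
  have hκ : IsCK H (Y.prod Y) (prodCK C ρ ρ) := hρ.prod hρ
  set κ : ℕ → C.A ((Y.prod Y).prod (Y.prod Y)) := prodCK C ρ ρ with hκd
  have hB : ∀ κ' : ℕ → C.A ((Y.prod Y).prod (Y.prod Y)), IsCK H (Y.prod Y) κ' → ∀ x ∈ C.gr (Y.prod Y) Y.dim, C.act (κ' 0) x = 0 :=
    fun κ' h' x hx => h (Y.prod Y) κ' h' Y.dim h0 x hx
  have key : ∀ c : ℕ, ∀ x ∈ C.gr (Y.prod Y) Y.dim, C.act (tens C (ρ c) e) x = 0 := by
    intro c x hx
    set f : C.A ((Y.prod Y).prod (Y.prod Y)) := tens C (ρ c) e with hf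
    have hfm : f ∈ C.gr ((Y.prod Y).prod (Y.prod Y)) (Y.prod Y).dim := by
      have h1 := tens_mem C (hρ.deg c) he
      rw [hdZ]
      push_cast
      exact h1
    have hff : C.comp f f = f := by rw [hf, tens_comp', hρ.idem, hee]
    have hfcl : H.cl f = 0 := by rw [hf, cl_tens, hcl, tens, map_zero, mul_zero]
    have h1 : C.comp (κ (c + a)) f = f := by
      rw [hκd, prodCK, sum_comp]
      simp_rw [hf, tens_comp', hρ.comp_eq]
      rw [Finset.sum_eq_single c]
      · rw [if_pos rfl, Nat.add_sub_cancel_left, hae]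
      · intro i _ hi
        rw [if_neg hi, tens_zero_left]
      · intro h2
        rw [Finset.mem_range] at h2
        omega
    have h2 : C.comp f (κ (c + a)) = f := by
      rw [hκd, prodCK, comp_sum]
      simp_rw [hf, tens_comp', hρ.comp_eq]
      rw [Finset.sum_eq_single c]
      · rw [if_pos rfl, Nat.add_sub_cancel_left, hea]
      · intro i _ hi
        rw [if_neg (Ne.symm hi), tens_zero_left]
      · intro h2
        rw [Finset.mem_range] at h2
        omega
    rcases Nat.eq_zero_or_pos (c + a) with h3 | h3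
    · rw [h3] at h1
      rw [← h1, C.act_comp, hB κ hκ x hx, TheoryData.act_map_zero]
    rcases Nat.lt_or_ge (2 * (Y.prod Y).dim) (c + a) with h4 | h4
    · rw [hκ.out (c + a) h4, zero_comp] at h1
      rw [← h1, TheoryData.act_zero]
    have hck : IsCK H (Y.prod Y) (mv κ f (c + a) 0) :=
      IsCK.move (P := κ) hκ hfm hff hfcl (by omega) h2 h1 h4 (Nat.zero_le _)
    have h5 := hB _ hck x hx
    have h6 : mv κ f (c + a) 0 0 = κ 0 + f := by
      change (if 0 = c + a then κ (c + a) - f else if 0 = 0 then κ 0 + f else κ 0) = κ 0 + f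
      rw [if_neg (by omega), if_pos rfl]
    rw [h6, TheoryData.act_add, hB κ hκ x hx, zero_add] at h5
    exact h5
  have h1 : tens C (dg C Y) e = ∑ c ∈ Finset.range (2 * Y.dim + 1), tens C (ρ c) e := by
    rw [← hρ.sum, tens, map_sum, Finset.sum_mul]
    rfl
  have h2 := act_conj (H := H) (e := dg C Y) (e' := e) (dg C Y)
  rw [tp_dg, dg_comp, dg_comp] at h2
  rw [← h2, h1, act_sum]
  exact Finset.sum_eq_zero fun c _ => key c _ (dg_mem C Y)

/-- If `F^(i+1) CH^i = 0` for all varieties, then the parts `h^a` have no phantoms. -/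
theorem noPh_of_B1 (h : ∀ Y : 𝒱.Obj, MurreB1 H Y) (Y : 𝒱.Obj) : NoPh H Y :=
  noPh_of_kills (fun Z κ h' i hi x hx => (ckFil_eq_bot_iff h' i).1 (h Z κ h' i) 0 hi x hx) Y

/-- **For classes with Lefschetz properties, finite-dimensionality implies that projectors of weight
`w < i` act as zero on `CH^i(X)`.** -/
theorem B1_of_kimura (hL : IsLefschetzClass H) (hK : IsKimuraFinite C (ratFam C) X)
    (h : IsCK H X π) {i w : ℕ} (hw : w < i) {x : C.A X} (hx : x ∈ C.gr X i) :
    C.act (π w) x = 0 := by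
  rcases Nat.lt_or_ge X.dim i with hi | hi
  · rw [zero_of_top hx (by exact_mod_cast hi), TheoryData.act_map_zero]
  obtain ⟨Y, α, β, hY, hα, hβ, hαβ⟩ := hL X w (by omega)
  have hβ' : β ∈ C.gr (Y.prod X) Y.dim := by rw [hY]; exact hβ
  have hαβm : C.comp α β ∈ C.gr (X.prod X) X.dim := comp_deg hα hβ' (by ring)
  let p : R0 C X := ofA (π w) (h.deg w)
  let g : R0 C X := ofA (C.comp α β) hαβm
  have hpp : p * p = p := toA_inj (h.idem w)
  have hcl : H.cl (toA (p - p * g * p)) = 0 := by
    apply cl_zero_of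
    intro m a ha
    rw [map_sub, map_sub, TheoryData.act_sub, toA_mul, toA_mul, actH_comp, actH_comp]
    change H.act (H.cl (π w)) a - H.act (H.cl (π w)) (H.act (H.cl (C.comp α β))
      (H.act (H.cl (π w)) a)) = 0
    rw [h.actH_eq w m ha]
    split_ifs with hm
    · subst hm
      rw [hαβ a ha, h.actH_eq w _ ha, if_pos rfl, sub_self]
    · rw [TheoryData.act_map_zero, TheoryData.act_map_zero, sub_zero]
  have hnil := isNilpotent_of_kimura (H := H) hK hcl
  obtain ⟨U, hU⟩ := hnil.isUnit_one_sub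
  have h1 : (U : R0 C X) * p = p * g * p := by
    rw [hU, sub_mul, sub_mul, one_mul, mul_assoc (p * g) p p, hpp, sub_sub_cancel]
  have h2 : p = (↑U⁻¹ : R0 C X) * (p * g * p) := by
    rw [← h1, ← mul_assoc, Units.inv_mul, one_mul]
  have h3 : ∀ a b : R0 C X, ∀ y : C.A X,
      C.act (toA (a * b)) y = C.act (toA a) (C.act (toA b) y) := by
    intro a b y
    rw [toA_mul, C.act_comp]
  have h4 : C.act (toA g) (C.act (toA p) x) = 0 := by
    change C.act (C.comp α β) (C.act (π w) x) = 0
    have h4 : C.act (π w) x ∈ C.gr X i := act_mem0 C (h.deg w) hx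
    have h5 : C.act α (C.act (π w) x) ∈ C.gr Y i := act_deg hα h4 (by ring)
    rw [C.act_comp, zero_of_top h5 (by rw [hY]; exact_mod_cast hw), TheoryData.act_map_zero]
  change C.act (toA p) x = 0
  rw [h2, h3, h3, h3, h4, TheoryData.act_map_zero, TheoryData.act_map_zero]

end Pool.Agent.N567.MD
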