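import Pool.Agent.N567.MD.Kim
import Pool.Agent.N567.MD.MainA

/-!
# Murre's conjecture (D) in the middle dimension
-/

set_option autoImplicit false

open CategoryTheory AlgebraicGeometry

universe u v w

namespace Pool.Agent.N567.MD

open Pool.Agent.H914 Pool.Agent.H914.VarClass Pool.Agent.H914.VarClass.Obj Pool.Agent.W492.BB
  Pool.Agent.W550.Corr Pool.Agent.TH133 Pool.Agent.Y148.BB Pool.Agent.X308.S
  Pool.Agent.TH829.Kim
open Pool.Agent.N164.BB (graph_mem exists_zeroCycle exists_point sum_act cl_of_mem_F1)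
open Pool.Agent.Y110 (NoPhantoms GradedCommutative isNilpotent_of_kimura noPhantoms_of_kimura
  isKimuraFinite_of_noPhantoms)

set_option linter.unusedSectionVars false
set_option linter.unusedVariables false

attribute [-instance] Pool.Agent.TH829.Kim.chCommRing

variable {k : Type u} [Field k] {𝒱 : VarClass k}

variable {C : TheoryData.{u, v, 0} 𝒱 ℚ} [hC : IsChowProj C] {K : Type w} [Field K]
  {H : WeilTheoryData.{u, v, w} C K} [hH : IsWeilProj H] {S : 𝒱.Obj → Prop} {T X Y Z W X' : 𝒱.Obj}
  {π ρ : ℕ → C.A (X.prod X)} {N : ∀ X : 𝒱.Obj, ℕ → Submodule ℚ (C.A X)} {ε : ℕ}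

include hC hH

lemma Q_hom_iff {j : ℕ} : Q H 0 (homN H) X j ↔
    ∀ π, IsCK H X π → ∀ x : C.A X, x ∈ ckFil C π j 1 ↔ C.Deg j x ∧ H.cl x = 0 := by
  constructor
  · intro h π hπ x
    constructor
    · intro hx
      refine ⟨?_, cl_of_mem_F1 hπ hx⟩
      rw [hπ.mem_ckFil] at hx
      exact hx.1
    · rintro ⟨hx, hcl⟩
      rw [hπ.mem_ckFil]
      exact ⟨hx, fun w hw => h π hπ w (by push_cast; omega) x ⟨hx, hcl⟩⟩
  · intro h π hπ w hw z hz
    have h1 := (h π hπ z).2 hz
    rw [hπ.mem_ckFil] at h1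
    exact h1.2 w (by push_cast at hw; omega)

/-- Nilpotence with an explicit exponent. -/
lemma VanCK.nil (hV : VanCK H 0 (homN H) S) (hX : S X) (h : IsCK H X π) {j : ℕ}
    {Γ : C.A (X.prod X)} (hΓ : Γ ∈ C.gr (X.prod X) X.dim) (hk : ∀ m : ℤ, m < 2 * j → Kills H Γ m)
    {z : C.A X} (hz : z ∈ homN H X j) : (C.act Γ)^[2 * j] z = 0 := by
  have hΓ' : Γ ∈ C.gr (X.prod X) ((X.dim : ℤ) + j - j) := by
    rwa [add_sub_cancel_right]
  have key : ∀ n : ℕ, (C.act Γ)^[n] z ∈ ckFil C π j (n + 1) := by
    intro n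
    induction n with
    | zero =>
      rw [Function.iterate_zero_apply, zero_add, hV.mem_one hX h]
      exact hz
    | succ n ih =>
      rw [Function.iterate_succ_apply']
      exact hV.shift hX hX h h hΓ' (hk _ (by push_cast; omega)) ih
  have h1 := key (2 * j)
  rw [h.mem_ckFil] at h1
  rw [sum_act h ((C.act Γ)^[2 * j] z)]
  exact Finset.sum_eq_zero fun w _ => h1.2 w (by omega)

lemma VanCK.strict (hV : VanCK H ε N S) (hX : S X) (h : IsCK H X π) (h' : IsCK H X ρ)
    {γ : C.A (X.prod X)} (hγ : γ ∈ C.gr (X.prod X) X.dim) (hcl : H.cl γ = 0) {a b : ℕ}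
    (hab : a ≤ b) : C.comp (C.comp (π a) γ) (ρ b) = 0 := by
  have h1 : γ ∈ C.gr (X.prod X) (X.dim + 0) := by rwa [add_zero]
  rcases Nat.lt_or_eq_of_le hab with h2 | h2
  · exact hV.raise hX hX h h' h1 (by push_cast; omega)
  · exact hV.same hX hX h h' h1 (by push_cast; omega) hcl

omit hC hH in
/-- The condition that homologically trivial correspondences strictly lower the weights. -/
def Strict (H : WeilTheoryData.{u, v, w} C K) (π : ℕ → C.A (X.prod X)) : Prop :=
  ∀ γ ∈ C.gr (X.prod X) X.dim, H.cl γ = 0 → ∀ a b : ℕ, a ≤ b →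
    C.comp (C.comp (π a) γ) (π b) = 0

lemma compList_entry (h : IsCK H X π) (hs : Strict H π) :
    ∀ l : List (C.A (X.prod X)), (∀ γ ∈ l, C.Deg X.dim γ ∧ H.cl γ = 0) →
      ∀ a b : ℕ, a < b + l.length → C.comp (C.comp (π a) (compList C X l)) (π b) = 0 := by
  intro l
  induction l with
  | nil =>
    intro _ a b hab
    rw [compList, comp_dg]
    exact h.orth a b (by simp at hab; omega)
  | cons γ l ih =>
    intro hl a b hab
    obtain ⟨hγ, hcl⟩ := hl γ (by simp)
    have hl' : ∀ γ ∈ l, C.Deg X.dim γ ∧ H.cl γ = 0 := fun γ' h' => hl γ' (by simp [h'])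
    set L := compList C X l with hL
    rw [compList, ← hL]
    have h1 : C.comp (C.comp (π a) (C.comp γ L)) (π b) =
        C.comp (C.comp (C.comp (π a) γ) (dg C X)) (C.comp L (π b)) := by
      rw [comp_dg, comp_assoc C (π a) (C.comp γ L) (π b), comp_assoc C γ L (π b),
        comp_assoc C (π a) γ (C.comp L (π b))]
    rw [h1, ← h.sum, comp_sum, sum_comp]
    apply Finset.sum_eq_zero
    intro c _
    rcases Nat.lt_or_ge c a with hc | hc
    · have h2 : C.comp (C.comp (C.comp (π a) γ) (π c)) (C.comp L (π b)) =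
          C.comp (C.comp (π a) γ) (C.comp (C.comp (π c) L) (π b)) := by
        rw [comp_assoc C (C.comp (π a) γ) (π c) (C.comp L (π b)), comp_assoc C (π c) L (π b)]
      rw [h2, ih hl' c b (by simp at hab; omega), comp_zero]
    · rw [hs γ hγ hcl a c hc, zero_comp]

/-- Compositions of `2 dim X + 1` homologically trivial correspondences vanish. -/
lemma nilpotentOfIndex (h : IsCK H X π) (hs : Strict H π) :
    NilpotentOfIndex H X (2 * X.dim + 1) := by
  intro l hl hmem
  have h1 : compList C X l = C.comp (C.comp (dg C X) (compList C X l)) (dg C X) := by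
    rw [comp_dg, dg_comp]
  rw [h1, ← h.sum, sum_comp, sum_comp]
  apply Finset.sum_eq_zero
  intro a ha
  rw [comp_sum]
  apply Finset.sum_eq_zero
  intro b _
  apply compList_entry h hs l hmem
  rw [Finset.mem_range] at ha
  omega

/-- **The condition on correspondences of `X` implies (D) for `X`.** -/
lemma D_of_strict (h : IsCK H X π) (hs : Strict H π) {i w : ℕ} (hw : 2 * i ≤ w) {x : C.A X}
    (hx : x ∈ homN H X i) : C.act (π w) x = 0 := by
  rcases Nat.lt_or_ge X.dim i with hi | hi
  · rw [zero_of_top hx.1 (by exact_mod_cast hi), TheoryData.act_map_zero]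
  obtain ⟨u, hu, v, hv, huv⟩ := exists_dual_pair (C := C) (H := H) X hi
  set u' := C.act (π (2 * i)) u with hu'
  have hu'm : u' ∈ C.gr X i := act_mem0 C (h.deg _) hu
  have hγ : C.ext v x ∈ C.gr (X.prod X) X.dim := by
    have h1 := ext_mem (C := C) (H := H) hv hx.1
    rwa [sub_add_cancel] at h1
  have hcl : H.cl (C.ext v x) = 0 := by
    rw [TheoryData.ext, map_mul, H.cl_pull, H.cl_pull, hx.2, map_zero, mul_zero]
  have h1 : C.act (C.ext v x) u' = x := by
    rw [act_ext (H := H)]
    have h2 : C.push (snd X X) (C.pull (fst X X) (v * u')) = 1 := by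
      rw [← huv]
      apply deg_eq_of_cl (H := H)
      · have := C.mul_mem hv hu'm
        rwa [sub_add_cancel] at this
      · have := C.mul_mem hv hu
        rwa [sub_add_cancel] at this
      · rw [map_mul, map_mul, hu', cl_act H]
        congr 1
        have h3 := H.cl_mem hu
        exact h.act_self (2 * i) _ (by exact_mod_cast h3)
    rw [h2, one_mul]
  have h2 := hs (C.ext v x) hγ hcl (2 * i) w hw
  have h3 : C.act (C.comp (C.comp (π (2 * i)) (C.ext v x)) (π w)) u = C.act (π w) x := by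
    rw [C.act_comp, C.act_comp, ← hu', h1]
  rw [← h3, h2, TheoryData.act_zero]

/-- Finite-dimensionality and (D) for one decomposition imply (D) for all decompositions. -/
lemma Q_of_kimura {j : ℕ} (hK : IsKimuraFinite C (ratFam C) X) (h : IsCK H X π)
    (hk : ∀ b : ℕ, 2 * j ≤ b → ∀ z ∈ homN H X j, C.act (π b) z = 0) :
    Q H 0 (homN H) X j := by
  intro ρ hρ w hw
  apply kill_of_conj hK h hρ
  · intro Γ hΓ z hz
    refine act_homN ?_ hz
    rwa [add_sub_cancel_right]
  · exact hk w (by push_cast at hw; omega)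

lemma murreB0_of_vanCK (hV : VanCK H ε N (fun _ => True)) (X : 𝒱.Obj) : MurreB0 H X := by
  intro π h i
  ext x
  exact hV.mem_zero trivial h i x

/-- (D) implies that all motives are finite-dimensional. -/
lemma kimura_of_vanCK (hg : GradedCommutative H) (hV : VanCK H ε N (fun _ => True))
    (h : IsCK H X π) : IsKimuraFinite C (ratFam C) X := by
  refine isKimuraFinite_of_noPhantoms hg h fun Y hY => ?_
  obtain ⟨ρ, hρ⟩ := hY
  exact noPhantoms_of_B0 (fun Y => murreB0_of_vanCK hV Y) hρ

end Pool.Agent.N567.MD
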