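import Pool.Agent.N567.MD.LemJ

/-!
# Lefschetz operators on homologically trivial cycles
-/

set_option autoImplicit false

open CategoryTheory AlgebraicGeometry

universe u v w

namespace Pool.Agent.N567.MD

open Pool.Agent.H914 Pool.Agent.H914.VarClass Pool.Agent.H914.VarClass.Obj Pool.Agent.W492.BB
  Pool.Agent.W550.Corr Pool.Agent.TH133 Pool.Agent.Y148.BB Pool.Agent.X308.S
  Pool.Agent.TH829.Kim
open Pool.Agent.N164.BB (graph_mem exists_zeroCycle exists_point sum_act cl_of_mem_F1)

set_option linter.unusedSectionVars false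
set_option linter.unusedVariables false

attribute [-instance] Pool.Agent.TH829.Kim.chCommRing

variable {k : Type u} [Field k] {𝒱 : VarClass k}

variable {C : TheoryData.{u, v, 0} 𝒱 ℚ} [hC : IsChowProj C] {K : Type w} [Field K]
  {H : WeilTheoryData.{u, v, w} C K} [hH : IsWeilProj H] {S : 𝒱.Obj → Prop} {T X Y Z W X' : 𝒱.Obj}
  {π ρ : ℕ → C.A (X.prod X)}

/-- Hard Lefschetz and the standard conjecture of Lefschetz type. -/
def IsPol (H : WeilTheoryData.{u, v, w} C K) (X : 𝒱.Obj) (h : C.A X) : Prop :=
  h ∈ C.gr X 1 ∧ ∀ a : ℕ, a ≤ X.dim → ∃ θ ∈ C.gr (X.prod X) a,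
    (∀ x ∈ H.gr X a, H.act (H.cl θ) (H.cl (h ^ (X.dim - a)) * x) = x) ∧
    ∀ y ∈ H.gr X (2 * X.dim - a), H.cl (h ^ (X.dim - a)) * H.act (H.cl θ) y = y

/-- Injectivity of the Lefschetz operator on homologically trivial cycles of small codimension. -/
def LowInj (H : WeilTheoryData.{u, v, w} C K) (X : 𝒱.Obj) (h : C.A X) : Prop :=
  ∀ j : ℕ, 2 * j ≤ X.dim → ∀ z ∈ homN H X j, h * z = 0 → z = 0

include hC hH

lemma pow_mem_gr {h : C.A X} (hh : h ∈ C.gr X 1) (n : ℕ) : h ^ n ∈ C.gr X n := by
  induction n with
  | zero =>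
    rw [pow_zero]
    exact_mod_cast C.one_mem X
  | succ n ih =>
    rw [pow_succ]
    have := C.mul_mem ih hh
    exact_mod_cast this

lemma homN_zero {z : C.A X} (hz : z ∈ homN H X 0) : z = 0 := mem_zero_codim (sys_hom (H := H)) hz

/-- **(D) from the injectivity of Lefschetz operators.** -/
theorem high_zero (h : PV H) (hL : IsLefschetzClass H)
    (hB : ∀ X : 𝒱.Obj, ∃ l : C.A X, IsPol H X l ∧ LowInj H X l) :
    ∀ (a : ℕ) (X : 𝒱.Obj) (π : ℕ → C.A (X.prod X)) (j : ℕ), IsCK H X π → 2 * j ≤ a →
      ∀ z ∈ homN H X j, C.act (π a) z = 0 := by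
  intro a
  induction a using Nat.strong_induction_on with
  | _ a ih =>
    -- the case of a variety of dimension `a`
    have key : ∀ (X : 𝒱.Obj) (π : ℕ → C.A (X.prod X)) (j : ℕ), X.dim = a → IsCK H X π →
        2 * j ≤ a → ∀ z ∈ homN H X j, C.act (π a) z = 0 := by
      intro X π j hX hπ haj z hz
      have hst : ∀ Δ ∈ C.gr (X.prod X) X.dim, ∀ y ∈ homN H X j, C.act Δ y ∈ homN H X j :=
        fun Δ hΔ y hy => act_homN (by rwa [add_sub_cancel_right]) hy
      rcases Nat.eq_zero_or_pos j with rfl | hj
      · exact homN_zero (H := H) (hst _ (hπ.deg a) z hz)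
      obtain ⟨l, ⟨hl, hpol⟩, hinj⟩ := hB X
      obtain ⟨i, rfl⟩ : ∃ i, j = i + 1 := ⟨j - 1, by omega⟩
      obtain ⟨θ, hθ, hθ1, hθ2⟩ := hpol (a - 2) (by omega)
      have hk : X.dim - (a - 2) = 2 := by omega
      rw [hk] at hθ1 hθ2
      have hlm : C.mulCorr l ∈ C.gr (X.prod X) (X.dim + 1) := mulCorr_mem hl
      have hl2 : C.mulCorr (l ^ 2) ∈ C.gr (X.prod X) (X.dim + 2) :=
        mulCorr_mem (pow_mem_gr (H := H) hl 2)
      have hactH : ∀ (y : C.A X) (x : H.A X), H.act (H.cl (C.mulCorr y)) x = H.cl y * x := by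
        intro y x
        have h1 : H.cl (C.mulCorr y) = H.mulCorr (H.cl y) := by
          rw [TheoryData.mulCorr, TheoryData.mulCorr, H.cl_push]
        rw [h1, H.act_mulCorr]
      set y := C.act (π a) z with hy
      have hym : y ∈ homN H X (i + 1) := hst _ (hπ.deg a) z hz
      -- the part coming from weight `a - 2`
      have h1 : C.act (C.comp (π a) (C.comp (C.mulCorr l) (C.comp θ
          (dg C X - π (a - 2))))) z = 0 := by
        refine h.act (i := i) (j := i + 1) ?_ ?_ hz
        · refine comp_deg (hπ.deg a) (comp_deg hlm (comp_deg hθ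
            (Submodule.sub_mem _ (dg_mem C X) (hπ.deg _)) rfl) rfl) ?_
          push_cast
          omega
        · apply cl_zero_of
          intro m x hx
          rw [actH_comp, hπ.actH_eq a m hx]
          split_ifs with hm
          · rw [actH_comp, actH_comp]
            have h2 := actH_deg (H := H) hlm hx (j := m + 2) (by ring)
            have h3 := actH_deg (H := H) hθ h2 (j := m - 2) (by omega)
            rw [map_sub, TheoryData.act_sub, actH_dg, hπ.actH_eq (a - 2) _ h3,
              if_pos (by omega), sub_self]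
          · rw [TheoryData.act_map_zero]
      rw [C.act_comp, C.act_comp, C.act_comp, C.act_mulCorr, ← hy, TheoryData.act_sub, act_dg,
        sub_eq_zero] at h1
      have h2 : C.act θ (l * y) ∈ homN H X i := by
        have h3 : l * y ∈ homN H X (i + 2) := by
          refine ⟨?_, ?_⟩
          · have := C.mul_mem hl hym.1
            convert this using 2
            push_cast
            ring
          · rw [map_mul, hym.2, mul_zero]
        refine act_homN ?_ h3
        convert hθ using 2
        push_cast
        omega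
      have h3 : C.act θ (l * y) = 0 := by
        rw [h1]
        exact ih (a - 2) (by omega) X π i hπ (by omega) _ h2
      -- the primitive part
      have h4 : C.act (C.comp (π a) (C.mulCorr l - C.comp (C.mulCorr l) (C.comp θ
          (C.mulCorr (l ^ 2))))) z = 0 := by
        refine h.act (i := i + 2) (j := i + 1) ?_ ?_ hz
        · refine comp_deg (hπ.deg a) (Submodule.sub_mem _ hlm (comp_deg hlm (comp_deg hθ hl2 rfl)
            ?_)) ?_
          · omega
          · push_cast
            ring
        · apply cl_zero_of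
          intro m x hx
          rw [actH_comp, hπ.actH_eq a m hx]
          split_ifs with hm
          · rw [map_sub, TheoryData.act_sub, actH_comp, actH_comp]
            have h5 := actH_deg (H := H) hlm hx (j := m + 2) (by ring)
            rw [hactH (l ^ 2), hθ2 _ (by
              have e : 2 * (X.dim : ℤ) - ((a - 2 : ℕ) : ℤ) = m + 2 := by omega
              rwa [e]), sub_self]
          · rw [TheoryData.act_map_zero]
      rw [C.act_comp, ← hy, TheoryData.act_sub, C.act_comp, C.act_comp, C.act_mulCorr, h3,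
        TheoryData.act_map_zero, sub_zero] at h4
      exact hinj (i + 1) (by omega) y hym h4
    intro X π j hπ haj z hz
    rcases lt_trichotomy a X.dim with ha | ha | ha
    · obtain ⟨Y, α, β, hY, hα, hβ, hαβ⟩ := hL X a ha
      obtain ⟨ρ, hρ⟩ := exists_ck_of_pv h hL Y
      have hρk : IsKun H (ρ a) (a : ℤ) := ⟨hρ.deg a, fun l x hx => hρ.actH_eq a l hx⟩
      have hE := IsKun.of_summand hα (by rw [hY]; exact hβ) hαβ hρk
      rw [act_of_kun h hπ hE hz, C.act_comp, C.act_comp]
      have h1 : C.act (π a) z ∈ homN H X j := act_homN (by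
        rw [add_sub_cancel_right]; exact hπ.deg a) hz
      have h2 : C.act α (C.act (π a) z) ∈ homN H Y j := act_homN (by
        rw [add_sub_cancel_right]; exact hα) h1
      rw [key Y ρ j hY hρ haj _ h2, TheoryData.act_map_zero]
    · exact key X π j ha.symm hπ haj z hz
    · rcases Nat.lt_or_ge (2 * X.dim) a with h2 | h2
      · rw [hπ.out a h2, TheoryData.act_zero]
      · obtain ⟨Y, α, β, hY, hα, hβ, hαβ⟩ := hL X (2 * X.dim - a) (by omega)
        obtain ⟨ρ, hρ⟩ := exists_ck_of_pv h hL Y
        have hρk : IsKun H (ρ (2 * X.dim - a)) ((2 * X.dim - a : ℕ) : ℤ) :=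
          ⟨hρ.deg _, fun l x hx => hρ.actH_eq _ l hx⟩
        have hE := (IsKun.of_summand hα (by rw [hY]; exact hβ) hαβ hρk).tp
        have e : 2 * (X.dim : ℤ) - ((2 * X.dim - a : ℕ) : ℤ) = a := by omega
        rw [e] at hE
        rw [act_of_kun h hπ hE hz, tp_comp', tp_comp', comp_assoc, C.act_comp, C.act_comp]
        have h1 : C.act (π a) z ∈ homN H X j := act_homN (by
          rw [add_sub_cancel_right]; exact hπ.deg a) hz
        rcases Nat.lt_or_ge (X.dim + j) a with h7 | h7
        · have h3 : C.act (tp C β) (C.act (π a) z) = 0 := by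
            refine zero_of_neg (i := X.dim + j - a) ?_ (by omega)
            refine act_deg (tp_mem C hβ) h1.1 ?_
            omega
          rw [h3, TheoryData.act_map_zero, TheoryData.act_map_zero]
        obtain ⟨l, hl⟩ : ∃ l : ℕ, (l : ℤ) = X.dim + j - a := ⟨X.dim + j - a, by omega⟩
        have h3 : C.act (tp C β) (C.act (π a) z) ∈ homN H Y l := by
          refine act_homN ?_ h1
          have h4 := tp_mem C hβ
          convert h4 using 2
          omega
        have h5 := ih (2 * X.dim - a) (by omega) Y (dualCK C ρ) l hρ.dual (by omega) _ h3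
        have h6 : dualCK C ρ (2 * X.dim - a) = tp C (ρ (2 * X.dim - a)) := by
          unfold dualCK
          rw [if_pos (by omega)]
          congr 2
          omega
        rw [h6] at h5
        rw [h5, TheoryData.act_map_zero]

end Pool.Agent.N567.MD
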