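import Pool.Agent.N567.MD.BrM

/-!
# Products of homologically trivial cycles
-/

set_option autoImplicit false

open CategoryTheory AlgebraicGeometry

universe u v w

namespace Pool.Agent.N567.MD

open Pool.Agent.H914 Pool.Agent.H914.VarClass Pool.Agent.H914.VarClass.Obj Pool.Agent.W492.BB
  Pool.Agent.W550.Corr Pool.Agent.TH133 Pool.Agent.Y148.BB Pool.Agent.X308.S
  Pool.Agent.TH829.Kim
open Pool.Agent.N164.BB (graph_mem exists_zeroCycle exists_point sum_act cl_of_mem_F1)
open Pool.Agent.Y110 (NoPhantoms GradedCommutative isNilpotent_of_kimura noPhantoms_of_kimura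
  isKimuraFinite_of_noPhantoms)

set_option linter.unusedSectionVars false
set_option linter.unusedVariables false

attribute [-instance] Pool.Agent.TH829.Kim.chCommRing

variable {k : Type u} [Field k] {𝒱 : VarClass k}

section defs

variable {C : TheoryData.{u, v, 0} 𝒱 ℚ} {K : Type w} [Field K]

/-- The self-correspondences of degree zero of `X` which act as zero on `H^(2j+t)(X)` for all `t`
with `κ t` have a power, with an exponent `n` satisfying `ν n`, which acts as zero on the
homologically trivial cycles of codimension `j`. -/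
def PK (κ : ℤ → Prop) (ν : ℕ → Prop) (H : WeilTheoryData.{u, v, w} C K) (X : 𝒱.Obj) (j : ℕ) :
    Prop :=
  ∀ Γ ∈ C.gr (X.prod X) X.dim, (∀ t : ℤ, κ t → Kills H Γ (2 * j + t)) →
    ∃ n : ℕ, ν n ∧ ∀ z ∈ homN H X j, (C.act Γ)^[n] z = 0

/-- This condition for the varieties of dimension `2 j - δ`. -/
def MidK (κ : ℤ → Prop) (ν : ℕ → Prop) (δ : ℕ) (H : WeilTheoryData.{u, v, w} C K) (j : ℕ) : Prop :=
  ∀ X : 𝒱.Obj, X.dim + δ = 2 * j → PK κ ν H X j

/-- Products of homologically trivial classes vanish. -/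
def PV (H : WeilTheoryData.{u, v, w} C K) : Prop :=
  ∀ (X : 𝒱.Obj) (i j : ℕ), ∀ z ∈ homN H X i, ∀ w ∈ homN H X j, z * w = 0

end defs

variable {C : TheoryData.{u, v, 0} 𝒱 ℚ} [hC : IsChowProj C] {K : Type w} [Field K]
  {H : WeilTheoryData.{u, v, w} C K} [hH : IsWeilProj H] {S : 𝒱.Obj → Prop} {T X Y Z W X' : 𝒱.Obj}
  {π ρ : ℕ → C.A (X.prod X)} {κ : ℤ → Prop} {ν : ℕ → Prop} {δ : ℕ}

include hC hH

theorem PK.of_cover {f : X' ⟶ X} {u v : C.A X'} {c : ℚ} {s i j : ℕ}
    (hdim : X'.dim = X.dim + s + i) (hu : u ∈ C.gr X' s) (hv : v ∈ C.gr X' i) (hc : c ≠ 0)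
    (huv : C.push f (u * v) = c • (1 : C.A X)) (h : PK κ ν H X' (j + i)) : PK κ ν H X j := by
  intro Γ hΓ hk
  have hkey : ∀ z : C.A X, C.act (down f u) (C.act (up f v) z) = c • z := by
    intro z
    rw [act_up, act_down, ← mul_assoc]
    have h1 := C.proj_right f (u * v) z
    rw [huv, smul_mul_assoc, one_mul] at h1
    exact h1
  set Γ' : C.A (X'.prod X') := C.comp (down f u) (C.comp Γ (up f v)) with hΓ'
  have hdown := down_mem (C := C) f hu
  have hup := up_mem (C := C) f hv
  have hact : ∀ y, C.act Γ' y = C.act (up f v) (C.act Γ (C.act (down f u) y)) := by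
    intro y
    rw [hΓ', C.act_comp, C.act_comp]
  have hm : Γ' ∈ C.gr (X'.prod X') X'.dim := by
    refine comp_deg hdown (comp_deg hΓ hup rfl) ?_
    rw [hdim]
    push_cast
    ring
  have hk' : ∀ t : ℤ, κ t → Kills H Γ' (2 * (j + i : ℕ) + t) := by
    intro t ht a ha
    rw [hΓ', actH_comp, actH_comp]
    have h1 := actH_deg (H := H) hdown ha (j := 2 * j + t) (by rw [hdim]; push_cast; ring)
    rw [hk t ht _ h1, TheoryData.act_map_zero]
  obtain ⟨n, hνn, hn⟩ := h Γ' hm hk'
  have hiter : ∀ (n : ℕ) (z : C.A X), (C.act Γ')^[n] (C.act (up f v) z) =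
      c ^ n • C.act (up f v) ((C.act Γ)^[n] z) := by
    intro n
    induction n with
    | zero => intro z; simp
    | succ n ih =>
      intro z
      rw [Function.iterate_succ_apply', ih, hact, Function.iterate_succ_apply', act_map_smul,
        hkey, smul_smul, act_map_smul, act_map_smul, pow_succ]
  refine ⟨n, hνn, fun z hz => ?_⟩
  have hz' : C.act (up f v) z ∈ homN H X' (j + i) := by
    refine act_homN ?_ hz
    convert hup using 2
    push_cast
    ring
  have h2 := hn _ hz'
  rw [hiter] at h2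
  have h3 : C.act (up f v) ((C.act Γ)^[n] z) = 0 := by
    rcases smul_eq_zero.1 h2 with h | h
    · exact absurd h (pow_ne_zero _ hc)
    · exact h
  have h4 := hkey ((C.act Γ)^[n] z)
  rw [h3, TheoryData.act_map_zero] at h4
  rcases smul_eq_zero.1 h4.symm with h | h
  · exact absurd h hc
  · exact h

lemma PK.of_prod (hT : T.dim = 1) {j : ℕ} (h : PK κ ν H (X.prod T) j) : PK κ ν H X j := by
  obtain ⟨o, ho, hd⟩ := exists_point (C := C) hT
  refine PK.of_cover (f := fst X T) (u := C.pull (snd X T) o) (v := 1) (c := 1) (s := 1) (i := 0)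
    (by rw [dim_prod, hT]) ?_ (by exact_mod_cast C.one_mem _) one_ne_zero ?_ h
  · have := C.pull_mem (snd X T) ho
    exact_mod_cast this
  · rw [mul_one]
    exact push_fst_degree hd

lemma PK.of_prod' (hT : T.dim = 1) {j : ℕ} (h : PK κ ν H (X.prod T) (j + 1)) : PK κ ν H X j := by
  obtain ⟨o, ho, hd⟩ := exists_point (C := C) hT
  refine PK.of_cover (f := fst X T) (u := 1) (v := C.pull (snd X T) o) (c := 1) (s := 0) (i := 1)
    (by rw [dim_prod, hT]) (by exact_mod_cast C.one_mem _) ?_ one_ne_zero ?_ h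
  · have := C.pull_mem (snd X T) ho
    exact_mod_cast this
  · rw [one_mul]
    exact push_fst_degree hd

lemma MidK.pred (hT : T.dim = 1) {j : ℕ} (h : MidK κ ν δ H (j + 1)) : MidK κ ν δ H j := by
  intro X hX
  apply PK.of_prod hT
  apply PK.of_prod' hT
  apply h
  rw [dim_prod, dim_prod, hT]
  omega

lemma MidK.le (hT : T.dim = 1) {j l : ℕ} (hl : l ≤ j) (h : MidK κ ν δ H j) :
    MidK κ ν δ H l := by
  induction j, hl using Nat.le_induction with
  | base => exact h
  | succ j _ ih => exact ih (h.pred hT)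

theorem MidK.PK (hT : T.dim = 1) {M : ℕ} (h : MidK κ ν δ H M) :
    ∀ (n : ℕ) (X : 𝒱.Obj) (j : ℕ), ((X.dim : ℤ) + δ - 2 * j).natAbs = n → j ≤ M →
      X.dim + δ ≤ j + M → MD.PK κ ν H X j := by
  intro n
  induction n with
  | zero =>
    intro X j hn hj hd
    exact h.le hT hj X (by omega)
  | succ n ih =>
    intro X j hn hj hd
    rcases lt_or_ge (X.dim + δ) (2 * j) with h1 | h1
    · apply PK.of_prod hT
      apply ih _ _ _ hj
      · rw [dim_prod, hT]; omega
      · rw [dim_prod, hT]; push_cast; omega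
    · apply PK.of_prod' hT
      apply ih
      · rw [dim_prod, hT]; push_cast; omega
      · omega
      · rw [dim_prod, hT]; omega

theorem pk_univ (hT : T.dim = 1) (h : ∀ e : ℕ, ∃ M, e ≤ M ∧ MidK κ ν δ H M) (X : 𝒱.Obj)
    (j : ℕ) : MD.PK κ ν H X j := by
  obtain ⟨M, hM, hM'⟩ := h (X.dim + δ + j)
  exact hM'.PK hT _ X j rfl (by omega) (by omega)

/-! ### Products -/

omit hC hH in
/-- The condition that homologically trivial self-correspondences kill homologically trivial
cycles. -/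
def KJ (H : WeilTheoryData.{u, v, w} C K) (X : 𝒱.Obj) (j : ℕ) : Prop :=
  PK (fun _ => True) (fun n => n = 1) H X j

lemma KJ.kill {j : ℕ} (h : KJ H X j) {Γ : C.A (X.prod X)} (hΓ : Γ ∈ C.gr (X.prod X) X.dim)
    (hcl : H.cl Γ = 0) {z : C.A X} (hz : z ∈ homN H X j) : C.act Γ z = 0 := by
  obtain ⟨n, rfl, hn⟩ := h Γ hΓ fun t _ a _ => by rw [hcl, TheoryData.act_zero]
  exact hn z hz

lemma KJ.of {j : ℕ} (h : ∀ Γ ∈ C.gr (X.prod X) X.dim, H.cl Γ = 0 → ∀ z ∈ homN H X j,
    C.act Γ z = 0) : KJ H X j := by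
  intro Γ hΓ hk
  refine ⟨1, rfl, fun z hz => ?_⟩
  refine h Γ hΓ ?_ z hz
  apply hom_zero_of_act
  intro a
  have h1 : (LinearMap.id : H.A X →ₗ[K] H.A X) = LinearMap.id := rfl
  have h2 : H.actL (H.cl Γ) = 0 := by
    apply ext_gr H
    intro m b hb
    have := hk (m - 2 * j) trivial b (by
      have e : 2 * (j : ℤ) + (m - 2 * j) = m := by ring
      rw [e]
      exact hb)
    exact this
  exact LinearMap.congr_fun h2 a

/-- Homologically trivial correspondences kill homologically trivial classes. -/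
lemma PV.act (h : PV H) {i j : ℕ} {Γ : C.A (X.prod Y)}
    (hΓ : Γ ∈ C.gr (X.prod Y) ((X.dim : ℤ) + i - j)) (hcl : H.cl Γ = 0) {z : C.A X}
    (hz : z ∈ homN H X j) : C.act Γ z = 0 := by
  rcases lt_or_ge ((X.dim : ℤ) + i - j) 0 with h1 | h1
  · rw [zero_of_neg hΓ h1, TheoryData.act_zero]
  · obtain ⟨l, hl⟩ := Int.eq_ofNat_of_zero_le h1
    rw [hl] at hΓ
    rw [TheoryData.act_apply, h (X.prod Y) l j Γ ⟨hΓ, hcl⟩ (C.pull (fst X Y) z) ⟨C.pull_mem _ hz.1, by
      rw [H.cl_pull, hz.2, map_zero]⟩, map_zero]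

lemma PV.kj (h : PV H) (X : 𝒱.Obj) (j : ℕ) : KJ H X j := by
  apply KJ.of
  intro Γ hΓ hcl z hz
  exact h.act (i := j) (by rwa [add_sub_cancel_right]) hcl hz

/-- If homologically trivial self-correspondences kill homologically trivial classes, products
of homologically trivial classes vanish. -/
theorem pv_of_kj (h : ∀ (X : 𝒱.Obj) (j : ℕ), KJ H X j) : PV H := by
  intro X i j z hz w hw
  rcases Nat.lt_or_ge X.dim i with hi | hi
  · rw [zero_of_top hz.1 (by exact_mod_cast hi), zero_mul]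
  obtain ⟨u, hu, v, hv, huv⟩ := exists_dual_pair (C := C) (H := H) X hi
  have hm : C.mulCorr z ∈ C.gr (X.prod X) (X.dim + i) := mulCorr_mem hz.1
  have hv1 : C.ext v (1 : C.A X) ∈ C.gr (X.prod X) ((X.dim : ℤ) - i) := by
    have := ext_mem (C := C) (H := H) hv (C.one_mem X)
    simpa using this
  have hΓm : tens C (C.mulCorr z) (C.ext v (1 : C.A X)) ∈
      C.gr ((X.prod X).prod (X.prod X)) (X.prod X).dim := by
    have h1 := tens_mem C hm hv1
    rw [dim_prod]
    push_cast
    have e : ((X.dim : ℤ) + i) + (X.dim - i) = X.dim + X.dim := by ring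
    rwa [e] at h1
  have hclm : H.cl (C.mulCorr z) = 0 := by
    rw [TheoryData.mulCorr, H.cl_push, hz.2, map_zero]
  have hcl : H.cl (tens C (C.mulCorr z) (C.ext v (1 : C.A X))) = 0 := by
    rw [cl_tens, hclm, tens, map_zero, zero_mul]
  have hzu : C.ext w u ∈ homN H (X.prod X) (j + i) := by
    refine ⟨?_, ?_⟩
    · have := ext_mem (C := C) (H := H) hw.1 hu
      exact_mod_cast this
    · rw [TheoryData.ext, map_mul, H.cl_pull, hw.2, map_zero, zero_mul]
  have h1 := (h (X.prod X) (j + i)).kill hΓm hcl hzu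
  rw [act_tens_ext C _ _ (fun f c => ch_comm C _ _), C.act_mulCorr, act_ext (H := H), huv,
    one_mul] at h1
  have h2 : C.pull (Obj.lift (𝟙 X) (𝟙 X)) (C.ext (z * w) (1 : C.A X)) = z * w := by
    rw [TheoryData.ext, map_mul, ← C.pull_comp, lift_fst, C.pull_id, map_one, map_one, mul_one]
  rw [← h2, h1, map_zero]

/-- The square of the ideal of homologically trivial self-correspondences is zero. -/
lemma sq_of_kj (h : KJ H (X.prod X) X.dim) {Γ Δ : C.A (X.prod X)}
    (hΓ : Γ ∈ homN H (X.prod X) X.dim) (hΔ : Δ ∈ homN H (X.prod X) X.dim) :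
    C.comp Γ Δ = 0 := by
  have hm : tens C (tp C (dg C X)) Δ ∈ C.gr ((X.prod X).prod (X.prod X)) (X.prod X).dim := by
    have h1 := tens_mem C (dg_mem C X) hΔ.1
    rw [tp_dg, dim_prod]
    push_cast
    exact h1
  have hcl : H.cl (tens C (tp C (dg C X)) Δ) = 0 := by
    rw [cl_tens, hΔ.2, tens, map_zero, mul_zero]
  have h1 := h.kill hm hcl hΓ
  rwa [act_conj (H := H), dg_comp] at h1

lemma nil_of_sq (h : ∀ Γ ∈ homN H (X.prod X) X.dim, C.comp Γ Γ = 0) (x : R0 C X)
    (hx : H.cl (toA x) = 0) : IsNilpotent x := by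
  refine ⟨2, toA_inj ?_⟩
  rw [pow_two, toA_mul, h _ ⟨toA_mem x, hx⟩]
  rfl

lemma exists_ck_of_pv (h : PV H) (hL : IsLefschetzClass H) (X : 𝒱.Obj) :
    ∃ π : ℕ → C.A (X.prod X), IsCK H X π :=
  exists_ck_of_nil (nil_of_sq fun Γ hΓ => sq_of_kj (h.kj _ _) hΓ hΓ) (exists_kun hL _ X rfl)

omit hC hH in
/-- Homologically trivial cycles of small dimension come from homologically trivial cycles on
varieties of smaller dimension. -/
def HasSec (H : WeilTheoryData.{u, v, w} C K) : Prop :=
  ∀ (X : 𝒱.Obj) (j : ℕ), X.dim + 2 ≤ 2 * j → ∀ z ∈ homN H X j,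
    z ∈ Submodule.span ℚ {c | ∃ (Y : 𝒱.Obj) (f : Y ⟶ X) (i : ℕ) (y : C.A Y),
      Y.dim + 1 = 2 * i ∧ i + X.dim = j + Y.dim ∧ y ∈ homN H Y i ∧ c = C.push f y}

lemma act_of_kun (h : PV H) {a j : ℕ} (hπ : IsCK H X π) {E : C.A (X.prod X)} (hE : IsKun H E a)
    {z : C.A X} (hz : z ∈ homN H X j) : C.act (π a) z = C.act E (C.act (π a) z) := by
  have h1 : C.act (π a - C.comp (π a) E) z = 0 := by
    refine h.act (i := j) ?_ ?_ hz
    · rw [add_sub_cancel_right]
      exact Submodule.sub_mem _ (hπ.deg a) (comp_mem0 C (hπ.deg a) hE.mem)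
    · apply cl_zero_of
      intro m x hx
      rw [map_sub, TheoryData.act_sub, actH_comp, hπ.actH_eq a m hx]
      split_ifs with hm
      · rw [hE.act m x hx, if_pos hm, sub_self]
      · rw [TheoryData.act_map_zero, sub_self]
  rw [TheoryData.act_sub, C.act_comp, sub_eq_zero] at h1
  exact h1

/-- **Vanishing of the parts of small weight.** -/
theorem low_zero (h : PV H) (hL : IsLefschetzClass H) (hS : HasSec H) :
    ∀ (a : ℕ) (X : 𝒱.Obj) (π : ℕ → C.A (X.prod X)) (j : ℕ), IsCK H X π → a + 2 ≤ 2 * j →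
      ∀ z ∈ homN H X j, C.act (π a) z = 0 := by
  intro a
  induction a using Nat.strong_induction_on with
  | _ a ih =>
    -- the case of a variety of dimension `a`
    have key : ∀ (X : 𝒱.Obj) (π : ℕ → C.A (X.prod X)) (j : ℕ), X.dim = a → IsCK H X π →
        a + 2 ≤ 2 * j → ∀ z ∈ homN H X j, C.act (π a) z = 0 := by
      intro X π j hX hπ haj z hz
      have h1 := hS X j (by omega) z hz
      clear hz
      induction h1 using Submodule.span_induction with
      | mem c hc =>
        obtain ⟨Y, f, i, y, hY, hij, hy, rfl⟩ := hc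
        obtain ⟨ρ, hρ⟩ := exists_ck_of_pv h hL Y
        have h2 : C.push f y = ∑ b ∈ Finset.range (2 * Y.dim + 1),
            C.act (C.graph f) (C.act (ρ b) y) := by
          rw [← act_map_sum, ← sum_act hρ y, C.act_graph]
        rw [h2, act_map_sum]
        apply Finset.sum_eq_zero
        intro b _
        rcases Nat.lt_or_ge (b + 1) (2 * i) with hb | hb
        · rw [ih b (by omega) Y ρ i hρ (by omega) y hy, TheoryData.act_map_zero,
            TheoryData.act_map_zero]
        · rw [← C.act_comp, ← C.act_comp]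
          refine h.act (i := j) (j := i) ?_ ?_ hy
          · refine comp_deg (hρ.deg b) (comp_deg (graph_mem f) (hπ.deg a) rfl) ?_
            omega
          · apply cl_zero_of
            intro m x hx
            rw [actH_comp, actH_comp, hρ.actH_eq b m hx]
            split_ifs with hm
            · have h3 := actH_deg (H := H) (graph_mem f) hx (j := m + 2 * (X.dim - Y.dim)) rfl
              rw [hπ.actH_eq a _ h3, if_neg (by omega)]
            · rw [TheoryData.act_map_zero, TheoryData.act_map_zero]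
      | zero => exact TheoryData.act_map_zero _ _
      | add x y _ _ hx hy => rw [act_map_add, hx, hy, add_zero]
      | smul r x _ hx => rw [act_map_smul, hx, smul_zero]
    intro X π j hπ haj z hz
    rcases lt_trichotomy a X.dim with ha | ha | ha
    · obtain ⟨Y, α, β, hY, hα, hβ, hαβ⟩ := hL X a ha
      obtain ⟨ρ, hρ⟩ := exists_ck_of_pv h hL Y
      have hρk : IsKun H (ρ a) (a : ℤ) := ⟨hρ.deg a, fun l x hx => hρ.actH_eq a l hx⟩
      have hE := IsKun.of_summand hα (by rw [hY]; exact hβ) hαβ hρk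
      rw [act_of_kun h hπ hE hz, C.act_comp, C.act_comp]
      have h1 : C.act (π a) z ∈ homN H X j := act_homN (by
        rw [add_sub_cancel_right]; exact hπ.deg a) hz
      have h2 : C.act α (C.act (π a) z) ∈ homN H Y j := act_homN (by
        rw [add_sub_cancel_right]; exact hα) h1
      rw [key Y ρ j hY hρ haj _ h2, TheoryData.act_map_zero]
    · exact key X π j ha.symm hπ haj z hz
    · rcases Nat.lt_or_ge (2 * X.dim) a with h2 | h2
      · rw [hπ.out a h2, TheoryData.act_zero]
      · obtain ⟨Y, α, β, hY, hα, hβ, hαβ⟩ := hL X (2 * X.dim - a) (by omega)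
        obtain ⟨ρ, hρ⟩ := exists_ck_of_pv h hL Y
        have hρk : IsKun H (ρ (2 * X.dim - a)) ((2 * X.dim - a : ℕ) : ℤ) :=
          ⟨hρ.deg _, fun l x hx => hρ.actH_eq _ l hx⟩
        have hE := (IsKun.of_summand hα (by rw [hY]; exact hβ) hαβ hρk).tp
        have e : 2 * (X.dim : ℤ) - ((2 * X.dim - a : ℕ) : ℤ) = a := by omega
        rw [e] at hE
        rw [act_of_kun h hπ hE hz, tp_comp', tp_comp', comp_assoc, C.act_comp, C.act_comp]
        have h1 : C.act (π a) z ∈ homN H X j := act_homN (by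
          rw [add_sub_cancel_right]; exact hπ.deg a) hz
        obtain ⟨l, hl⟩ : ∃ l : ℕ, (l : ℤ) = X.dim - a + j := ⟨X.dim + j - a, by omega⟩
        have h3 : C.act (tp C β) (C.act (π a) z) ∈ homN H Y l := by
          refine act_homN ?_ h1
          have h4 := tp_mem C hβ
          convert h4 using 2
          omega
        have h5 := ih (2 * X.dim - a) (by omega) Y (dualCK C ρ) l hρ.dual (by omega) _ h3
        have h6 : dualCK C ρ (2 * X.dim - a) = tp C (ρ (2 * X.dim - a)) := by
          unfold dualCK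
          rw [if_pos (by omega)]
          congr 2
          omega
        rw [h6] at h5
        rw [h5, TheoryData.act_map_zero]

/-- Correspondences which act as zero on `H^m` for `m ≥ 2 j - 1` kill homologically trivial
cycles of codimension `j`. -/
theorem kill_of_high (h : PV H) (hL : IsLefschetzClass H) (hS : HasSec H) {i j : ℕ}
    {Γ : C.A (X.prod Y)} (hΓ : Γ ∈ C.gr (X.prod Y) ((X.dim : ℤ) + i - j))
    (hk : ∀ m : ℤ, 2 * j - 1 ≤ m → Kills H Γ m) {z : C.A X} (hz : z ∈ homN H X j) :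
    C.act Γ z = 0 := by
  obtain ⟨π, hπ⟩ := exists_ck_of_pv h hL X
  rw [sum_act hπ z, act_map_sum]
  apply Finset.sum_eq_zero
  intro a _
  rcases Nat.lt_or_ge (a + 1) (2 * j) with ha | ha
  · rw [low_zero h hL hS a X π j hπ (by omega) z hz, TheoryData.act_map_zero]
  · rw [← C.act_comp]
    refine h.act (i := i) (j := j) (comp_deg (hπ.deg a) hΓ (by ring)) ?_ hz
    apply cl_zero_of
    intro m x hx
    rw [actH_comp, hπ.actH_eq a m hx]
    split_ifs with hm
    · exact hk m (by omega) x hx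
    · rw [TheoryData.act_map_zero]

/-! ### Correspondences acting as zero on `H^(2j-1)` -/

omit hC hH in
/-- Nilpotence of the correspondences acting as zero on `H^(2j-1)`. -/
def PE (H : WeilTheoryData.{u, v, w} C K) (X : 𝒱.Obj) (j : ℕ) : Prop :=
  PK (fun t => t = -1) (fun _ => True) H X j

omit hC hH in
/-- Vanishing of the idempotents acting as zero on `H^(2j-1)`. -/
def IdK (H : WeilTheoryData.{u, v, w} C K) (X : 𝒱.Obj) (j : ℕ) : Prop :=
  ∀ p ∈ C.gr (X.prod X) X.dim, C.comp p p = p → Kills H p (2 * j - 1) →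
    ∀ z ∈ homN H X j, C.act p z = 0

lemma PE.idK {j : ℕ} (h : PE H X j) : IdK H X j := by
  intro p hp hpp hk z hz
  obtain ⟨n, -, hn⟩ := h p hp fun t ht => by
    rw [ht]
    exact hk
  rw [← iterate_idem (H := H) hpp n z, Function.iterate_succ_apply', hn z hz,
    TheoryData.act_map_zero]

lemma IdK.wt {j : ℕ} (h : IdK H X j) {e : C.A (X.prod X)} {w : ℤ} (he : IsWt H e w)
    (hw : w ≠ 2 * j - 1) {z : C.A X} (hz : z ∈ homN H X j) : C.act e z = 0 :=
  h e he.mem he.idem (he.kills _ hw.symm) z hz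

lemma nil_of_pe (h : PE H (X.prod X) X.dim) (x : R0 C X) (hx : H.cl (toA x) = 0) :
    IsNilpotent x := by
  have hm : tens C (tp C (dg C X)) (toA x) ∈
      C.gr ((X.prod X).prod (X.prod X)) (X.prod X).dim := by
    have h1 := tens_mem C (dg_mem C X) (toA_mem x)
    rw [tp_dg, dim_prod]
    push_cast
    exact h1
  have hcl : H.cl (tens C (tp C (dg C X)) (toA x)) = 0 := by
    rw [cl_tens, hx, tens, map_zero, mul_zero]
  obtain ⟨n, -, hn⟩ := h _ hm fun t _ a _ => by rw [hcl, TheoryData.act_zero]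
  refine ⟨n + 1, toA_inj ?_⟩
  have h3 : ∀ n : ℕ, (C.act (tens C (tp C (dg C X)) (toA x)))^[n] (toA x) =
      toA (x ^ (n + 1)) := by
    intro n
    induction n with
    | zero => rw [Function.iterate_zero_apply, zero_add, pow_one]
    | succ n ih =>
      rw [Function.iterate_succ_apply', ih, act_conj (H := H), dg_comp, pow_succ' x (n + 1),
        toA_mul]
  rw [← h3, hn _ ⟨toA_mem x, hx⟩]
  rfl

/-- Homologically trivial self-correspondences kill homologically trivial cycles. -/
theorem kj_of_idK (h : ∀ (X : 𝒱.Obj) (j : ℕ), IdK H X j) (hπ : IsCK H X π) (j : ℕ) :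
    KJ H X j := by
  apply KJ.of
  intro Γ hΓ hcl z hz
  have hst : ∀ Δ ∈ C.gr (X.prod X) X.dim, ∀ y ∈ homN H X j, C.act Δ y ∈ homN H X j :=
    fun Δ hΔ y hy => act_homN (by rwa [add_sub_cancel_right]) hy
  rw [sum_act hπ z, act_map_sum]
  apply Finset.sum_eq_zero
  intro a _
  by_cases ha : (a : ℤ) = 2 * j - 1
  · rw [sum_act hπ (C.act Γ (C.act (π a) z))]
    apply Finset.sum_eq_zero
    intro b _
    by_cases hb : (b : ℤ) = 2 * j - 1
    · have h1 := (h (X.prod X) X.dim).wt ((isWt_ck hπ a).tp.tens (isWt_ck hπ b)) (by omega)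
        (z := Γ) ⟨hΓ, hcl⟩
      rw [act_conj (H := H)] at h1
      rw [← C.act_comp, ← C.act_comp, ← comp_assoc, h1, TheoryData.act_zero]
    · exact (h X j).wt (isWt_ck hπ b) hb (hst Γ hΓ _ (hst _ (hπ.deg a) z hz))
  · rw [(h X j).wt (isWt_ck hπ a) ha hz, TheoryData.act_map_zero]

/-- The general statement from the one for idempotents. -/
theorem odd_of_idK (h : ∀ (X : 𝒱.Obj) (j : ℕ), IdK H X j)
    (hck : ∀ X : 𝒱.Obj, ∃ π : ℕ → C.A (X.prod X), IsCK H X π) {i j : ℕ} {Γ : C.A (X.prod Y)}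
    (hΓ : Γ ∈ C.gr (X.prod Y) ((X.dim : ℤ) + i - j)) (hk : Kills H Γ (2 * j - 1)) {z : C.A X}
    (hz : z ∈ homN H X j) : C.act Γ z = 0 := by
  have hPV : PV H := pv_of_kj fun X j => by
    obtain ⟨π, hπ⟩ := hck X
    exact kj_of_idK h hπ j
  obtain ⟨π, hπ⟩ := hck X
  rw [sum_act hπ z, act_map_sum]
  apply Finset.sum_eq_zero
  intro a _
  by_cases ha : (a : ℤ) = 2 * j - 1
  · rw [← C.act_comp]
    refine hPV.act (i := i) (j := j) (comp_deg (hπ.deg a) hΓ (by ring)) ?_ hz
    apply cl_zero_of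
    intro m x hx
    rw [actH_comp, hπ.actH_eq a m hx]
    split_ifs with hm
    · exact hk x (by rwa [← ha, ← hm])
    · rw [TheoryData.act_map_zero]
  · rw [(h X j).wt (isWt_ck hπ a) ha hz, TheoryData.act_map_zero]

/-- The general statement from the vanishing of products and (D). -/
theorem odd_of_pv (h : PV H) (hL : IsLefschetzClass H) (hS : HasSec H)
    (hD : ∀ (X : 𝒱.Obj) (j : ℕ), Q H 0 (homN H) X j) {i j : ℕ} {Γ : C.A (X.prod Y)}
    (hΓ : Γ ∈ C.gr (X.prod Y) ((X.dim : ℤ) + i - j)) (hk : Kills H Γ (2 * j - 1)) {z : C.A X}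
    (hz : z ∈ homN H X j) : C.act Γ z = 0 := by
  obtain ⟨π, hπ⟩ := exists_ck_of_pv h hL X
  rw [sum_act hπ z, act_map_sum]
  apply Finset.sum_eq_zero
  intro a _
  rcases lt_trichotomy (a + 1) (2 * j) with ha | ha | ha
  · rw [low_zero h hL hS a X π j hπ (by omega) z hz, TheoryData.act_map_zero]
  · rw [← C.act_comp]
    refine h.act (i := i) (j := j) (comp_deg (hπ.deg a) hΓ (by ring)) ?_ hz
    apply cl_zero_of
    intro m x hx
    rw [actH_comp, hπ.actH_eq a m hx]
    split_ifs with hm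
    · refine hk x ?_
      have e : (2 * (j : ℤ) - 1) = m := by omega
      rwa [e]
    · rw [TheoryData.act_map_zero]
  · rw [hD X j π hπ a (by push_cast; omega) z hz, TheoryData.act_map_zero]

/-- Finite-dimensionality and a good decomposition imply nilpotence. -/
theorem pe_of_kimura {j : ℕ} (hK : IsKimuraFinite C (ratFam C) X) (h : IsCK H X π)
    (hk : ∀ b : ℕ, b + 1 ≠ 2 * j → ∀ z ∈ homN H X j, C.act (π b) z = 0) : PE H X j := by
  intro Γ hΓ hkill
  have hkill' : Kills H Γ (2 * j - 1) := by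
    have := hkill (-1) rfl
    rwa [← sub_eq_add_neg] at this
  rcases Nat.eq_zero_or_pos j with rfl | hj
  · refine ⟨0, trivial, fun z hz => ?_⟩
    rw [Function.iterate_zero_apply, sum_act h z]
    exact Finset.sum_eq_zero fun b _ => hk b (by omega) z hz
  set E : C.A (X.prod X) := π (2 * j - 1) with hE
  have hEm : E ∈ C.gr (X.prod X) X.dim := h.deg _
  have hst : ∀ Δ ∈ C.gr (X.prod X) X.dim, ∀ y ∈ homN H X j, C.act Δ y ∈ homN H X j :=
    fun Δ hΔ y hy => act_homN (by rwa [add_sub_cancel_right]) hy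
  have hEz : ∀ z ∈ homN H X j, C.act E z = z := by
    intro z hz
    rcases Nat.lt_or_ge (2 * X.dim) (2 * j - 1) with h1 | h1
    · have h2 : z = 0 := zero_of_top hz.1 (by omega)
      rw [h2, TheoryData.act_map_zero]
    · conv_rhs => rw [sum_act h z]
      rw [Finset.sum_eq_single (2 * j - 1)]
      · intro b _ hb
        exact hk b (by omega) z hz
      · intro h2
        exact absurd (Finset.mem_range.2 (by omega)) h2
  let x : R0 C X := ofA (C.comp (C.comp E Γ) E) (comp_mem0 C (comp_mem0 C hEm hΓ) hEm)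
  have hcl : H.cl (toA x) = 0 := by
    apply cl_zero_of
    intro m a ha
    change H.act (H.cl (C.comp (C.comp E Γ) E)) a = 0
    rw [actH_comp, actH_comp, hE, h.actH_eq _ m ha]
    split_ifs with hm
    · rw [hkill' a (by
        have e : (2 * (j : ℤ) - 1) = m := by omega
        rwa [e]), TheoryData.act_map_zero]
    · rw [TheoryData.act_map_zero, TheoryData.act_map_zero]
  obtain ⟨n, hn⟩ := isNilpotent_of_kimura (H := H) hK hcl
  refine ⟨n, trivial, fun z hz => ?_⟩
  have h2 : ∀ y ∈ homN H X j, C.act (toA x) y = C.act Γ y := by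
    intro y hy
    change C.act (C.comp (C.comp E Γ) E) y = C.act Γ y
    rw [C.act_comp, C.act_comp, hEz y hy, hEz _ (hst Γ hΓ y hy)]
  have h3 : ∀ n : ℕ, (C.act Γ)^[n] z ∈ homN H X j ∧ C.act (toA (x ^ n)) z = (C.act Γ)^[n] z := by
    intro n
    induction n with
    | zero =>
      refine ⟨hz, ?_⟩
      rw [pow_zero, toA_one, act_dg]
      rfl
    | succ n ih =>
      rw [Function.iterate_succ_apply']
      refine ⟨hst Γ hΓ _ ih.1, ?_⟩
      rw [pow_succ', toA_mul, C.act_comp, ih.2, h2 _ ih.1]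
  rw [← (h3 n).2, hn, map_zero, TheoryData.act_zero]

end Pool.Agent.N567.MD
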