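import Pool.Agent.N567.MD.LemB
import Mathlib.RingTheory.Idempotents

/-!
# Finite-dimensionality and the uniqueness of Chow-Kunneth decompositions
-/

set_option autoImplicit false

open CategoryTheory AlgebraicGeometry

universe u v w

namespace Pool.Agent.N567.MD

open Pool.Agent.H914 Pool.Agent.H914.VarClass Pool.Agent.H914.VarClass.Obj Pool.Agent.W492.BB
  Pool.Agent.W550.Corr Pool.Agent.TH133 Pool.Agent.Y148.BB Pool.Agent.X308.S
  Pool.Agent.TH829.Kim
open Pool.Agent.N164.BB (graph_mem exists_zeroCycle exists_point sum_act cl_of_mem_F1)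
open Pool.Agent.Y110 (NoPhantoms GradedCommutative isNilpotent_of_kimura noPhantoms_of_kimura
  isKimuraFinite_of_noPhantoms)

set_option linter.unusedSectionVars false
set_option linter.unusedVariables false

attribute [-instance] Pool.Agent.TH829.Kim.chCommRing

variable {k : Type u} [Field k] {𝒱 : VarClass k}

section defs

variable {C : TheoryData.{u, v, 0} 𝒱 ℚ} {K : Type w} [Field K]

/-- The homologically trivial self-correspondences of degree zero of `X` act nilpotently on
`CH^j(X)`. -/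
def PH (H : WeilTheoryData.{u, v, w} C K) (X : 𝒱.Obj) (j : ℕ) : Prop :=
  ∀ Γ ∈ C.gr (X.prod X) X.dim, H.cl Γ = 0 → ∃ n : ℕ, ∀ z ∈ C.gr X j, (C.act Γ)^[n] z = 0

/-- This condition in the middle dimension. -/
def MidH (H : WeilTheoryData.{u, v, w} C K) (j : ℕ) : Prop :=
  ∀ X : 𝒱.Obj, X.dim = 2 * j → PH H X j

end defs

variable {C : TheoryData.{u, v, 0} 𝒱 ℚ} [hC : IsChowProj C] {K : Type w} [Field K]
  {H : WeilTheoryData.{u, v, w} C K} [hH : IsWeilProj H] {S : 𝒱.Obj → Prop} {T X Y Z W X' : 𝒱.Obj}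
  {π ρ : ℕ → C.A (X.prod X)}

include hC hH

/-! ### Existence of decompositions -/

/-- Kunneth projectors lift to a Chow-Kunneth decomposition if homologically trivial
self-correspondences are nilpotent. -/
theorem exists_ck_of_nil (hn : ∀ x : R0 C X, H.cl (toA x) = 0 → IsNilpotent x)
    (hK : ∀ a : ℕ, ∃ p : C.A (X.prod X), IsKun H p a) :
    ∃ π : ℕ → C.A (X.prod X), IsCK H X π := by
  choose p hp using hK
  let f : R0 C X →+* Module.End K (H.A X) := (actH C X H).comp (cor0 C X).val.toRingHom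
  have hf : ∀ (x : R0 C X) (a : H.A X), f x a = H.act (H.cl (toA x)) a := fun x a => rfl
  have hker : ∀ x ∈ RingHom.ker f, IsNilpotent x := by
    intro x hx
    apply hn
    apply hom_zero_of_act
    intro a
    rw [← hf, (RingHom.mem_ker).1 hx, LinearMap.zero_apply]
  set n := 2 * X.dim + 1 with hnd
  let e : Fin n → Module.End K (H.A X) := fun i => f (ofA (p i) (hp i).mem)
  have he : ∀ (i : Fin n) (l : ℤ) (x : H.A X), x ∈ H.gr X l → e i x = if l = i then x else 0 :=
    fun i l x hx => (hp i).act l x hx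
  have hidem : CompleteOrthogonalIdempotents e := by
    refine ⟨⟨fun i => ?_, fun i j hij => ?_⟩, ?_⟩
    · apply ext_gr H
      intro l x hx
      rw [Module.End.mul_apply, he i l x hx]
      split_ifs with h
      · rw [he i l x hx, if_pos h]
      · rw [map_zero]
    · apply ext_gr H
      intro l x hx
      change (e i * e j) x = 0
      rw [Module.End.mul_apply, he j l x hx]
      split_ifs with h
      · have : (j : ℕ) ≠ i := fun h' => hij (Fin.ext h'.symm)
        rw [he i l x hx, if_neg (by rw [h]; exact_mod_cast this)]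
      · rw [map_zero]
    · apply ext_gr H
      intro l x hx
      rw [LinearMap.sum_apply, Module.End.one_apply]
      by_cases hx0 : x = 0
      · rw [hx0]
        exact Finset.sum_eq_zero fun i _ => map_zero _
      have hl := nonneg_of_mem H hx hx0
      obtain ⟨q, rfl⟩ := Int.eq_ofNat_of_zero_le hl
      have hq : q < n := by
        by_contra h
        rw [gr_top H (by omega)] at hx
        exact hx0 ((Submodule.mem_bot _).1 hx)
      rw [Finset.sum_eq_single (⟨q, hq⟩ : Fin n)]
      · rw [he _ _ _ hx, if_pos rfl]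
      · intro b _ hb
        have : q ≠ (b : ℕ) := fun h' => hb (Fin.ext h'.symm)
        rw [he _ _ _ hx, if_neg (by exact_mod_cast this)]
      · intro h
        exact absurd (Finset.mem_univ _) h
  obtain ⟨e', he', hfe⟩ := CompleteOrthogonalIdempotents.lift_of_isNilpotent_ker f hker hidem
    fun i => ⟨_, rfl⟩
  have hfe' : ∀ i, f (e' i) = e i := fun i => congrFun hfe i
  let Q : ℕ → Cor C X := fun i => if h : i < n then (e' ⟨i, h⟩ : R0 C X).1 else 0
  have hQ : ∀ (i : ℕ) (h : i < n), Q i = (e' ⟨i, h⟩ : R0 C X).1 := fun i h => dif_pos h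
  have hQ0 : ∀ i : ℕ, ¬ i < n → Q i = 0 := fun i h => dif_neg h
  refine ⟨Q, isCK_of (P := Q) (fun i => ?_) (fun i hi => hQ0 i (by omega)) (fun i j => ?_) ?_
    (fun i m x hx => ?_)⟩
  · by_cases hi : i < n
    · rw [hQ i hi]
      exact (e' ⟨i, hi⟩).2
    · rw [hQ0 i hi]
      exact (cor0 C X).zero_mem
  · by_cases hi : i < n
    · by_cases hj : j < n
      · rw [hQ i hi, hQ j hj]
        have h1 := he'.mul_eq (⟨i, hi⟩ : Fin n) (⟨j, hj⟩ : Fin n)
        have h2 := congrArg Subtype.val h1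
        change (e' ⟨i, hi⟩ : R0 C X).1 * (e' ⟨j, hj⟩ : R0 C X).1 = _ at h2
        rw [h2]
        by_cases hij : i = j
        · subst hij
          rw [if_pos rfl, if_pos rfl]
        · rw [if_neg hij, if_neg (fun h => hij (Fin.mk.inj_iff.1 h))]
          rfl
      · rw [hQ0 j hj, mul_zero]
        split_ifs with h
        · rw [hQ0 i (by omega)]
        · rfl
    · rw [hQ0 i hi, zero_mul]
      split_ifs <;> rfl
  · rw [← hnd, Finset.sum_range]
    have h1 := congrArg Subtype.val he'.complete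
    have h2 : (∑ i : Fin n, (e' i : R0 C X)).1 = ∑ i : Fin n, (e' i : R0 C X).1 :=
      AddSubmonoidClass.coe_finsetSum _ _
    have h3 : ∀ i : Fin n, Q i = (e' i : R0 C X).1 := fun i => hQ i i.2
    rw [Finset.sum_congr rfl fun i _ => h3 i, ← h2, h1]
    rfl
  · by_cases hi : i < n
    · have h1 : actH C X H (Q i) x = f (e' ⟨i, hi⟩) x := by rw [hQ i hi]; rfl
      rw [h1, hfe', he _ _ _ hx]
    · rw [hQ0 i hi, map_zero, LinearMap.zero_apply]
      split_ifs with h3
      · have h7 : H.gr X m = ⊥ := gr_top H (by omega)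
        rw [h7] at hx
        exact ((Submodule.mem_bot _).1 hx).symm
      · rfl

/-! ### Nilpotence in the middle dimension -/

/-- Descent from a covering. -/
theorem PH.of_cover {f : X' ⟶ X} {u v : C.A X'} {c : ℚ} {s i j : ℕ}
    (hdim : X'.dim = X.dim + s + i) (hu : u ∈ C.gr X' s) (hv : v ∈ C.gr X' i) (hc : c ≠ 0)
    (huv : C.push f (u * v) = c • (1 : C.A X)) (h : PH H X' (j + i)) : PH H X j := by
  intro Γ hΓ hcl
  have hkey : ∀ z : C.A X, C.act (down f u) (C.act (up f v) z) = c • z := by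
    intro z
    rw [act_up, act_down, ← mul_assoc]
    have h1 := C.proj_right f (u * v) z
    rw [huv, smul_mul_assoc, one_mul] at h1
    exact h1
  set Γ' : C.A (X'.prod X') := C.comp (down f u) (C.comp Γ (up f v)) with hΓ'
  have hdown := down_mem (C := C) f hu
  have hup := up_mem (C := C) f hv
  have hact : ∀ y, C.act Γ' y = C.act (up f v) (C.act Γ (C.act (down f u) y)) := by
    intro y
    rw [hΓ', C.act_comp, C.act_comp]
  have hm : Γ' ∈ C.gr (X'.prod X') X'.dim := by
    refine comp_deg hdown (comp_deg hΓ hup rfl) ?_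
    rw [hdim]
    push_cast
    ring
  have hcl' : H.cl Γ' = 0 := by
    rw [hΓ', cl_comp, cl_comp, hcl, zero_comp, comp_zero]
  obtain ⟨n, hn⟩ := h Γ' hm hcl'
  have hiter : ∀ (n : ℕ) (z : C.A X), (C.act Γ')^[n] (C.act (up f v) z) =
      c ^ n • C.act (up f v) ((C.act Γ)^[n] z) := by
    intro n
    induction n with
    | zero => intro z; simp
    | succ n ih =>
      intro z
      rw [Function.iterate_succ_apply', ih, hact, Function.iterate_succ_apply', act_map_smul,
        hkey, smul_smul, act_map_smul, act_map_smul, pow_succ]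
  refine ⟨n, fun z hz => ?_⟩
  have hz' : C.act (up f v) z ∈ C.gr X' (j + i : ℕ) := by
    refine act_deg hup hz ?_
    push_cast
    ring
  have h2 := hn _ hz'
  rw [hiter] at h2
  have h3 : C.act (up f v) ((C.act Γ)^[n] z) = 0 := by
    rcases smul_eq_zero.1 h2 with h | h
    · exact absurd h (pow_ne_zero _ hc)
    · exact h
  have h4 := hkey ((C.act Γ)^[n] z)
  rw [h3, TheoryData.act_map_zero] at h4
  rcases smul_eq_zero.1 h4.symm with h | h
  · exact absurd h hc
  · exact h

lemma PH.of_prod (hT : T.dim = 1) {j : ℕ} (h : PH H (X.prod T) j) : PH H X j := by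
  obtain ⟨o, ho, hd⟩ := exists_point (C := C) hT
  refine PH.of_cover (f := fst X T) (u := C.pull (snd X T) o) (v := 1) (c := 1) (s := 1) (i := 0)
    (by rw [dim_prod, hT]) ?_ (by exact_mod_cast C.one_mem _) one_ne_zero ?_ h
  · have := C.pull_mem (snd X T) ho
    exact_mod_cast this
  · rw [mul_one]
    exact push_fst_degree hd

lemma PH.of_prod' (hT : T.dim = 1) {j : ℕ} (h : PH H (X.prod T) (j + 1)) : PH H X j := by
  obtain ⟨o, ho, hd⟩ := exists_point (C := C) hT
  refine PH.of_cover (f := fst X T) (u := 1) (v := C.pull (snd X T) o) (c := 1) (s := 0) (i := 1)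
    (by rw [dim_prod, hT]) (by exact_mod_cast C.one_mem _) ?_ one_ne_zero ?_ h
  · have := C.pull_mem (snd X T) ho
    exact_mod_cast this
  · rw [one_mul]
    exact push_fst_degree hd

lemma MidH.pred (hT : T.dim = 1) {j : ℕ} (h : MidH H (j + 1)) : MidH H j := by
  intro X hX
  apply PH.of_prod hT
  apply PH.of_prod' hT
  apply h
  rw [dim_prod, dim_prod, hT]
  omega

lemma MidH.le (hT : T.dim = 1) {j l : ℕ} (hl : l ≤ j) (h : MidH H j) : MidH H l := by
  induction j, hl using Nat.le_induction with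
  | base => exact h
  | succ j _ ih => exact ih (h.pred hT)

lemma act_toA_pow (x : R0 C X) (n : ℕ) (z : C.A X) :
    C.act (toA (x ^ n)) z = (C.act (toA x))^[n] z := by
  induction n with
  | zero => rw [pow_zero, toA_one, act_dg]; rfl
  | succ n ih => rw [pow_succ', toA_mul, C.act_comp, ih, Function.iterate_succ_apply']

/-- Nilpotence of homologically trivial self-correspondences from the nilpotence of the action in
the middle dimension. -/
theorem MidH.nil (hT : T.dim = 1) {M : ℕ} (h : MidH H M) (hX : X.dim ≤ M) (x : R0 C X)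
    (hx : H.cl (toA x) = 0) : IsNilpotent x := by
  have h1 : PH H (X.prod X) X.dim := h.le hT hX _ (by rw [dim_prod]; omega)
  have hΓm : TH133.tens C (TH133.tp C (dg C X)) (toA x) ∈
      C.gr ((X.prod X).prod (X.prod X)) (X.prod X).dim := by
    rw [tp_dg]
    have h1 := tens_mem C (dg_mem C X) (toA_mem x)
    rw [dim_prod]
    push_cast
    exact h1
  obtain ⟨n, hn⟩ := h1 _ hΓm (by rw [cl_tens, hx, tens, map_zero, mul_zero])
  refine ⟨n, toA_inj ?_⟩
  have h2 := hn (dg C X) (dg_mem C X)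
  have h3 : ∀ n : ℕ, (C.act (TH133.tens C (TH133.tp C (dg C X)) (toA x)))^[n] (dg C X) =
      toA (x ^ n) := by
    intro n
    induction n with
    | zero => rw [pow_zero, toA_one]; rfl
    | succ n ih =>
      rw [Function.iterate_succ_apply', ih, act_conj (H := H), dg_comp, pow_succ', toA_mul]
  rw [← h3 n, h2, map_zero]

lemma PH_of_nil (hn : ∀ x : R0 C X, H.cl (toA x) = 0 → IsNilpotent x) (j : ℕ) : PH H X j := by
  intro Γ hΓ hcl
  obtain ⟨n, h⟩ := hn (ofA Γ hΓ) hcl
  refine ⟨n, fun z _ => ?_⟩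
  have h1 := act_toA_pow (H := H) (ofA Γ hΓ) n z
  rw [h, map_zero, TheoryData.act_zero] at h1
  exact h1.symm

/-- Nilpotence excludes phantoms. -/
lemma noPhantoms_of_nil (hn : ∀ x : R0 C X, H.cl (toA x) = 0 → IsNilpotent x) :
    NoPhantoms H X := by
  intro p hp hpp hcl
  obtain ⟨N, hN⟩ := hn (ofA p hp) hcl
  have h1 : ofA p hp * ofA p hp = ofA p hp := toA_inj hpp
  have h2 : ∀ n, ofA p hp ^ (n + 1) = ofA p hp := by
    intro n
    induction n with
    | zero => rw [zero_add, pow_one]
    | succ n ih => rw [pow_succ, ih, h1]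
  have h3 : ofA p hp = 0 := by rw [← h2 N, pow_succ, hN, zero_mul]
  have h4 : toA (ofA p hp) = 0 := by rw [h3, map_zero]
  exact h4

/-! ### The unit motive in the decompositions -/

/-- The part of weight zero of the fundamental class. -/
lemma act_zero_one (h : IsCK H X π) : C.act (π 0) (1 : C.A X) = 1 := by
  have h1 : C.act (π 0) (1 : C.A X) - 1 ∈ C.gr X 0 :=
    Submodule.sub_mem _ (act_mem0 C (h.deg 0) (C.one_mem X)) (C.one_mem X)
  have h2 : H.cl (C.act (π 0) (1 : C.A X) - 1) = 0 := by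
    rw [map_sub, cl_act H, map_one, h.act_self 0 _ (by exact_mod_cast H.one_mem X), sub_self]
  exact sub_eq_zero.1 (gr_zero_eq (H := H) h1 h2)

/-- The unit motive is a direct summand of the part of weight zero. -/
lemma exists_unit_part (h : IsCK H X π) : ∃ x ∈ C.gr X X.dim,
    C.comp (C.ext x (1 : C.A X)) (C.ext x (1 : C.A X)) = C.ext x (1 : C.A X) ∧
    C.comp (π 0) (C.ext x (1 : C.A X)) = C.ext x (1 : C.A X) ∧ C.comp (C.ext x (1 : C.A X)) (π 0) = C.ext x (1 : C.A X) ∧
    H.cl (π 0 - C.ext x (1 : C.A X)) = 0 := by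
  obtain ⟨o, ho, hd⟩ := exists_zeroCycle (C := C) X
  have hpi1 := act_zero_one h
  set x := C.act (tp C (π 0)) o with hx
  have h1 : C.comp (π 0) (C.ext o (1 : C.A X)) = C.ext x (1 : C.A X) := by rw [comp_ext]
  have h2 : C.comp (C.ext x (1 : C.A X)) (π 0) = C.ext x (1 : C.A X) := by rw [ext_comp, hpi1]
  have h3 : C.comp (π 0) (C.ext x (1 : C.A X)) = C.ext x (1 : C.A X) := by
    rw [← h1, ← comp_assoc C (π 0) (π 0) (C.ext o (1 : C.A X)), h.idem]
  have h4 : C.act (C.ext x (1 : C.A X)) (1 : C.A X) = 1 := by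
    rw [← h1, C.act_comp, hpi1, act_ext' (q := 1) (by rwa [mul_one]), one_smul]
  refine ⟨x, act_mem0 C (tp_mem C (h.deg 0)) ho, ?_, h3, h2, ?_⟩
  · rw [ext_comp, h4]
  · apply cl_zero_of
    intro m a ha
    rw [map_sub, TheoryData.act_sub]
    by_cases hm : m = 0
    · subst hm
      obtain ⟨c, rfl⟩ := hH.gr_zero X a ha
      have h5 : H.act (H.cl (C.ext x (1 : C.A X))) (1 : H.A X) = 1 := by
        rw [← map_one H.cl, ← cl_act H, h4]
      have h6 : H.act (H.cl (π 0)) (1 : H.A X) = 1 := by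
        rw [← map_one H.cl, ← cl_act H, hpi1]
      rw [act_map_smul, act_map_smul, h5, h6, sub_self]
    · have h5 : H.act (H.cl (C.ext x (1 : C.A X))) a = 0 := by
        rw [← h3, actH_comp, h.act_ne 0 m a (by exact_mod_cast hm) ha, TheoryData.act_map_zero]
      rw [h5, h.act_ne 0 m a (by exact_mod_cast hm) ha, sub_zero]

/-- The complement of the unit motive in the part of weight zero is a phantom. -/
lemma unit_part_phantom (h : IsCK H X π) {x : C.A X}
    (h1 : C.comp (C.ext x (1 : C.A X)) (C.ext x (1 : C.A X)) = C.ext x (1 : C.A X))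
    (h2 : C.comp (π 0) (C.ext x (1 : C.A X)) = C.ext x (1 : C.A X)) (h3 : C.comp (C.ext x (1 : C.A X)) (π 0) = C.ext x (1 : C.A X)) :
    C.comp (π 0 - C.ext x (1 : C.A X)) (π 0 - C.ext x (1 : C.A X)) = π 0 - C.ext x (1 : C.A X) := by
  rw [comp_sub, sub_comp, sub_comp, h.idem, h1, h2, h3]
  abel

/-- Without phantoms the part of weight zero is the unit motive. -/
theorem zero_of_noPhantoms (hn : NoPhantoms H X) (h : IsCK H X π) :
    ∃ x ∈ C.gr X X.dim, π 0 = C.ext x (1 : C.A X) := by
  obtain ⟨x, hx, h1, h2, h3, h4⟩ := exists_unit_part h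
  refine ⟨x, hx, ?_⟩
  have hm : C.ext x (1 : C.A X) ∈ C.gr (X.prod X) X.dim := by
    have := ext_mem (C := C) (H := H) hx (C.one_mem X)
    rwa [add_zero] at this
  exact sub_eq_zero.1 (hn _ (Submodule.sub_mem _ (h.deg 0) hm) (unit_part_phantom h h1 h2 h3) h4)

lemma act_unit_zero {x : C.A X} (hx : x ∈ C.gr X X.dim) {i : ℕ} (hi : 0 < i) {z : C.A X}
    (hz : z ∈ C.gr X i) : C.act (C.ext x (1 : C.A X)) z = 0 :=
  act_ext_zero_of_lt (i := X.dim + i) (C.mul_mem hx hz) (by omega)

/-- Conjugate decompositions: uniqueness implies that the part of weight zero is the unit motive. -/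
theorem zero_of_unique (hu : ∀ ρ ρ' : ℕ → C.A (X.prod X), IsCK H X ρ → IsCK H X ρ' →
      ∃ s t : C.A (X.prod X), s ∈ C.gr (X.prod X) X.dim ∧ t ∈ C.gr (X.prod X) X.dim ∧
        ∀ b, ρ' b = C.comp (C.comp t (ρ b)) s) (h : IsCK H X π) :
    ∃ x ∈ C.gr X X.dim, π 0 = C.ext x (1 : C.A X) := by
  obtain ⟨x, hx, h1, h2, h3, h4⟩ := exists_unit_part h
  have hm : C.ext x (1 : C.A X) ∈ C.gr (X.prod X) X.dim := by
    have := ext_mem (C := C) (H := H) hx (C.one_mem X)
    rwa [add_zero] at this
  rcases Nat.eq_zero_or_pos X.dim with h0 | h0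
  · refine ⟨x, hx, sub_eq_zero.1 (gr_zero_eq (H := H) ?_ h4)⟩
    have h5 := Submodule.sub_mem _ (h.deg 0) hm
    rw [h0] at h5
    exact_mod_cast h5
  set f : C.A (X.prod X) := π 0 - C.ext x (1 : C.A X) with hf
  have hff : C.comp f f = f := unit_part_phantom h h1 h2 h3
  have hπf : C.comp (π 0) f = f := by rw [hf, comp_sub, h.idem, h2]
  have hfπ : C.comp f (π 0) = f := by rw [hf, sub_comp, h.idem, h3]
  have hfm : f ∈ C.gr (X.prod X) X.dim := Submodule.sub_mem _ (h.deg 0) hm
  have hck : IsCK H X (mv π f 0 (2 * X.dim)) :=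
    IsCK.move (P := π) h hfm hff h4 (by omega) hfπ hπf (Nat.zero_le _) le_rfl
  have h5 : mv π f 0 (2 * X.dim) 0 = C.ext x (1 : C.A X) := by
    change (if 0 = 0 then π 0 - f else if 0 = 2 * X.dim then π (2 * X.dim) + f else π 0) =
      C.ext x (1 : C.A X)
    rw [if_pos rfl, hf, sub_sub_cancel]
  obtain ⟨s, t, hs, ht, hst⟩ := hu _ _ hck h
  have h6 := hst 0
  rw [h5, comp_ext, ext_comp] at h6
  have h7 : C.act s (1 : C.A X) ∈ C.gr X 0 := act_mem0 C hs (C.one_mem X)
  obtain ⟨q, hq⟩ := hC.gr_zero X _ h7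
  refine ⟨q • C.act (tp C t) x, Submodule.smul_mem _ _ (act_mem0 C (tp_mem C ht) hx), ?_⟩
  rw [h6, hq, TheoryData.ext, TheoryData.ext, map_smul, map_smul, mul_smul_comm, smul_mul_assoc]

/-- **If the part of weight zero is always the unit motive, there are no phantoms.** -/
theorem noPh_of_zero (hu : ∀ π : ℕ → C.A (X.prod X), IsCK H X π →
    ∃ x ∈ C.gr X X.dim, π 0 = C.ext x (1 : C.A X)) : NoPh H X := by
  intro ρ hρ a e he hee hcl hae hea
  have hact1 : C.act e (1 : C.A X) = 0 := by
    refine gr_zero_eq (H := H) (act_mem0 C he (C.one_mem X)) ?_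
    rw [cl_act H, hcl, TheoryData.act_zero]
  have hext : ∀ y : C.A X, e = C.ext y (1 : C.A X) → e = 0 := by
    intro y hy
    have h1 : e = C.comp (C.ext y (1 : C.A X)) e := by rw [← hy, hee]
    rw [ext_comp, hact1, TheoryData.ext_zero_right] at h1
    exact h1
  obtain ⟨x, hx, hρ0⟩ := hu ρ hρ
  rcases Nat.eq_zero_or_pos a with ha | ha
  · subst ha
    rw [← hae, hρ0, ext_comp, hact1, TheoryData.ext_zero_right]
  rcases Nat.lt_or_ge (2 * X.dim) a with h4 | h4
  · rw [hρ.out a h4, zero_comp] at hae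
    exact hae.symm
  have hck : IsCK H X (mv ρ e a 0) :=
    IsCK.move (P := ρ) hρ he hee hcl (by omega) hea hae h4 (Nat.zero_le _)
  obtain ⟨x', hx', h5⟩ := hu _ hck
  have h6 : mv ρ e a 0 0 = ρ 0 + e := by
    change (if 0 = a then ρ a - e else if 0 = 0 then ρ 0 + e else ρ 0) = ρ 0 + e
    rw [if_neg (by omega), if_pos rfl]
  rw [h6, hρ0] at h5
  apply hext (x' - x)
  rw [TheoryData.ext, map_sub, sub_mul]
  exact (eq_sub_of_add_eq' h5)

end Pool.Agent.N567.MD
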