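import Pool.Agent.N567.MD.LemJ
import Pool.Agent.N567.MD.LemH

/-!
# Products of homologically trivial cycles: squares, zero-cycles and one-cycles
-/

set_option autoImplicit false

open CategoryTheory AlgebraicGeometry

universe u v w

namespace Pool.Agent.N567.MD

open Pool.Agent.H914 Pool.Agent.H914.VarClass Pool.Agent.H914.VarClass.Obj Pool.Agent.W492.BB
  Pool.Agent.W550.Corr Pool.Agent.TH133 Pool.Agent.Y148.BB Pool.Agent.X308.S
  Pool.Agent.TH829.Kim
open Pool.Agent.N164.BB (graph_mem exists_zeroCycle exists_point sum_act cl_of_mem_F1)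

set_option linter.unusedSectionVars false
set_option linter.unusedVariables false

attribute [-instance] Pool.Agent.TH829.Kim.chCommRing

variable {k : Type u} [Field k] {𝒱 : VarClass k}

variable {C : TheoryData.{u, v, 0} 𝒱 ℚ} [hC : IsChowProj C] {K : Type w} [Field K]
  {H : WeilTheoryData.{u, v, w} C K} [hH : IsWeilProj H] {S : 𝒱.Obj → Prop} {T X Y Z W X' : 𝒱.Obj}
  {π ρ : ℕ → C.A (X.prod X)} {N : ∀ X : 𝒱.Obj, ℕ → Submodule ℚ (C.A X)}

section defs

variable (H)

/-- Products vanish in dimension `d` and codimensions `i` and `j`. -/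
def Bil (i j d : ℕ) : Prop :=
  ∀ X : 𝒱.Obj, X.dim = d → ∀ z ∈ homN H X i, ∀ w ∈ homN H X j, z * w = 0

end defs

include hC hH

lemma Bil.dim (hT : T.dim = 1) {i j d : ℕ} (h : Bil H i j (d + 1)) : Bil H i j d := by
  intro X hX z hz w hw
  obtain ⟨o, ho, hd⟩ := exists_point (C := C) hT
  have h1 := h (X.prod T) (by rw [dim_prod, hT, hX]) (C.pull (fst X T) z)
    ⟨C.pull_mem _ hz.1, by rw [H.cl_pull, hz.2, map_zero]⟩ (C.pull (fst X T) w)
    ⟨C.pull_mem _ hw.1, by rw [H.cl_pull, hw.2, map_zero]⟩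
  rw [← map_mul] at h1
  have h2 := C.proj_right (fst X T) (C.pull (snd X T) o) (z * w)
  rw [h1, mul_zero, map_zero, push_fst_degree hd, one_smul, one_mul] at h2
  exact h2.symm

lemma Bil.left (hT : T.dim = 1) {i j d : ℕ} (h : Bil H (i + 1) j (d + 1)) : Bil H i j d := by
  intro X hX z hz w hw
  obtain ⟨o, ho, hd⟩ := exists_point (C := C) hT
  have hzo : C.pull (snd X T) o * C.pull (fst X T) z ∈ homN H (X.prod T) (i + 1) := by
    refine ⟨?_, ?_⟩
    · have h1 := C.mul_mem (C.pull_mem (snd X T) ho) (C.pull_mem (fst X T) hz.1)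
      have e : (1 : ℤ) + i = ((i + 1 : ℕ) : ℤ) := by push_cast; ring
      rwa [e] at h1
    · rw [map_mul, H.cl_pull (fst X T), hz.2, map_zero, mul_zero]
  have h1 := h (X.prod T) (by rw [dim_prod, hT, hX]) _ hzo (C.pull (fst X T) w)
    ⟨C.pull_mem _ hw.1, by rw [H.cl_pull, hw.2, map_zero]⟩
  rw [mul_assoc, ← map_mul] at h1
  have h2 := C.proj_right (fst X T) (C.pull (snd X T) o) (z * w)
  rw [h1, map_zero, push_fst_degree hd, one_smul, one_mul] at h2
  exact h2.symm

lemma Bil.symm {i j d : ℕ} (h : Bil H i j d) : Bil H j i d := by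
  intro X hX z hz w hw
  rw [ch_comm C, h X hX w hw z hz]

lemma Bil.right (hT : T.dim = 1) {i j d : ℕ} (h : Bil H i (j + 1) (d + 1)) : Bil H i j d :=
  (h.symm.left hT).symm

lemma Bil.down (hT : T.dim = 1) (a b c : ℕ) {i j d : ℕ}
    (h : Bil H (i + a) (j + b) (d + a + b + c)) : Bil H i j d := by
  have h1 : Bil H (i + a) (j + b) (d + a + b) := by
    induction c with
    | zero => exact h
    | succ c ih => exact ih (Bil.dim hT h)
  clear h
  have h2 : Bil H (i + a) j (d + a) := by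
    clear * - h1 hT hC hH
    induction b with
    | zero => exact h1
    | succ b ih => exact ih (Bil.right hT h1)
  clear h1
  induction a with
  | zero => exact h2
  | succ a ih => exact ih (Bil.left hT h2)

lemma bil_of_sq {j d : ℕ} (h : ∀ X : 𝒱.Obj, X.dim = d → ∀ z ∈ homN H X j, z * z = 0) :
    Bil H j j d := by
  intro X hX z hz w hw
  have h1 := h X hX (z + w) (Submodule.add_mem _ hz hw)
  rw [mul_add, add_mul, add_mul, h X hX z hz, h X hX w hw, zero_add, add_zero, ch_comm C w z] at h1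
  have h2 : (2 : ℚ) • (z * w) = 0 := by
    rw [two_smul]
    exact h1
  rcases smul_eq_zero.1 h2 with h | h
  · norm_num at h
  · exact h

/-- **Squares in the middle dimension.** -/
theorem pv_of_sq (hT : T.dim = 1) (h : ∀ e : ℕ, ∃ j, e ≤ j ∧ ∀ X : 𝒱.Obj, X.dim + 1 = 4 * j →
    ∀ z ∈ homN H X j, z * z = 0) : PV H := by
  intro X i j z hz w hw
  obtain ⟨m, hm, hm'⟩ := h (X.dim + i + j + 1)
  have h1 : Bil H m m (4 * m - 1) := bil_of_sq fun X hX => hm' X (by omega)
  have h2 : Bil H i j X.dim := by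
    refine Bil.down hT (m - i) (m - j) (4 * m - 1 - X.dim - (m - i) - (m - j)) ?_
    have e1 : i + (m - i) = m := by omega
    have e2 : j + (m - j) = m := by omega
    have e3 : X.dim + (m - i) + (m - j) + (4 * m - 1 - X.dim - (m - i) - (m - j)) = 4 * m - 1 := by
      omega
    rw [e1, e2, e3]
    exact h1
  exact h2 X rfl z hz w hw

/-- If the square of the ideal of homologically trivial self-correspondences is zero, these kill
homologically trivial classes. -/
lemma kj_of_sq (h : ∀ X : 𝒱.Obj, ∀ Γ ∈ homN H (X.prod X) X.dim, ∀ Δ ∈ homN H (X.prod X) X.dim,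
    C.comp Γ Δ = 0) (X : 𝒱.Obj) (j : ℕ) : KJ H X j := by
  apply KJ.of
  intro Γ hΓ hcl z hz
  rcases Nat.lt_or_ge X.dim j with hj | hj
  · rw [zero_of_top hz.1 (by exact_mod_cast hj), TheoryData.act_map_zero]
  obtain ⟨u, hu, v, hv, huv⟩ := exists_dual_pair (C := C) (H := H) X hj
  have h1 : C.ext v z ∈ homN H (X.prod X) X.dim := by
    refine ⟨?_, ?_⟩
    · have h2 := ext_mem (C := C) (H := H) hv hz.1
      have e : (X.dim : ℤ) - j + j = X.dim := by ring
      rwa [e] at h2
    · rw [TheoryData.ext, map_mul, H.cl_pull (snd X X), hz.2, map_zero, mul_zero]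
  have h2 := h X _ h1 Γ ⟨hΓ, hcl⟩
  have h3 : C.act (C.comp (C.ext v z) Γ) u = 0 := by rw [h2, TheoryData.act_zero]
  rwa [C.act_comp, act_ext (H := H), huv, one_mul] at h3

/-- The part of weight `a` of `CH^j` if it comes from `CH^1` and `a ≥ 2 j`. -/
theorem high_zero_one (h : PV H) (hL : IsLefschetzClass H) (hN : IsAbelJacobiKernel H N)
    (hπ : IsCK H X π) {a j : ℕ} (haj : 2 * j ≤ a) (ha : X.dim < a) (hl : X.dim + j ≤ a + 1)
    {z : C.A X} (hz : z ∈ homN H X j) : C.act (π a) z = 0 := by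
  rcases Nat.lt_or_ge (2 * X.dim) a with h2 | h2
  · rw [hπ.out a h2, TheoryData.act_zero]
  obtain ⟨Y, α, β, hY, hα, hβ, hαβ⟩ := hL X (2 * X.dim - a) (by omega)
  obtain ⟨ρ, hρ⟩ := exists_ck_of_pv h hL Y
  have hρk : IsKun H (ρ (2 * X.dim - a)) ((2 * X.dim - a : ℕ) : ℤ) :=
    ⟨hρ.deg _, fun l x hx => hρ.actH_eq _ l hx⟩
  have hE := (IsKun.of_summand hα (by rw [hY]; exact hβ) hαβ hρk).tp
  have e : 2 * (X.dim : ℤ) - ((2 * X.dim - a : ℕ) : ℤ) = a := by omega
  rw [e] at hE
  rw [act_of_kun h hπ hE hz, tp_comp', tp_comp', comp_assoc, C.act_comp, C.act_comp]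
  have h1 : C.act (π a) z ∈ homN H X j := act_homN (by
    rw [add_sub_cancel_right]; exact hπ.deg a) hz
  have h0 : C.act (tp C β) (C.act (π a) z) ∈ C.gr Y ((X.dim : ℤ) - a + j) := by
    refine act_deg (tp_mem C hβ) h1.1 ?_
    omega
  rcases lt_trichotomy ((X.dim : ℤ) - a + j) 0 with hl0 | hl0 | hl0
  · have h3 : C.act (tp C β) (C.act (π a) z) = 0 := zero_of_neg h0 hl0
    rw [h3, TheoryData.act_map_zero, TheoryData.act_map_zero]
  · have h3 : C.act (tp C β) (C.act (π a) z) ∈ homN H Y 0 := by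
      refine act_homN ?_ h1
      have h4 := tp_mem C hβ
      convert h4 using 2
      omega
    rw [homN_zero h3, TheoryData.act_map_zero, TheoryData.act_map_zero]
  · have h3 : C.act (tp C β) (C.act (π a) z) ∈ homN H Y 1 := by
      refine act_homN ?_ h1
      have h4 := tp_mem C hβ
      convert h4 using 2
      omega
    have h5 : C.act (tp C (ρ (2 * X.dim - a))) (C.act (tp C β) (C.act (π a) z)) = 0 := by
      refine hN.abel Y _ (hN.kills Y Y 1 1 _ ?_ (fun x hx => ?_) _ h3.1 h3.2)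
      · change tp C (ρ (2 * X.dim - a)) ∈ C.gr _ _
        rw [add_sub_cancel_right]
        exact hρk.tp.mem
      · have e1 : 2 * ((1 : ℕ) : ℤ) - 1 = 1 := by norm_num
        rw [e1] at hx
        rw [hρk.tp.act 1 x hx, if_neg]
        omega
    rw [h5, TheoryData.act_map_zero]

/-- **Zero-cycles.** -/
theorem alb_of_pv (h : PV H) (hL : IsLefschetzClass H) (hS : HasSec H)
    (hN : IsAbelJacobiKernel H N) {z : C.A X} (hz : z ∈ N X X.dim) : z = 0 := by
  have hzh : z ∈ homN H X X.dim := hN.deg X X.dim z hz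
  rcases Nat.lt_or_ge X.dim 2 with hX | hX
  · rcases Nat.lt_or_ge X.dim 1 with hX0 | hX1
    · have e : X.dim = 0 := by omega
      rw [e] at hzh
      exact homN_zero hzh
    · have e : X.dim = 1 := by omega
      rw [e] at hz
      exact hN.abel X z hz
  obtain ⟨π, hπ⟩ := exists_ck_of_pv h hL X
  rw [sum_act hπ z]
  apply Finset.sum_eq_zero
  intro a _
  rcases lt_trichotomy (a + 1) (2 * X.dim) with ha | ha | ha
  · exact low_zero h hL hS a X π X.dim hπ (by omega) z hzh
  · obtain ⟨Y, α, β, hY, hα, hβ, hαβ⟩ := hL X 1 (by omega)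
    obtain ⟨ρ, hρ⟩ := exists_ck_of_pv h hL Y
    have hρk : IsKun H (ρ 1) ((1 : ℕ) : ℤ) := ⟨hρ.deg _, fun l x hx => hρ.actH_eq _ l hx⟩
    have hE := (IsKun.of_summand hα (by rw [hY]; exact hβ) hαβ hρk).tp
    have e : 2 * (X.dim : ℤ) - ((1 : ℕ) : ℤ) = a := by push_cast; omega
    rw [e] at hE
    rw [act_of_kun h hπ hE hzh, tp_comp', tp_comp', comp_assoc, C.act_comp, C.act_comp]
    have h2 : C.act (π a) z ∈ N X X.dim := by
      refine hN.stable X X X.dim X.dim _ ?_ z hz
      change π a ∈ C.gr _ _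
      rw [add_sub_cancel_right]
      exact hπ.deg a
    have h3 : C.act (tp C β) (C.act (π a) z) ∈ N Y 1 := by
      refine hN.stable X Y X.dim 1 _ ?_ _ h2
      change tp C β ∈ C.gr _ _
      have h4 := tp_mem C hβ
      convert h4 using 2
      push_cast
      ring
    rw [hN.abel Y _ h3, TheoryData.act_map_zero, TheoryData.act_map_zero]
  · exact high_zero_one h hL hN hπ (by omega) (by omega) (by omega) hzh

/-- **One-cycles.** -/
theorem one_of_pv (h : PV H) (hL : IsLefschetzClass H) (hS : HasSec H)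
    (hN : IsAbelJacobiKernel H N) {i j : ℕ} (hX : X.dim = j + 1) {Γ : C.A (X.prod Y)}
    (hΓ : Γ ∈ C.gr (X.prod Y) ((X.dim : ℤ) + i - j)) (hk : Kills H Γ (2 * j - 1))
    {z : C.A X} (hz : z ∈ homN H X j) : C.act Γ z = 0 := by
  rcases Nat.eq_zero_or_pos j with rfl | hj
  · rw [homN_zero hz, TheoryData.act_map_zero]
  obtain ⟨π, hπ⟩ := exists_ck_of_pv h hL X
  rw [sum_act hπ z, act_map_sum]
  apply Finset.sum_eq_zero
  intro a _
  rcases lt_trichotomy (a + 1) (2 * j) with ha | ha | ha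
  · rw [low_zero h hL hS a X π j hπ (by omega) z hz, TheoryData.act_map_zero]
  · rw [← C.act_comp]
    refine h.act (i := i) (j := j) (comp_deg (hπ.deg a) hΓ (by ring)) ?_ hz
    apply cl_zero_of
    intro m x hx
    rw [actH_comp, hπ.actH_eq a m hx]
    split_ifs with hm
    · refine hk x ?_
      have e : (2 * (j : ℤ) - 1) = m := by omega
      rwa [e]
    · rw [TheoryData.act_map_zero]
  · have h1 : C.act (π a) z = 0 := by
      rcases Nat.lt_or_ge j 2 with hj2 | hj2
      · have e : j = 1 := by omega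
        subst e
        refine hN.abel X _ (hN.kills X X 1 1 _ ?_ (fun x hx => ?_) z hz.1 hz.2)
        · change π a ∈ C.gr _ _
          rw [add_sub_cancel_right]
          exact hπ.deg a
        · have e1 : 2 * ((1 : ℕ) : ℤ) - 1 = 1 := by norm_num
          rw [e1] at hx
          rw [hπ.actH_eq a 1 hx, if_neg]
          omega
      · exact high_zero_one h hL hN hπ (by omega) (by omega) (by omega) hz
    rw [h1, TheoryData.act_map_zero]

end Pool.Agent.N567.MD
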