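import Pool.Agent.N567.MD.LemZ
import Pool.Agent.N567.MD.LemH

/-!
# Algebraically trivial cycles
-/

set_option autoImplicit false

open CategoryTheory AlgebraicGeometry

universe u v w

namespace Pool.Agent.N567.MD

open Pool.Agent.H914 Pool.Agent.H914.VarClass Pool.Agent.H914.VarClass.Obj Pool.Agent.W492.BB
  Pool.Agent.W550.Corr Pool.Agent.TH133 Pool.Agent.Y148.BB Pool.Agent.X308.S
  Pool.Agent.TH829.Kim
open Pool.Agent.N164.BB (graph_mem exists_zeroCycle exists_point sum_act cl_of_mem_F1)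

set_option linter.unusedSectionVars false
set_option linter.unusedVariables false

attribute [-instance] Pool.Agent.TH829.Kim.chCommRing

variable {k : Type u} [Field k] {𝒱 : VarClass k}

variable {C : TheoryData.{u, v, 0} 𝒱 ℚ} [hC : IsChowProj C] {K : Type w} [Field K]
  {H : WeilTheoryData.{u, v, w} C K} [hH : IsWeilProj H] {S : 𝒱.Obj → Prop} {T X Y Z W X' : 𝒱.Obj}
  {π ρ : ℕ → C.A (X.prod X)} {N : ∀ X : 𝒱.Obj, ℕ → Submodule ℚ (C.A X)}

section defs

variable (H)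

/-- The algebraically trivial classes of codimension `j`. -/
def algN (X : 𝒱.Obj) (j : ℕ) : Submodule ℚ (C.A X) :=
  Submodule.span ℚ {c | ∃ (T : 𝒱.Obj) (Γ : C.A (T.prod X)) (y : C.A T), T.dim = 1 ∧
    C.Deg j Γ ∧ y ∈ homN H T 1 ∧ c = C.act Γ y}

/-- Homologically trivial correspondences from curves kill divisor classes of degree zero. -/
def CurAll : Prop :=
  ∀ (T X : 𝒱.Obj) (j : ℕ) (Γ : C.A (T.prod X)), T.dim = 1 → Γ ∈ homN H (T.prod X) j →
    ∀ y ∈ homN H T 1, C.act Γ y = 0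

end defs

include hC hH

/-- Correspondences killing `H^1` kill the homologically trivial divisor classes. -/
lemma killOne (hN : IsAbelJacobiKernel H N) (hL : Lef1 H) (hc : CurAll H) {i : ℕ}
    {Γ : C.A (X.prod Y)} (hΓ : Γ ∈ C.gr (X.prod Y) ((X.dim : ℤ) + i - 1)) (hk : Kills H Γ 1)
    {y : C.A X} (hy : y ∈ homN H X 1) : C.act Γ y = 0 := by
  have key : ∀ (T : 𝒱.Obj) (Δ : C.A (T.prod Y)) (x : C.A T), T.dim = 1 →
      Δ ∈ C.gr (T.prod Y) ((T.dim : ℤ) + i - 1) → Kills H Δ 1 → x ∈ homN H T 1 →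
        C.act Δ x = 0 := by
    intro T Δ x hT hΔ hk hx
    obtain ⟨o, ho, hd⟩ := exists_point (C := C) hT
    have hτ := curveCK_isCK (H := H) hT ho hd
    have h4 : C.act (C.comp (curveCK C o 1) Δ) x = 0 := by
      refine hc T Y i _ hT ⟨?_, ?_⟩ x hx
      · exact comp_deg (hτ.deg 1) hΔ (by rw [hT]; push_cast; ring)
      · apply cl_zero_of
        intro m a ha
        rw [actH_comp, hτ.actH_eq 1 m ha]
        split_ifs with hm
        · rw [hm] at ha
          exact hk a (by exact_mod_cast ha)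
        · rw [TheoryData.act_map_zero]
    rwa [C.act_comp, act_curve_one hT ho hd hx] at h4
  rcases Nat.lt_or_ge X.dim 2 with hX | hX
  · rcases Nat.lt_or_ge X.dim 1 with hX0 | hX1
    · have h1 : y = 0 := zero_of_top hy.1 (by
        have : X.dim = 0 := by omega
        rw [this]
        norm_num)
      rw [h1, TheoryData.act_map_zero]
    · exact key X Γ y (by omega) hΓ hk hy
  · obtain ⟨T, α, β, hT, hα, hβ, hαβ⟩ := hL X (by omega)
    have hαm : α ∈ C.gr (X.prod T) X.dim := hα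
    have hβm : β ∈ C.gr (T.prod X) T.dim := by
      rw [hT]
      exact_mod_cast hβ
    have h1 : C.act (dg C X - C.comp α β) y = 0 := by
      refine hN.abel X _ (hN.kills X X 1 1 _ ?_ (fun a ha => ?_) y hy.1 hy.2)
      · change dg C X - C.comp α β ∈ C.gr _ _
        rw [add_sub_cancel_right]
        exact Submodule.sub_mem _ (dg_mem C X) (comp_deg hαm hβm (by ring))
      · rw [map_sub, TheoryData.act_sub, actH_dg]
        have e : 2 * ((1 : ℕ) : ℤ) - 1 = 1 := by norm_num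
        rw [e] at ha
        rw [hαβ a ha, sub_self]
    rw [TheoryData.act_sub, act_dg, C.act_comp, sub_eq_zero] at h1
    rw [h1, ← C.act_comp]
    refine key T (C.comp β Γ) _ hT (comp_deg hβm hΓ (by ring)) (fun a ha => ?_)
      (act_homN (by rwa [add_sub_cancel_right]) hy)
    rw [actH_comp]
    refine hk _ ?_
    exact actH_deg (H := H) hβm ha (by ring)

/-- Homologically trivial divisor classes are algebraically trivial. -/
lemma homN_le_algN (hN : IsAbelJacobiKernel H N) (hL : Lef1 H) {y : C.A X}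
    (hy : y ∈ homN H X 1) : y ∈ algN H X 1 := by
  rcases Nat.lt_or_ge X.dim 2 with hX | hX
  · rcases Nat.lt_or_ge X.dim 1 with hX0 | hX1
    · have h1 : y = 0 := zero_of_top hy.1 (by
        have : X.dim = 0 := by omega
        rw [this]
        norm_num)
      rw [h1]
      exact Submodule.zero_mem _
    · apply Submodule.subset_span
      have hX : X.dim = 1 := by omega
      refine ⟨X, dg C X, y, hX, ?_, hy, (act_dg C y).symm⟩
      have := dg_mem C X
      rw [hX] at this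
      exact this
  · obtain ⟨T, α, β, hT, hα, hβ, hαβ⟩ := hL X (by omega)
    have hαm : α ∈ C.gr (X.prod T) X.dim := hα
    have hβm : β ∈ C.gr (T.prod X) T.dim := by
      rw [hT]
      exact_mod_cast hβ
    have h1 : C.act (dg C X - C.comp α β) y = 0 := by
      refine hN.abel X _ (hN.kills X X 1 1 _ ?_ (fun a ha => ?_) y hy.1 hy.2)
      · change dg C X - C.comp α β ∈ C.gr _ _
        rw [add_sub_cancel_right]
        exact Submodule.sub_mem _ (dg_mem C X) (comp_deg hαm hβm (by ring))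
      · rw [map_sub, TheoryData.act_sub, actH_dg]
        have e : 2 * ((1 : ℕ) : ℤ) - 1 = 1 := by norm_num
        rw [e] at ha
        rw [hαβ a ha, sub_self]
    rw [TheoryData.act_sub, act_dg, C.act_comp, sub_eq_zero] at h1
    apply Submodule.subset_span
    refine ⟨T, β, C.act α y, hT, ?_, act_homN (by rwa [add_sub_cancel_right]) hy, h1⟩
    rw [hT] at hβm
    exact hβm

/-- Correspondences respect algebraic triviality. -/
lemma algN_act {i j : ℕ} {Γ : C.A (X.prod Y)} (hΓ : Γ ∈ C.gr (X.prod Y) ((X.dim : ℤ) + i - j))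
    {z : C.A X} (hz : z ∈ algN H X j) : C.act Γ z ∈ algN H Y i := by
  induction hz using Submodule.span_induction with
  | mem c hc =>
    obtain ⟨T, Δ, y, hT, hΔ, hy, rfl⟩ := hc
    apply Submodule.subset_span
    refine ⟨T, C.comp Δ Γ, y, hT, ?_, hy, (C.act_comp _ _ _).symm⟩
    have hΔ' : Δ ∈ C.gr (T.prod X) j := hΔ
    have h1 : C.comp Δ Γ ∈ C.gr (T.prod Y) i := comp_deg hΔ' hΓ (by ring)
    exact h1
  | zero =>
    rw [TheoryData.act_map_zero]
    exact Submodule.zero_mem _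
  | add x y _ _ hx hy =>
    rw [act_map_add]
    exact Submodule.add_mem _ hx hy
  | smul r x _ hx =>
    rw [act_map_smul]
    exact Submodule.smul_mem _ _ hx

/-- An algebraically trivial class comes from one divisor class. -/
lemma exists_single {j : ℕ} {z : C.A X} (hz : z ∈ algN H X j) :
    ∃ (Y : 𝒱.Obj) (Γ : C.A (Y.prod X)) (y : C.A Y), Γ ∈ C.gr (Y.prod X) ((Y.dim : ℤ) + j - 1) ∧
      y ∈ homN H Y 1 ∧ z = C.act Γ y := by
  induction hz using Submodule.span_induction with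
  | mem c hc =>
    obtain ⟨T, Δ, y, hT, hΔ, hy, rfl⟩ := hc
    refine ⟨T, Δ, y, ?_, hy, rfl⟩
    have hΔ' : Δ ∈ C.gr (T.prod X) j := hΔ
    rw [hT]
    have e : ((1 : ℕ) : ℤ) + j - 1 = j := by push_cast; ring
    rwa [e]
  | zero =>
    exact ⟨X, 0, 0, Submodule.zero_mem _, Submodule.zero_mem _, (TheoryData.act_map_zero _ _).symm⟩
  | add x₁ x₂ _ _ h₁ h₂ =>
    obtain ⟨Y₁, Γ₁, y₁, hΓ₁, hy₁, rfl⟩ := h₁
    obtain ⟨Y₂, Γ₂, y₂, hΓ₂, hy₂, rfl⟩ := h₂
    obtain ⟨o₁, ho₁, hd₁⟩ := exists_zeroCycle (C := C) Y₁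
    obtain ⟨o₂, ho₂, hd₂⟩ := exists_zeroCycle (C := C) Y₂
    have hA₁ : down (fst Y₁ Y₂) (C.pull (snd Y₁ Y₂) o₂) ∈ C.gr ((Y₁.prod Y₂).prod Y₁)
        ((Y₁.dim : ℤ) + Y₂.dim) := down_mem _ (C.pull_mem _ ho₂)
    have hA₂ : down (snd Y₁ Y₂) (C.pull (fst Y₁ Y₂) o₁) ∈ C.gr ((Y₁.prod Y₂).prod Y₂)
        ((Y₂.dim : ℤ) + Y₁.dim) := down_mem _ (C.pull_mem _ ho₁)
    have h11 : C.act (down (fst Y₁ Y₂) (C.pull (snd Y₁ Y₂) o₂)) (C.pull (fst Y₁ Y₂) y₁) = y₁ := by
      rw [act_down, C.proj_right]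
      have h5 : C.push (fst Y₁ Y₂) (C.pull (snd Y₁ Y₂) o₂) = (1 : ℚ) • (1 : C.A Y₁) := (hd₂ Y₁).2
      rw [h5, one_smul, one_mul]
    have h12 : C.act (down (fst Y₁ Y₂) (C.pull (snd Y₁ Y₂) o₂)) (C.pull (snd Y₁ Y₂) y₂) = 0 := by
      rw [act_down, ← map_mul]
      have h5 : o₂ * y₂ = 0 := zero_of_top (C.mul_mem ho₂ hy₂.1) (by push_cast; omega)
      rw [h5, map_zero, map_zero]
    have h22 : C.act (down (snd Y₁ Y₂) (C.pull (fst Y₁ Y₂) o₁)) (C.pull (snd Y₁ Y₂) y₂) = y₂ := by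
      rw [act_down, C.proj_right]
      have h5 : C.push (snd Y₁ Y₂) (C.pull (fst Y₁ Y₂) o₁) = (1 : ℚ) • (1 : C.A Y₂) := (hd₁ Y₂).1
      rw [h5, one_smul, one_mul]
    have h21 : C.act (down (snd Y₁ Y₂) (C.pull (fst Y₁ Y₂) o₁)) (C.pull (fst Y₁ Y₂) y₁) = 0 := by
      rw [act_down, ← map_mul]
      have h5 : o₁ * y₁ = 0 := zero_of_top (C.mul_mem ho₁ hy₁.1) (by push_cast; omega)
      rw [h5, map_zero, map_zero]
    refine ⟨Y₁.prod Y₂, C.comp (down (fst Y₁ Y₂) (C.pull (snd Y₁ Y₂) o₂)) Γ₁ +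
      C.comp (down (snd Y₁ Y₂) (C.pull (fst Y₁ Y₂) o₁)) Γ₂,
      C.pull (fst Y₁ Y₂) y₁ + C.pull (snd Y₁ Y₂) y₂, ?_, ?_, ?_⟩
    · refine Submodule.add_mem _ (comp_deg hA₁ hΓ₁ ?_) (comp_deg hA₂ hΓ₂ ?_)
      · rw [dim_prod]
        push_cast
        ring
      · rw [dim_prod]
        push_cast
        ring
    · refine Submodule.add_mem _ ⟨C.pull_mem _ hy₁.1, ?_⟩ ⟨C.pull_mem _ hy₂.1, ?_⟩
      · rw [H.cl_pull, hy₁.2, map_zero]
      · rw [H.cl_pull, hy₂.2, map_zero]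
    · rw [TheoryData.act_add, C.act_comp, C.act_comp, act_map_add, h11, h12, add_zero,
        act_map_add, h21, h22, zero_add]
  | smul r x _ hx =>
    obtain ⟨Y, Γ, y, hΓ, hy, rfl⟩ := hx
    refine ⟨Y, Γ, r • y, hΓ, Submodule.smul_mem _ _ hy, ?_⟩
    rw [act_map_smul]

/-- **The Abel-Jacobi map on algebraically trivial cycles.** -/
theorem aj_alg_zero (hN : IsAbelJacobiKernel H N) (hL : Lef1 H) (hc : CurAll H)
    (hR : ∀ (Y X : 𝒱.Obj) (j : ℕ) (Γ : C.A (Y.prod X)) (y : C.A Y),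
      Γ ∈ C.gr (Y.prod X) ((Y.dim : ℤ) + j - 1) → y ∈ homN H Y 1 → C.act Γ y ∈ N X j →
        ∃ e : C.A (Y.prod Y), e ∈ C.gr (Y.prod Y) Y.dim ∧ C.act e y = y ∧
          Kills H (C.comp e Γ) 1)
    {j : ℕ} {z : C.A X} (hz : z ∈ algN H X j) (hzN : z ∈ N X j) : z = 0 := by
  obtain ⟨Y, Γ, y, hΓ, hy, rfl⟩ := exists_single hz
  obtain ⟨e, he, hey, hk⟩ := hR Y X j Γ y hΓ hy hzN
  rw [← hey, ← C.act_comp]
  exact killOne hN hL hc (i := j) (comp_deg he hΓ (by ring)) hk hy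

/-- Classes of complementary degrees with intersection number one. -/
lemma exists_dual_pair' (X : 𝒱.Obj) {l : ℕ} (hl : l ≤ X.dim) :
    ∃ u ∈ C.gr X l, ∃ v ∈ C.gr X ((X.dim : ℤ) - l), HasDegree C (v * u) 1 := by
  obtain ⟨h, hh, q, hq, hhq⟩ := hC.polarized X
  have hpow : ∀ n : ℕ, h ^ n ∈ C.gr X n := by
    intro n
    induction n with
    | zero =>
      rw [pow_zero]
      exact C.one_mem X
    | succ n ih =>
      rw [pow_succ]
      have := C.mul_mem ih hh
      exact_mod_cast this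
  obtain ⟨q', hq'⟩ := hC.degree X (h ^ X.dim) (hpow _)
  have e : q' • (1 : C.A X) = q • (1 : C.A X) := by
    have h1 : C.push (snd X X) (C.pull (fst X X) (h ^ X.dim)) = q' • (1 : C.A X) := (hq' X).1
    have h2 : C.push (snd X X) (C.pull (fst X X) (h ^ X.dim)) = q • (1 : C.A X) := hhq
    rw [← h1, h2]
  by_cases hq0 : q' = 0
  · have h1 : (1 : C.A X) = 0 := by
      rw [hq0, zero_smul] at e
      rcases smul_eq_zero.1 e.symm with h | h
      · exact absurd h hq
      · exact h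
    obtain ⟨o, ho, hd⟩ := exists_zeroCycle (C := C) X
    have h2 : o = 0 := by rw [← one_mul o, h1, zero_mul]
    have h3 : ∀ (Y : 𝒱.Obj) (y : C.A Y), y = 0 := by
      intro Y y
      have h4 : C.push (snd X Y) (C.pull (fst X Y) o) = (1 : ℚ) • (1 : C.A Y) := (hd Y).1
      rw [h2, map_zero, map_zero, one_smul] at h4
      rw [← one_mul y, ← h4, zero_mul]
    refine ⟨0, Submodule.zero_mem _, 0, Submodule.zero_mem _, fun Y => ⟨?_, ?_⟩⟩
    · rw [h3 Y (1 : C.A Y), smul_zero]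
      exact h3 Y _
    · rw [h3 Y (1 : C.A Y), smul_zero]
      exact h3 Y _
  refine ⟨h ^ l, hpow l, q'⁻¹ • h ^ (X.dim - l), ?_, fun Y => ?_⟩
  · apply Submodule.smul_mem
    have := hpow (X.dim - l)
    rwa [Nat.cast_sub hl] at this
  · have h1 : C.push (snd X Y) (C.pull (fst X Y) (h ^ X.dim)) = q' • (1 : C.A Y) := (hq' Y).1
    have h2 : C.push (fst Y X) (C.pull (snd Y X) (h ^ X.dim)) = q' • (1 : C.A Y) := (hq' Y).2
    constructor
    · rw [smul_mul_assoc, map_smul, map_smul, ← pow_add, Nat.sub_add_cancel hl, h1, smul_smul,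
        inv_mul_cancel₀ hq0]
    · rw [smul_mul_assoc, map_smul, map_smul, ← pow_add, Nat.sub_add_cancel hl, h2, smul_smul,
        inv_mul_cancel₀ hq0]

/-- From self-correspondences to correspondences from curves. -/
lemma curAll_of_self (h : ∀ (X : 𝒱.Obj) (j : ℕ), ∀ Γ ∈ homN H (X.prod X) X.dim,
      ∀ z ∈ algN H X j, C.act Γ z = 0) : CurAll H := by
  intro T X i Γ hT hΓ y hy
  rcases Nat.eq_zero_or_pos i with rfl | hi
  · rw [homN_zero hΓ, TheoryData.act_zero]
  obtain ⟨l, rfl⟩ : ∃ l, i = l + 1 := ⟨i - 1, by omega⟩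
  rcases Nat.lt_or_ge X.dim l with hl | hl
  · have h1 : C.act Γ y ∈ C.gr X ((l + 1 : ℕ) : ℤ) := act_deg hΓ.1 hy.1 (by
      rw [hT]
      push_cast
      ring)
    exact zero_of_top h1 (by omega)
  obtain ⟨u, hu, v, hv, huv⟩ := exists_dual_pair' (C := C) (H := H) X hl
  obtain ⟨o, ho, hd⟩ := exists_point (C := C) hT
  have hP : down (fst T X) (C.pull (snd T X) v) ∈ C.gr ((T.prod X).prod T)
      ((T.dim : ℤ) + (X.dim - l)) := down_mem _ (C.pull_mem _ hv)
  set Γ' := C.comp (down (fst T X) (C.pull (snd T X) v)) (C.comp Γ (C.cograph (snd T X)))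
    with hΓ'
  have hm : Γ' ∈ C.gr ((T.prod X).prod (T.prod X)) (T.prod X).dim := by
    refine comp_deg hP (comp_deg hΓ.1 (cograph_mem _) rfl) ?_
    rw [dim_prod, hT]
    push_cast
    ring
  have hcl : H.cl Γ' = 0 := by
    rw [hΓ', cl_comp, cl_comp, hΓ.2, zero_comp, comp_zero]
  have hz : C.pull (snd T X) u * C.pull (fst T X) y ∈ algN H (T.prod X) (l + 1) := by
    apply Submodule.subset_span
    refine ⟨T, up (fst T X) (C.pull (snd T X) u), y, hT, ?_, hy, (act_up _ _ _).symm⟩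
    have h1 := up_mem (C := C) (fst T X) (C.pull_mem (snd T X) hu)
    rw [hT] at h1
    change up (fst T X) (C.pull (snd T X) u) ∈ C.gr _ _
    have e : ((1 : ℕ) : ℤ) + l = ((l + 1 : ℕ) : ℤ) := by push_cast; ring
    rwa [← e]
  have h2 := h (T.prod X) (l + 1) Γ' ⟨hm, hcl⟩ _ hz
  have h3 : C.act (down (fst T X) (C.pull (snd T X) v))
      (C.pull (snd T X) u * C.pull (fst T X) y) = y := by
    rw [act_down, ← mul_assoc, ← map_mul, C.proj_right]
    have h4 : C.push (fst T X) (C.pull (snd T X) (v * u)) = (1 : ℚ) • (1 : C.A T) := (huv T).2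
    rw [h4, one_smul, one_mul]
  rw [hΓ', C.act_comp, C.act_comp, h3, C.act_cograph] at h2
  have h4 : C.push (snd T X) (C.pull (fst T X) o * C.pull (snd T X) (C.act Γ y)) =
      C.act Γ y := by
    rw [C.proj_right]
    have h5 : C.push (snd T X) (C.pull (fst T X) o) = (1 : ℚ) • (1 : C.A X) := (hd X).1
    rw [h5, one_smul, one_mul]
  rw [← h4, h2, mul_zero, map_zero]

/-- From products to correspondences. -/
lemma curAll_of_div (h : ∀ (X : 𝒱.Obj) (j : ℕ), ∀ z ∈ homN H X 1, ∀ w ∈ homN H X j, z * w = 0) :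
    CurAll H := by
  intro T X i Γ hT hΓ y hy
  rw [TheoryData.act_apply, ch_comm C Γ, h (T.prod X) i _ ⟨C.pull_mem _ hy.1, by
    rw [H.cl_pull, hy.2, map_zero]⟩ Γ hΓ, map_zero]

/-- From correspondences to products. -/
lemma div_of_curAll (hN : IsAbelJacobiKernel H N) (hL : Lef1 H) (hc : CurAll H) {j : ℕ}
    {z w : C.A X} (hz : z ∈ homN H X 1) (hw : w ∈ homN H X j) : z * w = 0 := by
  have hm : C.mulCorr w ∈ C.gr (X.prod X) (X.dim + j) := mulCorr_mem hw.1
  have h1 : C.act (C.mulCorr w) z = 0 := by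
    refine killOne hN hL hc (i := j + 1) ?_ (fun a _ => ?_) hz
    · have e : (X.dim : ℤ) + ((j + 1 : ℕ) : ℤ) - 1 = X.dim + j := by push_cast; ring
      rwa [e]
    · rw [TheoryData.mulCorr, H.cl_push, hw.2, map_zero, TheoryData.act_zero]
  rw [C.act_mulCorr] at h1
  rw [ch_comm C, h1]

/-- From divisors to algebraically trivial cycles. -/
lemma alg_of_div (h : ∀ (X : 𝒱.Obj) (j : ℕ), ∀ z ∈ homN H X 1, ∀ w ∈ homN H X j, z * w = 0)
    {i j : ℕ} {z w : C.A X} (hz : z ∈ algN H X i) (hw : w ∈ homN H X j) : z * w = 0 := by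
  induction hz using Submodule.span_induction with
  | mem c hc =>
    obtain ⟨T, Γ, y, hT, hΓ, hy, rfl⟩ := hc
    rw [TheoryData.act_apply, ← C.proj_right, mul_assoc, h (T.prod X) j _ ⟨C.pull_mem _ hy.1, by
      rw [H.cl_pull, hy.2, map_zero]⟩ (C.pull (snd T X) w) ⟨C.pull_mem _ hw.1, by
      rw [H.cl_pull, hw.2, map_zero]⟩, mul_zero, map_zero]
  | zero => exact zero_mul _
  | add x y _ _ hx hy => rw [add_mul, hx, hy, add_zero]
  | smul r x _ hx => rw [smul_mul_assoc, hx, smul_zero]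

end Pool.Agent.N567.MD
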