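import Pool.Agent.N567.MD.LemJ

/-!
# Zero-cycles
-/

set_option autoImplicit false

open CategoryTheory AlgebraicGeometry

universe u v w

namespace Pool.Agent.N567.MD

open Pool.Agent.H914 Pool.Agent.H914.VarClass Pool.Agent.H914.VarClass.Obj Pool.Agent.W492.BB
  Pool.Agent.W550.Corr Pool.Agent.TH133 Pool.Agent.Y148.BB Pool.Agent.X308.S
  Pool.Agent.TH829.Kim
open Pool.Agent.N164.BB (graph_mem exists_zeroCycle exists_point sum_act cl_of_mem_F1)

set_option linter.unusedSectionVars false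
set_option linter.unusedVariables false

attribute [-instance] Pool.Agent.TH829.Kim.chCommRing

variable {k : Type u} [Field k] {𝒱 : VarClass k}

variable {C : TheoryData.{u, v, 0} 𝒱 ℚ} [hC : IsChowProj C] {K : Type w} [Field K]
  {H : WeilTheoryData.{u, v, w} C K} [hH : IsWeilProj H] {S : 𝒱.Obj → Prop} {T X Y Z W X' : 𝒱.Obj}
  {π ρ : ℕ → C.A (X.prod X)} {N : ∀ X : 𝒱.Obj, ℕ → Submodule ℚ (C.A X)}

section defs

variable (H)

/-- `H^1(X)` is a direct summand of `H^1` of a curve. -/
def Lef1 : Prop :=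
  ∀ X : 𝒱.Obj, 1 < X.dim → ∃ (Y : 𝒱.Obj) (a : C.A (X.prod Y)) (b : C.A (Y.prod X)),
    Y.dim = 1 ∧ C.Deg X.dim a ∧ C.Deg 1 b ∧ ∀ x, H.Deg 1 x → H.act (H.cl (C.comp a b)) x = x

/-- Zero-cycles of degree zero come from curves. -/
def HasCur : Prop :=
  ∀ X : 𝒱.Obj, 1 < X.dim → ∀ z ∈ homN H X X.dim,
    z ∈ Submodule.span ℚ {c | ∃ (Y : 𝒱.Obj) (f : Y ⟶ X) (y : C.A Y),
      Y.dim = 1 ∧ y ∈ homN H Y 1 ∧ c = C.push f y}

/-- Homologically trivial correspondences from curves to `X` kill zero-cycles of degree zero. -/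
def CurK (X : 𝒱.Obj) : Prop :=
  ∀ (Y : 𝒱.Obj) (Γ : C.A (Y.prod X)), Y.dim = 1 → Γ ∈ homN H (Y.prod X) X.dim →
    ∀ y ∈ homN H Y 1, C.act Γ y = 0

end defs

include hC hH

/-- The odd part of the motive of a curve contains the divisor classes of degree zero. -/
lemma act_curve_one (hT : T.dim = 1) {o : C.A T} (ho : C.Deg 1 o) (hd : HasDegree C o 1)
    {y : C.A T} (hy : y ∈ homN H T 1) : C.act (curveCK C o 1) y = y := by
  have h := curveCK_isCK (H := H) hT ho hd
  have h0 : C.act (curveCK C o 0) y = 0 := by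
    change C.act (C.ext o 1) y = 0
    rw [act_ext (H := H)]
    have h1 : o * y = 0 := by
      refine zero_of_top (C.mul_mem ho hy.1) ?_
      rw [hT]
      norm_num
    rw [h1, map_zero, map_zero, zero_mul]
  have h2 : C.act (curveCK C o 2) y = 0 := by
    change C.act (C.ext 1 o) y = 0
    rw [act_ext (H := H), one_mul]
    have h1 : C.push (snd T T) (C.pull (fst T T) y) = C.push (snd T T) (C.pull (fst T T) 0) := by
      apply deg_eq_of_cl (H := H)
      · rw [hT]
        exact hy.1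
      · exact Submodule.zero_mem _
      · rw [hy.2, map_zero]
    rw [h1, map_zero, map_zero, zero_mul]
  conv_rhs => rw [sum_act h y, hT]
  rw [Finset.sum_range_succ, Finset.sum_range_succ, Finset.sum_range_succ, Finset.sum_range_zero,
    h0, h2, zero_add, zero_add, add_zero]

/-- **The kernel of the Albanese map.** -/
theorem alb_zero (hN : IsAbelJacobiKernel H N) (hL : Lef1 H) (hG : HasCur H) (hX : 1 < X.dim)
    (hc : CurK H X) {z : C.A X} (hz : z ∈ N X X.dim) : z = 0 := by
  obtain ⟨Y, α, β, hY, hα, hβ, hαβ⟩ := hL X hX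
  obtain ⟨o, ho, hd⟩ := exists_point (C := C) hY
  have hρ := curveCK_isCK (H := H) hY ho hd
  have hρk : IsKun H (curveCK C o 1) ((1 : ℕ) : ℤ) :=
    ⟨hρ.deg _, fun l x hx => hρ.actH_eq _ l hx⟩
  have hE := (IsKun.of_summand (m := 1) hα (by rw [hY]; exact_mod_cast hβ) hαβ hρk).tp
  set E := tp C (C.comp α (C.comp (curveCK C o 1) β)) with hEd
  -- `E` kills the kernel of the Albanese map
  have h1 : C.act E z = 0 := by
    rw [hEd, tp_comp', tp_comp', comp_assoc, C.act_comp]
    have h2 : C.act (tp C β) z ∈ N Y 1 := by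
      refine hN.stable X Y X.dim 1 _ ?_ z hz
      change tp C β ∈ C.gr _ _
      have h3 := tp_mem C hβ
      have e : (X.dim : ℤ) + (1 : ℕ) - X.dim = 1 := by push_cast; ring
      rwa [e]
    rw [hN.abel Y _ h2, TheoryData.act_map_zero]
  -- `E` acts as the identity on zero-cycles of degree zero
  have h2 : ∀ y ∈ homN H X X.dim, C.act E y = y := by
    intro y hy
    have h3 := hG X hX y hy
    clear hy
    induction h3 using Submodule.span_induction with
    | mem c hc' =>
      obtain ⟨T, f, y, hT, hy, rfl⟩ := hc'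
      obtain ⟨p, hp, hpd⟩ := exists_point (C := C) hT
      have hτ := curveCK_isCK (H := H) hT hp hpd
      have h4 : C.act (C.comp (curveCK C p 1) (C.graph f - C.comp (C.graph f) E)) y = 0 := by
        refine hc T _ hT ⟨?_, ?_⟩ y hy
        · refine comp_deg (hτ.deg 1) (Submodule.sub_mem _ (graph_mem f)
            (comp_deg (graph_mem f) hE.mem (by ring))) (by ring)
        · apply cl_zero_of
          intro m x hx
          rw [actH_comp, hτ.actH_eq 1 m hx]
          split_ifs with hm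
          · rw [map_sub, TheoryData.act_sub, actH_comp]
            have h5 := actH_deg (H := H) (graph_mem f) hx (j := m + 2 * (X.dim - T.dim)) rfl
            rw [hE.act _ _ h5, if_pos (by rw [hm, hT]; push_cast; ring), sub_self]
          · rw [TheoryData.act_map_zero]
      rw [C.act_comp, act_curve_one hT hp hpd hy, TheoryData.act_sub, C.act_comp, C.act_graph,
        sub_eq_zero] at h4
      exact h4.symm
    | zero => exact TheoryData.act_map_zero _ _
    | add x y _ _ hx hy => rw [act_map_add, hx, hy]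
    | smul r x _ hx => rw [act_map_smul, hx]
  rw [← h2 z (hN.deg X X.dim z hz), h1]

lemma alb_zero_small (hN : IsAbelJacobiKernel H N) (hX : X.dim ≤ 1) {z : C.A X}
    (hz : z ∈ N X X.dim) : z = 0 := by
  rcases Nat.le_one_iff_eq_zero_or_eq_one.1 hX with h | h
  · rw [h] at hz
    exact mem_zero_codim (sys_aj hN) hz
  · rw [h] at hz
    exact hN.abel X z hz

/-- From self-correspondences of `Y × X`. -/
lemma curK_of_self (hX : ∀ Y : 𝒱.Obj, Y.dim = 1 → ∀ Γ ∈ homN H ((Y.prod X).prod (Y.prod X))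
      (Y.prod X).dim, ∀ z ∈ homN H (Y.prod X) (Y.prod X).dim, C.act Γ z = 0) :
    CurK H X := by
  intro Y Γ hY hΓ y hy
  obtain ⟨o, ho, hd⟩ := exists_point (C := C) hY
  obtain ⟨x, hx, hxd⟩ := exists_zeroCycle (C := C) X
  have h1 : C.pull (fst Y X) o ∈ C.gr (Y.prod X) 1 := C.pull_mem _ ho
  set Γ' := C.comp (C.graph (fst Y X)) (C.comp Γ (up (snd Y X) (C.pull (fst Y X) o))) with hΓ'
  have hm : Γ' ∈ C.gr ((Y.prod X).prod (Y.prod X)) (Y.prod X).dim := by
    refine comp_deg (graph_mem _) (comp_deg hΓ.1 (up_mem (snd Y X) h1) rfl) ?_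
    rw [dim_prod, hY]
    push_cast
    ring
  have hcl : H.cl Γ' = 0 := by
    rw [hΓ', cl_comp, cl_comp, hΓ.2, zero_comp, comp_zero]
  have hz : C.ext y x ∈ homN H (Y.prod X) (Y.prod X).dim := by
    refine ⟨?_, ?_⟩
    · have h3 := ext_mem (C := C) (H := H) hy.1 hx
      rw [dim_prod, hY]
      exact_mod_cast h3
    · rw [TheoryData.ext, map_mul, H.cl_pull, hy.2, map_zero, zero_mul]
  have h2 := hX Y hY Γ' ⟨hm, hcl⟩ _ hz
  have h3 : C.push (fst Y X) (C.ext y x) = y := by
    rw [TheoryData.ext, ch_comm C (C.pull (fst Y X) y), C.proj_right]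
    have h4 : C.push (fst Y X) (C.pull (snd Y X) x) = (1 : ℚ) • (1 : C.A Y) := (hxd Y).2
    rw [h4, one_smul, one_mul]
  rw [hΓ', C.act_comp, C.act_comp, C.act_graph, h3, act_up] at h2
  have h4 : C.push (snd Y X) (C.pull (fst Y X) o * C.pull (snd Y X) (C.act Γ y)) =
      C.act Γ y := by
    rw [C.proj_right]
    have h5 : C.push (snd Y X) (C.pull (fst Y X) o) = (1 : ℚ) • (1 : C.A X) := (hd X).1
    rw [h5, one_smul, one_mul]
  rw [← h4, h2, map_zero]

end Pool.Agent.N567.MD
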