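import Pool.Agent.N567.MD.LemD

/-!
# The first half of (B) in the middle dimension
-/

set_option autoImplicit false

open CategoryTheory AlgebraicGeometry

universe u v w

namespace Pool.Agent.N567.MD

open Pool.Agent.H914 Pool.Agent.H914.VarClass Pool.Agent.H914.VarClass.Obj Pool.Agent.W492.BB
  Pool.Agent.W550.Corr Pool.Agent.TH133 Pool.Agent.Y148.BB Pool.Agent.X308.S
  Pool.Agent.TH829.Kim
open Pool.Agent.N164.BB (graph_mem exists_zeroCycle exists_point sum_act cl_of_mem_F1)
open Pool.Agent.Y110 (NoPhantoms GradedCommutative isNilpotent_of_kimura noPhantoms_of_kimura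
  isKimuraFinite_of_noPhantoms)

set_option linter.unusedSectionVars false
set_option linter.unusedVariables false

attribute [-instance] Pool.Agent.TH829.Kim.chCommRing

variable {k : Type u} [Field k] {𝒱 : VarClass k}

section defs

variable {C : TheoryData.{u, v, 0} 𝒱 ℚ} {K : Type w} [Field K]

/-- The self-correspondences of degree zero of `X` which act as zero on `H^m(X)` for `m ≤ 2 j` act
nilpotently on `CH^j(X)`. -/
def P1 (H : WeilTheoryData.{u, v, w} C K) (X : 𝒱.Obj) (j : ℕ) : Prop :=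
  ∀ Γ ∈ C.gr (X.prod X) X.dim, (∀ m : ℤ, m ≤ 2 * j → Kills H Γ m) →
    ∃ n : ℕ, ∀ z ∈ C.gr X j, (C.act Γ)^[n] z = 0

/-- The condition in the middle dimension. -/
def Mid1 (H : WeilTheoryData.{u, v, w} C K) (j : ℕ) : Prop :=
  ∀ X : 𝒱.Obj, X.dim = 2 * j + 1 → P1 H X j

/-- The Chow-Kunneth projectors of weight greater than `2 j` of `X` kill `CH^j(X)`. -/
def Q1 (H : WeilTheoryData.{u, v, w} C K) (X : 𝒱.Obj) (j : ℕ) : Prop :=
  ∀ π : ℕ → C.A (X.prod X), IsCK H X π → ∀ w : ℕ, 2 * j < w →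
    ∀ z ∈ C.gr X j, C.act (π w) z = 0

/-- This condition in the middle dimension. -/
def MidQ1 (H : WeilTheoryData.{u, v, w} C K) (j : ℕ) : Prop :=
  ∀ X : 𝒱.Obj, X.dim = 2 * j + 1 → Q1 H X j

/-- There are no phantoms in the parts `h^a(Y)`. -/
def NoPh (H : WeilTheoryData.{u, v, w} C K) (Y : 𝒱.Obj) : Prop :=
  ∀ ρ, IsCK H Y ρ → ∀ (a : ℕ) (e : C.A (Y.prod Y)), e ∈ C.gr (Y.prod Y) Y.dim →
    C.comp e e = e → H.cl e = 0 → C.comp (ρ a) e = e → C.comp e (ρ a) = e → e = 0

end defs

variable {C : TheoryData.{u, v, 0} 𝒱 ℚ} [hC : IsChowProj C] {K : Type w} [Field K]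
  {H : WeilTheoryData.{u, v, w} C K} [hH : IsWeilProj H] {S : 𝒱.Obj → Prop} {T X Y Z W X' : 𝒱.Obj}
  {π ρ : ℕ → C.A (X.prod X)}

include hC hH

/-- Descent from a covering. -/
theorem P1.of_cover {f : X' ⟶ X} {u v : C.A X'} {c : ℚ} {s i j : ℕ}
    (hdim : X'.dim = X.dim + s + i) (hu : u ∈ C.gr X' s) (hv : v ∈ C.gr X' i) (hc : c ≠ 0)
    (huv : C.push f (u * v) = c • (1 : C.A X)) (h : P1 H X' (j + i)) : P1 H X j := by
  intro Γ hΓ hk
  have hkey : ∀ z : C.A X, C.act (down f u) (C.act (up f v) z) = c • z := by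
    intro z
    rw [act_up, act_down, ← mul_assoc]
    have h1 := C.proj_right f (u * v) z
    rw [huv, smul_mul_assoc, one_mul] at h1
    exact h1
  set Γ' : C.A (X'.prod X') := C.comp (down f u) (C.comp Γ (up f v)) with hΓ'
  have hdown := down_mem (C := C) f hu
  have hup := up_mem (C := C) f hv
  have hact : ∀ y, C.act Γ' y = C.act (up f v) (C.act Γ (C.act (down f u) y)) := by
    intro y
    rw [hΓ', C.act_comp, C.act_comp]
  have hm : Γ' ∈ C.gr (X'.prod X') X'.dim := by
    refine comp_deg hdown (comp_deg hΓ hup rfl) ?_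
    rw [hdim]
    push_cast
    ring
  have hk' : ∀ m : ℤ, m ≤ 2 * (j + i : ℕ) → Kills H Γ' m := by
    intro m hm a ha
    rw [hΓ', actH_comp, actH_comp]
    have h1 := actH_deg (H := H) hdown ha (j := m - 2 * i) (by rw [hdim]; push_cast; ring)
    rw [hk (m - 2 * i) (by push_cast at hm; linarith) _ h1, TheoryData.act_map_zero]
  obtain ⟨n, hn⟩ := h Γ' hm hk'
  have hiter : ∀ (n : ℕ) (z : C.A X), (C.act Γ')^[n] (C.act (up f v) z) =
      c ^ n • C.act (up f v) ((C.act Γ)^[n] z) := by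
    intro n
    induction n with
    | zero => intro z; simp
    | succ n ih =>
      intro z
      rw [Function.iterate_succ_apply', ih, hact, Function.iterate_succ_apply', act_map_smul,
        hkey, smul_smul, act_map_smul, act_map_smul, pow_succ]
  refine ⟨n, fun z hz => ?_⟩
  have hz' : C.act (up f v) z ∈ C.gr X' (j + i : ℕ) := by
    refine act_deg hup hz ?_
    push_cast
    ring
  have h2 := hn _ hz'
  rw [hiter] at h2
  have h3 : C.act (up f v) ((C.act Γ)^[n] z) = 0 := by
    rcases smul_eq_zero.1 h2 with h | h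
    · exact absurd h (pow_ne_zero _ hc)
    · exact h
  have h4 := hkey ((C.act Γ)^[n] z)
  rw [h3, TheoryData.act_map_zero] at h4
  rcases smul_eq_zero.1 h4.symm with h | h
  · exact absurd h hc
  · exact h

lemma P1.of_prod (hT : T.dim = 1) {j : ℕ} (h : P1 H (X.prod T) j) : P1 H X j := by
  obtain ⟨o, ho, hd⟩ := exists_point (C := C) hT
  refine P1.of_cover (f := fst X T) (u := C.pull (snd X T) o) (v := 1) (c := 1) (s := 1) (i := 0)
    (by rw [dim_prod, hT]) ?_ (by exact_mod_cast C.one_mem _) one_ne_zero ?_ h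
  · have := C.pull_mem (snd X T) ho
    exact_mod_cast this
  · rw [mul_one]
    exact push_fst_degree hd

lemma P1.of_prod' (hT : T.dim = 1) {j : ℕ} (h : P1 H (X.prod T) (j + 1)) : P1 H X j := by
  obtain ⟨o, ho, hd⟩ := exists_point (C := C) hT
  refine P1.of_cover (f := fst X T) (u := 1) (v := C.pull (snd X T) o) (c := 1) (s := 0) (i := 1)
    (by rw [dim_prod, hT]) (by exact_mod_cast C.one_mem _) ?_ one_ne_zero ?_ h
  · have := C.pull_mem (snd X T) ho
    exact_mod_cast this
  · rw [one_mul]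
    exact push_fst_degree hd

lemma Mid1.pred (hT : T.dim = 1) {j : ℕ} (h : Mid1 H (j + 1)) : Mid1 H j := by
  intro X hX
  apply P1.of_prod hT
  apply P1.of_prod' hT
  apply h
  rw [dim_prod, dim_prod, hT]
  omega

lemma Mid1.le (hT : T.dim = 1) {j l : ℕ} (hl : l ≤ j) (h : Mid1 H j) : Mid1 H l := by
  induction j, hl using Nat.le_induction with
  | base => exact h
  | succ j _ ih => exact ih (h.pred hT)

theorem Mid1.P (hT : T.dim = 1) {M : ℕ} (h : Mid1 H M) :
    ∀ (n : ℕ) (X : 𝒱.Obj) (j : ℕ), ((X.dim : ℤ) - 1 - 2 * j).natAbs = n → j ≤ M →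
      X.dim ≤ j + M + 1 → P1 H X j := by
  intro n
  induction n with
  | zero =>
    intro X j hn hj hd
    exact h.le hT hj X (by omega)
  | succ n ih =>
    intro X j hn hj hd
    rcases lt_or_ge X.dim (2 * j + 1) with h1 | h1
    · apply P1.of_prod hT
      apply ih _ _ _ hj
      · rw [dim_prod, hT]; omega
      · rw [dim_prod, hT]; push_cast; omega
    · apply P1.of_prod' hT
      apply ih
      · rw [dim_prod, hT]; push_cast; omega
      · omega
      · rw [dim_prod, hT]; omega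

theorem Mid1.all (hT : T.dim = 1) {M : ℕ} (h : Mid1 H M) (X : 𝒱.Obj)
    (hX : X.dim ≤ M) (j : ℕ) : P1 H X j := by
  rcases Nat.lt_or_ge X.dim j with h1 | h1
  · intro Γ _ _
    refine ⟨0, fun z hz => ?_⟩
    exact zero_of_top hz (by exact_mod_cast h1)
  · exact h.P hT _ X j rfl (by omega) (by omega)

/-- Projectors of weight greater than `2 j` kill `CH^j(X)`. -/
lemma P1.q1 {j : ℕ} (h : P1 H X j) : Q1 H X j := by
  intro π hπ w hw z hz
  obtain ⟨n, hn⟩ := h (π w) (hπ.deg w) fun m hm a ha => hπ.act_ne w m a (by omega) ha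
  rw [← iterate_idem (H := H) (hπ.idem w) n z, Function.iterate_succ_apply', hn z hz,
    TheoryData.act_map_zero]

lemma ext_mem_gr {z : C.A X} {j i : ℕ} (hz : z ∈ C.gr X j) {y : C.A T} (hy : y ∈ C.gr T i) :
    C.ext z y ∈ C.gr (X.prod T) (j + i : ℕ) := by
  have h1 := ext_mem (C := C) (H := H) hz hy
  exact_mod_cast h1

lemma Q1.of_prod (hT : T.dim = 1) {j : ℕ} (h : Q1 H (X.prod T) j) : Q1 H X j := by
  intro π hπ w hw z hz
  obtain ⟨o, ho, hd⟩ := exists_point (C := C) hT
  have hck := curveCK_isCK H hT ho hd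
  have h1 : C.ext z (1 : C.A T) ∈ C.gr (X.prod T) (j + 0 : ℕ) :=
    ext_mem_gr (H := H) hz (by exact_mod_cast C.one_mem T)
  have h2 := h _ (hπ.prod hck) w hw _ h1
  rw [act_prodCK_ext, Finset.sum_eq_single w] at h2
  · rw [Nat.sub_self, curveCK_one hT hd, if_pos rfl] at h2
    exact ext_one_zero hd h2
  · intro i hi hiw
    rw [Finset.mem_range] at hi
    rw [curveCK_one hT hd, if_neg (by omega), TheoryData.ext_zero_right]
  · intro hw'
    exact absurd (Finset.mem_range.2 (by omega)) hw'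

lemma Q1.of_prod' (hT : T.dim = 1) {j : ℕ} (h : Q1 H (X.prod T) (j + 1)) : Q1 H X j := by
  intro π hπ w hw z hz
  obtain ⟨o, ho, hd⟩ := exists_point (C := C) hT
  have hck := curveCK_isCK H hT ho hd
  have h1 : C.ext z o ∈ C.gr (X.prod T) (j + 1 : ℕ) :=
    ext_mem_gr (H := H) hz (by exact_mod_cast ho)
  have h2 := h _ (hπ.prod hck) (w + 2) (by omega) _ h1
  rw [act_prodCK_ext, Finset.sum_eq_single w] at h2
  · rw [show w + 2 - w = 2 by omega, curveCK_pt hT ho hd, if_pos rfl] at h2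
    exact ext_pt_zero hd h2
  · intro i hi hiw
    rw [Finset.mem_range] at hi
    rw [curveCK_pt hT ho hd, if_neg (by omega), TheoryData.ext_zero_right]
  · intro hw'
    exact absurd (Finset.mem_range.2 (by omega)) hw'

lemma MidQ1.pred (hT : T.dim = 1) {j : ℕ} (h : MidQ1 H (j + 1)) : MidQ1 H j := by
  intro X hX
  apply Q1.of_prod hT
  apply Q1.of_prod' hT
  apply h
  rw [dim_prod, dim_prod, hT]
  omega

lemma MidQ1.le (hT : T.dim = 1) {j l : ℕ} (hl : l ≤ j) (h : MidQ1 H j) : MidQ1 H l := by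
  induction j, hl using Nat.le_induction with
  | base => exact h
  | succ j _ ih => exact ih (h.pred hT)

theorem MidQ1.Q (hT : T.dim = 1) {M : ℕ} (h : MidQ1 H M) :
    ∀ (n : ℕ) (X : 𝒱.Obj) (j : ℕ), ((X.dim : ℤ) - 1 - 2 * j).natAbs = n → j ≤ M →
      X.dim ≤ j + M + 1 → Q1 H X j := by
  intro n
  induction n with
  | zero =>
    intro X j hn hj hd
    exact h.le hT hj X (by omega)
  | succ n ih =>
    intro X j hn hj hd
    rcases lt_or_ge X.dim (2 * j + 1) with h1 | h1
    · apply Q1.of_prod hT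
      apply ih _ _ _ hj
      · rw [dim_prod, hT]; omega
      · rw [dim_prod, hT]; push_cast; omega
    · apply Q1.of_prod' hT
      apply ih
      · rw [dim_prod, hT]; push_cast; omega
      · omega
      · rw [dim_prod, hT]; omega

theorem MidQ1.all (hT : T.dim = 1) {M : ℕ} (h : MidQ1 H M) (X : 𝒱.Obj)
    (hX : X.dim ≤ M) (j : ℕ) : Q1 H X j := by
  rcases Nat.lt_or_ge X.dim j with h1 | h1
  · intro π _ w _ z hz
    rw [zero_of_top hz (by exact_mod_cast h1), TheoryData.act_map_zero]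
  · exact h.Q hT _ X j rfl (by omega) (by omega)

lemma murreB0_of_Q1 (h : ∀ j, Q1 H X j) : MurreB0 H X := by
  rw [murreB0_iff]
  exact fun π hπ i j x hx hij => h i π hπ j hij x hx

lemma Q1_of_murreB0 (h : MurreB0 H X) (j : ℕ) : Q1 H X j := by
  rw [murreB0_iff] at h
  exact fun π hπ w hw z hz => h π hπ j w z hz hw

/-- Finite-dimensionality and a good decomposition imply nilpotence. -/
theorem P1_of_kimura {j : ℕ} (hK : IsKimuraFinite C (ratFam C) X) (h : IsCK H X π)
    (hk : ∀ w, 2 * j < w → ∀ z ∈ C.gr X j, C.act (π w) z = 0) : P1 H X j := by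
  intro Γ hΓ hkill
  set E : C.A (X.prod X) := ∑ w ∈ Finset.range (2 * j + 1), π w with hE
  have hEm : E ∈ C.gr (X.prod X) X.dim := Submodule.sum_mem _ fun w _ => h.deg w
  have hEz : ∀ z ∈ C.gr X j, C.act E z = z := by
    intro z hz
    have h1 : ∀ n : ℕ, C.act (∑ w ∈ Finset.range (2 * j + 1 + n), π w) z = C.act E z := by
      intro n
      induction n with
      | zero => rfl
      | succ n ih =>
        rw [← add_assoc, Finset.sum_range_succ, TheoryData.act_add, ih, hk _ (by omega) z hz,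
          add_zero]
    rw [← h1 (2 * X.dim + 1), h.sum_of_le (by omega), act_dg]
  let x : R0 C X := ofA (C.comp (C.comp E Γ) E) (comp_mem0 C (comp_mem0 C hEm hΓ) hEm)
  have hcl : H.cl (toA x) = 0 := by
    apply cl_zero_of
    intro m a ha
    change H.act (H.cl (C.comp (C.comp E Γ) E)) a = 0
    rw [actH_comp, actH_comp]
    have h1 : H.act (H.cl E) a = if 0 ≤ m ∧ m ≤ 2 * j then a else 0 := by
      rw [hE, map_sum, act_sum]
      by_cases hm : 0 ≤ m ∧ m ≤ 2 * j
      · obtain ⟨q, rfl⟩ := Int.eq_ofNat_of_zero_le hm.1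
        rw [if_pos hm, Finset.sum_eq_single q]
        · rw [h.actH_eq q _ ha, if_pos rfl]
        · intro b _ hb
          rw [h.actH_eq b _ ha, if_neg (by omega)]
        · intro hq
          exact absurd (Finset.mem_range.2 (by omega)) hq
      · rw [if_neg hm]
        apply Finset.sum_eq_zero
        intro b hb
        rw [Finset.mem_range] at hb
        rw [h.actH_eq b _ ha, if_neg (by omega)]
    rw [h1]
    split_ifs with hm
    · rw [hkill m hm.2 a ha, TheoryData.act_map_zero]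
    · rw [TheoryData.act_map_zero, TheoryData.act_map_zero]
  obtain ⟨n, hn⟩ := isNilpotent_of_kimura (H := H) hK hcl
  refine ⟨n, fun z hz => ?_⟩
  have h2 : ∀ y ∈ C.gr X j, C.act (toA x) y = C.act Γ y := by
    intro y hy
    change C.act (C.comp (C.comp E Γ) E) y = C.act Γ y
    rw [C.act_comp, C.act_comp, hEz y hy, hEz _ (act_mem0 C hΓ hy)]
  have h3 : ∀ n : ℕ, (C.act Γ)^[n] z ∈ C.gr X j ∧ C.act (toA (x ^ n)) z = (C.act Γ)^[n] z := by
    intro n
    induction n with
    | zero =>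
      refine ⟨hz, ?_⟩
      rw [pow_zero, toA_one, act_dg]
      rfl
    | succ n ih =>
      rw [Function.iterate_succ_apply']
      refine ⟨act_mem0 C hΓ ih.1, ?_⟩
      rw [pow_succ', toA_mul, C.act_comp, ih.2, h2 _ ih.1]
  rw [← (h3 n).2, hn, map_zero, TheoryData.act_zero]

end Pool.Agent.N567.MD
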