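import Pool.Agent.N567.MD.BrM

/-!
# Murre's conjecture (B) and finite-dimensionality: the theorem
-/

set_option autoImplicit false

open CategoryTheory AlgebraicGeometry

universe u v w

namespace Pool.Agent.N567.Mid

open Pool.Agent.H914 Pool.Agent.H914.VarClass Pool.Agent.H914.VarClass.Obj
open Pool.Agent.W492.BB (TheoryData WeilTheoryData)
open Pool.Agent.W550.Corr (dg act_dg)
open Pool.Agent.N164

attribute [-instance] Pool.Agent.TH829.Kim.chCommRing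

variable {k : Type u} [Field k] {𝒱 : VarClass k} {C : TheoryData.{u, v, 0} 𝒱 ℚ} {K : Type w}
  [Field K] {H : WeilTheoryData.{u, v, w} C K} {X Y : 𝒱.Obj}

lemma b1_of_lefschetz (hC : Prim.IsChowTheory C) (hH : Prim.IsWeilTheory H)
    (hL : IsLefschetzClass H) (hK : IsKimuraFinite C X) (i : ℕ) : MurreB1 H X i := by
  have := Bridge.chow hC
  have := Bridge.weil hH
  refine b1_all_iff.2 (fun π hπ i => ?_) i
  rw [MD.ckFil_eq_bot_iff hπ]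
  exact fun w hw x hx => MD.B1_of_kimura (lefschetz_iff.1 hL) (kimura_iff'.1 hK) hπ hw hx

lemma b1_of_good (hC : Prim.IsChowTheory C) (hH : Prim.IsWeilTheory H)
    (hK : IsKimuraFinite C X) (h : HasGoodB1 H X) (i : ℕ) : MurreB1 H X i := by
  have := Bridge.chow hC
  have := Bridge.weil hH
  obtain ⟨π, hπ, hk⟩ := h
  have hπ' := Bridge.isCK_iff.1 hπ
  refine b1_all_iff.2 (fun ρ hρ i => ?_) i
  rw [MD.ckFil_eq_bot_iff hρ]
  intro w hw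
  refine MD.kill_of_conj (kimura_iff'.1 hK) hπ' hρ (fun Γ hΓ z hz => TH133.act_mem0 C hΓ hz) ?_
  exact (MD.ckFil_eq_bot_iff hπ' i).1 (bot_iff.1 (hk i)) w hw

lemma b0_of_good (hC : Prim.IsChowTheory C) (hH : Prim.IsWeilTheory H)
    (hK : IsKimuraFinite C X) (h : HasGoodB H X) (i : ℕ) : MurreB0 H X i := by
  have := Bridge.chow hC
  have := Bridge.weil hH
  obtain ⟨π, hπ, hk⟩ := h
  have hπ' := Bridge.isCK_iff.1 hπ
  rw [murreB0_iff hC hH]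
  intro ρ hρ w hw
  refine MD.kill_of_conj (kimura_iff'.1 hK) hπ' hρ (fun Γ hΓ z hz => TH133.act_mem0 C hΓ hz) ?_
  intro z hz
  have h1 := Bridge.inStep_iff.1 ((hk i z).1 hz)
  rw [hπ'.mem_ckFil] at h1
  exact h1.2 w (by omega)

theorem mainB (hC : Prim.IsChowTheory C) (hH : Prim.IsWeilTheory H) (hg : IsGradedCommutative H) :
    (IsLefschetzClass H →
      (((∀ X : 𝒱.Obj, HasCK H X) ∧ ∀ (X : 𝒱.Obj) (i : ℕ), MurreB1 H X i) ↔
        ∀ X : 𝒱.Obj, IsKimuraFinite C X) ∧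
      (((∀ X : 𝒱.Obj, HasCK H X) ∧ ∀ (X : 𝒱.Obj) (i : ℕ), MurreB0 H X i ∧ MurreB1 H X i) ↔
        (∀ X : 𝒱.Obj, HasCK H X) ∧ ∀ (X : 𝒱.Obj) (i : ℕ), MurreB0 H X i)) ∧
    ((∀ X : 𝒱.Obj, HasCK H X) →
      ((∀ (X : 𝒱.Obj) (i : ℕ), MurreB1 H X i) ↔
        ∀ X : 𝒱.Obj, IsKimuraFinite C X ∧ HasGoodB1 H X) ∧
      ((∀ (X : 𝒱.Obj) (i : ℕ), MurreB0 H X i ∧ MurreB1 H X i) ↔
        ∀ X : 𝒱.Obj, IsKimuraFinite C X ∧ HasGoodB H X)) := by
  refine ⟨fun hL => ⟨⟨?_, ?_⟩, ⟨?_, ?_⟩⟩, fun hA => ⟨⟨?_, ?_⟩, ⟨?_, ?_⟩⟩⟩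
  · rintro ⟨hA, h⟩ X
    exact kimura_of_b1 hC hH hg h (hA X)
  · intro hK
    exact ⟨fun X => hasCK_of_kimura hC hH (Or.inl hL) (hK X),
      fun X i => b1_of_lefschetz hC hH hL (hK X) i⟩
  · rintro ⟨hA, h⟩
    exact ⟨hA, fun X i => (h X i).1⟩
  · rintro ⟨hA, h⟩
    exact ⟨hA, fun X i => ⟨h X i, b1_of_lefschetz hC hH hL (kimura_of_b0 hC hH hg h (hA X)) i⟩⟩
  · intro h X
    obtain ⟨π, hπ⟩ := hA X
    exact ⟨kimura_of_b1 hC hH hg h (hA X), π, hπ, fun i => h X i π hπ⟩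
  · intro h X i
    exact b1_of_good hC hH (h X).1 (h X).2 i
  · intro h X
    obtain ⟨π, hπ⟩ := hA X
    refine ⟨kimura_of_b1 hC hH hg (fun X i => (h X i).2) (hA X), π, hπ, fun i z => ⟨?_, ?_⟩⟩
    · exact (h X i).1 π hπ z
    · exact (h X i).2 π hπ z
  · intro h X i
    obtain ⟨hK, hG⟩ := h X
    refine ⟨b0_of_good hC hH hK hG i, b1_of_good hC hH hK ?_ i⟩
    obtain ⟨π, hπ, hk⟩ := hG
    exact ⟨π, hπ, fun i z => (hk i z).2⟩

end Pool.Agent.N567.Mid
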