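import Pool.Agent.N567.MD.BrM

/-!
# Independence of the Chow-Kunneth decomposition: the theorem
-/

set_option autoImplicit false

open CategoryTheory AlgebraicGeometry

universe u v w

namespace Pool.Agent.N567.Mid

open Pool.Agent.H914 Pool.Agent.H914.VarClass Pool.Agent.H914.VarClass.Obj
open Pool.Agent.W492.BB (TheoryData WeilTheoryData)
open Pool.Agent.W550.Corr (dg act_dg)
open Pool.Agent.N164

attribute [-instance] Pool.Agent.TH829.Kim.chCommRing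

variable {k : Type u} [Field k] {𝒱 : VarClass k} {C : TheoryData.{u, v, 0} 𝒱 ℚ} {K : Type w}
  [Field K] {H : WeilTheoryData.{u, v, w} C K} {X Y : 𝒱.Obj}

lemma mid1_of (hC : Prim.IsChowTheory C) (hH : Prim.IsWeilTheory H) {j : ℕ}
    (h : ∀ X : 𝒱.Obj, X.dim = 2 * j + 1 → ∃ (X' : 𝒱.Obj) (j' : ℕ), Covers C X' X ∧
      X'.dim = 2 * j' + 1 ∧ NilpotentOn H X' j') : MD.Mid1 H j := by
  have := Bridge.chow hC
  have := Bridge.weil hH
  intro X hX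
  obtain ⟨X', j', ⟨s, f, u, v, c, hdim, hu, hv, hc, huv⟩, hX', hnil⟩ := h X hX
  have hj' : j' = j + s := by omega
  subst hj'
  exact MD.P1.of_cover (f := f) (s := s) (i := s) (by omega) hu hv hc huv
    ((nilpotentOn_iff hX').1 hnil)

theorem mainC (hC : Prim.IsChowTheory C) (hH : Prim.IsWeilTheory H) (hg : IsGradedCommutative H)
    {T : 𝒱.Obj} (hT : T.dim = 1) (hL : IsLefschetzOrCK H) :
    List.TFAE [(∀ X : 𝒱.Obj, HasCK H X) ∧ ∀ (X : 𝒱.Obj) (i : ℕ), MurreC H X i,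
      (∀ X : 𝒱.Obj, HasCK H X) ∧ ∀ (X : 𝒱.Obj) (i : ℕ), MurreB0 H X i,
      (∀ X : 𝒱.Obj, IsKimuraFinite C X) ∧
        ∀ e : ℕ, ∃ j, e ≤ j ∧ ∀ X : 𝒱.Obj, X.dim = 2 * j + 1 → HasGoodB0 H X j,
      ∀ e : ℕ, ∃ j, e ≤ j ∧ ∀ X : 𝒱.Obj, X.dim = 2 * j + 1 →
        ∃ (X' : 𝒱.Obj) (j' : ℕ), Covers C X' X ∧ X'.dim = 2 * j' + 1 ∧ NilpotentOn H X' j',
      (∀ X : 𝒱.Obj, HasCK H X) ∧
        ∀ e : ℕ, ∃ j, e ≤ j ∧ ∀ X : 𝒱.Obj, X.dim = 2 * j + 1 → MurreB0 H X j] ∧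
    (∀ j : ℕ, (∀ X : 𝒱.Obj, X.dim = 2 * j + 1 → MurreB0 H X j) →
      ∀ X : 𝒱.Obj, (X.dim ≤ j → ∀ i : ℕ, MurreB0 H X i) ∧
        (2 * X.dim ≤ j → ∀ i : ℕ, MurreC H X i)) := by
  have h1 := Bridge.chow hC
  have h2 := Bridge.weil hH
  refine ⟨?_, ?_⟩
  · tfae_have 1 → 2 := fun ⟨hA, h⟩ => ⟨hA, fun X i => b0_of_c hC hH (h X) i⟩
    tfae_have 2 → 1 := fun ⟨hA, h⟩ => ⟨hA, fun X i => c_of_b0 hC hH (h _) i⟩
    tfae_have 2 → 3 := by
      rintro ⟨hA, h⟩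
      refine ⟨fun X => kimura_of_b0 hC hH hg h (hA X), fun e => ⟨e, le_rfl, fun X _ => ?_⟩⟩
      obtain ⟨π, hπ⟩ := hasCK_iff.1 (hA X)
      exact ⟨π, Bridge.isCK_iff.2 hπ, (murreB0_iff hC hH).1 (h X e) π hπ⟩
    tfae_have 3 → 5 := by
      rintro ⟨hK, h⟩
      refine ⟨fun X => hasCK_of_kimura hC hH hL (hK X), fun e => ?_⟩
      obtain ⟨j, hj, hj'⟩ := h e
      refine ⟨j, hj, fun X hX => ?_⟩
      obtain ⟨π, hπ, hk⟩ := hj' X hX
      rw [murreB0_iff hC hH]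
      intro ρ hρ w hw
      exact MD.kill_of_conj (kimura_iff'.1 (hK X)) (Bridge.isCK_iff.1 hπ) hρ
        (fun Γ hΓ z hz => TH133.act_mem0 C hΓ hz) (hk w hw)
    tfae_have 5 → 2 := by
      rintro ⟨hA, h⟩
      refine ⟨hA, fun X i => ?_⟩
      obtain ⟨j, hj, hj'⟩ := h X.dim
      have hM : MD.MidQ1 H j := fun X hX => (murreB0_iff hC hH).1 (hj' X hX)
      exact (murreB0_iff hC hH).2 (hM.all hT X hj i)
    tfae_have 2 → 4 := by
      rintro ⟨hA, h⟩ e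
      refine ⟨e, le_rfl, fun X hX => ⟨X, e, covers_self hC X, hX, ?_⟩⟩
      obtain ⟨π, hπ⟩ := hasCK_iff.1 (hA X)
      rw [nilpotentOn_iff hX]
      exact MD.P1_of_kimura (kimura_iff'.1 (kimura_of_b0 hC hH hg h (hA X))) hπ
        ((murreB0_iff hC hH).1 (h X e) π hπ)
    tfae_have 4 → 2 := by
      intro h
      have hP : ∀ (X : 𝒱.Obj) (i : ℕ), MD.P1 H X i := by
        intro X i
        obtain ⟨j, hj, hj'⟩ := h X.dim
        exact (mid1_of hC hH hj').all hT X hj i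
      refine ⟨fun X => hasCK_of_nil hC hH hL ?_, fun X i => ?_⟩
      · have hMH : MD.MidH H X.dim := fun Z _ Γ hΓ hcl =>
          hP Z X.dim Γ hΓ fun m _ a _ => by rw [hcl, TheoryData.act_zero]
        exact fun x hx => hMH.nil hT le_rfl x hx
      · exact (murreB0_iff hC hH).2 (hP X i).q1
    tfae_finish
  · intro j hj X
    have hM : MD.MidQ1 H j := fun X hX => (murreB0_iff hC hH).1 (hj X hX)
    refine ⟨fun hX i => (murreB0_iff hC hH).2 (hM.all hT X hX i), fun hX i => ?_⟩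
    refine c_of_b0 hC hH (fun i => ?_) i
    exact (murreB0_iff hC hH).2 (hM.all hT (X.prod X) (by rw [dim_prod]; omega) i)

end Pool.Agent.N567.Mid
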