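import Pool.Agent.N567.MD.BrM

/-!
# Murre's conjecture (D): the theorem
-/

set_option autoImplicit false

open CategoryTheory AlgebraicGeometry

universe u v w

namespace Pool.Agent.N567.Mid

open Pool.Agent.H914 Pool.Agent.H914.VarClass Pool.Agent.H914.VarClass.Obj
open Pool.Agent.W492.BB (TheoryData WeilTheoryData)
open Pool.Agent.W550.Corr (dg act_dg)
open Pool.Agent.N164

attribute [-instance] Pool.Agent.TH829.Kim.chCommRing

variable {k : Type u} [Field k] {𝒱 : VarClass k} {C : TheoryData.{u, v, 0} 𝒱 ℚ} {K : Type w}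
  [Field K] {H : WeilTheoryData.{u, v, w} C K} {X Y : 𝒱.Obj}

theorem mainD (hC : Prim.IsChowTheory C) (hH : Prim.IsWeilTheory H) (hg : IsGradedCommutative H)
    {T : 𝒱.Obj} (hT : T.dim = 1) (hL : IsLefschetzOrCK H) :
    List.TFAE [(∀ X : 𝒱.Obj, HasCK H X) ∧ ∀ (X : 𝒱.Obj) (i : ℕ), MurreD H X i,
      (∀ X : 𝒱.Obj, HasCK H X) ∧
        ∀ e : ℕ, ∃ j, e ≤ j ∧ ∀ X : 𝒱.Obj, X.dim = 2 * j → MurreD H X j,
      (∀ X : 𝒱.Obj, HasCK H X) ∧ ∀ X : 𝒱.Obj, StrictlyLowers H X,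
      ∀ e : ℕ, ∃ j, e ≤ j ∧ ∀ X : 𝒱.Obj, X.dim = 2 * j →
        ∃ (X' : 𝒱.Obj) (j' : ℕ), Covers C X' X ∧ X'.dim = 2 * j' ∧ NilpotentOnHom H X' j',
      (∀ X : 𝒱.Obj, IsKimuraFinite C X) ∧
        ∀ e : ℕ, ∃ j, e ≤ j ∧ ∀ X : 𝒱.Obj, X.dim = 2 * j → HasGoodD H X j] ∧
    (∀ j : ℕ, (∀ X : 𝒱.Obj, X.dim = 2 * j → MurreD H X j) →
      (∀ X : 𝒱.Obj, X.dim ≤ j → ∀ i : ℕ, MurreD H X i ∧ MurreB0 H X i) ∧
      (∀ X : 𝒱.Obj, 2 * X.dim ≤ j →
        (∀ i : ℕ, MurreC H X i) ∧ (IsLefschetzClass H → ∀ i : ℕ, MurreB1 H X i) ∧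
        StrictlyLowers H X ∧ (HasCK H X → NilpotentOfIndex H X (2 * X.dim + 1)))) ∧
    (∀ X : 𝒱.Obj, (MurreD H (X.prod X) X.dim → StrictlyLowers H X) ∧
      (StrictlyLowers H X → ∀ i : ℕ, MurreD H X i)) := by
  have h1 := Bridge.chow hC
  have h2 := Bridge.weil hH
  have hS : MD.Sys H 0 (MD.homN H) := MD.sys_hom
  have hall : (∀ (X : 𝒱.Obj) (i : ℕ), MurreD H X i) →
      MD.VanCK H 0 (MD.homN H) (fun _ => True) := fun h => MD.vanCK_univ hS hT fun e =>
    ⟨e, le_rfl, fun X _ => (murreD_iff hC hH).1 (h X e)⟩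
  refine ⟨?_, ?_, ?_⟩
  · tfae_have 1 → 2 := fun ⟨hA, h⟩ => ⟨hA, fun e => ⟨e, le_rfl, fun X _ => h X e⟩⟩
    tfae_have 2 → 1 := by
      rintro ⟨hA, h⟩
      have hV := MD.vanCK_univ hS hT fun e => by
        obtain ⟨j, hj, hj'⟩ := h e
        exact ⟨j, hj, fun X hX => (murreD_iff hC hH).1 (hj' X (by omega))⟩
      refine ⟨hA, fun X i => ?_⟩
      rw [murreD_iff hC hH]
      exact fun π hπ w hw z hz => hV.self X trivial π hπ i w hw z hz
    tfae_have 1 → 3 := by
      rintro ⟨hA, h⟩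
      have hV := hall h
      refine ⟨hA, fun X => ?_⟩
      rw [strict_iff]
      exact fun π hπ γ hγ hcl a b hab => hV.strict trivial hπ hπ hγ hcl hab
    tfae_have 3 → 1 := by
      rintro ⟨hA, h⟩
      refine ⟨hA, fun X i => ?_⟩
      rw [murreD_iff hC hH]
      intro π hπ w hw z hz
      exact MD.D_of_strict (i := i) hπ (strict_iff.1 (h X) π hπ) (by push_cast at hw; omega) hz
    tfae_have 1 → 4 := by
      rintro ⟨hA, h⟩ e
      have hV := hall h
      refine ⟨e, le_rfl, fun X hX => ⟨X, e, covers_self hC X, hX, fun Γ hΓ hk => ⟨2 * e, ?_⟩⟩⟩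
      intro z hz
      obtain ⟨π, hπ⟩ := hasCK_iff.1 (hA X)
      refine hV.nil trivial hπ hΓ (fun m hm => hk m ?_) hz
      rw [hX]
      push_cast
      exact hm
    tfae_have 4 → 1 := by
      intro h
      have hV := MD.van_univ hS hT fun e => by
        obtain ⟨j, hj, hj'⟩ := h e
        refine ⟨j, hj, fun X hX => ?_⟩
        obtain ⟨X', j', ⟨s, f, u, v, c, hdim, hu, hv, hc, huv⟩, hX', hnil⟩ := hj' X (by omega)
        have hj'' : j' = j + s := by omega
        subst hj''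
        refine MD.P.of_cover hS (f := f) (s := s) (i := s) (by omega) hu hv hc huv ?_
        intro Γ hΓ hk
        exact hnil Γ hΓ fun m hm => hk m (by push_cast; omega)
      refine ⟨fun X => ?_, fun X i => ?_⟩
      · rcases hL with hL | hL
        · have hL' := lefschetz_iff.1 hL
          exact hasCK_iff.2 (hV.exists_ck (X := X) trivial (MD.exists_kun hL' _ X rfl))
        · exact hL X
      · rw [murreD_iff hC hH]
        exact fun π hπ w hw z hz => hV.ck.self X trivial π hπ i w hw z hz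
    tfae_have 1 → 5 := by
      rintro ⟨hA, h⟩
      have hV := hall h
      refine ⟨fun X => ?_, fun e => ⟨e, le_rfl, fun X hX => ?_⟩⟩
      · obtain ⟨π, hπ⟩ := hasCK_iff.1 (hA X)
        rw [kimura_iff']
        exact MD.kimura_of_vanCK (graded_iff.1 hg) hV hπ
      · obtain ⟨π, hπ⟩ := hasCK_iff.1 (hA X)
        refine ⟨π, Bridge.isCK_iff.2 hπ, fun b hb z hz => ?_⟩
        exact hV.self X trivial π hπ e b (by push_cast; omega) z hz
    tfae_have 5 → 2 := by
      rintro ⟨hK, h⟩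
      refine ⟨fun X => hasCK_of_kimura hC hH hL (hK X), fun e => ?_⟩
      obtain ⟨j, hj, hj'⟩ := h e
      refine ⟨j, hj, fun X hX => ?_⟩
      obtain ⟨π, hπ, hk⟩ := hj' X hX
      rw [murreD_iff hC hH]
      exact MD.Q_of_kimura (kimura_iff'.1 (hK X)) (Bridge.isCK_iff.1 hπ) hk
    tfae_finish
  · intro j hj
    have hM : MD.MidQ H 0 (MD.homN H) j := fun X hX => (murreD_iff hC hH).1 (hj X (by omega))
    have hV := MD.vanCK_of_midQ hS hT hM
    refine ⟨fun X hX i => ⟨?_, ?_⟩, fun X hX => ⟨fun i => ?_, ?_, ?_, ?_⟩⟩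
    · rw [murreD_iff hC hH]
      exact hM.all hS hT X hX i
    · rw [murreB0_iff hC hH]
      intro π hπ w hw z hz
      exact MD.all_of_zero hS (MD.isWt_ck hπ w) (by exact_mod_cast hw)
        (hM.all hS hT X hX i π hπ w (by push_cast; omega)) hz
    · refine c_of_b0 hC hH (fun i => ?_) i
      rw [murreB0_iff hC hH]
      intro π hπ w hw z hz
      exact MD.all_of_zero hS (MD.isWt_ck hπ w) (by exact_mod_cast hw)
        (hM.all hS hT (X.prod X) (by rw [dim_prod]; omega) i π hπ w (by push_cast; omega)) hz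
    · intro hL i π hπ
      rw [bot_iff]
      exact hV.top hX (lefschetz_iff.1 hL) (Bridge.isCK_iff.1 hπ) i
    · rw [strict_iff]
      exact fun π hπ γ hγ hcl a b hab => hV.strict hX hπ hπ hγ hcl hab
    · intro hA
      obtain ⟨π, hπ⟩ := hasCK_iff.1 hA
      rw [index_iff]
      exact MD.nilpotentOfIndex hπ fun γ hγ hcl a b hab => hV.strict hX hπ hπ hγ hcl hab
  · refine fun X => ⟨fun h => ?_, fun h i => ?_⟩
    · rw [strict_iff]
      intro π hπ γ hγ hcl a b hab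
      rcases Nat.lt_or_ge (2 * X.dim) a with h3 | h3
      · rw [hπ.out a h3, W550.Corr.zero_comp, W550.Corr.zero_comp]
      · apply TH133.comp_zero_of_prod hπ hπ h3
        exact (murreD_iff hC hH).1 h _ (hπ.dual.prod hπ) _ (by push_cast; omega) γ ⟨hγ, hcl⟩
    · rw [murreD_iff hC hH]
      intro π hπ w hw z hz
      exact MD.D_of_strict (i := i) hπ (strict_iff.1 h π hπ) (by push_cast at hw; omega) hz

end Pool.Agent.N567.Mid
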