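import Pool.Agent.N567.MD.BrM

/-!
# Finite-dimensionality and uniqueness of Chow-Kunneth decompositions: the theorem
-/

set_option autoImplicit false

open CategoryTheory AlgebraicGeometry

universe u v w

namespace Pool.Agent.N567.Mid

open Pool.Agent.H914 Pool.Agent.H914.VarClass Pool.Agent.H914.VarClass.Obj
open Pool.Agent.W492.BB (TheoryData WeilTheoryData)
open Pool.Agent.W550.Corr (dg act_dg)
open Pool.Agent.N164

attribute [-instance] Pool.Agent.TH829.Kim.chCommRing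

variable {k : Type u} [Field k] {𝒱 : VarClass k} {C : TheoryData.{u, v, 0} 𝒱 ℚ} {K : Type w}
  [Field K] {H : WeilTheoryData.{u, v, w} C K} {X Y : 𝒱.Obj}

lemma midH_of (hC : Prim.IsChowTheory C) (hH : Prim.IsWeilTheory H) {j : ℕ}
    (h : ∀ X : 𝒱.Obj, X.dim = 2 * j → ∃ (X' : 𝒱.Obj) (j' : ℕ), Covers C X' X ∧
      X'.dim = 2 * j' ∧ HomActsNilpotently H X' j') : MD.MidH H j := by
  have := Bridge.chow hC
  have := Bridge.weil hH
  intro X hX
  obtain ⟨X', j', ⟨s, f, u, v, c, hdim, hu, hv, hc, huv⟩, hX', hnil⟩ := h X hX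
  have hj' : j' = j + s := by omega
  subst hj'
  exact MD.PH.of_cover (f := f) (s := s) (i := s) (by omega) hu hv hc huv
    (fun Γ hΓ hcl => hnil Γ ⟨hΓ, hcl⟩)

theorem mainK (hC : Prim.IsChowTheory C) (hH : Prim.IsWeilTheory H) (hg : IsGradedCommutative H)
    {T : 𝒱.Obj} (hT : T.dim = 1) (hL : IsLefschetzOrCK H) :
    List.TFAE [∀ X : 𝒱.Obj, IsKimuraFinite C X,
      ∀ X : 𝒱.Obj, HasCK H X ∧ IsUniqueCK H X,
      ∀ X : 𝒱.Obj, HasCK H X ∧ HasUnitPart H X,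
      ∀ X : 𝒱.Obj, HasCK H X ∧ ZeroPartKills H X,
      ∀ X : 𝒱.Obj, HasCK H X ∧ NoPhantoms H X,
      ∀ e : ℕ, ∃ j, e ≤ j ∧ ∀ X : 𝒱.Obj, X.dim = 2 * j →
        ∃ (X' : 𝒱.Obj) (j' : ℕ), Covers C X' X ∧ X'.dim = 2 * j' ∧
          HomActsNilpotently H X' j'] := by
  have h1 := Bridge.chow hC
  have h2 := Bridge.weil hH
  tfae_have 1 → 2 := by
    intro h X
    refine ⟨hasCK_of_kimura hC hH hL (h X), fun π π' hπ hπ' => ?_⟩
    exact MD.exists_conj (kimura_iff'.1 (h X)) (Bridge.isCK_iff.1 hπ) (Bridge.isCK_iff.1 hπ')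
  tfae_have 2 → 3 := by
    intro h X
    refine ⟨(h X).1, fun π hπ => ?_⟩
    refine MD.zero_of_unique (fun ρ ρ' hρ hρ' => ?_) (Bridge.isCK_iff.1 hπ)
    obtain ⟨s, t, hs, ht, -, -, hst⟩ := (h X).2 ρ ρ' (Bridge.isCK_iff.2 hρ) (Bridge.isCK_iff.2 hρ')
    exact ⟨s, t, hs, ht, hst⟩
  tfae_have 3 → 4 := by
    intro h X
    refine ⟨(h X).1, fun π hπ i z hi hz => ?_⟩
    obtain ⟨x, hx, hx'⟩ := (h X).2 π hπ
    rw [hx']
    exact MD.act_unit_zero (H := H) hx hi hz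
  tfae_have 4 → 1 := by
    intro h X
    refine kimura_of_noPh hC hH hg (fun Y => ?_) (h X).1
    exact MD.noPh_of_kills (fun Z κ hκ i hi x hx => (h Z).2 κ (Bridge.isCK_iff.2 hκ) i x hi hx) Y
  tfae_have 1 → 5 := by
    intro h X
    refine ⟨hasCK_of_kimura hC hH hL (h X), fun p hp hpp => ?_⟩
    exact Y110.noPhantoms_of_kimura (kimura_iff'.1 (h X)) p hp.1 hpp hp.2
  tfae_have 5 → 3 := by
    intro h X
    refine ⟨(h X).1, fun π hπ => ?_⟩
    refine MD.zero_of_noPhantoms (fun p hp hpp hcl => ?_) (Bridge.isCK_iff.1 hπ)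
    exact (h X).2 p ⟨hp, hcl⟩ hpp
  tfae_have 1 → 6 := by
    intro h e
    refine ⟨e, le_rfl, fun X hX => ⟨X, e, covers_self hC X, hX, fun Γ hΓ => ?_⟩⟩
    exact MD.PH_of_nil (nil_of_kimura hC hH (h X)) e Γ hΓ.1 hΓ.2
  tfae_have 6 → 5 := by
    intro h X
    obtain ⟨j, hj, hj'⟩ := h X.dim
    have hn : Nil H h1 X := fun x hx => (midH_of hC hH hj').nil hT hj x hx
    refine ⟨hasCK_of_nil hC hH hL hn, fun p hp hpp => ?_⟩
    exact MD.noPhantoms_of_nil hn p hp.1 hpp hp.2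
  tfae_finish

end Pool.Agent.N567.Mid
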