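import Pool.Agent.N567.MD.StmtM

/-!
# Bloch-Beilinson filtrations and finite-dimensional motives: the definitions
-/

set_option autoImplicit false

open CategoryTheory AlgebraicGeometry

universe u v w

namespace Pool.Agent.N567.Mid

open Pool.Agent.H914 Pool.Agent.N164.Prim
open Pool.Agent.W492.BB (TheoryData WeilTheoryData)

variable {k : Type u} [Field k] {𝒱 : VarClass k} {C : TheoryData.{u, v, 0} 𝒱 ℚ} {K : Type w}
  [Field K] (H : WeilTheoryData.{u, v, w} C K)

/-- Some Chow-Kunneth decomposition `π` of `X` has the property that the projectors `π b` with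
`b ≥ dim X` act as zero on the subspace `N X j` of `CH^j(X)`. -/
def HasGoodAJ (N : ∀ X : 𝒱.Obj, ℕ → Sub C X) (X : 𝒱.Obj) (j : ℕ) : Prop :=
  ∃ π, IsCK H X π ∧ ∀ b : ℕ, X.dim ≤ b → ∀ z : C.A X, Mem (N X j) z → C.act (π b) z = zero C X

/-- For arbitrarily large `j` every variety `X` of dimension `2 j - 1` is covered by a variety `X'`
of some dimension `2 j' - 1` with the property `R`, one of whose Chow-Kunneth decompositions has the
property that its parts of weight at least `dim X'` act as zero on the kernel of the Abel-Jacobi map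
in `CH^(j')(X')`. -/
def HasGoodCoverings (N : ∀ X : 𝒱.Obj, ℕ → Sub C X) (R : 𝒱.Obj → Prop) : Prop :=
  ∀ e : ℕ, ∃ j : ℕ, e ≤ j ∧ ∀ X : 𝒱.Obj, X.dim + 1 = 2 * j →
    ∃ (X' : 𝒱.Obj) (j' : ℕ), Covers C X' X ∧ X'.dim + 1 = 2 * j' ∧ R X' ∧ HasGoodAJ H N X' j'

end Pool.Agent.N567.Mid
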