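import Pool.Agent.N567.MD.MainB
import Pool.Agent.N567.MD.MainK
import Pool.Agent.N567.MD.MainC
import Pool.Agent.N567.MD.StmtF

/-!
# Bloch-Beilinson filtrations and finite-dimensional motives: the theorem
-/

set_option autoImplicit false

open CategoryTheory AlgebraicGeometry

universe u v w

namespace Pool.Agent.N567.MD

open Pool.Agent.H914 Pool.Agent.H914.VarClass Pool.Agent.H914.VarClass.Obj Pool.Agent.W492.BB
  Pool.Agent.W550.Corr Pool.Agent.TH133 Pool.Agent.Y148.BB Pool.Agent.X308.S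
  Pool.Agent.TH829.Kim
open Pool.Agent.N164.BB (graph_mem exists_zeroCycle exists_point sum_act cl_of_mem_F1)
open Pool.Agent.Y110 (NoPhantoms GradedCommutative isNilpotent_of_kimura noPhantoms_of_kimura
  isKimuraFinite_of_noPhantoms)

attribute [-instance] Pool.Agent.TH829.Kim.chCommRing

set_option linter.unusedSectionVars false

variable {k : Type u} [Field k] {𝒱 : VarClass k}

variable {C : TheoryData.{u, v, 0} 𝒱 ℚ} [hC : IsChowProj C] {K : Type w} [Field K]
  {H : WeilTheoryData.{u, v, w} C K} [hH : IsWeilProj H] {X : 𝒱.Obj}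
  {N : ∀ X : 𝒱.Obj, ℕ → Submodule ℚ (C.A X)} {ε : ℕ} {π : ℕ → C.A (X.prod X)}

include hC hH

/-- Finite-dimensionality and a good decomposition imply nilpotence. -/
theorem P_of_kimura (hN : Sys H ε N) {j : ℕ} (hK : IsKimuraFinite C (ratFam C) X)
    (h : IsCK H X π) (hk : ∀ w : ℕ, 2 * (j : ℤ) - ε ≤ w → ∀ z ∈ N X j, C.act (π w) z = 0) :
    P H ε N X j := by
  intro Γ hΓ hkill
  set M : ℕ := 2 * j - ε with hM
  have hΓ' : Γ ∈ C.gr (X.prod X) ((X.dim : ℤ) + j - j) := by rwa [add_sub_cancel_right]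
  set E : C.A (X.prod X) := ∑ w ∈ Finset.range M, π w with hE
  have hEm : E ∈ C.gr (X.prod X) X.dim := Submodule.sum_mem _ fun w _ => h.deg w
  have hEz : ∀ z ∈ N X j, C.act E z = z := by
    intro z hz
    have h1 : ∀ n : ℕ, C.act (∑ w ∈ Finset.range (M + n), π w) z = C.act E z := by
      intro n
      induction n with
      | zero => rfl
      | succ n ih =>
        rw [← add_assoc, Finset.sum_range_succ, TheoryData.act_add, ih,
          hk _ (by push_cast; omega) z hz, add_zero]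
    rw [← h1 (2 * X.dim + 1), h.sum_of_le (by omega), act_dg]
  let x : R0 C X := ofA (C.comp (C.comp E Γ) E) (comp_mem0 C (comp_mem0 C hEm hΓ) hEm)
  have hcl : H.cl (toA x) = 0 := by
    apply cl_zero_of
    intro m a ha
    change H.act (H.cl (C.comp (C.comp E Γ) E)) a = 0
    rw [actH_comp, actH_comp]
    have h1 : H.act (H.cl E) a = if 0 ≤ m ∧ m < M then a else 0 := by
      rw [hE, map_sum, act_sum]
      by_cases hm : 0 ≤ m ∧ m < M
      · obtain ⟨q, rfl⟩ := Int.eq_ofNat_of_zero_le hm.1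
        rw [if_pos hm, Finset.sum_eq_single q]
        · rw [h.actH_eq q _ ha, if_pos rfl]
        · intro b _ hb
          rw [h.actH_eq b _ ha, if_neg (by omega)]
        · intro hq
          exact absurd (Finset.mem_range.2 (by omega)) hq
      · rw [if_neg hm]
        apply Finset.sum_eq_zero
        intro b hb
        rw [Finset.mem_range] at hb
        rw [h.actH_eq b _ ha, if_neg (by omega)]
    rw [h1]
    split_ifs with hm
    · rw [hkill m (by omega) a ha, TheoryData.act_map_zero]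
    · rw [TheoryData.act_map_zero, TheoryData.act_map_zero]
  obtain ⟨n, hn⟩ := isNilpotent_of_kimura (H := H) hK hcl
  refine ⟨n, fun z hz => ?_⟩
  have h2 : ∀ y ∈ N X j, C.act (toA x) y = C.act Γ y := by
    intro y hy
    change C.act (C.comp (C.comp E Γ) E) y = C.act Γ y
    rw [C.act_comp, C.act_comp, hEz y hy, hEz _ (hN.stable X X j j Γ hΓ' y hy)]
  have h3 : ∀ n : ℕ, (C.act Γ)^[n] z ∈ N X j ∧ C.act (toA (x ^ n)) z = (C.act Γ)^[n] z := by
    intro n
    induction n with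
    | zero =>
      refine ⟨hz, ?_⟩
      rw [pow_zero, toA_one, act_dg]
      rfl
    | succ n ih =>
      rw [Function.iterate_succ_apply']
      refine ⟨hN.stable X X j j Γ hΓ' _ ih.1, ?_⟩
      rw [pow_succ', toA_mul, C.act_comp, ih.2, h2 _ ih.1]
  rw [← (h3 n).2, hn, map_zero, TheoryData.act_zero]

end Pool.Agent.N567.MD

namespace Pool.Agent.N567.Mid

open Pool.Agent.H914 Pool.Agent.H914.VarClass Pool.Agent.H914.VarClass.Obj
open Pool.Agent.W492.BB (TheoryData WeilTheoryData)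
open Pool.Agent.N164

attribute [-instance] Pool.Agent.TH829.Kim.chCommRing

variable {k : Type u} [Field k] {𝒱 : VarClass k} {C : TheoryData.{u, v, 0} 𝒱 ℚ} {K : Type w}
  [Field K] {H : WeilTheoryData.{u, v, w} C K} {X Y : 𝒱.Obj}
  {N : ∀ X : 𝒱.Obj, ℕ → Submodule ℚ (C.A X)}

lemma HasGoodCoverings.mono {R R' : 𝒱.Obj → Prop} (h : HasGoodCoverings H N R)
    (hR : ∀ X, R X → R' X) : HasGoodCoverings H N R' := by
  intro e
  obtain ⟨j, hj, hj'⟩ := h e
  refine ⟨j, hj, fun X hX => ?_⟩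
  obtain ⟨X', j', h1, h2, h3, h4⟩ := hj' X hX
  exact ⟨X', j', h1, h2, hR X' h3, h4⟩

theorem mainF (hC : Prim.IsChowTheory C) (hH : Prim.IsWeilTheory H) (hg : IsGradedCommutative H)
    (hL : IsLefschetzClass H) {T : 𝒱.Obj} (hT : T.dim = 1)
    (hN : Prim.IsAbelJacobiKernel H N) :
    List.TFAE [∃ F, Prim.IsBlochBeilinsonOn H N (fun _ => True) F,
      HasGoodCoverings H N (fun X => IsKimuraFinite C X),
      (∀ X : 𝒱.Obj, HasCK H X ∧ IsUniqueCK H X) ∧ HasGoodCoverings H N (fun _ => True),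
      (∀ X : 𝒱.Obj, HasCK H X ∧ ∀ i : ℕ, MurreC H X i) ∧ HasGoodCoverings H N (fun _ => True),
      (∀ X : 𝒱.Obj, HasCK H X ∧ ∀ i : ℕ, MurreB1 H X i) ∧
        HasGoodCoverings H N (fun _ => True)] := by
  have h1 := Bridge.chow hC
  have h2 := Bridge.weil hH
  have hS := MD.sys_aj (Bridge.kernel_iff.1 hN)
  have hLC : IsLefschetzOrCK H := Or.inl hL
  have hK := mainK hC hH hg hT hLC
  have hA := mainA hC hH hL hT hN
  -- the consequences of a filtration
  have key : (∃ F, Prim.IsBlochBeilinsonOn H N (fun _ => True) F) →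
      (∀ X : 𝒱.Obj, IsKimuraFinite C X) ∧ (∀ X : 𝒱.Obj, HasCK H X) ∧
      (∀ (X : 𝒱.Obj) (i : ℕ), MurreC H X i) ∧ HasGoodCoverings H N (fun _ => True) := by
    intro h
    obtain ⟨hck, hinj⟩ := (hA.1.out 0 2).1 h
    have hV := MD.vanCK_univ hS hT fun e => by
      obtain ⟨j, hj, hj'⟩ := hinj e
      refine ⟨j, hj, fun X hX π hπ w hw z hz => ?_⟩
      exact hj' X hX π (Bridge.isCK_iff.2 hπ) w (by push_cast at hw; omega) z hz
    have hB0 : ∀ (X : 𝒱.Obj) (i : ℕ), MurreB0 H X i := fun X =>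
      (b0_all_iff hC hH).2 (MD.murreB0_of_vanCK hV X)
    refine ⟨fun X => kimura_of_b0 hC hH hg hB0 (hck X), hck,
      fun X i => c_of_b0 hC hH (hB0 _) i, fun e => ⟨e, le_rfl, fun X hX =>
        ⟨X, e, covers_self hC X, hX, trivial, ?_⟩⟩⟩
    obtain ⟨π, hπ⟩ := hck X
    refine ⟨π, hπ, fun b hb z hz => ?_⟩
    exact hV.self X trivial π (Bridge.isCK_iff.1 hπ) e b (by push_cast; omega) z hz
  tfae_have 1 → 2 := by
    intro h
    obtain ⟨h3, -, -, h4⟩ := key h
    exact h4.mono fun X _ => h3 X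
  tfae_have 1 → 3 := by
    intro h
    obtain ⟨h3, -, -, h4⟩ := key h
    exact ⟨(hK.out 0 1).1 h3, h4⟩
  tfae_have 1 → 4 := by
    intro h
    obtain ⟨-, h3, h4, h5⟩ := key h
    exact ⟨fun X => ⟨h3 X, h4 X⟩, h5⟩
  tfae_have 1 → 5 := by
    intro h
    obtain ⟨h3, h4, -, h5⟩ := key h
    exact ⟨fun X => ⟨h4 X, b1_of_lefschetz hC hH hL (h3 X)⟩, h5⟩
  tfae_have 2 → 1 := by
    intro h
    refine (hA.1.out 1 0).1 fun e => ?_
    obtain ⟨j, hj, hj'⟩ := h e
    refine ⟨j, hj, fun X hX => ?_⟩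
    obtain ⟨X', j', h3, h4, h5, π, hπ, h6⟩ := hj' X hX
    refine ⟨X', j', h3, h4, fun Γ hΓ hk => ?_⟩
    refine MD.P_of_kimura hS (kimura_iff'.1 h5) (Bridge.isCK_iff.1 hπ) (fun w hw z hz => ?_) Γ hΓ
      fun m hm => hk m (by push_cast at hm; omega)
    exact h6 w (by push_cast at hw; omega) z hz
  tfae_have 3 → 2 := by
    rintro ⟨h3, h4⟩
    have h5 : ∀ X : 𝒱.Obj, IsKimuraFinite C X := (hK.out 1 0).1 h3
    exact h4.mono fun X _ => h5 X
  tfae_have 4 → 2 := by
    rintro ⟨h3, h4⟩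
    exact h4.mono fun X _ => kimura_of_b0 hC hH hg
      (fun Y i => b0_of_c hC hH (h3 Y).2 i) (h3 X).1
  tfae_have 5 → 2 := by
    rintro ⟨h3, h4⟩
    exact h4.mono fun X _ => kimura_of_b1 hC hH hg (fun Y => (h3 Y).2) (h3 X).1
  tfae_finish

end Pool.Agent.N567.Mid
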