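import Pool.Agent.N567.MD.StmtM

/-!
# Homologically trivial cycles and the cohomology in odd degree: the definitions
-/

set_option autoImplicit false

open CategoryTheory AlgebraicGeometry

universe u v w

namespace Pool.Agent.N567.Mid

open Pool.Agent.H914 Pool.Agent.N164.Prim
open Pool.Agent.W492.BB (TheoryData WeilTheoryData)

variable {k : Type u} [Field k] {𝒱 : VarClass k} {C : TheoryData.{u, v, 0} 𝒱 ℚ} {K : Type w}
  [Field K] (H : WeilTheoryData.{u, v, w} C K)

/-- The intersection product of two homologically trivial classes (on a variety in `𝒱`) is zero. -/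
def ProductsVanish : Prop :=
  ∀ (X : 𝒱.Obj) (i j : ℕ) (z w : C.A X), HomTriv H i z → HomTriv H j w → C.mul z w = zero C X

/-- The class `𝒱` contains enough sections: if `2 j ≥ dim X + 2`, every homologically trivial class
in `CH^j(X)`, of dimension `l = dim X - j` say, is a linear combination of push-forwards of
homologically trivial classes of dimension `l` on varieties `Y` of dimension `2 l + 1`.

This holds in characteristic zero if `𝒱` contains the smooth complete intersections in its members.
By Kollar and Voisin cycles below the middle dimension are rationally equivalent to linear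
combinations of smooth subvarieties; by Bertini these lie on a smooth complete intersection `Y` in
`X` of dimension `2 l + 1`, and by the Lefschetz hyperplane theorem the push-forward maps the
homology group `H_(2l)(Y)` isomorphically to `H_(2l)(X)`. -/
def HasSections : Prop :=
  ∀ (X : 𝒱.Obj) (j : ℕ) (z : C.A X), X.dim + 2 ≤ 2 * j → HomTriv H j z →
    IsComb C (fun c => ∃ (Y : 𝒱.Obj) (f : Y ⟶ X) (i : ℕ) (y : C.A Y), Y.dim + 1 = 2 * i ∧
      i + X.dim = j + Y.dim ∧ HomTriv H i y ∧ c = C.down f y) z

/-- The action of correspondences on homologically trivial cycles of codimension `j` depends only on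
their action on the cohomology groups `H^m` with `m` in the set `s j`: if the correspondence `Γ`
from `X` to `Y` maps `CH^j(X)` to `CH^i(Y)` and acts as zero on `H^m(X)` for all `m` in `s j`, then
it acts as zero on the homologically trivial classes in `CH^j(X)`. -/
def DependsOn (s : ℕ → ℤ → Prop) : Prop :=
  ∀ (X Y : 𝒱.Obj) (j i : ℕ) (Γ : Cor C X Y), Maps C Γ j i → (∀ m : ℤ, s j m → Kills H Γ m) →
    ∀ z : C.A X, HomTriv H j z → C.act Γ z = zero C Y

/-- The self-correspondences of degree zero of `X` which act as zero on `H^(2j-1)(X)` act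
nilpotently on the homologically trivial classes in `CH^j(X)`. -/
def NilpotentOdd (X : 𝒱.Obj) (j : ℕ) : Prop :=
  ∀ Γ : Cor C X X, C.Deg X.dim Γ → Kills H Γ (2 * j - 1) →
    ∃ n : ℕ, ∀ z : C.A X, HomTriv H j z → (C.act Γ)^[n] z = zero C X

/-- The homologically trivial classes in `CH^j(M)` vanish for all the direct summands `M = (X, p)` of
the motive of `X` with `H^(2j-1)(M) = 0`. -/
def SummandsOdd (X : 𝒱.Obj) (j : ℕ) : Prop :=
  ∀ p : Cor C X X, C.Deg X.dim p → comp C p p = p → Kills H p (2 * j - 1) →
    ∀ z : C.A X, HomTriv H j z → C.act p z = zero C X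

/-- Some Chow-Kunneth decomposition `π` of `X` has the property that the `π b` with `b ≠ 2 j - 1` act
as zero on the homologically trivial classes in `CH^j(X)`. -/
def HasGoodOdd (X : 𝒱.Obj) (j : ℕ) : Prop :=
  ∃ π, IsCK H X π ∧ ∀ b : ℕ, b + 1 ≠ 2 * j → ∀ z : C.A X, HomTriv H j z →
    C.act (π b) z = zero C X

/-- The homologically trivial self-correspondences of degree zero of `X` act as zero on the
homologically trivial classes in `CH^j(X)`. -/
def HomActsTrivially (X : 𝒱.Obj) (j : ℕ) : Prop :=
  ∀ Γ : Cor C X X, HomTriv H X.dim Γ → ∀ z : C.A X, HomTriv H j z → C.act Γ z = zero C X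

end Pool.Agent.N567.Mid
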