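import Pool.Agent.N567.MD.LemJ
import Pool.Agent.N567.MD.StmtJ
import Pool.Agent.N567.MD.MainD
import Pool.Agent.N567.MD.MainK

/-!
# Homologically trivial cycles and the cohomology in odd degree: the theorem
-/

set_option autoImplicit false

open CategoryTheory AlgebraicGeometry

universe u v w

namespace Pool.Agent.N567.Mid

open Pool.Agent.H914 Pool.Agent.H914.VarClass Pool.Agent.H914.VarClass.Obj
open Pool.Agent.W492.BB (TheoryData WeilTheoryData)
open Pool.Agent.W550.Corr (dg act_dg)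
open Pool.Agent.N164

attribute [-instance] Pool.Agent.TH829.Kim.chCommRing

variable {k : Type u} [Field k] {𝒱 : VarClass k} {C : TheoryData.{u, v, 0} 𝒱 ℚ} {K : Type w}
  [Field K] {H : WeilTheoryData.{u, v, w} C K} {X Y : 𝒱.Obj}

lemma pv_iff : ProductsVanish H ↔ MD.PV H :=
  ⟨fun h X i j z hz w hw => h X i j z w hz hw, fun h X i j z w hz hw => h X i j z hz w hw⟩

lemma sec_iff : HasSections H ↔ MD.HasSec H :=
  ⟨fun h X j hj z hz => h X j z hj hz, fun h X j z hj hz => h X j hj z hz⟩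

lemma idK_iff {j : ℕ} : SummandsOdd H X j ↔ MD.IdK H X j :=
  ⟨fun h p hp hpp hk z hz => h p hp hpp hk z hz, fun h p hp hpp hk z hz => h p hp hpp hk z hz⟩

lemma pe_iff {j : ℕ} : NilpotentOdd H X j ↔ MD.PE H X j := by
  constructor
  · intro h Γ hΓ hk
    obtain ⟨n, hn⟩ := h Γ hΓ (by
      have := hk (-1) rfl
      rwa [← sub_eq_add_neg] at this)
    exact ⟨n, trivial, hn⟩
  · intro h Γ hΓ hk
    obtain ⟨n, -, hn⟩ := h Γ hΓ fun t ht => by
      rw [ht, ← sub_eq_add_neg]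
      exact hk
    exact ⟨n, hn⟩

/-- From coverings in the middle dimension to all varieties. -/
lemma pk_of_coverings (hC : Prim.IsChowTheory C) (hH : Prim.IsWeilTheory H) {T : 𝒱.Obj}
    (hT : T.dim = 1) {κ : ℤ → Prop} {ν : ℕ → Prop} {δ : ℕ} (h : ∀ e : ℕ, ∃ j, e ≤ j ∧
      ∀ X : 𝒱.Obj, X.dim + δ = 2 * j → ∃ (X' : 𝒱.Obj) (j' : ℕ), Covers C X' X ∧
        X'.dim + δ = 2 * j' ∧ MD.PK κ ν H X' j') (X : 𝒱.Obj) (j : ℕ) : MD.PK κ ν H X j := by
  have h1 := Bridge.chow hC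
  have h2 := Bridge.weil hH
  refine MD.pk_univ hT (δ := δ) (fun e => ?_) X j
  obtain ⟨M, hM, hM'⟩ := h e
  refine ⟨M, hM, fun X hX => ?_⟩
  obtain ⟨X', j', ⟨s, f, u, v, c, hdim, hu, hv, hc, huv⟩, hX', h3⟩ := hM' X hX
  have hj : j' = M + s := by omega
  subst hj
  exact MD.PK.of_cover (f := f) (s := s) (i := s) (by omega) hu hv hc huv h3

theorem mainJ (hC : Prim.IsChowTheory C) (hH : Prim.IsWeilTheory H) (hg : IsGradedCommutative H)
    (hL : IsLefschetzClass H) (hS : HasSections H) {T : 𝒱.Obj} (hT : T.dim = 1) :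
    List.TFAE [DependsOn H (fun j m => m = 2 * j - 1),
      ∀ e : ℕ, ∃ j, e ≤ j ∧ ∀ X : 𝒱.Obj, X.dim + 1 = 2 * j →
        ∃ (X' : 𝒱.Obj) (j' : ℕ), Covers C X' X ∧ X'.dim + 1 = 2 * j' ∧ NilpotentOdd H X' j',
      ∀ e : ℕ, ∃ j, e ≤ j ∧ ∀ X : 𝒱.Obj, X.dim + 1 = 2 * j →
        ∃ (X' : 𝒱.Obj) (j' : ℕ), Covers C X' X ∧ X'.dim + 1 = 2 * j' ∧ IsKimuraFinite C X' ∧
          HasGoodOdd H X' j',
      ∀ X : 𝒱.Obj, HasCK H X ∧ ∀ j : ℕ, SummandsOdd H X j,
      ProductsVanish H ∧ ∀ X : 𝒱.Obj, HasCK H X ∧ ∀ j : ℕ, MurreD H X j,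
      ProductsVanish H ∧ ∀ e : ℕ, ∃ j, e ≤ j ∧ ∀ X : 𝒱.Obj, X.dim = 2 * j →
        ∃ (X' : 𝒱.Obj) (j' : ℕ), Covers C X' X ∧ X'.dim = 2 * j' ∧ NilpotentOnHom H X' j'] ∧
    (DependsOn H (fun j m => m = 2 * j - 1) → ∀ (X : 𝒱.Obj) (j : ℕ),
      (∀ a : H.A X, H.Deg (2 * j - 1) a → a = Prim.zero H.toTheoryData X) →
        ∀ z : C.A X, Prim.HomTriv H j z → z = Prim.zero C X) := by
  have h1 := Bridge.chow hC
  have h2 := Bridge.weil hH
  have hL' := lefschetz_iff.1 hL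
  have hLC : IsLefschetzOrCK H := Or.inl hL
  have hDm := (mainD hC hH hg hT hLC).1
  -- the condition on idempotents implies the first one
  have hid : (∀ X : 𝒱.Obj, HasCK H X) → (∀ (X : 𝒱.Obj) (j : ℕ), MD.IdK H X j) →
      DependsOn H (fun j m => m = 2 * j - 1) := by
    intro hck h X Y j i Γ hΓ hk z hz
    exact MD.odd_of_idK h (fun X => hasCK_iff.1 (hck X)) hΓ (hk _ rfl) hz
  have hpe : (∀ (X : 𝒱.Obj) (j : ℕ), MD.PE H X j) → DependsOn H (fun j m => m = 2 * j - 1) := by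
    intro h
    refine hid (fun X => ?_) fun X j => (h X j).idK
    exact hasCK_of_nil hC hH hLC fun x hx => MD.nil_of_pe (h _ _) x hx
  have hpv : DependsOn H (fun j m => m = 2 * j - 1) → MD.PV H := by
    intro h
    refine MD.pv_of_kj fun X j => MD.KJ.of fun Γ hΓ hcl z hz => ?_
    refine h X X j j Γ (by change Γ ∈ C.gr _ _; rwa [add_sub_cancel_right]) (fun m _ a _ => ?_) z hz
    change H.act (H.cl Γ) a = 0
    rw [hcl, TheoryData.act_zero]
  refine ⟨?_, ?_⟩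
  · tfae_have 1 → 4 := by
      intro h X
      refine ⟨hasCK_iff.2 (MD.exists_ck_of_pv (hpv h) hL' X), fun j p hp hpp hk z hz => ?_⟩
      refine h X X j j p (by change p ∈ C.gr _ _; rwa [add_sub_cancel_right]) (fun m hm => ?_) z hz
      rw [hm]
      exact hk
    tfae_have 4 → 1 := fun h => hid (fun X => (h X).1) fun X j => idK_iff.1 ((h X).2 j)
    tfae_have 1 → 3 := by
      intro h e
      refine ⟨e, le_rfl, fun X hX => ⟨X, e, covers_self hC X, hX, ?_, ?_⟩⟩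
      · have hD : ∀ X : 𝒱.Obj, HasCK H X ∧ NoPhantoms H X := by
          intro Y
          refine ⟨hasCK_iff.2 (MD.exists_ck_of_pv (hpv h) hL' Y), fun p hp hpp => ?_⟩
          have h3 := MD.sq_of_kj ((hpv h).kj (Y.prod Y) Y.dim) hp hp
          exact hpp.symm.trans h3
        have hK : ∀ X : 𝒱.Obj, IsKimuraFinite C X := ((mainK hC hH hg hT hLC).out 4 0).1 hD
        exact hK X
      · obtain ⟨π, hπ⟩ := MD.exists_ck_of_pv (hpv h) hL' X
        refine ⟨π, Bridge.isCK_iff.2 hπ, fun b hb z hz => ?_⟩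
        refine h X X e e (π b) (by
          change π b ∈ C.gr _ _
          rw [add_sub_cancel_right]
          exact hπ.deg b) (fun m hm a ha => ?_) z hz
        refine hπ.act_ne b m a ?_ ha
        rw [hm]
        omega
    tfae_have 3 → 1 := by
      intro h
      refine hpe (pk_of_coverings hC hH hT (δ := 1) fun e => ?_)
      obtain ⟨j, hj, hj'⟩ := h e
      refine ⟨j, hj, fun X hX => ?_⟩
      obtain ⟨X', j', h3, h4, h5, π, hπ, h6⟩ := hj' X hX
      exact ⟨X', j', h3, h4, MD.pe_of_kimura (kimura_iff'.1 h5) (Bridge.isCK_iff.1 hπ) h6⟩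
    tfae_have 1 → 2 := by
      intro h e
      refine ⟨e, le_rfl, fun X hX => ⟨X, e, covers_self hC X, hX, fun Γ hΓ hk => ⟨1, ?_⟩⟩⟩
      intro z hz
      refine h X X e e Γ (by change Γ ∈ C.gr _ _; rwa [add_sub_cancel_right]) (fun m hm => ?_) z hz
      rw [hm]
      exact hk
    tfae_have 2 → 1 := by
      intro h
      refine hpe (pk_of_coverings hC hH hT (δ := 1) fun e => ?_)
      obtain ⟨j, hj, hj'⟩ := h e
      refine ⟨j, hj, fun X hX => ?_⟩
      obtain ⟨X', j', h3, h4, h5⟩ := hj' X hX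
      exact ⟨X', j', h3, h4, pe_iff.1 h5⟩
    tfae_have 1 → 5 := by
      intro h
      refine ⟨pv_iff.2 (hpv h), fun X => ⟨hasCK_iff.2 (MD.exists_ck_of_pv (hpv h) hL' X),
        fun j => ?_⟩⟩
      rw [murreD_iff hC hH]
      intro π hπ w hw z hz
      refine h X X j j (π w) (by
        change π w ∈ C.gr _ _
        rw [add_sub_cancel_right]
        exact hπ.deg w) (fun m hm a ha => ?_) z hz
      refine hπ.act_ne w m a ?_ ha
      push_cast at hw
      rw [hm]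
      omega
    tfae_have 5 → 1 := by
      rintro ⟨h, h3⟩ X Y j i Γ hΓ hk z hz
      exact MD.odd_of_pv (pv_iff.1 h) hL' (sec_iff.1 hS)
        (fun X j => (murreD_iff hC hH).1 ((h3 X).2 j)) hΓ (hk _ rfl) hz
    tfae_have 5 → 6 := by
      rintro ⟨h, h3⟩
      have h4 : (∀ X : 𝒱.Obj, HasCK H X) ∧ ∀ (X : 𝒱.Obj) (i : ℕ), MurreD H X i :=
        ⟨fun X => (h3 X).1, fun X => (h3 X).2⟩
      exact ⟨h, (hDm.out 0 3).1 h4⟩
    tfae_have 6 → 5 := by
      rintro ⟨h, h3⟩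
      have h4 : (∀ X : 𝒱.Obj, HasCK H X) ∧ ∀ (X : 𝒱.Obj) (i : ℕ), MurreD H X i :=
        (hDm.out 3 0).1 h3
      exact ⟨h, fun X => ⟨h4.1 X, h4.2 X⟩⟩
    tfae_finish
  · intro h X j hX z hz
    have h3 := h X X j j (dg C X) (by
      change dg C X ∈ C.gr _ _
      rw [add_sub_cancel_right]
      exact TH133.dg_mem C X) (fun m hm a ha => ?_) z hz
    · rwa [act_dg] at h3
    · have h4 : a = 0 := hX a (by rwa [← hm])
      change H.act (H.cl (dg C X)) a = 0
      rw [h4, TheoryData.act_map_zero]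

end Pool.Agent.N567.Mid
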