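import Pool.Agent.N567.MD.StmtJ

/-!
# Lefschetz operators on homologically trivial cycles: the definitions
-/

set_option autoImplicit false

open CategoryTheory AlgebraicGeometry

universe u v w

namespace Pool.Agent.N567.Mid

open Pool.Agent.H914 Pool.Agent.N164.Prim
open Pool.Agent.W492.BB (TheoryData WeilTheoryData)

variable {k : Type u} [Field k] {𝒱 : VarClass k} {C : TheoryData.{u, v, 0} 𝒱 ℚ} {K : Type w}
  [Field K] (H : WeilTheoryData.{u, v, w} C K)

/-- The divisor class `h` on `X` (the class of an ample divisor, for example) satisfies the hard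
Lefschetz theorem and the standard conjecture of Lefschetz type: for `a ≤ n = dim X` the cup product
with `h^(n-a)` is an isomorphism of `H^a(X)` and `H^(2n-a)(X)`, and its inverse is given by a
correspondence `θ`. -/
def IsLefschetzDivisor (X : 𝒱.Obj) (h : C.A X) : Prop :=
  C.Deg 1 h ∧ ∀ a : ℕ, a ≤ X.dim → ∃ θ : Cor C X X, C.Deg a θ ∧
    (∀ x : H.A X, H.Deg a x → H.act (cyc H θ) (H.mul (cyc H (h ^ (X.dim - a))) x) = x) ∧
    ∀ y : H.A X, H.Deg (2 * X.dim - a) y →
      H.mul (cyc H (h ^ (X.dim - a))) (H.act (cyc H θ) y) = y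

/-- The conjecture of Beilinson for `X` and the divisor class `h`: for `2 i ≤ n + 1`, `n = dim X`, the
multiplication with `h^(n+1-2i)` is an isomorphism of the groups of homologically trivial classes in
`CH^i(X)` and in `CH^(n+1-i)(X)`. -/
def ArithmeticLefschetz (X : 𝒱.Obj) (h : C.A X) : Prop :=
  ∀ i : ℕ, 2 * i ≤ X.dim + 1 →
    (∀ z : C.A X, HomTriv H i z → C.mul (h ^ (X.dim + 1 - 2 * i)) z = zero C X → z = zero C X) ∧
    ∀ w : C.A X, HomTriv H (X.dim + 1 - i) w →
      ∃ z : C.A X, HomTriv H i z ∧ C.mul (h ^ (X.dim + 1 - 2 * i)) z = w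

/-- The multiplication with `h` is injective on the homologically trivial classes in `CH^j(X)` if
`2 j ≤ dim X`. -/
def InjectiveBelowMiddle (X : 𝒱.Obj) (h : C.A X) : Prop :=
  ∀ j : ℕ, 2 * j ≤ X.dim → ∀ z : C.A X, HomTriv H j z → C.mul h z = zero C X → z = zero C X

end Pool.Agent.N567.Mid
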