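import Pool.Agent.N567.MD.LemH
import Pool.Agent.N567.MD.StmtH
import Pool.Agent.N567.MD.MainJ

/-!
# Lefschetz operators on homologically trivial cycles: the theorem
-/

set_option autoImplicit false

open CategoryTheory AlgebraicGeometry

universe u v w

namespace Pool.Agent.N567.Mid

open Pool.Agent.H914 Pool.Agent.H914.VarClass Pool.Agent.H914.VarClass.Obj
open Pool.Agent.W492.BB (TheoryData WeilTheoryData)
open Pool.Agent.W550.Corr (dg act_dg)
open Pool.Agent.N164

attribute [-instance] Pool.Agent.TH829.Kim.chCommRing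

variable {k : Type u} [Field k] {𝒱 : VarClass k} {C : TheoryData.{u, v, 0} 𝒱 ℚ} {K : Type w}
  [Field K] {H : WeilTheoryData.{u, v, w} C K} {X Y : 𝒱.Obj}

lemma pol_iff {h : C.A X} : IsLefschetzDivisor H X h ↔ MD.IsPol H X h := by
  constructor
  · rintro ⟨h1, h2⟩
    refine ⟨h1, fun a ha => ?_⟩
    obtain ⟨θ, h3, h4, h5⟩ := h2 a ha
    exact ⟨θ, h3, h4, h5⟩
  · rintro ⟨h1, h2⟩
    refine ⟨h1, fun a ha => ?_⟩
    obtain ⟨θ, h3, h4, h5⟩ := h2 a ha
    exact ⟨θ, h3, h4, h5⟩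

lemma lowInj_iff {h : C.A X} : InjectiveBelowMiddle H X h ↔ MD.LowInj H X h := Iff.rfl

/-- The dependence on `H^(2j-1)` implies the conjecture of Beilinson. -/
lemma arithmetic_of_odd (hC : Prim.IsChowTheory C) (hH : Prim.IsWeilTheory H)
    (hd : DependsOn H (fun j m => m = 2 * j - 1)) {h : C.A X} (hh : IsLefschetzDivisor H X h) :
    ArithmeticLefschetz H X h := by
  have h1 := Bridge.chow hC
  have h2 := Bridge.weil hH
  have hzero : ∀ j : ℕ, j = 0 ∨ X.dim < j → ∀ z : C.A X, Prim.HomTriv H j z → z = 0 := by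
    intro j hj z hz
    rcases hj with rfl | hj
    · exact MD.homN_zero (H := H) hz
    · exact X308.S.zero_of_top hz.1 (by exact_mod_cast hj)
  intro i hi
  rcases Nat.eq_zero_or_pos i with rfl | hi0
  · refine ⟨fun z hz _ => hzero 0 (Or.inl rfl) z hz, fun w hw => ⟨0, ?_, ?_⟩⟩
    · exact ⟨Submodule.zero_mem _, map_zero H.cl⟩
    · have h3 : w = 0 := hzero _ (Or.inr (by omega)) w hw
      rw [h3]
      exact mul_zero _
  obtain ⟨hh1, hh2⟩ := pol_iff.1 hh
  obtain ⟨θ, hθ, h3, h4⟩ := hh2 (2 * i - 1) (by omega)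
  have hk : X.dim - (2 * i - 1) = X.dim + 1 - 2 * i := by omega
  rw [hk] at h3 h4
  set p := h ^ (X.dim + 1 - 2 * i) with hp
  have hpm : p ∈ C.gr X (X.dim + 1 - 2 * i : ℕ) := MD.pow_mem_gr (H := H) hh1 _
  have hpc : C.mulCorr p ∈ C.gr (X.prod X) (X.dim + (X.dim + 1 - 2 * i : ℕ)) :=
    MD.mulCorr_mem hpm
  have hactH : ∀ (y : C.A X) (x : H.A X), H.act (H.cl (C.mulCorr y)) x = H.cl y * x := by
    intro y x
    have h1 : H.cl (C.mulCorr y) = H.mulCorr (H.cl y) := by
      rw [TheoryData.mulCorr, TheoryData.mulCorr, H.cl_push]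
    rw [h1, H.act_mulCorr]
  constructor
  · intro z hz hpz
    have h5 : C.act (dg C X - C.comp (C.mulCorr p) θ) z = 0 := by
      refine hd X X i i _ ?_ (fun m hm x hx => ?_) z hz
      · change dg C X - C.comp (C.mulCorr p) θ ∈ C.gr _ _
        rw [add_sub_cancel_right]
        refine Submodule.sub_mem _ (TH133.dg_mem C X) (X308.S.comp_deg hpc hθ ?_)
        push_cast
        omega
      · change H.act (H.cl (dg C X - C.comp (C.mulCorr p) θ)) x = 0
        rw [map_sub, TheoryData.act_sub, TH133.actH_dg, TH133.actH_comp, hactH, h3 x, sub_self]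
        have e : ((2 * i - 1 : ℕ) : ℤ) = m := by omega
        rw [e]
        exact hx
    rw [TheoryData.act_sub, act_dg, C.act_comp, C.act_mulCorr, sub_eq_zero] at h5
    have h6 : p * z = 0 := hpz
    rw [h6, TheoryData.act_map_zero] at h5
    exact h5
  · intro w hw
    have h5 : C.act (dg C X - C.comp θ (C.mulCorr p)) w = 0 := by
      refine hd X X (X.dim + 1 - i) (X.dim + 1 - i) _ ?_ (fun m hm x hx => ?_) w hw
      · change dg C X - C.comp θ (C.mulCorr p) ∈ C.gr _ _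
        rw [add_sub_cancel_right]
        refine Submodule.sub_mem _ (TH133.dg_mem C X) (X308.S.comp_deg hθ hpc ?_)
        push_cast
        omega
      · change H.act (H.cl (dg C X - C.comp θ (C.mulCorr p))) x = 0
        rw [map_sub, TheoryData.act_sub, TH133.actH_dg, TH133.actH_comp, hactH, h4 x, sub_self]
        have e : 2 * (X.dim : ℤ) - ((2 * i - 1 : ℕ) : ℤ) = m := by omega
        rw [e]
        exact hx
    rw [TheoryData.act_sub, act_dg, C.act_comp, C.act_mulCorr, sub_eq_zero] at h5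
    refine ⟨C.act θ w, ?_, h5.symm⟩
    refine MD.act_homN (X := X) (j := X.dim + 1 - i) ?_ hw
    convert hθ using 2
    omega

theorem mainH (hC : Prim.IsChowTheory C) (hH : Prim.IsWeilTheory H) (hg : IsGradedCommutative H)
    (hL : IsLefschetzClass H) (hS : HasSections H) {T : 𝒱.Obj} (hT : T.dim = 1)
    (hB : ∀ X : 𝒱.Obj, ∃ h : C.A X, IsLefschetzDivisor H X h) :
    List.TFAE [ProductsVanish H ∧ ∀ (X : 𝒱.Obj) (h : C.A X), IsLefschetzDivisor H X h →
        ArithmeticLefschetz H X h,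
      ProductsVanish H ∧ ∀ X : 𝒱.Obj, ∃ h : C.A X, IsLefschetzDivisor H X h ∧
        InjectiveBelowMiddle H X h,
      DependsOn H (fun j m => m = 2 * j - 1),
      ∀ e : ℕ, ∃ j, e ≤ j ∧ ∀ X : 𝒱.Obj, X.dim + 1 = 2 * j →
        ∃ (X' : 𝒱.Obj) (j' : ℕ), Covers C X' X ∧ X'.dim + 1 = 2 * j' ∧ NilpotentOdd H X' j'] := by
  have h1 := Bridge.chow hC
  have h2 := Bridge.weil hH
  have hJ := (mainJ hC hH hg hL hS hT).1
  tfae_have 1 → 2 := by
    rintro ⟨h3, h4⟩
    refine ⟨h3, fun X => ?_⟩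
    obtain ⟨h, hh⟩ := hB X
    refine ⟨h, hh, fun j hj z hz hhz => ?_⟩
    refine (h4 X h hh j (by omega)).1 z hz ?_
    have h5 : X.dim + 1 - 2 * j = (X.dim - 2 * j) + 1 := by omega
    have h6 : h * z = 0 := hhz
    change h ^ (X.dim + 1 - 2 * j) * z = 0
    rw [h5, pow_succ, mul_assoc, h6, mul_zero]
  tfae_have 2 → 3 := by
    rintro ⟨h3, h4⟩ X Y j i Γ hΓ hk z hz
    have hPV := pv_iff.1 h3
    have hL' := lefschetz_iff.1 hL
    refine MD.odd_of_pv hPV hL' (sec_iff.1 hS) (fun X j π hπ w hw z hz => ?_) hΓ (hk _ rfl) hz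
    refine MD.high_zero hPV hL' (fun X => ?_) w X π j hπ (by push_cast at hw; omega) z hz
    obtain ⟨h, hh, hi⟩ := h4 X
    exact ⟨h, pol_iff.1 hh, hi⟩
  tfae_have 3 → 1 := by
    intro h3
    have h4 : ProductsVanish H ∧ ∀ X : 𝒱.Obj, HasCK H X ∧ ∀ j : ℕ, MurreD H X j :=
      (hJ.out 0 4).1 h3
    exact ⟨h4.1, fun X h hh => arithmetic_of_odd hC hH h3 hh⟩
  tfae_have 3 ↔ 4 := hJ.out 0 1
  tfae_finish

end Pool.Agent.N567.Mid
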