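import Pool.Agent.N567.MD.MainJ
import Pool.Agent.N567.MD.MainF

/-!
# Abel-Jacobi maps, Bloch-Beilinson filtrations and products: the theorem
-/

set_option autoImplicit false

open CategoryTheory AlgebraicGeometry

universe u v w

namespace Pool.Agent.N567.Mid

open Pool.Agent.H914 Pool.Agent.H914.VarClass Pool.Agent.H914.VarClass.Obj
open Pool.Agent.W492.BB (TheoryData WeilTheoryData)
open Pool.Agent.W550.Corr (dg act_dg)
open Pool.Agent.N164

attribute [-instance] Pool.Agent.TH829.Kim.chCommRing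

variable {k : Type u} [Field k] {𝒱 : VarClass k} {C : TheoryData.{u, v, 0} 𝒱 ℚ} {K : Type w}
  [Field K] {H : WeilTheoryData.{u, v, w} C K} {X Y : 𝒱.Obj}
  {N : ∀ X : 𝒱.Obj, ℕ → Submodule ℚ (C.A X)}

/-- Products of homologically trivial classes lie in the kernels of the Abel-Jacobi maps. -/
lemma mul_mem_N (hC : Prim.IsChowTheory C) (hH : Prim.IsWeilTheory H)
    (hN : Prim.IsAbelJacobiKernel H N) {i j : ℕ} {z w : C.A X} (hz : Prim.HomTriv H i z)
    (hw : Prim.HomTriv H j w) : C.mul z w ∈ N X (i + j) := by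
  have h1 := Bridge.chow hC
  have h2 := Bridge.weil hH
  have hN' := Bridge.kernel_iff.1 hN
  have hm : C.mulCorr z ∈ C.gr (X.prod X) (X.dim + i) := MD.mulCorr_mem hz.1
  have h3 : C.act (C.mulCorr z) w ∈ N X (i + j) := by
    refine hN.kills X X j (i + j) _ ?_ (fun a _ => ?_) w hw
    · change C.mulCorr z ∈ C.gr _ _
      convert hm using 2
      push_cast
      ring
    · change H.act (H.cl (C.mulCorr z)) a = 0
      have h4 : H.cl z = 0 := hz.2
      rw [TheoryData.mulCorr, H.cl_push, h4, map_zero, TheoryData.act_zero]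
  rw [C.act_mulCorr] at h3
  exact h3

theorem mainL (hC : Prim.IsChowTheory C) (hH : Prim.IsWeilTheory H) (hg : IsGradedCommutative H)
    (hL : IsLefschetzClass H) (hS : HasSections H) {T : 𝒱.Obj} (hT : T.dim = 1)
    (hN : Prim.IsAbelJacobiKernel H N) :
    List.TFAE [∀ (X : 𝒱.Obj) (j : ℕ) (z : C.A X), Prim.Mem (N X j) z → z = Prim.zero C X,
      ProductsVanish H ∧ ∃ F, Prim.IsBlochBeilinsonOn H N (fun _ => True) F,
      ProductsVanish H ∧ ∀ e : ℕ, ∃ j, e ≤ j ∧ NilpotentInCodim H N j,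
      ProductsVanish H ∧ HasGoodCoverings H N (fun _ => True)] := by
  have h1 := Bridge.chow hC
  have h2 := Bridge.weil hH
  have hL' := lefschetz_iff.1 hL
  have hLC : IsLefschetzOrCK H := Or.inl hL
  have hSy := MD.sys_aj (Bridge.kernel_iff.1 hN)
  have hA := (mainA hC hH hL hT hN).1
  have hF := mainF hC hH hg hL hT hN
  tfae_have 1 → 3 := by
    intro h
    refine ⟨fun X i j z w hz hw => h X _ _ (mul_mem_N hC hH hN hz hw), fun e => ⟨e, le_rfl, ?_⟩⟩
    exact fun X hX => ⟨X, e, covers_self hC X, hX, fun Γ _ _ => ⟨0, fun z hz => h X e z hz⟩⟩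
  tfae_have 3 ↔ 2 := by
    have h3 : (∃ F, Prim.IsBlochBeilinsonOn H N (fun _ => True) F) ↔
      ∀ e : ℕ, ∃ j, e ≤ j ∧ NilpotentInCodim H N j := hA.out 0 1
    rw [h3]
  tfae_have 2 → 1 := by
    rintro ⟨h, h3⟩ X j z hz
    have hPV := pv_iff.1 h
    obtain ⟨hck, hinj⟩ := (hA.out 0 2).1 h3
    have hV := MD.vanCK_univ hSy hT fun e => by
      obtain ⟨j, hj, hj'⟩ := hinj e
      refine ⟨j, hj, fun X hX π hπ w hw z hz => ?_⟩
      exact hj' X hX π (Bridge.isCK_iff.2 hπ) w (by push_cast at hw; omega) z hz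
    obtain ⟨π, hπ⟩ := MD.exists_ck_of_pv hPV hL' X
    change z = 0
    rw [N164.BB.sum_act hπ z]
    apply Finset.sum_eq_zero
    intro a _
    rcases Nat.lt_or_ge (a + 1) (2 * j) with ha | ha
    · exact MD.low_zero hPV hL' (sec_iff.1 hS) a X π j hπ (by omega) z (hSy.deg X j z hz)
    · exact hV.self X trivial π hπ j a (by push_cast; omega) z hz
  tfae_have 1 → 4 := by
    intro h
    have hPV : ProductsVanish H := fun X i j z w hz hw => h X _ _ (mul_mem_N hC hH hN hz hw)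
    refine ⟨hPV, fun e => ⟨e, le_rfl, fun X hX => ⟨X, e, covers_self hC X, hX, trivial, ?_⟩⟩⟩
    obtain ⟨π, hπ⟩ := MD.exists_ck_of_pv (pv_iff.1 hPV) hL' X
    refine ⟨π, Bridge.isCK_iff.2 hπ, fun b _ z hz => ?_⟩
    have h3 : z = 0 := h X e z hz
    rw [h3]
    exact TheoryData.act_map_zero _ _
  tfae_have 4 → 2 := by
    rintro ⟨h, h3⟩
    refine ⟨h, ?_⟩
    have hPV := pv_iff.1 h
    have hD : ∀ X : 𝒱.Obj, HasCK H X ∧ NoPhantoms H X := by
      intro Y
      refine ⟨hasCK_iff.2 (MD.exists_ck_of_pv hPV hL' Y), fun p hp hpp => ?_⟩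
      have h3 := MD.sq_of_kj (hPV.kj (Y.prod Y) Y.dim) hp hp
      exact hpp.symm.trans h3
    have h4 : (∀ X : 𝒱.Obj, HasCK H X ∧ IsUniqueCK H X) :=
      ((mainK hC hH hg hT hLC).out 4 1).1 hD
    have h5 : (∀ X : 𝒱.Obj, HasCK H X ∧ IsUniqueCK H X) ∧ HasGoodCoverings H N (fun _ => True) :=
      ⟨h4, h3⟩
    exact (hF.out 2 0).1 h5
  tfae_finish

end Pool.Agent.N567.Mid
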