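import Pool.Agent.N567.MD.LemP
import Pool.Agent.N567.MD.MainJ

/-!
# Products of homologically trivial cycles: the theorem
-/

set_option autoImplicit false

open CategoryTheory AlgebraicGeometry

universe u v w

namespace Pool.Agent.N567.Mid

open Pool.Agent.H914 Pool.Agent.H914.VarClass Pool.Agent.H914.VarClass.Obj
open Pool.Agent.W492.BB (TheoryData WeilTheoryData)
open Pool.Agent.W550.Corr (dg act_dg)
open Pool.Agent.N164

attribute [-instance] Pool.Agent.TH829.Kim.chCommRing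

variable {k : Type u} [Field k] {𝒱 : VarClass k} {C : TheoryData.{u, v, 0} 𝒱 ℚ} {K : Type w}
  [Field K] {H : WeilTheoryData.{u, v, w} C K} {X Y : 𝒱.Obj}
  {N : ∀ X : 𝒱.Obj, ℕ → Submodule ℚ (C.A X)}

lemma kj_iff (hC : Prim.IsChowTheory C) (hH : Prim.IsWeilTheory H) {j : ℕ} :
    HomActsTrivially H X j ↔ MD.KJ H X j := by
  have h1 := Bridge.chow hC
  have h2 := Bridge.weil hH
  constructor
  · intro h
    exact MD.KJ.of fun Γ hΓ hcl z hz => h Γ ⟨hΓ, hcl⟩ z hz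
  · intro h Γ hΓ z hz
    exact h.kill hΓ.1 hΓ.2 hz

theorem mainP (hC : Prim.IsChowTheory C) (hH : Prim.IsWeilTheory H) (hg : IsGradedCommutative H)
    (hL : IsLefschetzClass H) (hS : HasSections H) {T : 𝒱.Obj} (hT : T.dim = 1)
    (hN : Prim.IsAbelJacobiKernel H N) :
    List.TFAE [ProductsVanish H,
      ∀ e : ℕ, ∃ j, e ≤ j ∧ ∀ X : 𝒱.Obj, X.dim + 1 = 4 * j → ∀ z : C.A X, Prim.HomTriv H j z →
        C.mul z z = Prim.zero C X,
      ∀ (X : 𝒱.Obj) (Γ Δ : Prim.Cor C X X), Prim.HomTriv H X.dim Γ → Prim.HomTriv H X.dim Δ →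
        Prim.comp C Γ Δ = Prim.zero C (X.prod X),
      ∀ e : ℕ, ∃ j, e ≤ j ∧ ∀ X : 𝒱.Obj, X.dim + 1 = 2 * j →
        ∃ (X' : 𝒱.Obj) (j' : ℕ), Covers C X' X ∧ X'.dim + 1 = 2 * j' ∧ HomActsTrivially H X' j',
      DependsOn H (fun j m => 2 * j - 1 ≤ m)] ∧
    (ProductsVanish H → (∀ X : 𝒱.Obj, IsKimuraFinite C X ∧ HasCK H X) ∧
      (∀ (X : 𝒱.Obj) (z : C.A X), Prim.Mem (N X X.dim) z → z = Prim.zero C X) ∧
      ∀ (X Y : 𝒱.Obj) (j i : ℕ) (Γ : Prim.Cor C X Y), X.dim = j + 1 → Prim.Maps C Γ j i →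
        Prim.Kills H Γ (2 * j - 1) → ∀ z : C.A X, Prim.HomTriv H j z →
          C.act Γ z = Prim.zero C Y) := by
  have h1 := Bridge.chow hC
  have h2 := Bridge.weil hH
  have hL' := lefschetz_iff.1 hL
  have hS' := sec_iff.1 hS
  have hLC : IsLefschetzOrCK H := Or.inl hL
  have hN' := Bridge.kernel_iff.1 hN
  refine ⟨?_, ?_⟩
  · tfae_have 1 → 2 := by
      intro h e
      exact ⟨e, le_rfl, fun X _ z hz => h X e e z z hz hz⟩
    tfae_have 2 → 1 := by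
      intro h
      refine pv_iff.2 (MD.pv_of_sq hT fun e => ?_)
      obtain ⟨j, hj, hj'⟩ := h e
      exact ⟨j, hj, fun X hX z hz => hj' X hX z hz⟩
    tfae_have 1 → 3 := by
      intro h X Γ Δ hΓ hΔ
      exact MD.sq_of_kj ((pv_iff.1 h).kj (X.prod X) X.dim) hΓ hΔ
    tfae_have 3 → 1 := by
      intro h
      refine pv_iff.2 (MD.pv_of_kj (MD.kj_of_sq fun X Γ hΓ Δ hΔ => ?_))
      exact h X Γ Δ hΓ hΔ
    tfae_have 1 → 4 := by
      intro h e
      exact ⟨e, le_rfl, fun X hX => ⟨X, e, covers_self hC X, hX,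
        (kj_iff hC hH).2 ((pv_iff.1 h).kj X e)⟩⟩
    tfae_have 4 → 1 := by
      intro h
      refine pv_iff.2 (MD.pv_of_kj (pk_of_coverings hC hH hT (δ := 1) fun e => ?_))
      obtain ⟨j, hj, hj'⟩ := h e
      refine ⟨j, hj, fun X hX => ?_⟩
      obtain ⟨X', j', h3, h4, h5⟩ := hj' X hX
      exact ⟨X', j', h3, h4, (kj_iff hC hH).1 h5⟩
    tfae_have 1 → 5 := by
      intro h X Y j i Γ hΓ hk z hz
      exact MD.kill_of_high (pv_iff.1 h) hL' hS' hΓ hk hz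
    tfae_have 5 → 1 := by
      intro h
      refine pv_iff.2 (MD.pv_of_kj fun X j => MD.KJ.of fun Γ hΓ hcl z hz => ?_)
      refine h X X j j Γ (by change Γ ∈ C.gr _ _; rwa [add_sub_cancel_right]) (fun m _ a _ => ?_)
        z hz
      change H.act (H.cl Γ) a = 0
      rw [hcl, TheoryData.act_zero]
    tfae_finish
  · intro h
    have hPV := pv_iff.1 h
    have hck : ∀ X : 𝒱.Obj, HasCK H X := fun X => hasCK_iff.2 (MD.exists_ck_of_pv hPV hL' X)
    have hD : ∀ X : 𝒱.Obj, HasCK H X ∧ NoPhantoms H X := by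
      intro Y
      refine ⟨hck Y, fun p hp hpp => ?_⟩
      have h3 := MD.sq_of_kj (hPV.kj (Y.prod Y) Y.dim) hp hp
      exact hpp.symm.trans h3
    have hK : ∀ X : 𝒱.Obj, IsKimuraFinite C X := ((mainK hC hH hg hT hLC).out 4 0).1 hD
    refine ⟨fun X => ⟨hK X, hck X⟩, fun X z hz => ?_, fun X Y j i Γ hX hΓ hk z hz => ?_⟩
    · exact MD.alb_of_pv hPV hL' hS' hN' hz
    · exact MD.one_of_pv hPV hL' hS' hN' hX hΓ hk hz

end Pool.Agent.N567.Mid
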