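import Pool.Agent.N567.MD.StmtJ

/-!
# Algebraically trivial cycles: the definitions
-/

set_option autoImplicit false

open CategoryTheory AlgebraicGeometry

universe u v w

namespace Pool.Agent.N567.Mid

open Pool.Agent.H914 Pool.Agent.N164.Prim
open Pool.Agent.W492.BB (TheoryData WeilTheoryData)

variable {k : Type u} [Field k] {𝒱 : VarClass k} {C : TheoryData.{u, v, 0} 𝒱 ℚ} {K : Type w}
  [Field K] (H : WeilTheoryData.{u, v, w} C K)

/-- The class `z` in `CH^j(X)` is algebraically trivial: it is a linear combination of classes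
`Γ_*(y)`, where `T` is a curve in `𝒱`, `y` is a divisor class of degree zero on `T`, and `Γ` is a
class in `CH^j(T × X)`. -/
def AlgTriv (X : 𝒱.Obj) (j : ℕ) (z : C.A X) : Prop :=
  IsComb C (fun c => ∃ (T : 𝒱.Obj) (Γ : Cor C T X) (y : C.A T), T.dim = 1 ∧ C.Deg j Γ ∧
    HomTriv H 1 y ∧ c = C.act Γ y) z

/-- The Lefschetz theorem in degree one (known for smooth projective varieties): if `dim X ≥ 2`, the
cohomology group `H^1(X)` is, through algebraic correspondences `a` and `b` of degree zero, a direct
summand of `H^1(Y)` for a curve `Y`, a linear section of `X`. -/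
def HasLefschetzCurves : Prop :=
  ∀ X : 𝒱.Obj, 2 ≤ X.dim → ∃ (Y : 𝒱.Obj) (a : Cor C X Y) (b : Cor C Y X),
    Y.dim = 1 ∧ C.Deg X.dim a ∧ C.Deg 1 b ∧
      ∀ x : H.A X, H.Deg 1 x → H.act (cyc H (comp C a b)) x = x

/-- A property of the Abel-Jacobi maps, `N X j` being the kernels. Let `Γ` be a correspondence mapping
`CH^1(Y)` to `CH^j(X)`, and let `y` be a homologically trivial divisor class on `Y` such that
`Γ_*(y)` lies in the kernel of the Abel-Jacobi map of `X`. Then there is a self-correspondence `e` of
`Y` of degree zero with `e_*(y) = y` such that `Γ ∘ e` acts as zero on `H^1(Y)`.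

For the Abel-Jacobi maps of Griffiths and for varieties over an algebraically closed subfield of the
complex numbers this is the complete reducibility theorem of Poincare: up to torsion `y` lies in the
identity component `B` of the kernel of the homomorphism from `Pic^0(Y)` to the intermediate
Jacobian of `X` given by `Γ`; this is an abelian subvariety of `Pic^0(Y)`, and there is an
endomorphism `e` of `Pic^0(Y)` (up to isogeny) with image `B` which is the identity on `B`. -/
def IsReducible (N : ∀ X : 𝒱.Obj, ℕ → Sub C X) : Prop :=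
  ∀ (Y X : 𝒱.Obj) (j : ℕ) (Γ : Cor C Y X) (y : C.A Y), Maps C Γ 1 j → HomTriv H 1 y →
    Mem (N X j) (C.act Γ y) →
      ∃ e : Cor C Y Y, C.Deg Y.dim e ∧ C.act e y = y ∧ Kills H (comp C e Γ) 1

end Pool.Agent.N567.Mid
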