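import Pool.Agent.N567.MD.LemT
import Pool.Agent.N567.MD.StmtT
import Pool.Agent.N567.MD.MainJ

/-!
# Algebraically trivial cycles: the theorem
-/

set_option autoImplicit false

open CategoryTheory AlgebraicGeometry

universe u v w

namespace Pool.Agent.N567.Mid

open Pool.Agent.H914 Pool.Agent.H914.VarClass Pool.Agent.H914.VarClass.Obj
open Pool.Agent.W492.BB (TheoryData WeilTheoryData)
open Pool.Agent.W550.Corr (dg act_dg)
open Pool.Agent.N164

attribute [-instance] Pool.Agent.TH829.Kim.chCommRing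

variable {k : Type u} [Field k] {𝒱 : VarClass k} {C : TheoryData.{u, v, 0} 𝒱 ℚ} {K : Type w}
  [Field K] {H : WeilTheoryData.{u, v, w} C K} {X Y : 𝒱.Obj}
  {N : ∀ X : 𝒱.Obj, ℕ → Submodule ℚ (C.A X)}

lemma algTriv_iff {j : ℕ} {z : C.A X} : AlgTriv H X j z ↔ z ∈ MD.algN H X j := Iff.rfl

theorem mainT (hC : Prim.IsChowTheory C) (hH : Prim.IsWeilTheory H)
    (hN : Prim.IsAbelJacobiKernel H N) (hL : HasLefschetzCurves H) (hR : IsReducible H N) :
    List.TFAE [∀ (X : 𝒱.Obj) (j : ℕ) (z : C.A X), AlgTriv H X j z → Prim.Mem (N X j) z →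
        z = Prim.zero C X,
      ∀ (X : 𝒱.Obj) (j : ℕ) (z w : C.A X), Prim.HomTriv H 1 z → Prim.HomTriv H j w →
        C.mul z w = Prim.zero C X,
      ∀ (X : 𝒱.Obj) (i j : ℕ) (z w : C.A X), AlgTriv H X i z → Prim.HomTriv H j w →
        C.mul z w = Prim.zero C X,
      ∀ (T X : 𝒱.Obj) (j : ℕ) (Γ : Prim.Cor C T X), T.dim = 1 → Prim.HomTriv H j Γ →
        ∀ y : C.A T, Prim.HomTriv H 1 y → C.act Γ y = Prim.zero C X,
      ∀ (X : 𝒱.Obj) (j : ℕ) (Γ : Prim.Cor C X X), Prim.HomTriv H X.dim Γ →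
        ∀ z : C.A X, AlgTriv H X j z → C.act Γ z = Prim.zero C X,
      ∀ (X Y : 𝒱.Obj) (j i : ℕ) (Γ : Prim.Cor C X Y), Prim.Maps C Γ j i →
        Prim.Kills H Γ (2 * j - 1) → ∀ z : C.A X, AlgTriv H X j z →
          C.act Γ z = Prim.zero C Y] := by
  have h1 := Bridge.chow hC
  have h2 := Bridge.weil hH
  have hN' := Bridge.kernel_iff.1 hN
  have hL' : MD.Lef1 H := fun X hX => hL X hX
  have alg_hom : ∀ (X : 𝒱.Obj) (j : ℕ) (z : C.A X), AlgTriv H X j z → Prim.HomTriv H j z := by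
    intro X j z hz
    have hz' : z ∈ MD.algN H X j := hz
    change z ∈ MD.homN H X j
    refine (Submodule.span_le (p := MD.homN H X j)).2 ?_ hz'
    rintro c ⟨T, Γ, y, hT, hΓ, hy, rfl⟩
    refine MD.act_homN ?_ hy
    have hΓ' : Γ ∈ C.gr (T.prod X) j := hΓ
    rw [hT]
    have e : ((1 : ℕ) : ℤ) + j - (1 : ℕ) = j := by push_cast; ring
    rwa [e]
  tfae_have 1 → 6 := by
    intro h X Y j i Γ hΓ hk z hz
    refine h Y i _ ?_ (hN.kills X Y j i Γ hΓ hk z (alg_hom X j z hz))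
    exact MD.algN_act hΓ hz
  tfae_have 6 → 5 := by
    intro h X j Γ hΓ z hz
    refine h X X j j Γ ?_ (fun a _ => ?_) z hz
    · change Γ ∈ C.gr _ _
      rw [add_sub_cancel_right]
      exact hΓ.1
    · change H.act (H.cl Γ) a = 0
      have h3 : H.cl Γ = 0 := hΓ.2
      rw [h3, TheoryData.act_zero]
  tfae_have 5 → 4 := by
    intro h T X j Γ hT hΓ y hy
    exact MD.curAll_of_self (H := H) (fun X j Γ hΓ z hz => h X j Γ hΓ z hz) T X j Γ hT hΓ y hy
  tfae_have 4 → 1 := by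
    intro h X j z hz hzN
    refine MD.aj_alg_zero hN' hL' (fun T X j Γ hT hΓ y hy => h T X j Γ hT hΓ y hy)
      (fun Y X j Γ y hΓ hy hy' => ?_) hz hzN
    exact hR Y X j Γ y hΓ hy hy'
  tfae_have 4 → 2 := by
    intro h X j z w hz hw
    exact MD.div_of_curAll hN' hL' (fun T X j Γ hT hΓ y hy => h T X j Γ hT hΓ y hy) hz hw
  tfae_have 2 → 4 := by
    intro h T X j Γ hT hΓ y hy
    exact MD.curAll_of_div (H := H) (fun X j z hz w hw => h X j z w hz hw) T X j Γ hT hΓ y hy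
  tfae_have 2 → 3 := by
    intro h X i j z w hz hw
    exact MD.alg_of_div (H := H) (fun X j z hz w hw => h X j z w hz hw) hz hw
  tfae_have 3 → 2 := by
    intro h X j z w hz hw
    exact h X 1 j z w (MD.homN_le_algN hN' hL' hz) hw
  tfae_finish

end Pool.Agent.N567.Mid
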