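import Pool.Agent.N567.MD.Fil
import Pool.Agent.Y148.BB.Curve

/-!
# Products with curves
-/

set_option autoImplicit false

open CategoryTheory AlgebraicGeometry

universe u v w

namespace Pool.Agent.N567.MD

open Pool.Agent.H914 Pool.Agent.H914.VarClass Pool.Agent.H914.VarClass.Obj Pool.Agent.W492.BB
  Pool.Agent.W550.Corr Pool.Agent.TH133 Pool.Agent.Y148.BB Pool.Agent.X308.S
open Pool.Agent.N164.BB (graph_mem exists_zeroCycle exists_point sum_act cl_of_mem_F1
  act_tens_ext_mid)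

set_option linter.unusedSectionVars false
set_option linter.unusedVariables false

variable {k : Type u} [Field k] {𝒱 : VarClass k}

section defs

variable {C : TheoryData.{u, v, 0} 𝒱 ℚ} {K : Type w} [Field K]

/-- The Chow-Kunneth projectors of weight at least `2 j - ε` of `X` kill `N X j`. -/
def Q (H : WeilTheoryData.{u, v, w} C K) (ε : ℕ)
    (N : ∀ X : 𝒱.Obj, ℕ → Submodule ℚ (C.A X)) (X : 𝒱.Obj) (j : ℕ) : Prop :=
  ∀ π : ℕ → C.A (X.prod X), IsCK H X π → ∀ w : ℕ, 2 * (j : ℤ) - ε ≤ w →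
    ∀ z ∈ N X j, C.act (π w) z = 0

/-- This condition in the middle dimension. -/
def MidQ (H : WeilTheoryData.{u, v, w} C K) (ε : ℕ)
    (N : ∀ X : 𝒱.Obj, ℕ → Submodule ℚ (C.A X)) (j : ℕ) : Prop :=
  ∀ X : 𝒱.Obj, X.dim + ε = 2 * j → Q H ε N X j

end defs

section chow

variable {C : TheoryData.{u, v, 0} 𝒱 ℚ} [hC : IsChowProj C] {X Y T : 𝒱.Obj}

include hC

lemma act_prodCK_ext (π : ℕ → C.A (X.prod X)) (τ : ℕ → C.A (T.prod T)) (w : ℕ) (z : C.A X)
    (y : C.A T) : C.act (prodCK C π τ w) (C.ext z y) =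
      ∑ i ∈ Finset.range (w + 1), C.ext (C.act (π i) z) (C.act (τ (w - i)) y) := by
  rw [prodCK, act_sum]
  exact Finset.sum_congr rfl fun i _ => act_tens_ext_mid z y

lemma curveCK_one (hT : T.dim = 1) {o : C.A T} (hd : HasDegree C o 1) (c : ℕ) :
    C.act (curveCK C o c) (1 : C.A T) = if c = 0 then 1 else 0 := by
  have h0 : C.act (C.ext o (1 : C.A T)) (1 : C.A T) = 1 := by
    rw [act_ext' (q := 1) (by rwa [mul_one]), one_smul]
  have h2 : C.act (C.ext (1 : C.A T) o) (1 : C.A T) = 0 :=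
    act_ext_zero_of_lt (i := 0) (by rw [mul_one]; exact_mod_cast C.one_mem T)
      (by rw [hT]; norm_num)
  match c with
  | 0 => rw [if_pos rfl]; exact h0
  | 1 =>
    rw [if_neg one_ne_zero]
    change C.act (dg C T - C.ext o 1 - C.ext 1 o) (1 : C.A T) = 0
    rw [TheoryData.act_sub, TheoryData.act_sub, h0, h2, act_dg, sub_self, sub_zero]
  | 2 => rw [if_neg two_ne_zero]; exact h2
  | (c + 3) =>
    rw [if_neg (by omega)]
    change C.act (0 : C.A (T.prod T)) (1 : C.A T) = 0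
    rw [TheoryData.act_zero]

lemma curveCK_pt (hT : T.dim = 1) {o : C.A T} (ho : C.Deg 1 o) (hd : HasDegree C o 1) (c : ℕ) :
    C.act (curveCK C o c) o = if c = 2 then o else 0 := by
  have h0 : C.act (C.ext o (1 : C.A T)) o = 0 :=
    act_ext_zero_of_lt (i := 2) (by
      have := C.mul_mem ho ho
      exact_mod_cast this) (by rw [hT]; norm_num)
  have h2 : C.act (C.ext (1 : C.A T) o) o = o := by
    rw [act_ext' (q := 1) (by rwa [one_mul]), one_smul]
  match c with
  | 0 => rw [if_neg (by omega)]; exact h0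
  | 1 =>
    rw [if_neg (by omega)]
    change C.act (dg C T - C.ext o 1 - C.ext 1 o) o = 0
    rw [TheoryData.act_sub, TheoryData.act_sub, h0, h2, act_dg, sub_zero, sub_self]
  | 2 => rw [if_pos rfl]; exact h2
  | (c + 3) =>
    rw [if_neg (by omega)]
    change C.act (0 : C.A (T.prod T)) o = 0
    rw [TheoryData.act_zero]

lemma ext_one_zero {o : C.A T} (hd : HasDegree C o 1) {z : C.A X}
    (h : C.ext z (1 : C.A T) = 0) : z = 0 := by
  have h1 : C.push (fst X T) (C.pull (fst X T) z * C.pull (snd X T) o) = z := by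
    rw [C.proj_left, (hd X).2, one_smul, mul_one]
  have h2 : C.pull (fst X T) z = 0 := by
    rw [TheoryData.ext, map_one, mul_one] at h
    exact h
  rw [← h1, h2, zero_mul, map_zero]

lemma ext_pt_zero {o : C.A T} (hd : HasDegree C o 1) {z : C.A X}
    (h : C.ext z o = 0) : z = 0 := by
  have h1 : C.push (fst X T) (C.pull (fst X T) z * C.pull (snd X T) o) = z := by
    rw [C.proj_left, (hd X).2, one_smul, mul_one]
  have h2 : C.pull (fst X T) z * C.pull (snd X T) o = 0 := h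
  rw [← h1, h2, map_zero]

end chow

variable {C : TheoryData.{u, v, 0} 𝒱 ℚ} [hC : IsChowProj C] {K : Type w} [Field K]
  {H : WeilTheoryData.{u, v, w} C K} [hH : IsWeilProj H] {S : 𝒱.Obj → Prop} {T X Y Z W X' : 𝒱.Obj}
  {N : ∀ X : 𝒱.Obj, ℕ → Submodule ℚ (C.A X)} {ε : ℕ}
  {π : ℕ → C.A (X.prod X)} {ρ : ℕ → C.A (Y.prod Y)}

include hC hH

lemma ext_mem_N (hN : Sys H ε N) {z : C.A X} {j i : ℕ} (hz : z ∈ N X j) {y : C.A T}
    (hy : y ∈ C.gr T i) : C.ext z y ∈ N (X.prod T) (j + i) := by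
  have h1 : C.ext z y = C.act (up (fst X T) (C.pull (snd X T) y)) z := by
    rw [act_up, TheoryData.ext]
    exact ch_comm C _ _
  rw [h1]
  refine hN.stable X (X.prod T) j (j + i) _ ?_ z hz
  convert up_mem (C := C) (fst X T) (C.pull_mem (snd X T) hy) using 2
  push_cast
  ring

lemma Q.of_prod (hN : Sys H ε N) (hT : T.dim = 1) {j : ℕ} (h : Q H ε N (X.prod T) j) :
    Q H ε N X j := by
  intro π hπ w hw z hz
  obtain ⟨o, ho, hd⟩ := exists_point (C := C) hT
  have hck := curveCK_isCK H hT ho hd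
  have h1 : C.ext z (1 : C.A T) ∈ N (X.prod T) (j + 0) :=
    ext_mem_N hN hz (by exact_mod_cast C.one_mem T)
  have h2 := h _ (hπ.prod hck) w hw _ h1
  rw [act_prodCK_ext, Finset.sum_eq_single w] at h2
  · rw [Nat.sub_self, curveCK_one hT hd, if_pos rfl] at h2
    exact ext_one_zero hd h2
  · intro i hi hiw
    rw [Finset.mem_range] at hi
    rw [curveCK_one hT hd, if_neg (by omega), TheoryData.ext_zero_right]
  · intro hw'
    exact absurd (Finset.mem_range.2 (by omega)) hw'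

lemma Q.of_prod' (hN : Sys H ε N) (hT : T.dim = 1) {j : ℕ} (h : Q H ε N (X.prod T) (j + 1)) :
    Q H ε N X j := by
  intro π hπ w hw z hz
  obtain ⟨o, ho, hd⟩ := exists_point (C := C) hT
  have hck := curveCK_isCK H hT ho hd
  have h1 : C.ext z o ∈ N (X.prod T) (j + 1) := ext_mem_N hN hz (by exact_mod_cast ho)
  have h2 := h _ (hπ.prod hck) (w + 2) (by push_cast; omega) _ h1
  rw [act_prodCK_ext, Finset.sum_eq_single w] at h2
  · rw [show w + 2 - w = 2 by omega, curveCK_pt hT ho hd, if_pos rfl] at h2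
    exact ext_pt_zero hd h2
  · intro i hi hiw
    rw [Finset.mem_range] at hi
    rw [curveCK_pt hT ho hd, if_neg (by omega), TheoryData.ext_zero_right]
  · intro hw'
    exact absurd (Finset.mem_range.2 (by omega)) hw'

lemma MidQ.pred (hN : Sys H ε N) (hT : T.dim = 1) {j : ℕ} (h : MidQ H ε N (j + 1)) :
    MidQ H ε N j := by
  intro X hX
  apply Q.of_prod hN hT
  apply Q.of_prod' hN hT
  apply h
  rw [dim_prod, dim_prod, hT]
  omega

lemma MidQ.le (hN : Sys H ε N) (hT : T.dim = 1) {j l : ℕ} (hl : l ≤ j) (h : MidQ H ε N j) :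
    MidQ H ε N l := by
  induction j, hl using Nat.le_induction with
  | base => exact h
  | succ j _ ih => exact ih (h.pred hN hT)

theorem MidQ.Q (hN : Sys H ε N) (hT : T.dim = 1) {M : ℕ} (h : MidQ H ε N M) :
    ∀ (n : ℕ) (X : 𝒱.Obj) (j : ℕ), ((X.dim : ℤ) + ε - 2 * j).natAbs = n → j ≤ M →
      X.dim + ε ≤ j + M → MD.Q H ε N X j := by
  intro n
  induction n with
  | zero =>
    intro X j hn hj hd
    exact h.le hN hT hj X (by omega)
  | succ n ih =>
    intro X j hn hj hd
    rcases lt_or_ge (X.dim + ε) (2 * j) with h1 | h1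
    · apply Q.of_prod hN hT
      apply ih _ _ _ hj
      · rw [dim_prod, hT]; omega
      · rw [dim_prod, hT]; push_cast; omega
    · apply Q.of_prod' hN hT
      apply ih
      · rw [dim_prod, hT]; push_cast; omega
      · omega
      · rw [dim_prod, hT]; omega

theorem MidQ.all (hN : Sys H ε N) (hT : T.dim = 1) {M : ℕ} (h : MidQ H ε N M) (X : 𝒱.Obj)
    (hX : X.dim ≤ M) (j : ℕ) : MD.Q H ε N X j := by
  rcases Nat.eq_zero_or_pos j with rfl | hj
  · intro π _ w _ z hz
    rw [mem_zero_codim hN hz, TheoryData.act_map_zero]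
  rcases Nat.lt_or_ge X.dim j with h1 | h1
  · intro π _ w _ z hz
    rw [zero_of_top (hN.deg X j z hz).1 (by exact_mod_cast h1), TheoryData.act_map_zero]
  · have := hN.le_one
    exact h.Q hN hT _ X j rfl (by omega) (by omega)

lemma vanCK_of_midQ (hN : Sys H ε N) (hT : T.dim = 1) {M : ℕ} (h : MidQ H ε N M) :
    VanCK H ε N (fun X => 2 * X.dim ≤ M) where
  sys := hN
  self X hX π hπ j w hw := h.all hN hT X (by omega) j π hπ w hw
  prod X Y hX hY π ρ hπ hρ j w hw :=
    h.all hN hT (X.prod Y) (by rw [dim_prod]; omega) j _ (hπ.prod hρ) w hw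

lemma vanCK_univ (hN : Sys H ε N) (hT : T.dim = 1) (h : ∀ e : ℕ, ∃ M, e ≤ M ∧ MidQ H ε N M) :
    VanCK H ε N (fun _ => True) where
  sys := hN
  self X _ π hπ j w hw := by
    obtain ⟨M, hM, h⟩ := h X.dim
    exact h.all hN hT X hM j π hπ w hw
  prod X Y _ _ π ρ hπ hρ j w hw := by
    obtain ⟨M, hM, h⟩ := h (X.prod Y).dim
    exact h.all hN hT _ hM j _ (hπ.prod hρ) w hw

end Pool.Agent.N567.MD
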