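import Pool.Agent.N567.MD.Low

/-!
# Symmetrizers and Chow-Kunneth decompositions of powers
-/

set_option autoImplicit false

open CategoryTheory AlgebraicGeometry

universe u v w

namespace Pool.Agent.N567.MD

open Pool.Agent.H914 Pool.Agent.H914.VarClass Pool.Agent.H914.VarClass.Obj Pool.Agent.W492.BB
  Pool.Agent.W550.Corr Pool.Agent.TH133 Pool.Agent.Y148.BB Pool.Agent.X308.S
  Pool.Agent.TH829.Kim Pool.Agent.TH829.Prime
open Pool.Agent.N164.BB (graph_mem exists_zeroCycle exists_point sum_act cl_of_mem_F1)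
open Pool.Agent.Y110 (NoPhantoms GradedCommutative isNilpotent_of_kimura noPhantoms_of_kimura
  isKimuraFinite_of_noPhantoms IsPow isPow_one consPr consPr_zero consPr_succ epow parPart
  parPart_mem parPart_idem parPart_add cl_parPart cl_gd_eq_zero)

set_option linter.unusedSectionVars false
set_option linter.unusedVariables false

variable {k : Type u} [Field k] {𝒱 : VarClass k}

section chow

variable {C : TheoryData.{u, v, 0} 𝒱 ℚ} [hC : IsChowProj C] {X Y Z W V P : 𝒱.Obj}

include hC

/-- The product `e_1 × ⋯ × e_n`, a self-correspondence of the power. -/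
noncomputable def epowF {n : ℕ} (pr : Fin n → (P ⟶ X)) (e : Fin n → C.A (X.prod X)) :
    C.A (P.prod P) :=
  ∏ i, ev (e i) (fst P P ≫ pr i) (snd P P ≫ pr i)

lemma mul_G_epowF {n : ℕ} {pr : Fin n → (P ⟶ X)} (h : IsPow pr)
    (σ : Equiv.Perm (Fin n)) (e : Fin n → C.A (X.prod X)) : C.comp (h.G σ) (epowF pr e) =
      C.comp (epowF pr (fun i => e (σ i))) (h.G σ) := by
  rw [h.G_mul_eq, h.mul_G_eq]
  unfold epowF
  rw [map_prod, map_prod, ← Equiv.prod_comp σ]
  apply Finset.prod_congr rfl
  intro i _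
  rw [pull_ev, pull_ev, prodMap_fst_assoc, prodMap_snd_assoc, prodMap_fst_assoc,
    prodMap_snd_assoc, h.perm_pr, h.perm_pr, Category.id_comp, Category.id_comp]
  congr 3
  exact σ.symm_apply_apply i

lemma epowF_cons {n : ℕ} (pr : Fin n → (P ⟶ X)) (e : Fin (n + 1) → C.A (X.prod X)) :
    epowF (consPr pr) e = tens C (e 0) (epowF pr (fun i => e i.succ)) := by
  unfold epowF
  rw [Fin.prod_univ_succ, tens, map_prod]
  congr 1
  apply Finset.prod_congr rfl
  intro i _
  rw [pull_ev, prodMap_fst_assoc, prodMap_snd_assoc, consPr_succ]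

/-- The projectors of the power of a Chow-Kunneth decomposition. -/
noncomputable def powCK {n : ℕ} (pr : Fin n → (P ⟶ X)) (π : ℕ → C.A (X.prod X)) (w : ℕ) :
    C.A (P.prod P) :=
  ∑ a ∈ Finset.Nat.antidiagonalTuple n w, epowF pr (fun i => π (a i))

lemma powCK_cons {n : ℕ} (pr : Fin n → (P ⟶ X)) (π : ℕ → C.A (X.prod X)) :
    powCK (consPr pr) π = prodCK C π (powCK pr π) := by
  funext w
  unfold prodCK powCK
  have h1 : ∀ i : ℕ, tens C (π i) (∑ a ∈ Finset.Nat.antidiagonalTuple n (w - i),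
      epowF pr (fun l => π (a l))) = ∑ a ∈ Finset.Nat.antidiagonalTuple n (w - i),
      tens C (π i) (epowF pr (fun l => π (a l))) := by
    intro i
    rw [tens, map_sum, Finset.mul_sum]
    rfl
  simp_rw [h1, epowF_cons]
  rw [Finset.sum_sigma']
  symm
  refine Finset.sum_bij' (fun x _ => (Fin.cons x.1 x.2 : Fin (n + 1) → ℕ))
    (fun a _ => ⟨a 0, fun i => a i.succ⟩) ?_ ?_ ?_ ?_ ?_
  · rintro ⟨i, a⟩ hx
    rw [Finset.mem_sigma, Finset.mem_range, Finset.Nat.mem_antidiagonalTuple] at hx
    rw [Finset.Nat.mem_antidiagonalTuple, Fin.sum_univ_succ]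
    simp only [Fin.cons_zero, Fin.cons_succ]
    dsimp only at hx ⊢
    omega
  · intro a ha
    rw [Finset.Nat.mem_antidiagonalTuple, Fin.sum_univ_succ] at ha
    rw [Finset.mem_sigma, Finset.mem_range, Finset.Nat.mem_antidiagonalTuple]
    dsimp only
    omega
  · rintro ⟨i, a⟩ _
    rfl
  · intro a _
    funext i
    refine Fin.cases ?_ (fun i => ?_) i <;> rfl
  · rintro ⟨i, a⟩ _
    rfl

lemma mul_G_powCK {n : ℕ} {pr : Fin n → (P ⟶ X)} (h : IsPow pr)
    (σ : Equiv.Perm (Fin n)) (π : ℕ → C.A (X.prod X)) (w : ℕ) :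
    C.comp (h.G σ) (powCK pr π w) = C.comp (powCK pr π w) (h.G σ) := by
  unfold powCK
  rw [comp_sum, sum_comp]
  simp_rw [mul_G_epowF]
  refine Finset.sum_bij' (fun a _ => fun i => a (σ i)) (fun a _ => fun i => a (σ.symm i))
    ?_ ?_ ?_ ?_ ?_
  · intro a ha
    rw [Finset.Nat.mem_antidiagonalTuple] at ha ⊢
    rw [← ha]
    exact Equiv.sum_comp σ a
  · intro a ha
    rw [Finset.Nat.mem_antidiagonalTuple] at ha ⊢
    rw [← ha]
    exact Equiv.sum_comp σ.symm a
  · intro a _
    funext i
    simp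
  · intro a _
    funext i
    simp
  · intro a _
    rfl

end chow

variable {C : TheoryData.{u, v, 0} 𝒱 ℚ} [hC : IsChowProj C] {K : Type w} [Field K]
  {H : WeilTheoryData.{u, v, w} C K} [hH : IsWeilProj H] {X Y Z W P : 𝒱.Obj}
  {π ρ : ℕ → C.A (X.prod X)}

include hC hH

/-- The existence of powers, with their Chow-Kunneth decompositions. -/
lemma exists_pow_ck {π : ℕ → C.A (X.prod X)} (hπ : IsCK H X π) (n : ℕ) :
    ∃ (P : 𝒱.Obj) (pr : Fin (n + 1) → (P ⟶ X)), IsPow pr ∧ P.dim = (n + 1) * X.dim ∧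
      IsCK H P (powCK pr π) ∧ ∀ e e' : Fin (n + 1) → C.A (X.prod X),
        C.comp (epowF pr e) (epowF pr e') = epowF pr (fun i => C.comp (e i) (e' i)) := by
  induction n with
  | zero =>
    have h1 : ∀ e : Fin (0 + 1) → C.A (X.prod X), epowF (fun _ : Fin (0 + 1) => 𝟙 X) e = e 0 := by
      intro e
      unfold epowF
      rw [Fin.prod_univ_succ, Fin.prod_univ_zero, mul_one, Category.comp_id, Category.comp_id,
        ev_univ]
    refine ⟨X, fun _ => 𝟙 X, isPow_one X, by ring, ?_, fun e e' => ?_⟩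
    · have h2 : powCK (fun _ : Fin (0 + 1) => 𝟙 X) π = π := by
        funext w
        unfold powCK
        simp_rw [h1]
        change ∑ x ∈ Finset.Nat.antidiagonalTuple 1 w, π (x 0) = π w
        rw [Finset.Nat.antidiagonalTuple_one, Finset.sum_singleton]
        rfl
      rw [h2]
      exact hπ
    · rw [h1, h1, h1]
  | succ n ih =>
    obtain ⟨P, pr, h, hd, hρ, hE⟩ := ih
    refine ⟨X.prod P, consPr pr, h.succ, ?_, ?_, fun e e' => ?_⟩
    · rw [dim_prod, hd]; ring
    · rw [powCK_cons]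
      exact hπ.prod hρ
    · rw [epowF_cons, epowF_cons, epowF_cons, tens_comp', hE]

/-- An idempotent commuting with a Chow-Kunneth decomposition. -/
lemma phantom_zero (h : NoPh H Y) {ρ : ℕ → C.A (Y.prod Y)} (hρ : IsCK H Y ρ) {p : C.A (Y.prod Y)}
    (hp : p ∈ C.gr (Y.prod Y) Y.dim) (hpp : C.comp p p = p) (hcl : H.cl p = 0)
    (hcomm : ∀ w, C.comp p (ρ w) = C.comp (ρ w) p) : p = 0 := by
  have h1 : p = ∑ w ∈ Finset.range (2 * Y.dim + 1), C.comp p (ρ w) := by
    rw [← comp_sum, hρ.sum, comp_dg]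
  rw [h1]
  apply Finset.sum_eq_zero
  intro w _
  apply h ρ hρ w
  · exact comp_mem0 C hp (hρ.deg w)
  · calc C.comp (C.comp p (ρ w)) (C.comp p (ρ w)) =
          C.comp (C.comp p (C.comp (ρ w) p)) (ρ w) := by
            rw [comp_assoc C p (ρ w) (C.comp p (ρ w)), comp_assoc C p (C.comp (ρ w) p) (ρ w),
              comp_assoc C (ρ w) p (ρ w)]
      _ = C.comp (C.comp p (C.comp p (ρ w))) (ρ w) := by rw [hcomm]
      _ = C.comp p (ρ w) := by
            rw [← comp_assoc C p p (ρ w), hpp, comp_assoc C p (ρ w) (ρ w), hρ.idem]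
  · rw [cl_comp, hcl, zero_comp]
  · rw [← comp_assoc C (ρ w) p (ρ w), ← hcomm, comp_assoc C p (ρ w) (ρ w), hρ.idem]
  · rw [comp_assoc C p (ρ w) (ρ w), hρ.idem]

/-- The sum of the projectors of one parity commutes with the projectors. -/
lemma parPart_comm (hπ : IsCK H X π) (s : Bool) (a : ℕ) :
    C.comp (π a) (parPart s π) = C.comp (parPart s π) (π a) := by
  classical
  unfold parPart
  rw [comp_sum, sum_comp]
  apply Finset.sum_congr rfl
  intro i _
  rw [hπ.comp_eq, hπ.comp_eq]
  by_cases h : a = i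
  · rw [if_pos h, if_pos h.symm, h]
  · rw [if_neg h, if_neg (Ne.symm h)]

/-- The generalized determinants of the parts commute with the projectors of the power. -/
lemma gd_comm (hπ : IsCK H X π) {n : ℕ} {pr : Fin (n + 1) → (P ⟶ X)} (h : IsPow pr)
    (hE : ∀ e e' : Fin (n + 1) → C.A (X.prod X),
      C.comp (epowF pr e) (epowF pr e') = epowF pr (fun i => C.comp (e i) (e' i)))
    (s : Bool) (w : ℕ) {D : C.A (P.prod P)}
    (hD : D = gd s (fun _ _ => parPart s π) (fun i => fst P P ≫ pr i) (fun i => snd P P ≫ pr i)) :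
    C.comp D (powCK pr π w) = C.comp (powCK pr π w) D := by
  set e := parPart s π with he
  have h1 : D = ∑ σ : Equiv.Perm (Fin (n + 1)), wt s σ • C.comp (epow pr e) (h.G σ) := by
    rw [hD, gd]
    apply Finset.sum_congr rfl
    intro σ _
    rw [h.G_mul_epow]
  have h2 : C.comp (epow pr e) (powCK pr π w) = C.comp (powCK pr π w) (epow pr e) := by
    have h3 : epow pr e = epowF pr (fun _ => e) := rfl
    rw [h3]
    unfold powCK
    rw [comp_sum, sum_comp]
    apply Finset.sum_congr rfl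
    intro a _
    rw [hE, hE]
    congr 1
    funext i
    exact (parPart_comm hπ s (a i)).symm
  rw [h1, sum_comp, comp_sum]
  apply Finset.sum_congr rfl
  intro σ _
  have h4 : C.comp (C.comp (epow pr e) (h.G σ)) (powCK pr π w) =
      C.comp (powCK pr π w) (C.comp (epow pr e) (h.G σ)) := by
    rw [comp_assoc C (epow pr e) (h.G σ) (powCK pr π w), mul_G_powCK,
      ← comp_assoc C (epow pr e) (powCK pr π w) (h.G σ), h2,
      comp_assoc C (powCK pr π w) (epow pr e) (h.G σ)]
  have h5 : C.comp (wt s σ • C.comp (epow pr e) (h.G σ)) (powCK pr π w) =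
      wt s σ • C.comp (C.comp (epow pr e) (h.G σ)) (powCK pr π w) := by
    change (compL C (wt s σ • C.comp (epow pr e) (h.G σ))) (powCK pr π w) = _
    rw [map_zsmul, LinearMap.smul_apply]
    rfl
  have h6 : C.comp (powCK pr π w) (wt s σ • C.comp (epow pr e) (h.G σ)) =
      wt s σ • C.comp (powCK pr π w) (C.comp (epow pr e) (h.G σ)) := by
    change (compL C (powCK pr π w)) (wt s σ • C.comp (epow pr e) (h.G σ)) = _
    rw [map_zsmul]
    rfl
  rw [h5, h6, h4]

/-- **If the parts `h^a` of all the varieties have no phantoms, then the motives are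
finite-dimensional.** -/
theorem kimura_of_noPh (hg : GradedCommutative H) (hπ : IsCK H X π) (h : ∀ Y : 𝒱.Obj, NoPh H Y) :
    IsKimuraFinite C (ratFam C) X := by
  obtain ⟨m, hm⟩ := cl_parPart hπ
  have hdies : ∀ s : Bool, Dies (ratFam C) s (ofA (parPart s π) (parPart_mem hπ s)) (m + 1) := by
    intro s
    obtain ⟨p, q, u, v, hu, hv, hp, hq, huv⟩ := hm s
    obtain ⟨P, pr, hP, hdim, hρ, hE⟩ := exists_pow_ck hπ m
    set e := parPart s π with he
    let x : Fin (m + 1) → (P.prod P ⟶ X) := fun i => fst P P ≫ pr i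
    let y : Fin (m + 1) → (P.prod P ⟶ X) := fun i => snd P P ≫ pr i
    let D0 : C.A (P.prod P) := gd s (fun _ _ => e) x y
    let D : Cor C P := D0
    have hEe : C.comp (epow pr e) (epow pr e) = epow pr e := by
      have h1 := hE (fun _ => e) (fun _ => e)
      rw [parPart_idem hπ] at h1
      exact h1
    have hDD := hP.gd_mul s hEe (D := D) rfl
    set N : ℕ := Fintype.card (Equiv.Perm (Fin (m + 1))) with hN
    have hN0 : (N : ℚ) ≠ 0 := by
      have : 0 < N := Fintype.card_pos
      positivity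
    have hDD' : D * D = (N : ℚ) • D := by rw [hDD, Nat.cast_smul_eq_nsmul]
    let p' : Cor C P := (N : ℚ)⁻¹ • D
    have hpp : p' * p' = p' := by
      simp only [p']
      rw [smul_mul_smul_comm, hDD', smul_smul, mul_assoc, inv_mul_cancel₀ hN0, mul_one]
    have hDm : (D : C.A (P.prod P)) ∈ C.gr (P.prod P) P.dim := by
      have h1 := gd_mem s (ofA e (parPart_mem hπ s)) x y
      have h2 : ((m + 1 : ℕ) : ℤ) * X.dim = P.dim := by rw [hdim]; push_cast; ring
      rw [h2] at h1
      exact h1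
    have hcl : H.cl D0 = 0 :=
      cl_gd_eq_zero hg s hu hv hp hq huv (Nat.lt_succ_self m) x y
    have hp0 : (p' : C.A (P.prod P)) = 0 := by
      apply phantom_zero (h P) hρ (p := (p' : C.A (P.prod P)))
      · exact Submodule.smul_mem _ _ hDm
      · exact hpp
      · change H.cl ((N : ℚ)⁻¹ • D0) = 0
        rw [← one_mul D0, ← smul_mul_assoc, map_mul, hcl, mul_zero]
      · intro w
        have h1 := gd_comm hπ hP hE s w (D := D0) rfl
        change C.comp ((N : ℚ)⁻¹ • D0) (powCK pr π w) = C.comp (powCK pr π w) ((N : ℚ)⁻¹ • D0)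
        have h5 : C.comp ((N : ℚ)⁻¹ • D0) (powCK pr π w) =
            (N : ℚ)⁻¹ • C.comp D0 (powCK pr π w) := by
          change (compL C ((N : ℚ)⁻¹ • D0)) (powCK pr π w) = _
          rw [map_smul, LinearMap.smul_apply]
          rfl
        have h6 : C.comp (powCK pr π w) ((N : ℚ)⁻¹ • D0) =
            (N : ℚ)⁻¹ • C.comp (powCK pr π w) D0 := by
          change (compL C (powCK pr π w)) ((N : ℚ)⁻¹ • D0) = _
          rw [map_smul]
          rfl
        rw [h5, h6, h1]
    have hD0 : D0 = 0 := by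
      have h0 : (N : ℚ)⁻¹ • D0 = 0 := hp0
      rw [← one_smul ℚ D0, ← mul_inv_cancel₀ hN0, mul_smul, h0, smul_zero]
    intro W x' y'
    obtain ⟨g1, h1⟩ := hP.exists_lift W x'
    obtain ⟨g2, h2⟩ := hP.exists_lift W y'
    have h3 := pull_gd s (Obj.lift g1 g2) (fun _ _ => e) x y
    have h4 : gd s (fun _ _ => e) x y = 0 := hD0
    rw [h4, map_zero] at h3
    have h5 : (fun i => Obj.lift g1 g2 ≫ x i) = x' := by
      funext i
      simp only [x]
      rw [lift_fst_assoc, h1]
    have h6 : (fun i => Obj.lift g1 g2 ≫ y i) = y' := by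
      funext i
      simp only [y]
      rw [lift_snd_assoc, h2]
    rw [h5, h6] at h3
    change gd s (fun _ _ => e) x' y' ∈ (⊥ : Submodule ℚ (C.A W))
    rw [← h3]
    exact Submodule.zero_mem _
  rw [isKimuraFinite_iff]
  refine ⟨ofA (parPart true π) (parPart_mem hπ true), ?_, ⟨m, hdies true⟩, ⟨m, ?_⟩⟩
  · have h1 : toA (ofA (parPart true π) (parPart_mem hπ true) *
        ofA (parPart true π) (parPart_mem hπ true) -
        ofA (parPart true π) (parPart_mem hπ true)) = (0 : C.A (X.prod X)) := by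
      rw [map_sub, toA_mul, toA_ofA, parPart_idem hπ, sub_self]
    rw [h1]
    exact Submodule.zero_mem _
  · have h1 : 1 - ofA (parPart true π) (parPart_mem hπ true) =
        ofA (parPart false π) (parPart_mem hπ false) := by
      apply toA_inj
      rw [map_sub, toA_one, toA_ofA, toA_ofA, ← parPart_add hπ true, Bool.not_true,
        add_sub_cancel_left]
    rw [h1]
    exact hdies false

end Pool.Agent.N567.MD
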